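import Mathlib
import Pool.Agent.Helper86.CollatzInt

set_option autoImplicit false

/-!
Blocks of consecutive integers under the `3x+1` map: walkers `3 ^ a * t + r`.
-/

namespace Pool.Agent.MB86

open Pool.Agent.Helper14 (T)
open Pool.Agent.Helper86.CollatzInt
open Pool.Agent.Helper86.CollatzChain

/-- The value of a walker at `t`. -/
def val (s : ℕ × ℤ) (t : ℤ) : ℤ := 3 ^ s.1 * t + s.2

/-- One step of a walker, when the next binary digit of `t` is `p`. -/
def st (p : ℤ) (s : ℕ × ℤ) : ℕ × ℤ :=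
  if (p + s.2) % 2 = 0 then (s.1, (3 ^ s.1 * p + s.2) / 2)
  else (s.1 + 1, (3 ^ (s.1 + 1) * p + 3 * s.2 + 1) / 2)

theorem st_even {p : ℤ} {s : ℕ × ℤ} (h : (p + s.2) % 2 = 0) :
    ∃ m : ℤ, 3 ^ s.1 * p + s.2 = 2 * m ∧ st p s = (s.1, m) := by
  obtain ⟨w, hw⟩ := three_pow_odd s.1
  have h1 : (3 : ℤ) ^ s.1 * p + s.2 = 2 * (w * p) + (p + s.2) := by
    have : (3 : ℤ) ^ s.1 = 2 * w + 1 := by omega
    rw [this]
    ring
  refine ⟨w * p + (p + s.2) / 2, by rw [h1]; omega, ?_⟩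
  unfold st
  rw [if_pos h, h1]
  congr 1
  omega

theorem st_odd {p : ℤ} {s : ℕ × ℤ} (h : ¬ (p + s.2) % 2 = 0) :
    ∃ m : ℤ, 3 ^ s.1 * p + s.2 = 2 * m + 1 ∧ st p s = (s.1 + 1, 3 * m + 2) := by
  obtain ⟨w, hw⟩ := three_pow_odd s.1
  have h1 : (3 : ℤ) ^ s.1 * p + s.2 = 2 * (w * p) + (p + s.2) := by
    have : (3 : ℤ) ^ s.1 = 2 * w + 1 := by omega
    rw [this]
    ring
  have h2 : (3 : ℤ) ^ (s.1 + 1) * p + 3 * s.2 + 1 = 3 * (2 * (w * p) + (p + s.2)) + 1 := by
    rw [← h1, pow_succ]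
    ring
  refine ⟨w * p + (p + s.2) / 2, by rw [h1]; omega, ?_⟩
  unfold st
  rw [if_neg h, h2]
  congr 1
  omega

theorem T_val (p : ℤ) (s : ℕ × ℤ) (t : ℤ) : T (val s (2 * t + p)) = val (st p s) t := by
  by_cases h : (p + s.2) % 2 = 0
  · obtain ⟨m, h1, h2⟩ := st_even h
    have h3 : val s (2 * t + p) = 2 * (3 ^ s.1 * t + m) := by
      unfold val
      linear_combination h1
    rw [h3, T_even, h2]
    rfl
  · obtain ⟨m, h1, h2⟩ := st_odd h
    have h3 : val s (2 * t + p) = 2 * (3 ^ s.1 * t + m) + 1 := by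
      unfold val
      linear_combination h1
    rw [h3, T_odd, h2]
    unfold val
    simp only
    ring

/-- The normalised position of a walker. -/
noncomputable def ee (y : ℝ) (s : ℕ × ℤ) : ℝ := (s.2 : ℝ) - 3 ^ s.1 * y

theorem ee_even {p : ℤ} {y : ℝ} {s : ℕ × ℤ} (h : (p + s.2) % 2 = 0) :
    ee ((p + y) / 2) (st p s) = ee y s / 2 := by
  obtain ⟨m, h1, h2⟩ := st_even h
  have h3 : (3 : ℝ) ^ s.1 * p + s.2 = 2 * m := by exact_mod_cast h1
  rw [h2]
  unfold ee
  simp only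
  linear_combination (-1 / 2) * h3

theorem ee_odd {p : ℤ} {y : ℝ} {s : ℕ × ℤ} (h : ¬ (p + s.2) % 2 = 0) :
    ee ((p + y) / 2) (st p s) = (3 * ee y s + 1) / 2 := by
  obtain ⟨m, h1, h2⟩ := st_odd h
  have h3 : (3 : ℝ) ^ s.1 * p + s.2 = 2 * m + 1 := by exact_mod_cast h1
  rw [h2]
  unfold ee
  simp only
  push_cast
  rw [pow_succ]
  linear_combination (-3 / 2) * h3

/-- The invariant: levels at most `A`, nonnegative positions, remainders at most `M`. -/
def Ok (A : ℕ) (M : ℝ) (y : ℝ) (S : Finset (ℕ × ℤ)) : Prop :=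
  0 ≤ y ∧ y ≤ 1 ∧ 1 ≤ M ∧ (3 : ℝ) ^ A ≤ M ∧ ∀ s ∈ S, s.1 ≤ A ∧ 0 ≤ ee y s ∧ (s.2 : ℝ) ≤ M

theorem ok_step {A : ℕ} {M y : ℝ} {S : Finset (ℕ × ℤ)} (h : Ok A M y S) (p : ℤ)
    (hp : p = 0 ∨ p = 1) : Ok (A + 1) (4 * M) ((p + y) / 2) (S.image (st p)) := by
  obtain ⟨h0, h1, hM, hA, hS⟩ := h
  have hp0 : (0 : ℝ) ≤ p ∧ (p : ℝ) ≤ 1 := by
    rcases hp with rfl | rfl <;> norm_num
  refine ⟨by linarith [hp0.1], by linarith [hp0.2], by linarith, ?_, ?_⟩
  · rw [pow_succ]
    linarith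
  · intro s hs
    rw [Finset.mem_image] at hs
    obtain ⟨v, hv, rfl⟩ := hs
    obtain ⟨g1, g2, g3⟩ := hS v hv
    have g4 : (3 : ℝ) ^ v.1 ≤ M := (pow_le_pow_right₀ (by norm_num) g1).trans hA
    have g5 : (0 : ℝ) ≤ 3 ^ v.1 := by positivity
    have g6 : (3 : ℝ) ^ v.1 * p ≤ M := by nlinarith [hp0.1, hp0.2]
    by_cases h : (p + v.2) % 2 = 0
    · refine ⟨?_, ?_, ?_⟩
      · obtain ⟨m, _, e2⟩ := st_even h
        rw [e2]
        simp only
        omega
      · rw [ee_even h]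
        linarith
      · obtain ⟨m, e1, e2⟩ := st_even h
        have e3 : (3 : ℝ) ^ v.1 * p + v.2 = 2 * m := by exact_mod_cast e1
        rw [e2]
        simp only
        linarith
    · refine ⟨?_, ?_, ?_⟩
      · obtain ⟨m, _, e2⟩ := st_odd h
        rw [e2]
        simp only
        omega
      · rw [ee_odd h]
        linarith
      · obtain ⟨m, e1, e2⟩ := st_odd h
        have e3 : (3 : ℝ) ^ v.1 * p + v.2 = 2 * m + 1 := by exact_mod_cast e1
        rw [e2]
        simp only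
        push_cast
        linarith

/-- The average over `k` binary digits. -/
noncomputable def Av : ℕ → (ℝ → Finset (ℕ × ℤ) → ℝ) → ℝ → Finset (ℕ × ℤ) → ℝ
  | 0, G, y, S => G y S
  | k + 1, G, y, S =>
    (Av k G (((0 : ℤ) + y) / 2) (S.image (st 0)) + Av k G (((1 : ℤ) + y) / 2) (S.image (st 1))) / 2

theorem Av_mono {G H : ℝ → Finset (ℕ × ℤ) → ℝ} (k : ℕ) : ∀ (A : ℕ) (M y : ℝ) (S : Finset (ℕ × ℤ)),
    Ok A M y S → (∀ y' S', Ok (A + k) (4 ^ k * M) y' S' → G y' S' ≤ H y' S') →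
    Av k G y S ≤ Av k H y S := by
  induction k with
  | zero =>
    intro A M y S h hGH
    apply hGH
    simpa using h
  | succ k ih =>
    intro A M y S h hGH
    have e1 : A + (k + 1) = A + 1 + k := by ring
    have e2 : (4 : ℝ) ^ (k + 1) * M = 4 ^ k * (4 * M) := by ring
    rw [e1, e2] at hGH
    have h1 := ih (A + 1) (4 * M) _ _ (ok_step h 0 (Or.inl rfl)) hGH
    have h2 := ih (A + 1) (4 * M) _ _ (ok_step h 1 (Or.inr rfl)) hGH
    simp only [Av]
    linarith

theorem Av_const_mul (c : ℝ) (G : ℝ → Finset (ℕ × ℤ) → ℝ) (k : ℕ) : ∀ (y : ℝ) (S : Finset (ℕ × ℤ)),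
    Av k (fun y S => c * G y S) y S = c * Av k G y S := by
  induction k with
  | zero => intro y S; rfl
  | succ k ih =>
    intro y S
    simp only [Av, ih]
    ring

theorem sum_image_le (g : ℕ × ℤ → ℕ × ℤ) (f : ℕ × ℤ → ℝ) (hf : ∀ x, 0 ≤ f x) (S : Finset (ℕ × ℤ)) :
    ∑ x ∈ S.image g, f x ≤ ∑ x ∈ S, f (g x) := by
  induction S using Finset.induction_on with
  | empty => simp
  | insert a S ha ih =>
    rw [Finset.image_insert, Finset.sum_insert ha]
    by_cases h : g a ∈ S.image g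
    · rw [Finset.insert_eq_of_mem h]
      have := hf (g a)
      linarith
    · rw [Finset.sum_insert h]
      linarith

/-- The potential. -/
noncomputable def Phi (y : ℝ) (S : Finset (ℕ × ℤ)) : ℝ := ∑ s ∈ S, Real.sqrt (ee y s)

theorem Phi_nonneg (y : ℝ) (S : Finset (ℕ × ℤ)) : 0 ≤ Phi y S :=
  Finset.sum_nonneg fun _ _ => Real.sqrt_nonneg _

theorem card_le {A : ℕ} {M y : ℝ} {S : Finset (ℕ × ℤ)} (h : Ok A M y S) :
    (S.card : ℝ) ≤ 401 * (A + 1) + Phi y S / 20 := by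
  classical
  obtain ⟨-, -, -, -, hS⟩ := h
  have e1 : (S.card : ℝ) = ((S.filter fun s => ee y s < 401).card : ℝ) +
      ((S.filter fun s => ¬ ee y s < 401).card : ℝ) := by
    rw [← Finset.card_filter_add_card_filter_not (s := S) (p := fun s => ee y s < 401)]
    push_cast
    ring
  have e2 : ((S.filter fun s => ee y s < 401).card : ℝ) ≤ 401 * (A + 1) := by
    have h1 : (S.filter fun s => ee y s < 401).card ≤
        (Finset.range (A + 1) ×ˢ Finset.range 401).card := by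
      apply Finset.card_le_card_of_injOn (fun s => (s.1, ⌊ee y s⌋₊))
      · intro s hs
        rw [Finset.mem_coe, Finset.mem_filter] at hs
        rw [Finset.mem_coe, Finset.mem_product, Finset.mem_range, Finset.mem_range]
        refine ⟨Nat.lt_succ_of_le (hS s hs.1).1, ?_⟩
        rw [Nat.floor_lt (hS s hs.1).2.1]
        exact_mod_cast hs.2
      · intro s hs v hv hsv
        rw [Finset.mem_coe, Finset.mem_filter] at hs hv
        rw [Prod.mk.injEq] at hsv
        obtain ⟨g1, g2⟩ := hsv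
        have a1 := Nat.floor_le (hS s hs.1).2.1
        have a2 := Nat.lt_floor_add_one (ee y s)
        have a3 := Nat.floor_le (hS v hv.1).2.1
        have a4 := Nat.lt_floor_add_one (ee y v)
        rw [g2] at a1 a2
        have a5 : ee y s - ee y v = (s.2 : ℝ) - v.2 := by
          unfold ee
          rw [g1]
          ring
        have a6 : ((s.2 - v.2 : ℤ) : ℝ) < 1 := by
          push_cast
          linarith
        have a7 : (-1 : ℝ) < ((s.2 - v.2 : ℤ) : ℝ) := by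
          push_cast
          linarith
        have a8 : s.2 - v.2 < 1 := by exact_mod_cast a6
        have a9 : -1 < s.2 - v.2 := by exact_mod_cast a7
        exact Prod.ext g1 (by omega)
    rw [Finset.card_product, Finset.card_range, Finset.card_range] at h1
    have h2 : ((S.filter fun s => ee y s < 401).card : ℝ) ≤ (((A + 1) * 401 : ℕ) : ℝ) := by
      exact_mod_cast h1
    push_cast at h2
    linarith
  have e3 : ((S.filter fun s => ¬ ee y s < 401).card : ℝ) ≤ Phi y S / 20 := by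
    rw [le_div_iff₀ (by norm_num)]
    have h1 : ((S.filter fun s => ¬ ee y s < 401).card : ℝ) * 20 ≤
        ∑ s ∈ S.filter fun s => ¬ ee y s < 401, Real.sqrt (ee y s) := by
      rw [← nsmul_eq_mul, ← Finset.sum_const]
      apply Finset.sum_le_sum
      intro s hs
      rw [Finset.mem_filter] at hs
      apply Real.le_sqrt_of_sq_le
      have := not_lt.1 hs.2
      linarith
    refine h1.trans ?_
    exact Finset.sum_le_sum_of_subset_of_nonneg (Finset.filter_subset _ _)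
      fun _ _ _ => Real.sqrt_nonneg _
  linarith

theorem two_steps {y : ℝ} {s : ℕ × ℤ} (h : 0 ≤ ee y s) :
    Real.sqrt (ee (((0 : ℤ) + y) / 2) (st 0 s)) + Real.sqrt (ee (((1 : ℤ) + y) / 2) (st 1 s)) ≤
      2 * (0.966 * Real.sqrt (ee y s) + 0.3536) := by
  have key : Real.sqrt (ee y s / 2) + Real.sqrt ((3 * ee y s + 1) / 2) ≤
      2 * (0.966 * Real.sqrt (ee y s) + 0.3536) := by
    have h1 := sqrt_bound1 h
    have h2 := sqrt_bound2 h
    have h3 : Real.sqrt ((3 * ee y s + 1) / 2) ≤ Real.sqrt (3 * ee y s / 2) + Real.sqrt (1 / 2) := by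
      have : (3 * ee y s + 1) / 2 = 3 * ee y s / 2 + 1 / 2 := by ring
      rw [this]
      exact sqrt_add_le' (by positivity) (by norm_num)
    have h4 := sqrt_half_le
    linarith
  by_cases hc : (0 + s.2) % 2 = 0
  · have hc1 : ¬ (1 + s.2) % 2 = 0 := by omega
    rw [ee_even hc, ee_odd hc1]
    exact key
  · have hc1 : (1 + s.2) % 2 = 0 := by omega
    rw [ee_odd hc, ee_even hc1]
    linarith

theorem Phi_step {A : ℕ} {M y : ℝ} {S : Finset (ℕ × ℤ)} (h : Ok A M y S) :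
    (Phi (((0 : ℤ) + y) / 2) (S.image (st 0)) + Phi (((1 : ℤ) + y) / 2) (S.image (st 1))) / 2 ≤
      0.984 * Phi y S + 142 * (A + 1) := by
  have h1 : Phi (((0 : ℤ) + y) / 2) (S.image (st 0)) ≤
      ∑ s ∈ S, Real.sqrt (ee (((0 : ℤ) + y) / 2) (st 0 s)) :=
    sum_image_le _ _ (fun _ => Real.sqrt_nonneg _) S
  have h2 : Phi (((1 : ℤ) + y) / 2) (S.image (st 1)) ≤
      ∑ s ∈ S, Real.sqrt (ee (((1 : ℤ) + y) / 2) (st 1 s)) :=
    sum_image_le _ _ (fun _ => Real.sqrt_nonneg _) S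
  have h3 : ∑ s ∈ S, Real.sqrt (ee (((0 : ℤ) + y) / 2) (st 0 s)) +
      ∑ s ∈ S, Real.sqrt (ee (((1 : ℤ) + y) / 2) (st 1 s)) ≤
      2 * (0.966 * Phi y S + 0.3536 * S.card) := by
    rw [← Finset.sum_add_distrib]
    refine (Finset.sum_le_sum fun s hs => two_steps (h.2.2.2.2 s hs).2.1).trans (le_of_eq ?_)
    rw [← Finset.mul_sum, Finset.sum_add_distrib, ← Finset.mul_sum, Finset.sum_const, nsmul_eq_mul]
    unfold Phi
    ring
  have h4 := card_le h
  have h5 := Phi_nonneg y S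
  have h6 : (0 : ℝ) ≤ A := Nat.cast_nonneg A
  linarith

theorem Av_Phi (k : ℕ) : ∀ (A : ℕ) (M y : ℝ) (S : Finset (ℕ × ℤ)), Ok A M y S →
    Av k Phi y S ≤ 0.984 ^ k * Phi y S + 8875 * (1 - 0.984 ^ k) * (A + k + 1) := by
  induction k with
  | zero => intro A M y S _; simp [Av]
  | succ k ih =>
    intro A M y S h
    have h1 := ih (A + 1) (4 * M) _ _ (ok_step h 0 (Or.inl rfl))
    have h2 := ih (A + 1) (4 * M) _ _ (ok_step h 1 (Or.inr rfl))
    have h3 := Phi_step h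
    have hp : (0 : ℝ) < 0.984 ^ k := by positivity
    have h4 := mul_le_mul_of_nonneg_left h3 hp.le
    simp only [Av]
    push_cast at h1 h2 h4 ⊢
    have h5 : (0 : ℝ) ≤ k := Nat.cast_nonneg k
    have h6 : (0 : ℝ) ≤ A := Nat.cast_nonneg A
    have h7 : 0 ≤ (0.984 : ℝ) ^ k * (k + 1) := by positivity
    rw [pow_succ]
    nlinarith

theorem Av_card (k : ℕ) : ∀ (A : ℕ) (M y : ℝ) (S : Finset (ℕ × ℤ)), Ok A M y S →
    Av k (fun _ S => (S.card : ℝ)) y S ≤ 401 * (A + k + 1) + Av k Phi y S / 20 := by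
  induction k with
  | zero =>
    intro A M y S h
    simpa [Av] using card_le h
  | succ k ih =>
    intro A M y S h
    have h1 := ih (A + 1) (4 * M) _ _ (ok_step h 0 (Or.inl rfl))
    have h2 := ih (A + 1) (4 * M) _ _ (ok_step h 1 (Or.inr rfl))
    simp only [Av]
    push_cast at h1 h2 ⊢
    linarith

/-- The expected number of distinct walkers. -/
theorem Av_card_le (k A : ℕ) (M y : ℝ) (S : Finset (ℕ × ℤ)) (h : Ok A M y S) :
    Av k (fun _ S => (S.card : ℝ)) y S ≤ 845 * (A + k + 1) + 0.984 ^ k * Phi y S / 20 := by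
  have h1 := Av_card k A M y S h
  have h2 := Av_Phi k A M y S h
  have h3 : (0 : ℝ) < 0.984 ^ k := by positivity
  have h5 : (0 : ℝ) ≤ k := Nat.cast_nonneg k
  have h6 : (0 : ℝ) ≤ A := Nat.cast_nonneg A
  have h7 : 0 ≤ (0.984 : ℝ) ^ k * (A + k + 1) := by positivity
  nlinarith

end Pool.Agent.MB86
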