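import Mathlib
import Pool.Agent.MB86.Walk

set_option autoImplicit false

/-!
Blocks of consecutive integers under the `3x+1` map: counting.
-/

namespace Pool.Agent.MB86

open Pool.Agent.Helper14 (T)
open Pool.Agent.Helper86.CollatzInt
open Pool.Agent.Helper86.CollatzChain
open Pool.Agent.Helper86.CollatzRate

/-- Not all walkers of `S` have the same position after `K` steps. -/
def Bad (K : ℕ) (S : Finset (ℕ × ℤ)) (t : ℤ) : Prop :=
  ∃ v ∈ S, ∃ w ∈ S, T^[K] (val v t) ≠ T^[K] (val w t)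

theorem bad_step (K : ℕ) (S : Finset (ℕ × ℤ)) (p t : ℤ) :
    Bad (K + 1) S (2 * t + p) ↔ Bad K (S.image (st p)) t := by
  unfold Bad
  simp only [Finset.exists_mem_image, Function.iterate_succ_apply, T_val]

open Classical in
/-- The number of bad `t` in `[-m, m)`. -/
noncomputable def cnt (K m : ℕ) (S : Finset (ℕ × ℤ)) : ℝ :=
  ∑ i ∈ Finset.range (2 * m), if Bad K S ((i : ℤ) - m) then (1 : ℝ) else 0

theorem sum_even_odd (g : ℕ → ℝ) (n : ℕ) :
    ∑ i ∈ Finset.range (2 * n), g i = ∑ i ∈ Finset.range n, (g (2 * i) + g (2 * i + 1)) := by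
  induction n with
  | zero => simp
  | succ n ih =>
    rw [show 2 * (n + 1) = 2 * n + 1 + 1 by ring, Finset.sum_range_succ, Finset.sum_range_succ, ih,
      Finset.sum_range_succ]
    ring

theorem cnt_step (K m : ℕ) (S : Finset (ℕ × ℤ)) :
    cnt (K + 1) (2 * m) S = cnt K m (S.image (st 0)) + cnt K m (S.image (st 1)) := by
  classical
  unfold cnt
  rw [sum_even_odd, Finset.sum_add_distrib]
  congr 1
  · apply Finset.sum_congr rfl
    intro i _
    have e : (((2 * i : ℕ) : ℤ) - ((2 * m : ℕ) : ℤ)) = 2 * ((i : ℤ) - m) + 0 := by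
      push_cast
      ring
    rw [e]
    simp only [bad_step]
  · apply Finset.sum_congr rfl
    intro i _
    have e : (((2 * i + 1 : ℕ) : ℤ) - ((2 * m : ℕ) : ℤ)) = 2 * ((i : ℤ) - m) + 1 := by
      push_cast
      ring
    rw [e]
    simp only [bad_step]

theorem cnt_Av (K m : ℕ) (k : ℕ) : ∀ (y : ℝ) (S : Finset (ℕ × ℤ)),
    cnt (K + k) (2 ^ k * m) S = 2 ^ k * Av k (fun _ S => cnt K m S) y S := by
  induction k with
  | zero => intro y S; simp [Av]
  | succ k ih =>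
    intro y S
    have e : 2 ^ (k + 1) * m = 2 * (2 ^ k * m) := by ring
    rw [← add_assoc, e, cnt_step, ih (((0 : ℤ) + y) / 2) (S.image (st 0)),
      ih (((1 : ℤ) + y) / 2) (S.image (st 1))]
    simp only [Av]
    ring

theorem unit3 (a K : ℕ) : IsUnit (((3 ^ a : ℤ) : ZMod (2 ^ K))) := by
  push_cast
  apply IsUnit.pow
  have h : IsUnit ((3 : ℕ) : ZMod (2 ^ K)) := by
    rw [ZMod.isUnit_iff_coprime]
    exact Nat.Coprime.pow_right K (by norm_num)
  exact_mod_cast h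

open Classical in
/-- The pairs of walkers. -/
theorem pair_count_q (K q : ℕ) {v w' : ℕ × ℤ} (h : v.1 ≤ w'.1) :
    ∑ i ∈ Finset.range (2 * (q * 2 ^ K)), (if T^[K] (val v ((i : ℤ) - (q * 2 ^ K : ℕ))) ≠
      T^[K] (val w' ((i : ℤ) - (q * 2 ^ K : ℕ))) then (1 : ℝ) else 0) ≤
      2 * (q * 2 ^ K) * u K (w'.1 - v.1, w'.2 - 3 ^ (w'.1 - v.1) * v.2) := by
  obtain ⟨s, hs⟩ : ∃ s : ℕ × ℤ, s = (w'.1 - v.1, w'.2 - 3 ^ (w'.1 - v.1) * v.2) := ⟨_, rfl⟩
  rw [← hs]
  have hval : ∀ t : ℤ, val w' t = 3 ^ s.1 * val v t + s.2 := by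
    intro t
    rw [hs]
    unfold val
    simp only
    have e : (3 : ℤ) ^ w'.1 = 3 ^ (w'.1 - v.1) * 3 ^ v.1 := by
      rw [← pow_add, Nat.sub_add_cancel h]
    rw [e]
    ring
  have h1 : ∀ t : ℤ, (if T^[K] (val v t) ≠ T^[K] (val w' t) then (1 : ℝ) else 0) ≤
      w K s (val v t) := by
    intro t
    split_ifs with hc
    · rcases w_zero_or_one K s (val v t) with h2 | h2
      · exact absurd (coalesce K s.1 s.2 (val v t) (val w' t) (hval t) h2) hc
      · rw [h2]
    · rcases w_zero_or_one K s (val v t) with h2 | h2 <;> rw [h2] <;> norm_num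
  have hN : NeZero (2 ^ K) := ⟨by positivity⟩
  have per := w_periodic K s
  have h2 : ∀ c : ℤ, ∑ i ∈ Finset.range (2 ^ K), w K s (val v ((i : ℤ) + c)) = 2 ^ K * u K s := by
    intro c
    rw [← sum_w K s, ← sum_affine per (3 ^ v.1) (3 ^ v.1 * c + v.2) (unit3 v.1 K)]
    apply Finset.sum_congr rfl
    intro i _
    congr 1
    unfold val
    ring
  have h3 : ∀ (n : ℕ) (c : ℤ), ∑ i ∈ Finset.range (n * 2 ^ K), w K s (val v ((i : ℤ) + c)) =
      n * (2 ^ K * u K s) := by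
    intro n
    induction n with
    | zero => intro c; simp
    | succ n ih =>
      intro c
      rw [Nat.succ_mul, Finset.sum_range_add, ih c]
      have e : ∑ i ∈ Finset.range (2 ^ K), w K s (val v (((n * 2 ^ K + i : ℕ) : ℤ) + c)) =
          2 ^ K * u K s := by
        rw [← h2 ((n * 2 ^ K : ℕ) + c)]
        apply Finset.sum_congr rfl
        intro i _
        congr 2
        push_cast
        ring
      rw [e]
      push_cast
      ring
  have h4 := h3 (2 * q) (-(q * 2 ^ K : ℕ))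
  rw [mul_assoc] at h4
  have h5 : ∑ i ∈ Finset.range (2 * (q * 2 ^ K)), w K s (val v ((i : ℤ) - (q * 2 ^ K : ℕ))) =
      2 * (q * 2 ^ K) * u K s := by
    rw [show (2 : ℝ) * (q * 2 ^ K) * u K s = ((2 * q : ℕ) : ℝ) * (2 ^ K * u K s) by
      push_cast; ring, ← h4]
    apply Finset.sum_congr rfl
    intro i _
    rw [sub_eq_add_neg]
  rw [← h5]
  exact Finset.sum_le_sum fun i _ => h1 _

open Classical in
/-- The pairs of walkers. -/
theorem pair_count (K : ℕ) {v w' : ℕ × ℤ} (h : v.1 ≤ w'.1) :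
    ∑ i ∈ Finset.range (2 * 2 ^ K), (if T^[K] (val v ((i : ℤ) - (2 ^ K : ℕ))) ≠
      T^[K] (val w' ((i : ℤ) - (2 ^ K : ℕ))) then (1 : ℝ) else 0) ≤
      2 * 2 ^ K * u K (w'.1 - v.1, w'.2 - 3 ^ (w'.1 - v.1) * v.2) := by
  obtain ⟨s, hs⟩ : ∃ s : ℕ × ℤ, s = (w'.1 - v.1, w'.2 - 3 ^ (w'.1 - v.1) * v.2) := ⟨_, rfl⟩
  rw [← hs]
  have hval : ∀ t : ℤ, val w' t = 3 ^ s.1 * val v t + s.2 := by
    intro t
    rw [hs]
    unfold val
    simp only
    have e : (3 : ℤ) ^ w'.1 = 3 ^ (w'.1 - v.1) * 3 ^ v.1 := by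
      rw [← pow_add, Nat.sub_add_cancel h]
    rw [e]
    ring
  have h1 : ∀ t : ℤ, (if T^[K] (val v t) ≠ T^[K] (val w' t) then (1 : ℝ) else 0) ≤
      w K s (val v t) := by
    intro t
    split_ifs with hc
    · rcases w_zero_or_one K s (val v t) with h2 | h2
      · exact absurd (coalesce K s.1 s.2 (val v t) (val w' t) (hval t) h2) hc
      · rw [h2]
    · rcases w_zero_or_one K s (val v t) with h2 | h2 <;> rw [h2] <;> norm_num
  have hN : NeZero (2 ^ K) := ⟨by positivity⟩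
  have per := w_periodic K s
  have h2 : ∀ c : ℤ, ∑ i ∈ Finset.range (2 ^ K), w K s (val v ((i : ℤ) + c)) = 2 ^ K * u K s := by
    intro c
    rw [← sum_w K s, ← sum_affine per (3 ^ v.1) (3 ^ v.1 * c + v.2) (unit3 v.1 K)]
    apply Finset.sum_congr rfl
    intro i _
    congr 1
    unfold val
    ring
  have h3 : ∑ i ∈ Finset.range (2 * 2 ^ K), w K s (val v ((i : ℤ) - (2 ^ K : ℕ))) =
      2 * 2 ^ K * u K s := by
    rw [two_mul (2 ^ K), Finset.sum_range_add]
    have e1 := h2 (-(2 ^ K : ℕ))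
    have e2 := h2 0
    have e3 : ∑ i ∈ Finset.range (2 ^ K), w K s (val v ((i : ℤ) - (2 ^ K : ℕ))) =
        2 ^ K * u K s := by
      rw [← e1]
      apply Finset.sum_congr rfl
      intro i _
      rw [sub_eq_add_neg]
    have e4 : ∑ i ∈ Finset.range (2 ^ K), w K s (val v (((2 ^ K + i : ℕ) : ℤ) - (2 ^ K : ℕ))) =
        2 ^ K * u K s := by
      rw [← e2]
      apply Finset.sum_congr rfl
      intro i _
      congr 2
      push_cast
      ring
    rw [e3, e4]
    ring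
  rw [← h3]
  exact Finset.sum_le_sum fun i _ => h1 _

theorem cnt_nonneg (K m : ℕ) (S : Finset (ℕ × ℤ)) : 0 ≤ cnt K m S := by
  classical
  unfold cnt
  apply Finset.sum_nonneg
  intro i _
  split_ifs <;> norm_num

end Pool.Agent.MB86
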