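import Mathlib
import Pool.Agent.MB86.Count

set_option autoImplicit false

/-!
Blocks of consecutive integers under the `3x+1` map: the count of the blocks which are not monochromatic.
-/

namespace Pool.Agent.MB86

open Pool.Agent.Helper14 (T)
open Pool.Agent.Helper86.CollatzInt
open Pool.Agent.Helper86.CollatzChain

/-- The bound of the second stage. -/
def PH (C : ℝ) : Prop := ∀ (K q A : ℕ) (M y : ℝ) (S : Finset (ℕ × ℤ)), 1 ≤ K → Ok A M y S →
  cnt K (q * 2 ^ K) S ≤ C * (q * 2 ^ K) * ((A : ℝ) + 1 + S.card + Phi y S) / Real.sqrt K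

theorem Av_lin (c a : ℝ) (k : ℕ) : ∀ (y : ℝ) (S : Finset (ℕ × ℤ)),
    Av k (fun y S => c * (a + S.card + Phi y S)) y S =
      c * (a + Av k (fun _ S => (S.card : ℝ)) y S + Av k Phi y S) := by
  induction k with
  | zero => intro y S; rfl
  | succ k ih =>
    intro y S
    simp only [Av, ih]
    ring

theorem cnt_two {C : ℝ} (hC : 0 < C) (hPH : PH C) (K k q : ℕ) (hK : 1 ≤ K) {M : ℝ}
    {S : Finset (ℕ × ℤ)} (h : Ok 0 M 0 S) :
    cnt (K + k) (2 ^ k * (q * 2 ^ K)) S ≤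
      2 ^ k * (C * (q * 2 ^ K) / Real.sqrt K * (9721 * (k + 1) + 2 * (0.984 ^ k * Phi 0 S))) := by
  rw [cnt_Av K (q * 2 ^ K) k 0 S]
  apply mul_le_mul_of_nonneg_left _ (by positivity)
  have h1 : Av k (fun _ S => cnt K (q * 2 ^ K) S) 0 S ≤
      Av k (fun y S => C * (q * 2 ^ K) / Real.sqrt K *
        (((0 + k : ℕ) : ℝ) + 1 + S.card + Phi y S)) 0 S := by
    apply Av_mono k 0 M 0 S h
    intro y' S' h'
    refine (hPH K q _ _ _ _ hK h').trans (le_of_eq ?_)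
    ring
  refine h1.trans ?_
  rw [Av_lin]
  apply mul_le_mul_of_nonneg_left _ (by positivity)
  have h2 := Av_card_le k 0 M 0 S h
  have h3 := Av_Phi k 0 M 0 S h
  have h4 : (0 : ℝ) < 0.984 ^ k := by positivity
  have h5 : (0 : ℝ) ≤ k := Nat.cast_nonneg k
  have h6 := Phi_nonneg 0 S
  have h7 : 0 ≤ (0.984 : ℝ) ^ k * Phi 0 S := by positivity
  have h8 : 0 ≤ (0.984 : ℝ) ^ k * (k + 1) := by positivity
  push_cast at h2 h3 ⊢
  nlinarith

/-- The block. -/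
def S0 (h : ℕ) : Finset (ℕ × ℤ) := (Finset.range (h + 1)).image fun b : ℕ => ((0 : ℕ), (b : ℤ))

theorem mem_S0 {h : ℕ} {s : ℕ × ℤ} : s ∈ S0 h ↔ ∃ b : ℕ, b ≤ h ∧ s = (0, (b : ℤ)) := by
  unfold S0
  rw [Finset.mem_image]
  constructor
  · rintro ⟨b, hb, rfl⟩
    exact ⟨b, Nat.lt_succ_iff.1 (Finset.mem_range.1 hb), rfl⟩
  · rintro ⟨b, hb, rfl⟩
    exact ⟨b, Finset.mem_range.2 (Nat.lt_succ_iff.2 hb), rfl⟩

theorem ok_S0 (h : ℕ) : Ok 0 ((h : ℝ) + 1) 0 (S0 h) := by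
  have h0 : (0 : ℝ) ≤ h := Nat.cast_nonneg h
  refine ⟨le_rfl, by norm_num, by linarith, by simp, ?_⟩
  intro s hs
  obtain ⟨b, hb, rfl⟩ := mem_S0.1 hs
  have hb' : (b : ℝ) ≤ h := by exact_mod_cast hb
  refine ⟨le_rfl, ?_, ?_⟩
  · unfold ee
    simp
  · simp only
    push_cast
    linarith

theorem Phi_S0 (h : ℕ) : Phi 0 (S0 h) ≤ ((h : ℝ) + 1) ^ 2 := by
  have h0 : (0 : ℝ) ≤ h := Nat.cast_nonneg h
  have h1 : ∀ s ∈ S0 h, Real.sqrt (ee 0 s) ≤ (h : ℝ) + 1 := by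
    intro s hs
    obtain ⟨b, hb, rfl⟩ := mem_S0.1 hs
    have hb' : (b : ℝ) ≤ h := by exact_mod_cast hb
    have hb0 : (0 : ℝ) ≤ b := Nat.cast_nonneg b
    have e : ee 0 ((0 : ℕ), (b : ℤ)) = b := by
      unfold ee
      simp
    rw [e]
    apply Real.sqrt_le_iff.2 ⟨by linarith, ?_⟩
    nlinarith
  have h2 := Finset.sum_le_card_nsmul (S0 h) _ _ h1
  have h3 : ((S0 h).card : ℝ) ≤ (h : ℝ) + 1 := by
    have : (S0 h).card ≤ h + 1 := by
      unfold S0
      exact Finset.card_image_le.trans (by rw [Finset.card_range])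
    exact_mod_cast this
  unfold Phi
  refine h2.trans ?_
  rw [nsmul_eq_mul]
  nlinarith

theorem not_bad {h K : ℕ} {t : ℤ} (hb : ¬ Bad K (S0 h) t) {b : ℕ} (hbh : b ≤ h) :
    T^[K] (t + b) = T^[K] t := by
  unfold Bad at hb
  push Not at hb
  have h1 := hb (0, (b : ℤ)) (mem_S0.2 ⟨b, hbh, rfl⟩) (0, ((0 : ℕ) : ℤ)) (mem_S0.2 ⟨0, by omega, rfl⟩)
  unfold val at h1
  simpa using h1

theorem pow_L {h L : ℕ} (hL : h + 1 ≤ 2 ^ L) : (0.984 : ℝ) ^ (200 * L) * ((h : ℝ) + 1) ^ 2 ≤ 1 := by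
  have h1 : (0.984 : ℝ) ^ 200 ≤ 1 / 4 := by norm_num
  have h2 : (0.984 : ℝ) ^ (200 * L) ≤ (1 / 4) ^ L := by
    rw [pow_mul]
    exact pow_le_pow_left₀ (by positivity) h1 L
  have h3 : (h : ℝ) + 1 ≤ 2 ^ L := by exact_mod_cast hL
  have h0 : (0 : ℝ) ≤ h := Nat.cast_nonneg h
  have h4 : ((h : ℝ) + 1) ^ 2 ≤ (2 ^ L) ^ 2 := pow_le_pow_left₀ (by linarith) h3 2
  have h5 : ((2 : ℝ) ^ L) ^ 2 = 4 ^ L := by
    rw [← pow_mul, mul_comm, pow_mul]
    norm_num
  rw [h5] at h4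
  calc (0.984 : ℝ) ^ (200 * L) * ((h : ℝ) + 1) ^ 2 ≤ (1 / 4) ^ L * 4 ^ L :=
        mul_le_mul h2 h4 (by positivity) (by positivity)
    _ = 1 := by
        rw [← mul_pow]
        norm_num

theorem ncard_le_cnt {K m N : ℕ} (hN : N < m) (S : Finset (ℕ × ℤ)) :
    ({t : ℤ | |t| ≤ N ∧ Bad K S t}.ncard : ℝ) ≤ cnt K m S := by
  classical
  have h1 : cnt K m S = (((Finset.range (2 * m)).filter
      fun i : ℕ => Bad K S ((i : ℤ) - m)).card : ℝ) := by
    unfold cnt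
    rw [Finset.sum_ite, Finset.sum_const_zero, add_zero, Finset.sum_const, nsmul_eq_mul, mul_one]
  rw [h1, ← Set.ncard_coe_finset]
  have hN' : (N : ℤ) < m := by exact_mod_cast hN
  have h2 : {t : ℤ | |t| ≤ N ∧ Bad K S t}.ncard ≤ ((((Finset.range (2 * m)).filter
      fun i : ℕ => Bad K S ((i : ℤ) - m)) : Finset ℕ) : Set ℕ).ncard := by
    apply Set.ncard_le_ncard_of_injOn (fun t : ℤ => (t + m).toNat)
      (ht := Finset.finite_toSet _)
    · rintro t ⟨h3, h4⟩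
      have h5 := abs_le.1 h3
      rw [Finset.mem_coe, Finset.mem_filter, Finset.mem_range]
      have h6 : ((t + m).toNat : ℤ) = t + m := Int.toNat_of_nonneg (by omega)
      refine ⟨by omega, ?_⟩
      rw [h6, add_sub_cancel_right]
      exact h4
    · rintro t ⟨h3, _⟩ t' ⟨h3', _⟩ h7
      have h5 := abs_le.1 h3
      have h5' := abs_le.1 h3'
      simp only at h7
      omega
  exact_mod_cast h2

theorem L_le (h : ℕ) (hh : 1 ≤ h) : ((Nat.log 2 (h + 1) + 1 : ℕ) : ℝ) ≤ 3 * (1 + Real.log h) := by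
  have hh1 : (1 : ℝ) ≤ h := by exact_mod_cast hh
  have h1 : (2 : ℕ) ^ Nat.log 2 (h + 1) ≤ h + 1 := Nat.pow_log_le_self 2 (by omega)
  have h2 : (2 : ℝ) ^ Nat.log 2 (h + 1) ≤ 2 * h := by
    have : (2 : ℝ) ^ Nat.log 2 (h + 1) ≤ (h : ℝ) + 1 := by exact_mod_cast h1
    linarith
  have h3 := Real.log_le_log (by positivity) h2
  rw [Real.log_pow, Real.log_mul (by norm_num) (by linarith)] at h3
  have h4 := Real.log_two_gt_d9
  have h4' := Real.log_two_lt_d9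
  have h5 := Real.log_nonneg hh1
  have h6 : (0 : ℝ) ≤ (Nat.log 2 (h + 1) : ℝ) := Nat.cast_nonneg _
  push_cast
  nlinarith

/-- **Blocks.** At most `C N (1 + log h) / √(log N)` of the `|t| ≤ N` are the left end of a block
`t, t + 1, …, t + h` whose members do not all have the same iterate of order `K`; here `K` is at least
`(log₂ N) / 3` and at most `log₂ N + 1`. -/
theorem main_cnt {C : ℝ} (hC : 0 < C) (hPH : PH C) : ∃ C' : ℝ, 0 < C' ∧ ∀ (N h Kt : ℕ), 2 ≤ N → 1 ≤ h →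
    Kt ≤ Nat.log 2 N + 1 → Nat.log 2 N + 1 ≤ 6 * Kt →
    ({t : ℤ | |t| ≤ N ∧ Bad Kt (S0 h) t}.ncard : ℝ) ≤
      C' * N * (1 + Real.log h) / Real.sqrt (Real.log N) := by
  refine ⟨C * 60000000 + 1000, by positivity, fun N h Kt hN hh hKt1 hKt2 => ?_⟩
  have hh1 : (1 : ℝ) ≤ h := by exact_mod_cast hh
  have hN1 : (1 : ℝ) < N := by exact_mod_cast (show 1 < N by omega)
  have hlogh := Real.log_nonneg hh1
  have hlogN : 0 < Real.log N := Real.log_pos hN1
  have hsq : 0 < Real.sqrt (Real.log N) := Real.sqrt_pos.2 hlogN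
  obtain ⟨L, hL⟩ : ∃ L, L = Nat.log 2 (h + 1) + 1 := ⟨_, rfl⟩
  obtain ⟨R, hR⟩ : ∃ R, Nat.log 2 N + 1 = Kt + R := ⟨_, (Nat.add_sub_cancel' hKt1).symm⟩
  have hL3 : (L : ℝ) ≤ 3 * (1 + Real.log h) := by
    rw [hL]
    exact L_le h hh
  have hL1 : (1 : ℝ) ≤ L := by
    rw [hL]
    push_cast
    have : (0 : ℝ) ≤ (Nat.log 2 (h + 1) : ℝ) := Nat.cast_nonneg _
    linarith
  have hLp : h + 1 ≤ 2 ^ L := by
    rw [hL]
    exact (Nat.lt_pow_succ_log_self (by norm_num) _).le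
  have hNK : N < 2 ^ (Kt + R) := by
    rw [← hR]
    exact Nat.lt_pow_succ_log_self (by norm_num) _
  have hKN : (2 : ℝ) ^ (Kt + R) ≤ 2 * N := by
    have h1 : 2 ^ (Kt + R) ≤ 2 * N := by
      rw [← hR, pow_succ, mul_comm]
      exact Nat.mul_le_mul_left 2 (Nat.pow_log_le_self 2 (by omega))
    exact_mod_cast h1
  have hKlog : Real.log N ≤ 6 * Kt := by
    have h1 : (N : ℝ) ≤ 2 ^ (Kt + R) := by exact_mod_cast hNK.le
    have h2 := Real.log_le_log (by linarith) h1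
    rw [Real.log_pow] at h2
    have h3 := Real.log_two_lt_d9
    have h4 : (0 : ℝ) ≤ ((Kt + R : ℕ) : ℝ) := Nat.cast_nonneg _
    have h5 : ((Kt + R : ℕ) : ℝ) ≤ 6 * Kt := by
      have : Kt + R ≤ 6 * Kt := by omega
      exact_mod_cast this
    nlinarith
  rcases le_or_gt (2 * (200 * L)) Kt with hc | hc
  · -- the main case
    obtain ⟨K, hK⟩ : ∃ K, Kt = K + 200 * L := ⟨Kt - 200 * L, by omega⟩
    have hL1' : 1 ≤ L := by omega
    have hK1 : 1 ≤ K := by omega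
    have hK2 : (Real.log N) ≤ 12 * K := by
      have h1 : (Kt : ℝ) ≤ 2 * K := by
        have : Kt ≤ 2 * K := by omega
        exact_mod_cast this
      linarith
    have hK0 : (0 : ℝ) < K := by exact_mod_cast hK1
    have h1 := cnt_two hC hPH K (200 * L) (2 ^ R) hK1 (ok_S0 h)
    have h2 := ncard_le_cnt (K := Kt) hNK (S0 h)
    have e1 : (2 : ℕ) ^ (200 * L) * (2 ^ R * 2 ^ K) = 2 ^ (Kt + R) := by
      rw [← pow_add, ← pow_add, hK]
      congr 1
      ring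
    rw [e1, ← hK] at h1
    have e2 : (2 : ℝ) ^ (200 * L) * (2 ^ R * 2 ^ K) = 2 ^ (Kt + R) := by
      rw [← pow_add, ← pow_add, hK]
      congr 1
      ring
    have h3 : (0.984 : ℝ) ^ (200 * L) * Phi 0 (S0 h) ≤ 1 :=
      (mul_le_mul_of_nonneg_left (Phi_S0 h) (by positivity)).trans (pow_L hLp)
    have h4 : 9721 * (((200 * L : ℕ) : ℝ) + 1) + 2 * ((0.984 : ℝ) ^ (200 * L) * Phi 0 (S0 h)) ≤
        6000000 * (1 + Real.log h) := by
      push_cast
      nlinarith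
    have h5 : 1 / Real.sqrt K ≤ 4 / Real.sqrt (Real.log N) := by
      rw [div_le_div_iff₀ (Real.sqrt_pos.2 hK0) hsq, one_mul]
      have : Real.sqrt (Real.log N) ≤ Real.sqrt (16 * K) := by
        apply Real.sqrt_le_sqrt
        linarith
      rw [Real.sqrt_mul (by norm_num)] at this
      have h6 : Real.sqrt 16 = 4 := by
        rw [show (16 : ℝ) = 4 ^ 2 by norm_num, Real.sqrt_sq (by norm_num)]
      rwa [h6] at this
    calc ({t : ℤ | |t| ≤ N ∧ Bad Kt (S0 h) t}.ncard : ℝ)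
        ≤ 2 ^ (200 * L) * (C * (((2 ^ R : ℕ) : ℝ) * 2 ^ K) / Real.sqrt K *
          (9721 * (((200 * L : ℕ) : ℝ) + 1) +
          2 * ((0.984 : ℝ) ^ (200 * L) * Phi 0 (S0 h)))) := h2.trans h1
      _ = C * 2 ^ (Kt + R) * (9721 * (((200 * L : ℕ) : ℝ) + 1) +
          2 * ((0.984 : ℝ) ^ (200 * L) * Phi 0 (S0 h))) * (1 / Real.sqrt K) := by
          rw [← e2]
          push_cast
          ring
      _ ≤ C * (2 * N) * (6000000 * (1 + Real.log h)) * (4 / Real.sqrt (Real.log N)) := by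
          gcongr
          have := Phi_nonneg 0 (S0 h)
          positivity
      _ = (C * 48000000) * N * (1 + Real.log h) / Real.sqrt (Real.log N) := by ring
      _ ≤ (C * 60000000 + 1000) * N * (1 + Real.log h) / Real.sqrt (Real.log N) := by
          gcongr
          linarith
  · -- the trivial case
    have h1 : ({t : ℤ | |t| ≤ N ∧ Bad Kt (S0 h) t}.ncard : ℝ) ≤ 3 * N := by
      have h2 : {t : ℤ | |t| ≤ N ∧ Bad Kt (S0 h) t}.ncard ≤ (Finset.Icc (-(N : ℤ)) N).card := by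
        rw [← Set.ncard_coe_finset]
        apply Set.ncard_le_ncard _ (Finset.finite_toSet _)
        rintro t ⟨h3, _⟩
        rw [Finset.mem_coe, Finset.mem_Icc]
        exact abs_le.1 h3
      rw [Int.card_Icc] at h2
      have h3 : {t : ℤ | |t| ≤ N ∧ Bad Kt (S0 h) t}.ncard ≤ 3 * N := by omega
      exact_mod_cast h3
    refine h1.trans ?_
    rw [le_div_iff₀ hsq]
    have h2 : Real.sqrt (Real.log N) ≤ 50 * L := by
      apply Real.sqrt_le_iff.2 ⟨by positivity, ?_⟩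
      have h3 : (Kt : ℝ) ≤ 400 * L := by
        have : Kt ≤ 400 * L := by omega
        exact_mod_cast this
      nlinarith
    have h3 : Real.sqrt (Real.log N) ≤ 150 * (1 + Real.log h) := by linarith
    calc 3 * (N : ℝ) * Real.sqrt (Real.log N) ≤ 3 * N * (150 * (1 + Real.log h)) := by gcongr
      _ = 450 * N * (1 + Real.log h) := by ring
      _ ≤ (C * 60000000 + 1000) * N * (1 + Real.log h) := by
          gcongr
          linarith

end Pool.Agent.MB86
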