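import Mathlib
import Pool.Agent.MB86.Main
import Pool.Agent.LC86.Rate

set_option autoImplicit false

/-!
Blocks of consecutive integers under the `3x+1` map: the final form.
-/

namespace Pool.Agent.MB86

open Pool.Agent.Helper14 (T)

theorem log_est {X : ℕ} (hX : 2 ≤ X) : Nat.log 2 (2 * X) / 2 ≤ Nat.log 2 (3 * X) + 1 ∧
    Nat.log 2 (3 * X) + 1 ≤ 6 * (Nat.log 2 (2 * X) / 2) := by
  have h1 : Nat.log 2 (2 * X) ≤ Nat.log 2 (3 * X) := Nat.log_mono_right (by omega)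
  have h2 : Nat.log 2 (3 * X) ≤ Nat.log 2 (2 * X * 2) := Nat.log_mono_right (by omega)
  rw [Nat.log_mul_base (by norm_num) (by omega)] at h2
  have h3 : Nat.log 2 4 ≤ Nat.log 2 (2 * X) := Nat.log_mono_right (by omega)
  have h4 : Nat.log 2 4 = 2 := by
    rw [show 4 = 2 ^ 2 by norm_num, Nat.log_pow (by norm_num)]
  rw [h4] at h3
  omega

theorem monoT_of {C₀ : ℝ} (hC₀ : 0 < C₀) (hPH : PH C₀) : ∃ C : ℝ, 0 < C ∧ ∀ (σ : ℤ) (X h : ℕ),
    |σ| = 1 → 2 ≤ X → 1 ≤ h →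
    (Set.ncard {x : ℕ | X ≤ x ∧ x < 2 * X ∧ ∃ n : ℕ, x < n ∧ n ≤ x + h ∧
      T^[Nat.log 2 (2 * X) / 2] (σ * (x : ℤ)) ≠ T^[Nat.log 2 (2 * X) / 2] (σ * (n : ℤ))} : ℝ) ≤
      C * X * ((1 + Real.log h) / Real.sqrt (Real.log X)) := by
  classical
  obtain ⟨C, hC, hm⟩ := main_cnt hC₀ hPH
  refine ⟨3 * C + 1, by positivity, fun σ X h hσ hX hh => ?_⟩
  have hX1 : (1 : ℝ) < X := by exact_mod_cast (show 1 < X by omega)
  have hX0 : (0 : ℝ) < X := by linarith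
  have hlog : 0 < Real.log X := Real.log_pos hX1
  have hsq : 0 < Real.sqrt (Real.log X) := Real.sqrt_pos.2 hlog
  have hh1 : (1 : ℝ) ≤ h := by exact_mod_cast hh
  have hlogh : 0 ≤ Real.log h := Real.log_nonneg hh1
  obtain ⟨K, hK⟩ : ∃ K, K = Nat.log 2 (2 * X) / 2 := ⟨_, rfl⟩
  have hKe := log_est hX
  rw [← hK] at hKe ⊢
  have hpos : 0 ≤ (1 + Real.log h) / Real.sqrt (Real.log X) := by positivity
  rcases le_or_gt h X with hc | hc
  · have h1 := hm (3 * X) h K (by omega) hh hKe.1 hKe.2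
    have h2 : Set.ncard {x : ℕ | X ≤ x ∧ x < 2 * X ∧ ∃ n : ℕ, x < n ∧ n ≤ x + h ∧
        T^[K] (σ * (x : ℤ)) ≠ T^[K] (σ * (n : ℤ))} ≤
        Set.ncard {t : ℤ | |t| ≤ ((3 * X : ℕ) : ℤ) ∧ Bad K (S0 h) t} := by
      have hfin : {t : ℤ | |t| ≤ ((3 * X : ℕ) : ℤ) ∧ Bad K (S0 h) t}.Finite := by
        apply (Set.finite_Icc (-((3 * X : ℕ) : ℤ)) ((3 * X : ℕ) : ℤ)).subset
        rintro t ⟨ht, _⟩
        exact abs_le.1 ht
      rcases eq_or_eq_neg_of_abs_eq hσ with rfl | rfl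
      · apply Set.ncard_le_ncard_of_injOn (fun x : ℕ => (x : ℤ)) (ht := hfin)
        · rintro x ⟨h3, h4, n, h5, h6, h7⟩
          refine ⟨abs_le.2 ⟨by omega, by omega⟩, ?_⟩
          by_contra hb
          apply h7
          have h8 := not_bad hb (show n - x ≤ h by omega)
          have e : (x : ℤ) + ((n - x : ℕ) : ℤ) = n := by omega
          rw [e] at h8
          rw [one_mul, one_mul, h8]
        · rintro x _ y _ hxy
          simpa using hxy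
      · apply Set.ncard_le_ncard_of_injOn (fun x : ℕ => -((x : ℤ) + h)) (ht := hfin)
        · rintro x ⟨h3, h4, n, h5, h6, h7⟩
          refine ⟨abs_le.2 ⟨by omega, by omega⟩, ?_⟩
          by_contra hb
          apply h7
          have h8 := not_bad hb (show x + h - n ≤ h by omega)
          have h9 := not_bad hb (show h ≤ h from le_rfl)
          have e : -((x : ℤ) + h) + ((x + h - n : ℕ) : ℤ) = -1 * n := by omega
          have e' : -((x : ℤ) + h) + (h : ℤ) = -1 * x := by ring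
          rw [e] at h8
          rw [e'] at h9
          rw [h8, h9]
        · rintro x _ y _ hxy
          simp only at hxy
          omega
    have h3 : (Set.ncard {x : ℕ | X ≤ x ∧ x < 2 * X ∧ ∃ n : ℕ, x < n ∧ n ≤ x + h ∧
        T^[K] (σ * (x : ℤ)) ≠ T^[K] (σ * (n : ℤ))} : ℝ) ≤
        C * ((3 * X : ℕ) : ℝ) * (1 + Real.log h) / Real.sqrt (Real.log ((3 * X : ℕ) : ℝ)) := by
      refine le_trans ?_ h1
      exact_mod_cast h2
    refine h3.trans ?_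
    have h4 : Real.sqrt (Real.log X) ≤ Real.sqrt (Real.log ((3 * X : ℕ) : ℝ)) := by
      apply Real.sqrt_le_sqrt
      apply Real.log_le_log hX0
      push_cast
      linarith
    calc C * ((3 * X : ℕ) : ℝ) * (1 + Real.log h) / Real.sqrt (Real.log ((3 * X : ℕ) : ℝ))
        ≤ C * ((3 * X : ℕ) : ℝ) * (1 + Real.log h) / Real.sqrt (Real.log X) := by
          gcongr
      _ = 3 * C * X * ((1 + Real.log h) / Real.sqrt (Real.log X)) := by
          push_cast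
          ring
      _ ≤ (3 * C + 1) * X * ((1 + Real.log h) / Real.sqrt (Real.log X)) := by
          gcongr
          linarith
  · have h1 : Set.ncard {x : ℕ | X ≤ x ∧ x < 2 * X ∧ ∃ n : ℕ, x < n ∧ n ≤ x + h ∧
        T^[K] (σ * (x : ℤ)) ≠ T^[K] (σ * (n : ℤ))} ≤ X := by
      have h2 : Set.ncard {x : ℕ | X ≤ x ∧ x < 2 * X ∧ ∃ n : ℕ, x < n ∧ n ≤ x + h ∧
          T^[K] (σ * (x : ℤ)) ≠ T^[K] (σ * (n : ℤ))} ≤ (Finset.Ico X (2 * X)).card := by
        rw [← Set.ncard_coe_finset]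
        apply Set.ncard_le_ncard _ (Finset.finite_toSet _)
        rintro x ⟨h3, h4, _⟩
        rw [Finset.mem_coe, Finset.mem_Ico]
        exact ⟨h3, h4⟩
      rw [Nat.card_Ico] at h2
      omega
    have h2 : 1 ≤ (1 + Real.log h) / Real.sqrt (Real.log X) := by
      rw [one_le_div hsq]
      apply Real.sqrt_le_iff.2 ⟨by linarith, ?_⟩
      have h3 : Real.log X ≤ Real.log h := by
        apply Real.log_le_log hX0
        exact_mod_cast hc.le
      nlinarith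
    have h3 : (Set.ncard {x : ℕ | X ≤ x ∧ x < 2 * X ∧ ∃ n : ℕ, x < n ∧ n ≤ x + h ∧
        T^[K] (σ * (x : ℤ)) ≠ T^[K] (σ * (n : ℤ))} : ℝ) ≤ X := by exact_mod_cast h1
    calc (Set.ncard {x : ℕ | X ≤ x ∧ x < 2 * X ∧ ∃ n : ℕ, x < n ∧ n ≤ x + h ∧
        T^[K] (σ * (x : ℤ)) ≠ T^[K] (σ * (n : ℤ))} : ℝ) ≤ X := h3
      _ = 1 * X * 1 := by ring
      _ ≤ (3 * C + 1) * X * ((1 + Real.log h) / Real.sqrt (Real.log X)) := by
          gcongr
          linarith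

theorem mono_of {C₀ : ℝ} (hC₀ : 0 < C₀) (hPH : PH C₀) : ∃ C : ℝ, 0 < C ∧ ∀ (σ : ℤ) (X h : ℕ),
    |σ| = 1 → 2 ≤ X → 1 ≤ h →
    (Set.ncard {x : ℕ | X ≤ x ∧ x < 2 * X ∧ 1 ≤ LC86.ApartH σ h x} : ℝ) ≤
      C * X * ((1 + Real.log h) / Real.sqrt (Real.log X)) := by
  obtain ⟨C, hC, hm⟩ := monoT_of hC₀ hPH
  refine ⟨C, hC, fun σ X h hσ hX hh => ?_⟩
  refine le_trans ?_ (hm σ X h hσ hX hh)
  have h1 : Set.ncard {x : ℕ | X ≤ x ∧ x < 2 * X ∧ 1 ≤ LC86.ApartH σ h x} ≤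
      Set.ncard {x : ℕ | X ≤ x ∧ x < 2 * X ∧ ∃ n : ℕ, x < n ∧ n ≤ x + h ∧
      T^[Nat.log 2 (2 * X) / 2] (σ * (x : ℤ)) ≠ T^[Nat.log 2 (2 * X) / 2] (σ * (n : ℤ))} := by
    apply Set.ncard_le_ncard _ ((Set.finite_Iio (2 * X)).subset fun _ hn => hn.2.1)
    rintro x ⟨h3, h4, h5⟩
    refine ⟨h3, h4, ?_⟩
    by_contra hne
    push Not at hne
    unfold LC86.ApartH at h5
    have h6 : {n : ℕ | x < n ∧ n ≤ x + h ∧ ¬ ∃ k : ℕ, T^[k] (σ * (x : ℤ)) = T^[k] (σ * (n : ℤ))} = ∅ := by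
      apply Set.eq_empty_of_forall_notMem
      rintro n ⟨h7, h8, h9⟩
      exact h9 ⟨_, hne n h7 h8⟩
    rw [h6, Set.ncard_empty] at h5
    omega
  exact_mod_cast h1

end Pool.Agent.MB86
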