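import Pool.Agent.Helper86.CollatzInt

/-!
# MB86 [PH]: many affine walkers meet: one phantom walker for every power of three

For integers `t` in a window of length `M`, all the numbers `3 ^ j * t + e`, `(j, e) ∈ S`, have the
same `k`-th iterate under the shortcut Collatz map `T`, up to
`C * (M + 2 ^ k) * (K + ∑ sqrt (1 + log (1 + distance to the line))) / sqrt k` integers `t`, where
`K` bounds the exponents `j` and the distance is `e - 3 ^ j * y`.
-/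

set_option autoImplicit false

namespace MB86

open Pool.Agent.Helper86.CollatzChain Pool.Agent.Helper86.CollatzRate
  Pool.Agent.Helper86.CollatzInt
open Pool.Agent.Helper14 (T)

private theorem ph_unit (k a : ℕ) : IsUnit (((3 ^ a : ℤ)) : ZMod (2 ^ k)) := by
  have h3 : IsUnit ((3 : ℕ) : ZMod (2 ^ k)) := by
    rw [ZMod.isUnit_iff_coprime]
    exact Nat.Coprime.pow_right k (by norm_num)
  have h := h3.pow a
  push_cast at h ⊢
  exact h

private theorem ph_sum (k a : ℕ) (s : ℕ × ℤ) (c : ℤ) :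
    ∑ i ∈ Finset.range (2 ^ k), w k s (3 ^ a * i + c) = 2 ^ k * u k s := by
  have : NeZero (2 ^ k) := ⟨by positivity⟩
  rw [← sum_w k s, ← sum_affine (w_periodic k s) (3 ^ a) c (ph_unit k a)]

private theorem ph_blocks (k q a : ℕ) (s : ℕ × ℤ) (c : ℤ) :
    ∑ i ∈ Finset.range (2 ^ k * q), w k s (3 ^ a * i + c) = q * (2 ^ k * u k s) := by
  induction q with
  | zero => simp
  | succ q ih =>
    rw [Nat.mul_succ, Finset.sum_range_add, ih]
    have h1 : ∑ x ∈ Finset.range (2 ^ k), w k s (3 ^ a * ((2 ^ k * q + x : ℕ) : ℤ) + c) =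
        ∑ i ∈ Finset.range (2 ^ k), w k s (3 ^ a * i + (3 ^ a * ((2 ^ k * q : ℕ) : ℤ) + c)) := by
      apply Finset.sum_congr rfl
      intro i _
      congr 1
      push_cast
      ring
    rw [h1, ph_sum]
    push_cast
    ring

private theorem ph_le (k M a : ℕ) (s : ℕ × ℤ) (c : ℤ) :
    ∑ i ∈ Finset.range M, w k s (3 ^ a * i + c) ≤ (M + 2 ^ k) * u k s := by
  have hpos : 0 < 2 ^ k := by positivity
  have h1 : M ≤ 2 ^ k * (M / 2 ^ k + 1) := (Nat.lt_mul_div_succ M hpos).le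
  have h2 : ∑ i ∈ Finset.range M, w k s (3 ^ a * i + c) ≤
      ∑ i ∈ Finset.range (2 ^ k * (M / 2 ^ k + 1)), w k s (3 ^ a * i + c) := by
    apply Finset.sum_le_sum_of_subset_of_nonneg
    · intro i hi
      exact Finset.mem_range.2 (lt_of_lt_of_le (Finset.mem_range.1 hi) h1)
    · intro i _ _
      rcases w_zero_or_one k s (3 ^ a * i + c) with h | h <;> rw [h]
      norm_num
  rw [ph_blocks] at h2
  refine h2.trans ?_
  have hu := u_nonneg k s
  have h3 : ((M / 2 ^ k + 1 : ℕ) : ℝ) * 2 ^ k ≤ M + 2 ^ k := by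
    have h4 : (M / 2 ^ k) * 2 ^ k ≤ M := Nat.div_mul_le_self M (2 ^ k)
    have h5 : (((M / 2 ^ k) * 2 ^ k : ℕ) : ℝ) ≤ M := by exact_mod_cast h4
    push_cast at h5 ⊢
    linarith
  calc ((M / 2 ^ k + 1 : ℕ) : ℝ) * (2 ^ k * u k s) = (((M / 2 ^ k + 1 : ℕ) : ℝ) * 2 ^ k) * u k s := by
        ring
    _ ≤ (M + 2 ^ k) * u k s := mul_le_mul_of_nonneg_right h3 hu

/-- the number of `i < M` at which an event happens -/
private theorem ph_card (k M a : ℕ) (s : ℕ × ℤ) (c : ℤ) :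
    (((Finset.range M).filter (fun i : ℕ => w k s (3 ^ a * (i : ℤ) + c) ≠ 0)).card : ℝ) ≤
      (M + 2 ^ k) * u k s := by
  classical
  have h2 : (((Finset.range M).filter (fun i : ℕ => w k s (3 ^ a * (i : ℤ) + c) ≠ 0)).card : ℝ) =
      ∑ i ∈ Finset.range M, w k s (3 ^ a * i + c) := by
    rw [Finset.card_filter]
    push_cast
    apply Finset.sum_congr rfl
    intro i _
    rcases w_zero_or_one k s (3 ^ a * (i : ℤ) + c) with h | h
    · simp [h]
    · simp [h]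
  rw [h2]
  exact ph_le k M a s c

/-- Phantom walkers. -/
theorem phantom : ∃ C : ℝ, 0 < C ∧ ∀ k : ℕ, 1 ≤ k → ∀ (K : ℕ) (y : ℝ) (S : Finset (ℕ × ℤ)),
    (∀ s ∈ S, s.1 ≤ K ∧ 3 ^ s.1 * y ≤ (s.2 : ℝ)) → ∀ (c : ℤ) (M : ℕ),
    (Set.ncard {i : ℕ | i < M ∧ ¬ ∀ s ∈ S, ∀ s' ∈ S,
        T^[k] (3 ^ s.1 * ((i : ℤ) + c) + s.2) = T^[k] (3 ^ s'.1 * ((i : ℤ) + c) + s'.2)} : ℝ) ≤
      C * (M + 2 ^ k) *
        (K + ∑ s ∈ S, Real.sqrt (1 + Real.log (1 + (s.2 - 3 ^ s.1 * y)))) / Real.sqrt k := by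
  classical
  obtain ⟨C, hC, hrate⟩ := rate
  refine ⟨2 * C, by positivity, ?_⟩
  intro k hk K y S hS c M
  set r : ℕ → ℤ := fun a => ⌈(3 : ℝ) ^ a * y⌉ with hr
  have hr1 : ∀ a, (3 : ℝ) ^ a * y ≤ r a := fun a => Int.le_ceil _
  have hr2 : ∀ a, (r a : ℝ) < 3 ^ a * y + 1 := fun a => Int.ceil_lt_add_one _
  -- the events
  set E1 : ℕ → Finset ℕ := fun a => (Finset.range M).filter
    (fun i : ℕ => w k (1, r (a + 1) - 3 * r a) (3 ^ a * (i : ℤ) + (3 ^ a * c + r a)) ≠ 0) with hE1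
  set E2 : ℕ × ℤ → Finset ℕ := fun s => (Finset.range M).filter
    (fun i : ℕ => w k (0, s.2 - r s.1) (3 ^ s.1 * (i : ℤ) + (3 ^ s.1 * c + r s.1)) ≠ 0) with hE2
  have hsub : {i : ℕ | i < M ∧ ¬ ∀ s ∈ S, ∀ s' ∈ S,
        T^[k] (3 ^ s.1 * ((i : ℤ) + c) + s.2) = T^[k] (3 ^ s'.1 * ((i : ℤ) + c) + s'.2)} ⊆
      (((Finset.range K).biUnion E1 ∪ S.biUnion E2 : Finset ℕ) : Set ℕ) := by
    rintro i ⟨hi, hn⟩
    by_contra hcon
    apply hn
    rw [Finset.mem_coe, Finset.mem_union, not_or, Finset.mem_biUnion, Finset.mem_biUnion] at hcon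
    obtain ⟨h1, h2⟩ := hcon
    have hp : ∀ a, a < K → T^[k] (3 ^ a * ((i : ℤ) + c) + r a) =
        T^[k] (3 ^ (a + 1) * ((i : ℤ) + c) + r (a + 1)) := by
      intro a ha
      have h3 : w k (1, r (a + 1) - 3 * r a) (3 ^ a * (i : ℤ) + (3 ^ a * c + r a)) = 0 := by
        by_contra h4
        exact h1 ⟨a, Finset.mem_range.2 ha, Finset.mem_filter.2 ⟨Finset.mem_range.2 hi, h4⟩⟩
      have h5 := coalesce k 1 (r (a + 1) - 3 * r a) _ (3 ^ (a + 1) * ((i : ℤ) + c) + r (a + 1))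
        (by ring) h3
      rw [← h5]
      congr 1
      ring
    have hq : ∀ a, a ≤ K → T^[k] (3 ^ a * ((i : ℤ) + c) + r a) =
        T^[k] (3 ^ 0 * ((i : ℤ) + c) + r 0) := by
      intro a
      induction a with
      | zero => intro _; rfl
      | succ a ih =>
        intro ha
        rw [← hp a (by omega)]
        exact ih (by omega)
    have hs : ∀ s ∈ S, T^[k] (3 ^ s.1 * ((i : ℤ) + c) + s.2) =
        T^[k] (3 ^ 0 * ((i : ℤ) + c) + r 0) := by
      intro s hs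
      rw [← hq s.1 (hS s hs).1]
      have h3 : w k (0, s.2 - r s.1) (3 ^ s.1 * (i : ℤ) + (3 ^ s.1 * c + r s.1)) = 0 := by
        by_contra h4
        exact h2 ⟨s, hs, Finset.mem_filter.2 ⟨Finset.mem_range.2 hi, h4⟩⟩
      have h5 := coalesce k 0 (s.2 - r s.1) _ (3 ^ s.1 * ((i : ℤ) + c) + s.2) (by ring) h3
      rw [← h5]
      congr 1
      ring
    intro s hs1 s' hs2
    rw [hs s hs1, hs s' hs2]
  have hkpos : (0 : ℝ) < k := by exact_mod_cast hk
  have hsk : 0 < Real.sqrt k := Real.sqrt_pos.2 hkpos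
  have hM : (0 : ℝ) ≤ M + 2 ^ k := by positivity
  -- the sizes
  have c1 : ∀ a, ((E1 a).card : ℝ) ≤ (M + 2 ^ k) * (2 * C / Real.sqrt k) := by
    intro a
    refine (ph_card k M a _ _).trans (mul_le_mul_of_nonneg_left ?_ hM)
    refine (hrate 1 (r (a + 1) - 3 * r a) k hk).trans ?_
    have hb : |((r (a + 1) - 3 * r a : ℤ) : ℝ)| ≤ 3 := by
      have e1 := hr1 a
      have e2 := hr2 a
      have e3 := hr1 (a + 1)
      have e4 := hr2 (a + 1)
      rw [pow_succ] at e3 e4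
      push_cast
      rw [abs_le]
      constructor <;> nlinarith
    have hl : Real.log (1 + |((r (a + 1) - 3 * r a : ℤ) : ℝ)|) ≤ 2 := by
      have h1 : Real.log (1 + |((r (a + 1) - 3 * r a : ℤ) : ℝ)|) ≤ Real.log 4 := by
        apply Real.log_le_log (by positivity)
        linarith
      have h2 : Real.log 4 = 2 * Real.log 2 := by
        rw [show (4 : ℝ) = 2 ^ 2 by norm_num, Real.log_pow]
        norm_num
      have h3 := Real.log_two_lt_d9
      linarith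
    have h6 : Real.sqrt ((1 + ((1 : ℕ) : ℝ) ^ 2 +
        Real.log (1 + |((r (a + 1) - 3 * r a : ℤ) : ℝ)|)) / k) ≤ 2 / Real.sqrt k := by
      rw [Real.sqrt_div' _ hkpos.le]
      apply div_le_div_of_nonneg_right _ hsk.le
      rw [show (2 : ℝ) = Real.sqrt 4 by
        rw [show (4 : ℝ) = 2 ^ 2 by norm_num, Real.sqrt_sq (by norm_num)]]
      apply Real.sqrt_le_sqrt
      rw [Nat.cast_one]
      linarith
    calc C * Real.sqrt ((1 + ((1 : ℕ) : ℝ) ^ 2 +
          Real.log (1 + |((r (a + 1) - 3 * r a : ℤ) : ℝ)|)) / k)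
        ≤ C * (2 / Real.sqrt k) := mul_le_mul_of_nonneg_left h6 hC.le
      _ = 2 * C / Real.sqrt k := by ring
  have c2 : ∀ s ∈ S, ((E2 s).card : ℝ) ≤
      (M + 2 ^ k) * (C * Real.sqrt (1 + Real.log (1 + (s.2 - 3 ^ s.1 * y))) / Real.sqrt k) := by
    intro s hs
    refine (ph_card k M s.1 _ _).trans (mul_le_mul_of_nonneg_left ?_ hM)
    refine (hrate 0 (s.2 - r s.1) k hk).trans ?_
    have h1 : (0 : ℤ) ≤ s.2 - r s.1 := by
      have h2 : r s.1 ≤ s.2 := Int.ceil_le.2 (hS s hs).2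
      omega
    have h3 : |((s.2 - r s.1 : ℤ) : ℝ)| ≤ s.2 - 3 ^ s.1 * y := by
      rw [abs_of_nonneg (by exact_mod_cast h1)]
      push_cast
      linarith [hr1 s.1]
    have h6 : Real.sqrt ((1 + ((0 : ℕ) : ℝ) ^ 2 +
        Real.log (1 + |((s.2 - r s.1 : ℤ) : ℝ)|)) / k) ≤
        Real.sqrt (1 + Real.log (1 + (s.2 - 3 ^ s.1 * y))) / Real.sqrt k := by
      rw [Real.sqrt_div' _ hkpos.le]
      apply div_le_div_of_nonneg_right _ hsk.le
      apply Real.sqrt_le_sqrt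
      have h7 : Real.log (1 + |((s.2 - r s.1 : ℤ) : ℝ)|) ≤
          Real.log (1 + (s.2 - 3 ^ s.1 * y)) := by
        apply Real.log_le_log (by positivity)
        linarith
      push_cast at h7 ⊢
      linarith
    calc C * Real.sqrt ((1 + ((0 : ℕ) : ℝ) ^ 2 +
          Real.log (1 + |((s.2 - r s.1 : ℤ) : ℝ)|)) / k)
        ≤ C * (Real.sqrt (1 + Real.log (1 + (s.2 - 3 ^ s.1 * y))) / Real.sqrt k) :=
          mul_le_mul_of_nonneg_left h6 hC.le
      _ = C * Real.sqrt (1 + Real.log (1 + (s.2 - 3 ^ s.1 * y))) / Real.sqrt k := by ring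
  have hcard : (Set.ncard {i : ℕ | i < M ∧ ¬ ∀ s ∈ S, ∀ s' ∈ S,
        T^[k] (3 ^ s.1 * ((i : ℤ) + c) + s.2) = T^[k] (3 ^ s'.1 * ((i : ℤ) + c) + s'.2)}) ≤
      (∑ a ∈ Finset.range K, (E1 a).card) + ∑ s ∈ S, (E2 s).card := by
    refine (Set.ncard_le_ncard hsub (Finset.finite_toSet _)).trans ?_
    rw [Set.ncard_coe_finset]
    refine (Finset.card_union_le _ _).trans ?_
    exact add_le_add Finset.card_biUnion_le Finset.card_biUnion_le
  have hcard' : (Set.ncard {i : ℕ | i < M ∧ ¬ ∀ s ∈ S, ∀ s' ∈ S,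
        T^[k] (3 ^ s.1 * ((i : ℤ) + c) + s.2) = T^[k] (3 ^ s'.1 * ((i : ℤ) + c) + s'.2)} : ℝ) ≤
      (∑ a ∈ Finset.range K, ((E1 a).card : ℝ)) + ∑ s ∈ S, ((E2 s).card : ℝ) := by
    exact_mod_cast hcard
  refine hcard'.trans ?_
  have s1 : ∑ a ∈ Finset.range K, ((E1 a).card : ℝ) ≤
      K * ((M + 2 ^ k) * (2 * C / Real.sqrt k)) := by
    refine (Finset.sum_le_sum fun a _ => c1 a).trans ?_
    rw [Finset.sum_const, Finset.card_range, nsmul_eq_mul]
  have s2 : ∑ s ∈ S, ((E2 s).card : ℝ) ≤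
      (M + 2 ^ k) * (C * (∑ s ∈ S, Real.sqrt (1 + Real.log (1 + (s.2 - 3 ^ s.1 * y)))) /
        Real.sqrt k) := by
    refine (Finset.sum_le_sum fun s hs => c2 s hs).trans (le_of_eq ?_)
    rw [Finset.mul_sum, Finset.sum_div, Finset.mul_sum]
  have s3 : 0 ≤ ∑ s ∈ S, Real.sqrt (1 + Real.log (1 + (s.2 - 3 ^ s.1 * y))) :=
    Finset.sum_nonneg fun s _ => Real.sqrt_nonneg _
  set Z : ℝ := ∑ s ∈ S, Real.sqrt (1 + Real.log (1 + (s.2 - 3 ^ s.1 * y))) with hZ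
  have s4 : 0 ≤ (M + 2 ^ k) * (C * Z / Real.sqrt k) := by positivity
  calc (∑ a ∈ Finset.range K, ((E1 a).card : ℝ)) + ∑ s ∈ S, ((E2 s).card : ℝ)
      ≤ K * ((M + 2 ^ k) * (2 * C / Real.sqrt k)) + (M + 2 ^ k) * (C * Z / Real.sqrt k) :=
        add_le_add s1 s2
    _ ≤ K * ((M + 2 ^ k) * (2 * C / Real.sqrt k)) + 2 * ((M + 2 ^ k) * (C * Z / Real.sqrt k)) := by
        linarith
    _ = 2 * C * (M + 2 ^ k) * (K + Z) / Real.sqrt k := by ring

end MB86
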