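import Pool.Agent.MB86.Count
import Pool.Agent.MB86.Ph

/-!
# MB86: many walkers meet, by one phantom walker for every power of three
-/

set_option autoImplicit false

namespace Pool.Agent.MB86

open Pool.Agent.Helper14 (T)
open Pool.Agent.Helper86.CollatzInt
open Pool.Agent.Helper86.CollatzChain
open Pool.Agent.Helper86.CollatzRate

/-- The second stage, with phantom walkers. -/
theorem cnt_phantom : ∃ C : ℝ, 0 < C ∧ ∀ (K q A : ℕ) (M y : ℝ) (S : Finset (ℕ × ℤ)), 1 ≤ K →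
    Ok A M y S → cnt K (q * 2 ^ K) S ≤
      C * (q * 2 ^ K) * ((A : ℝ) + 1 + S.card + Phi y S) / Real.sqrt K := by
  classical
  obtain ⟨C, hC, hP⟩ := _root_.MB86.phantom
  refine ⟨3 * C, by positivity, ?_⟩
  intro K q A M y S hK hOk
  obtain ⟨-, -, -, -, hS⟩ := hOk
  rcases Nat.eq_zero_or_pos q with hq | hq
  · subst hq
    have h0 : cnt K (0 * 2 ^ K) S = 0 := by
      unfold cnt
      simp
    rw [h0]
    simp
  have h1 := hP K hK A y S
    (fun s hs => ⟨(hS s hs).1, by have := (hS s hs).2.1; unfold ee at this; linarith⟩)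
    (-((q * 2 ^ K : ℕ) : ℤ)) (2 * (q * 2 ^ K))
  have hcnt : cnt K (q * 2 ^ K) S = (Set.ncard {i : ℕ | i < 2 * (q * 2 ^ K) ∧
      ¬ ∀ s ∈ S, ∀ s' ∈ S,
        T^[K] (3 ^ s.1 * ((i : ℤ) + -((q * 2 ^ K : ℕ) : ℤ)) + s.2) =
        T^[K] (3 ^ s'.1 * ((i : ℤ) + -((q * 2 ^ K : ℕ) : ℤ)) + s'.2)} : ℝ) := by
    have e : {i : ℕ | i < 2 * (q * 2 ^ K) ∧ ¬ ∀ s ∈ S, ∀ s' ∈ S,
        T^[K] (3 ^ s.1 * ((i : ℤ) + -((q * 2 ^ K : ℕ) : ℤ)) + s.2) =
        T^[K] (3 ^ s'.1 * ((i : ℤ) + -((q * 2 ^ K : ℕ) : ℤ)) + s'.2)} =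
        (((Finset.range (2 * (q * 2 ^ K))).filter
          (fun i : ℕ => Bad K S ((i : ℤ) - ((q * 2 ^ K : ℕ) : ℤ))) : Finset ℕ) : Set ℕ) := by
      ext i
      rw [Set.mem_ofPred_eq, Finset.mem_coe, Finset.mem_filter, Finset.mem_range, ← sub_eq_add_neg]
      refine and_congr_right fun _ => ?_
      unfold Bad val
      push Not
      rfl
    rw [e, Set.ncard_coe_finset, Finset.card_filter]
    unfold cnt
    push_cast
    rfl
  rw [hcnt]
  refine h1.trans ?_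
  have hK0 : (0 : ℝ) < Real.sqrt K := Real.sqrt_pos.2 (by exact_mod_cast hK)
  apply div_le_div_of_nonneg_right _ hK0.le
  have hsum : ∑ s ∈ S, Real.sqrt (1 + Real.log (1 + (s.2 - 3 ^ s.1 * y))) ≤ S.card + Phi y S := by
    have h2 : ∀ s ∈ S, Real.sqrt (1 + Real.log (1 + (s.2 - 3 ^ s.1 * y))) ≤
        1 + Real.sqrt (ee y s) := by
      intro s hs
      have h3 := (hS s hs).2.1
      have h4 : Real.log (1 + ee y s) ≤ ee y s := by
        have := Real.log_le_sub_one_of_pos (show (0 : ℝ) < 1 + ee y s by linarith)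
        linarith
      have h5 : (s.2 : ℝ) - 3 ^ s.1 * y = ee y s := rfl
      rw [h5]
      apply Real.sqrt_le_iff.2
      have h6 := Real.sq_sqrt h3
      have h7 := Real.sqrt_nonneg (ee y s)
      constructor
      · linarith
      · nlinarith
    refine (Finset.sum_le_sum h2).trans (le_of_eq ?_)
    rw [Finset.sum_add_distrib, Finset.sum_const, nsmul_eq_mul, mul_one]
    rfl
  have h8 : (0 : ℝ) ≤ Phi y S := Phi_nonneg y S
  have h9 : (0 : ℝ) ≤ (S.card : ℝ) := by positivity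
  have h10 : (0 : ℝ) ≤ (A : ℝ) := by positivity
  have h11 : (0 : ℝ) < 2 ^ K := by positivity
  have hq1 : (1 : ℝ) ≤ q := by exact_mod_cast hq
  have h12 : C * (((2 * (q * 2 ^ K) : ℕ) : ℝ) + 2 ^ K) ≤ 3 * C * (q * 2 ^ K) := by
    push_cast
    have h13 : (2 : ℝ) ^ K ≤ q * 2 ^ K := by nlinarith
    nlinarith [mul_le_mul_of_nonneg_left h13 hC.le]
  have h14 : (A : ℝ) + ∑ s ∈ S, Real.sqrt (1 + Real.log (1 + (s.2 - 3 ^ s.1 * y))) ≤
      (A : ℝ) + 1 + S.card + Phi y S := by linarith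
  have h15 : 0 ≤ ∑ s ∈ S, Real.sqrt (1 + Real.log (1 + (s.2 - 3 ^ s.1 * y))) :=
    Finset.sum_nonneg fun s _ => Real.sqrt_nonneg _
  exact mul_le_mul h12 h14 (by linarith) (by positivity)

end Pool.Agent.MB86
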