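import Mathlib
import Pool.Agent.MB86.Mono
import Pool.Agent.MB86.Phantom

set_option autoImplicit false

/-!
Blocks of consecutive integers under the `3x+1` map: almost every block `x, x + 1, …, x + h` with
`log h = o(√(log x))` lies in one grand orbit.
-/

namespace Pool.Agent.MB86

open Pool.Agent.Helper14 (T)

/-- **Blocks.** At most `C N (1 + log h) / √(log N)` of the `|t| ≤ N` are the left end of a block
`t, t + 1, …, t + h` whose members do not all have the same iterate of order `K`; here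
`(log₂ N + 1) / 6 ≤ K ≤ log₂ N + 1`. -/
theorem main : ∃ C : ℝ, 0 < C ∧ ∀ (N h K : ℕ), 2 ≤ N → 1 ≤ h →
    K ≤ Nat.log 2 N + 1 → Nat.log 2 N + 1 ≤ 6 * K →
    ({t : ℤ | |t| ≤ N ∧ ¬ ∀ b : ℕ, b ≤ h → T^[K] (t + b) = T^[K] t}.ncard : ℝ) ≤
      C * N * (1 + Real.log h) / Real.sqrt (Real.log N) := by
  obtain ⟨C₀, hC₀, hPH⟩ := cnt_phantom
  obtain ⟨C, hC, hm⟩ := main_cnt hC₀ hPH
  refine ⟨C, hC, fun N h K hN hh h1 h2 => ?_⟩
  refine le_trans ?_ (hm N h K hN hh h1 h2)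
  have h3 : {t : ℤ | |t| ≤ N ∧ ¬ ∀ b : ℕ, b ≤ h → T^[K] (t + b) = T^[K] t}.ncard ≤
      {t : ℤ | |t| ≤ N ∧ Bad K (S0 h) t}.ncard := by
    apply Set.ncard_le_ncard
    · rintro t ⟨h4, h5⟩
      refine ⟨h4, ?_⟩
      by_contra hb
      exact h5 fun b hbh => not_bad hb hbh
    · apply (Set.finite_Icc (-(N : ℤ)) (N : ℤ)).subset
      rintro t ⟨ht, _⟩
      exact abs_le.1 ht
  exact_mod_cast h3

/-- The blocks `(x, x + h]`, `X ≤ x < 2 X`, at the fixed time `⌊log₂ (2 X) / 2⌋`. -/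
theorem monoT : ∃ C : ℝ, 0 < C ∧ ∀ (σ : ℤ) (X h : ℕ), |σ| = 1 → 2 ≤ X → 1 ≤ h →
    (Set.ncard {x : ℕ | X ≤ x ∧ x < 2 * X ∧ ∃ n : ℕ, x < n ∧ n ≤ x + h ∧
      T^[Nat.log 2 (2 * X) / 2] (σ * (x : ℤ)) ≠ T^[Nat.log 2 (2 * X) / 2] (σ * (n : ℤ))} : ℝ) ≤
      C * X * ((1 + Real.log h) / Real.sqrt (Real.log X)) := by
  obtain ⟨C₀, hC₀, hPH⟩ := cnt_phantom
  exact monoT_of hC₀ hPH

/-- The blocks `(x, x + h]`, `X ≤ x < 2 X`: almost all of them lie in the grand orbit of `x`. -/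
theorem mono : ∃ C : ℝ, 0 < C ∧ ∀ (σ : ℤ) (X h : ℕ), |σ| = 1 → 2 ≤ X → 1 ≤ h →
    (Set.ncard {x : ℕ | X ≤ x ∧ x < 2 * X ∧ 1 ≤ LC86.ApartH σ h x} : ℝ) ≤
      C * X * ((1 + Real.log h) / Real.sqrt (Real.log X)) := by
  obtain ⟨C₀, hC₀, hPH⟩ := cnt_phantom
  exact mono_of hC₀ hPH

end Pool.Agent.MB86
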