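import Mathlib
import Pool.Agent.MB86.Mono
import Pool.Agent.MB86.Phantom

set_option autoImplicit false

/-!
Windows around `t, 3 t, 9 t, …, 3 ^ A t` under the `3x+1` map.
-/

namespace Pool.Agent.MB86

open Pool.Agent.Helper14 (T)
open Pool.Agent.Helper86.CollatzInt
open Pool.Agent.Helper86.CollatzChain

theorem cnt_twoA {C : ℝ} (hC : 0 < C) (hPH : PH C) (A K k q : ℕ) (hK : 1 ≤ K) {M : ℝ}
    {S : Finset (ℕ × ℤ)} (h : Ok A M 0 S) :
    cnt (K + k) (2 ^ k * (q * 2 ^ K)) S ≤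
      2 ^ k * (C * (q * 2 ^ K) / Real.sqrt K * (9721 * (A + k + 1) + 2 * (0.984 ^ k * Phi 0 S))) := by
  rw [cnt_Av K (q * 2 ^ K) k 0 S]
  apply mul_le_mul_of_nonneg_left _ (by positivity)
  have h1 : Av k (fun _ S => cnt K (q * 2 ^ K) S) 0 S ≤
      Av k (fun y S => C * (q * 2 ^ K) / Real.sqrt K *
        (((A + k : ℕ) : ℝ) + 1 + S.card + Phi y S)) 0 S := by
    apply Av_mono k A M 0 S h
    intro y' S' h'
    refine (hPH K q _ _ _ _ hK h').trans (le_of_eq ?_)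
    ring
  refine h1.trans ?_
  rw [Av_lin]
  apply mul_le_mul_of_nonneg_left _ (by positivity)
  have h2 := Av_card_le k A M 0 S h
  have h3 := Av_Phi k A M 0 S h
  have h4 : (0 : ℝ) < 0.984 ^ k := by positivity
  have h5 : (0 : ℝ) ≤ k := Nat.cast_nonneg k
  have h5' : (0 : ℝ) ≤ A := Nat.cast_nonneg A
  have h6 := Phi_nonneg 0 S
  have h7 : 0 ≤ (0.984 : ℝ) ^ k * Phi 0 S := by positivity
  have h8 : 0 ≤ (0.984 : ℝ) ^ k * (A + k + 1) := by positivity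
  push_cast at h2 h3 ⊢
  nlinarith

/-- All walkers `3 ^ a t + b` with `a ≤ A` and `0 ≤ b ≤ h`. -/
def SA (A h : ℕ) : Finset (ℕ × ℤ) :=
  (Finset.range (A + 1) ×ˢ Finset.range (h + 1)).image fun p : ℕ × ℕ => (p.1, (p.2 : ℤ))

theorem mem_SA {A h : ℕ} {s : ℕ × ℤ} : s ∈ SA A h ↔ ∃ a b : ℕ, a ≤ A ∧ b ≤ h ∧ s = (a, (b : ℤ)) := by
  unfold SA
  rw [Finset.mem_image]
  constructor
  · rintro ⟨⟨a, b⟩, hb, rfl⟩
    rw [Finset.mem_product, Finset.mem_range, Finset.mem_range] at hb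
    exact ⟨a, b, Nat.lt_succ_iff.1 hb.1, Nat.lt_succ_iff.1 hb.2, rfl⟩
  · rintro ⟨a, b, ha, hb, rfl⟩
    refine ⟨(a, b), ?_, rfl⟩
    rw [Finset.mem_product, Finset.mem_range, Finset.mem_range]
    exact ⟨Nat.lt_succ_iff.2 ha, Nat.lt_succ_iff.2 hb⟩

theorem ok_SA (A h : ℕ) : Ok A ((h : ℝ) + 3 ^ A) 0 (SA A h) := by
  have h0 : (0 : ℝ) ≤ h := Nat.cast_nonneg h
  have h1 : (1 : ℝ) ≤ 3 ^ A := one_le_pow₀ (by norm_num)
  refine ⟨le_rfl, by norm_num, by linarith, by linarith, ?_⟩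
  intro s hs
  obtain ⟨a, b, ha, hb, rfl⟩ := mem_SA.1 hs
  have hb' : (b : ℝ) ≤ h := by exact_mod_cast hb
  refine ⟨ha, ?_, ?_⟩
  · unfold ee
    simp
  · simp only
    push_cast
    linarith

theorem Phi_SA (A h : ℕ) : Phi 0 (SA A h) ≤ ((A : ℝ) + 1) * ((h : ℝ) + 1) ^ 2 := by
  have h0 : (0 : ℝ) ≤ h := Nat.cast_nonneg h
  have h1 : ∀ s ∈ SA A h, Real.sqrt (ee 0 s) ≤ (h : ℝ) + 1 := by
    intro s hs
    obtain ⟨a, b, ha, hb, rfl⟩ := mem_SA.1 hs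
    have hb' : (b : ℝ) ≤ h := by exact_mod_cast hb
    have hb0 : (0 : ℝ) ≤ b := Nat.cast_nonneg b
    have e : ee 0 (a, (b : ℤ)) = b := by
      unfold ee
      simp
    rw [e]
    apply Real.sqrt_le_iff.2 ⟨by linarith, ?_⟩
    nlinarith
  have h2 := Finset.sum_le_card_nsmul (SA A h) _ _ h1
  have h3 : ((SA A h).card : ℝ) ≤ ((A : ℝ) + 1) * ((h : ℝ) + 1) := by
    have : (SA A h).card ≤ (A + 1) * (h + 1) := by
      unfold SA
      exact Finset.card_image_le.trans (by rw [Finset.card_product, Finset.card_range, Finset.card_range])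
    exact_mod_cast this
  unfold Phi
  refine h2.trans ?_
  rw [nsmul_eq_mul]
  have h4 : (0 : ℝ) ≤ (h : ℝ) + 1 := by linarith
  calc ((SA A h).card : ℝ) * ((h : ℝ) + 1) ≤ ((A : ℝ) + 1) * ((h : ℝ) + 1) * ((h : ℝ) + 1) :=
        mul_le_mul_of_nonneg_right h3 h4
    _ = ((A : ℝ) + 1) * ((h : ℝ) + 1) ^ 2 := by ring

theorem not_badA {A h K : ℕ} {t : ℤ} (hb : ¬ Bad K (SA A h) t) {a b a' b' : ℕ} (ha : a ≤ A)
    (hbh : b ≤ h) (ha' : a' ≤ A) (hbh' : b' ≤ h) :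
    T^[K] (3 ^ a * t + b) = T^[K] (3 ^ a' * t + b') := by
  unfold Bad at hb
  push Not at hb
  exact hb (a, (b : ℤ)) (mem_SA.2 ⟨a, b, ha, hbh, rfl⟩) (a', (b' : ℤ)) (mem_SA.2 ⟨a', b', ha', hbh', rfl⟩)

/-- At most `C N (1 + A + log h) / √(log N)` of the `|t| ≤ N` are such that the integers `3 ^ a t + b`,
`a ≤ A`, `0 ≤ b ≤ h`, do not all have the same iterate of order `Kt`. -/
theorem main_cntA {C : ℝ} (hC : 0 < C) (hPH : PH C) : ∃ C' : ℝ, 0 < C' ∧ ∀ (A N h Kt : ℕ),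
    2 ≤ N → 1 ≤ h → Kt ≤ Nat.log 2 N + 1 → Nat.log 2 N + 1 ≤ 12 * Kt →
    ({t : ℤ | |t| ≤ N ∧ Bad Kt (SA A h) t}.ncard : ℝ) ≤
      C' * N * (1 + A + Real.log h) / Real.sqrt (Real.log N) := by
  refine ⟨C * 60000000 + 1000, by positivity, fun A N h Kt hN hh hKt1 hKt2 => ?_⟩
  have hh1 : (1 : ℝ) ≤ h := by exact_mod_cast hh
  have hN1 : (1 : ℝ) < N := by exact_mod_cast (show 1 < N by omega)
  have hlogh := Real.log_nonneg hh1
  have hlogN : 0 < Real.log N := Real.log_pos hN1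
  have hsq : 0 < Real.sqrt (Real.log N) := Real.sqrt_pos.2 hlogN
  have hA0 : (0 : ℝ) ≤ A := Nat.cast_nonneg A
  obtain ⟨L, hL⟩ : ∃ L, L = Nat.log 2 (h + 1) + 1 := ⟨_, rfl⟩
  obtain ⟨R, hR⟩ : ∃ R, Nat.log 2 N + 1 = Kt + R := ⟨_, (Nat.add_sub_cancel' hKt1).symm⟩
  have hL3 : (L : ℝ) ≤ 3 * (1 + Real.log h) := by
    rw [hL]
    exact L_le h hh
  have hL1 : (1 : ℝ) ≤ L := by
    rw [hL]
    push_cast
    have : (0 : ℝ) ≤ (Nat.log 2 (h + 1) : ℝ) := Nat.cast_nonneg _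
    linarith
  have hLp : h + 1 ≤ 2 ^ L := by
    rw [hL]
    exact (Nat.lt_pow_succ_log_self (by norm_num) _).le
  have hNK : N < 2 ^ (Kt + R) := by
    rw [← hR]
    exact Nat.lt_pow_succ_log_self (by norm_num) _
  have hKN : (2 : ℝ) ^ (Kt + R) ≤ 2 * N := by
    have h1 : 2 ^ (Kt + R) ≤ 2 * N := by
      rw [← hR, pow_succ, mul_comm]
      exact Nat.mul_le_mul_left 2 (Nat.pow_log_le_self 2 (by omega))
    exact_mod_cast h1
  have hKlog : Real.log N ≤ 12 * Kt := by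
    have h1 : (N : ℝ) ≤ 2 ^ (Kt + R) := by exact_mod_cast hNK.le
    have h2 := Real.log_le_log (by linarith) h1
    rw [Real.log_pow] at h2
    have h3 := Real.log_two_lt_d9
    have h4 : (0 : ℝ) ≤ ((Kt + R : ℕ) : ℝ) := Nat.cast_nonneg _
    have h5 : ((Kt + R : ℕ) : ℝ) ≤ 12 * Kt := by
      have : Kt + R ≤ 12 * Kt := by omega
      exact_mod_cast this
    nlinarith
  rcases le_or_gt (2 * (200 * L)) Kt with hc | hc
  · -- the main case
    obtain ⟨K, hK⟩ : ∃ K, Kt = K + 200 * L := ⟨Kt - 200 * L, by omega⟩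
    have hL1' : 1 ≤ L := by omega
    have hK1 : 1 ≤ K := by omega
    have hK2 : (Real.log N) ≤ 24 * K := by
      have h1 : (Kt : ℝ) ≤ 2 * K := by
        have : Kt ≤ 2 * K := by omega
        exact_mod_cast this
      linarith
    have hK0 : (0 : ℝ) < K := by exact_mod_cast hK1
    have h1 := cnt_twoA hC hPH A K (200 * L) (2 ^ R) hK1 (ok_SA A h)
    have h2 := ncard_le_cnt (K := Kt) hNK (SA A h)
    have e1 : (2 : ℕ) ^ (200 * L) * (2 ^ R * 2 ^ K) = 2 ^ (Kt + R) := by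
      rw [← pow_add, ← pow_add, hK]
      congr 1
      ring
    rw [e1, ← hK] at h1
    have e2 : (2 : ℝ) ^ (200 * L) * (2 ^ R * 2 ^ K) = 2 ^ (Kt + R) := by
      rw [← pow_add, ← pow_add, hK]
      congr 1
      ring
    have h3 : (0.984 : ℝ) ^ (200 * L) * Phi 0 (SA A h) ≤ A + 1 := by
      calc (0.984 : ℝ) ^ (200 * L) * Phi 0 (SA A h)
          ≤ (0.984 : ℝ) ^ (200 * L) * (((A : ℝ) + 1) * ((h : ℝ) + 1) ^ 2) :=
            mul_le_mul_of_nonneg_left (Phi_SA A h) (by positivity)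
        _ = ((A : ℝ) + 1) * ((0.984 : ℝ) ^ (200 * L) * ((h : ℝ) + 1) ^ 2) := by ring
        _ ≤ ((A : ℝ) + 1) * 1 := mul_le_mul_of_nonneg_left (pow_L hLp) (by linarith)
        _ = A + 1 := by ring
    have h4 : 9721 * ((A : ℝ) + ((200 * L : ℕ) : ℝ) + 1) +
        2 * ((0.984 : ℝ) ^ (200 * L) * Phi 0 (SA A h)) ≤ 6000000 * (1 + A + Real.log h) := by
      push_cast
      nlinarith
    have h5 : 1 / Real.sqrt K ≤ 5 / Real.sqrt (Real.log N) := by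
      rw [div_le_div_iff₀ (Real.sqrt_pos.2 hK0) hsq, one_mul]
      have : Real.sqrt (Real.log N) ≤ Real.sqrt (25 * K) := by
        apply Real.sqrt_le_sqrt
        linarith
      rw [Real.sqrt_mul (by norm_num)] at this
      have h6 : Real.sqrt 25 = 5 := by
        rw [show (25 : ℝ) = 5 ^ 2 by norm_num, Real.sqrt_sq (by norm_num)]
      rwa [h6] at this
    calc ({t : ℤ | |t| ≤ N ∧ Bad Kt (SA A h) t}.ncard : ℝ)
        ≤ 2 ^ (200 * L) * (C * (((2 ^ R : ℕ) : ℝ) * 2 ^ K) / Real.sqrt K *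
          (9721 * ((A : ℝ) + ((200 * L : ℕ) : ℝ) + 1) +
          2 * ((0.984 : ℝ) ^ (200 * L) * Phi 0 (SA A h)))) := h2.trans h1
      _ = C * 2 ^ (Kt + R) * (9721 * ((A : ℝ) + ((200 * L : ℕ) : ℝ) + 1) +
          2 * ((0.984 : ℝ) ^ (200 * L) * Phi 0 (SA A h))) * (1 / Real.sqrt K) := by
          rw [← e2]
          push_cast
          ring
      _ ≤ C * (2 * N) * (6000000 * (1 + A + Real.log h)) * (5 / Real.sqrt (Real.log N)) := by
          gcongr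
          have := Phi_nonneg 0 (SA A h)
          positivity
      _ = (C * 60000000) * N * (1 + A + Real.log h) / Real.sqrt (Real.log N) := by ring
      _ ≤ (C * 60000000 + 1000) * N * (1 + A + Real.log h) / Real.sqrt (Real.log N) := by
          gcongr
          linarith
  · -- the trivial case
    have h1 : ({t : ℤ | |t| ≤ N ∧ Bad Kt (SA A h) t}.ncard : ℝ) ≤ 3 * N := by
      have h2 : {t : ℤ | |t| ≤ N ∧ Bad Kt (SA A h) t}.ncard ≤ (Finset.Icc (-(N : ℤ)) N).card := by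
        rw [← Set.ncard_coe_finset]
        apply Set.ncard_le_ncard _ (Finset.finite_toSet _)
        rintro t ⟨h3, _⟩
        rw [Finset.mem_coe, Finset.mem_Icc]
        exact abs_le.1 h3
      rw [Int.card_Icc] at h2
      have h3 : {t : ℤ | |t| ≤ N ∧ Bad Kt (SA A h) t}.ncard ≤ 3 * N := by omega
      exact_mod_cast h3
    refine h1.trans ?_
    rw [le_div_iff₀ hsq]
    have h2 : Real.sqrt (Real.log N) ≤ 70 * L := by
      apply Real.sqrt_le_iff.2 ⟨by positivity, ?_⟩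
      have h3 : (Kt : ℝ) ≤ 400 * L := by
        have : Kt ≤ 400 * L := by omega
        exact_mod_cast this
      nlinarith
    have h3 : Real.sqrt (Real.log N) ≤ 210 * (1 + A + Real.log h) := by linarith
    calc 3 * (N : ℝ) * Real.sqrt (Real.log N) ≤ 3 * N * (210 * (1 + A + Real.log h)) := by gcongr
      _ = 630 * N * (1 + A + Real.log h) := by ring
      _ ≤ (C * 60000000 + 1000) * N * (1 + A + Real.log h) := by
          gcongr
          linarith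

/-- from the one-sided walkers to the two-sided windows -/
theorem not_bad_two {A h K : ℕ} {t : ℤ} (hb : ¬ Bad K (SA A (3 ^ A * h + h)) (t - h)) {a : ℕ}
    (ha : a ≤ A) {n : ℤ} (hn : |n - 3 ^ a * t| ≤ h) : T^[K] n = T^[K] t := by
  have h1 := abs_le.1 hn
  have h2 : (3 : ℤ) ^ a ≤ 3 ^ A := pow_le_pow_right₀ (by norm_num) ha
  have h3 : (1 : ℤ) ≤ 3 ^ a := one_le_pow₀ (by norm_num)
  have h4 : (0 : ℤ) ≤ h := Int.natCast_nonneg h
  have h5 : (h : ℤ) ≤ 3 ^ a * h := by nlinarith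
  have h6 : (3 : ℤ) ^ a * h ≤ 3 ^ A * h := mul_le_mul_of_nonneg_right h2 h4
  obtain ⟨b, hbd⟩ : ∃ b : ℕ, (b : ℤ) = 3 ^ a * h + (n - 3 ^ a * t) :=
    ⟨(3 ^ a * h + (n - 3 ^ a * t)).toNat, Int.toNat_of_nonneg (by linarith)⟩
  have h7 : b ≤ 3 ^ A * h + h := by
    have : (b : ℤ) ≤ ((3 ^ A * h + h : ℕ) : ℤ) := by
      push_cast
      linarith
    exact_mod_cast this
  have h8 := not_badA hb ha h7 (Nat.zero_le A) (show h ≤ 3 ^ A * h + h by omega)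
  have e1 : 3 ^ a * (t - h) + (b : ℤ) = n := by
    rw [hbd]
    ring
  have e2 : 3 ^ 0 * (t - h) + (h : ℤ) = t := by ring
  rw [e1, e2] at h8
  exact h8

theorem log_R (A : ℕ) {h : ℕ} (hh : 1 ≤ h) :
    1 + (A : ℝ) + Real.log ((3 ^ A * h + h : ℕ) : ℝ) ≤ 3 * (1 + A + Real.log h) := by
  have hh1 : (1 : ℝ) ≤ h := by exact_mod_cast hh
  have hlogh := Real.log_nonneg hh1
  have hA0 : (0 : ℝ) ≤ A := Nat.cast_nonneg A
  have h1 : (1 : ℝ) ≤ 3 ^ A := one_le_pow₀ (by norm_num)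
  have h2 : ((3 ^ A * h + h : ℕ) : ℝ) ≤ 2 * 3 ^ A * h := by
    push_cast
    nlinarith
  have h3 : (0 : ℝ) < ((3 ^ A * h + h : ℕ) : ℝ) := by
    push_cast
    positivity
  have h4 := Real.log_le_log h3 h2
  rw [Real.log_mul (by positivity) (by positivity), Real.log_mul (by norm_num) (by positivity),
    Real.log_pow] at h4
  have h5 := Real.log_two_lt_d9
  have h6 : Real.log 3 ≤ 2 := by
    have := Real.log_le_sub_one_of_pos (show (0 : ℝ) < 3 by norm_num)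
    linarith
  have h7 : (A : ℝ) * Real.log 3 ≤ A * 2 := mul_le_mul_of_nonneg_left h6 hA0
  linarith

theorem wide_of {C₀ : ℝ} (hC₀ : 0 < C₀) (hPH : PH C₀) : ∃ C : ℝ, 0 < C ∧ ∀ (σ : ℤ) (A X h : ℕ),
    |σ| = 1 → 2 ≤ X → 1 ≤ h →
    (Set.ncard {x : ℕ | X ≤ x ∧ x < 2 * X ∧ ∃ a : ℕ, a ≤ A ∧ ∃ n : ℤ,
      |n - 3 ^ a * (σ * (x : ℤ))| ≤ h ∧
      T^[Nat.log 2 (2 * X) / 2] n ≠ T^[Nat.log 2 (2 * X) / 2] (σ * (x : ℤ))} : ℝ) ≤
      C * X * ((1 + A + Real.log h) / Real.sqrt (Real.log X)) := by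
  classical
  obtain ⟨C, hC, hm⟩ := main_cntA hC₀ hPH
  refine ⟨9 * C + 1, by positivity, fun σ A X h hσ hX hh => ?_⟩
  have hX1 : (1 : ℝ) < X := by exact_mod_cast (show 1 < X by omega)
  have hX0 : (0 : ℝ) < X := by linarith
  have hlog : 0 < Real.log X := Real.log_pos hX1
  have hsq : 0 < Real.sqrt (Real.log X) := Real.sqrt_pos.2 hlog
  have hh1 : (1 : ℝ) ≤ h := by exact_mod_cast hh
  have hlogh : 0 ≤ Real.log h := Real.log_nonneg hh1
  have hA0 : (0 : ℝ) ≤ A := Nat.cast_nonneg A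
  obtain ⟨K, hK⟩ : ∃ K, K = Nat.log 2 (2 * X) / 2 := ⟨_, rfl⟩
  have hKe := log_est hX
  rw [← hK] at hKe ⊢
  have hpos : 0 ≤ (1 + A + Real.log h) / Real.sqrt (Real.log X) := by positivity
  rcases le_or_gt h X with hc | hc
  · have h1 := hm A (3 * X) (3 ^ A * h + h) K (by omega) (by omega) hKe.1 (by omega)
    have h2 : Set.ncard {x : ℕ | X ≤ x ∧ x < 2 * X ∧ ∃ a : ℕ, a ≤ A ∧ ∃ n : ℤ,
        |n - 3 ^ a * (σ * (x : ℤ))| ≤ h ∧ T^[K] n ≠ T^[K] (σ * (x : ℤ))} ≤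
        Set.ncard {t : ℤ | |t| ≤ ((3 * X : ℕ) : ℤ) ∧ Bad K (SA A (3 ^ A * h + h)) t} := by
      have hfin : {t : ℤ | |t| ≤ ((3 * X : ℕ) : ℤ) ∧ Bad K (SA A (3 ^ A * h + h)) t}.Finite := by
        apply (Set.finite_Icc (-((3 * X : ℕ) : ℤ)) ((3 * X : ℕ) : ℤ)).subset
        rintro t ⟨ht, _⟩
        exact abs_le.1 ht
      apply Set.ncard_le_ncard_of_injOn (fun x : ℕ => σ * (x : ℤ) - h) (ht := hfin)
      · rintro x ⟨h3, h4, a, ha, n, h6, h7⟩
        refine ⟨abs_le.2 ?_, ?_⟩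
        · rcases eq_or_eq_neg_of_abs_eq hσ with rfl | rfl
          · constructor <;> omega
          · constructor <;> omega
        · by_contra hb
          exact h7 (not_bad_two hb ha h6)
      · rintro x _ y _ hxy
        simp only at hxy
        rcases eq_or_eq_neg_of_abs_eq hσ with rfl | rfl <;> omega
    have h3 : (Set.ncard {x : ℕ | X ≤ x ∧ x < 2 * X ∧ ∃ a : ℕ, a ≤ A ∧ ∃ n : ℤ,
        |n - 3 ^ a * (σ * (x : ℤ))| ≤ h ∧ T^[K] n ≠ T^[K] (σ * (x : ℤ))} : ℝ) ≤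
        C * ((3 * X : ℕ) : ℝ) * (1 + A + Real.log ((3 ^ A * h + h : ℕ) : ℝ)) /
          Real.sqrt (Real.log ((3 * X : ℕ) : ℝ)) := by
      refine le_trans ?_ h1
      exact_mod_cast h2
    refine h3.trans ?_
    have h4 : Real.sqrt (Real.log X) ≤ Real.sqrt (Real.log ((3 * X : ℕ) : ℝ)) := by
      apply Real.sqrt_le_sqrt
      apply Real.log_le_log hX0
      push_cast
      linarith
    have h5 := log_R A hh
    calc C * ((3 * X : ℕ) : ℝ) * (1 + A + Real.log ((3 ^ A * h + h : ℕ) : ℝ)) /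
          Real.sqrt (Real.log ((3 * X : ℕ) : ℝ))
        ≤ C * ((3 * X : ℕ) : ℝ) * (3 * (1 + A + Real.log h)) / Real.sqrt (Real.log X) := by
          gcongr
      _ = 9 * C * X * ((1 + A + Real.log h) / Real.sqrt (Real.log X)) := by
          push_cast
          ring
      _ ≤ (9 * C + 1) * X * ((1 + A + Real.log h) / Real.sqrt (Real.log X)) := by
          gcongr
          linarith
  · have h1 : Set.ncard {x : ℕ | X ≤ x ∧ x < 2 * X ∧ ∃ a : ℕ, a ≤ A ∧ ∃ n : ℤ,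
        |n - 3 ^ a * (σ * (x : ℤ))| ≤ h ∧ T^[K] n ≠ T^[K] (σ * (x : ℤ))} ≤ X := by
      have h2 : Set.ncard {x : ℕ | X ≤ x ∧ x < 2 * X ∧ ∃ a : ℕ, a ≤ A ∧ ∃ n : ℤ,
          |n - 3 ^ a * (σ * (x : ℤ))| ≤ h ∧ T^[K] n ≠ T^[K] (σ * (x : ℤ))} ≤
          (Finset.Ico X (2 * X)).card := by
        rw [← Set.ncard_coe_finset]
        apply Set.ncard_le_ncard _ (Finset.finite_toSet _)
        rintro x ⟨h3, h4, _⟩
        rw [Finset.mem_coe, Finset.mem_Ico]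
        exact ⟨h3, h4⟩
      rw [Nat.card_Ico] at h2
      omega
    have h2 : 1 ≤ (1 + A + Real.log h) / Real.sqrt (Real.log X) := by
      rw [one_le_div hsq]
      apply Real.sqrt_le_iff.2 ⟨by linarith, ?_⟩
      have h3 : Real.log X ≤ Real.log h := by
        apply Real.log_le_log hX0
        exact_mod_cast hc.le
      nlinarith
    have h3 : (Set.ncard {x : ℕ | X ≤ x ∧ x < 2 * X ∧ ∃ a : ℕ, a ≤ A ∧ ∃ n : ℤ,
        |n - 3 ^ a * (σ * (x : ℤ))| ≤ h ∧ T^[K] n ≠ T^[K] (σ * (x : ℤ))} : ℝ) ≤ X := by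
      exact_mod_cast h1
    calc (Set.ncard {x : ℕ | X ≤ x ∧ x < 2 * X ∧ ∃ a : ℕ, a ≤ A ∧ ∃ n : ℤ,
        |n - 3 ^ a * (σ * (x : ℤ))| ≤ h ∧ T^[K] n ≠ T^[K] (σ * (x : ℤ))} : ℝ) ≤ X := h3
      _ = 1 * X * 1 := by ring
      _ ≤ (9 * C + 1) * X * ((1 + A + Real.log h) / Real.sqrt (Real.log X)) := by
          gcongr
          linarith

/-- **Windows.** For all but `C X (1 + A + log h) / √(log X)` of the `x` in `[X, 2X)`, all integers within `h`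
of one of `σ x, 3 σ x, …, 3 ^ A σ x` have the same iterate of order `⌊log₂ (2 X) / 2⌋` as `σ x`. -/
theorem wide : ∃ C : ℝ, 0 < C ∧ ∀ (σ : ℤ) (A X h : ℕ), |σ| = 1 → 2 ≤ X → 1 ≤ h →
    (Set.ncard {x : ℕ | X ≤ x ∧ x < 2 * X ∧ ∃ a : ℕ, a ≤ A ∧ ∃ n : ℤ,
      |n - 3 ^ a * (σ * (x : ℤ))| ≤ h ∧
      T^[Nat.log 2 (2 * X) / 2] n ≠ T^[Nat.log 2 (2 * X) / 2] (σ * (x : ℤ))} : ℝ) ≤
      C * X * ((1 + A + Real.log h) / Real.sqrt (Real.log X)) := by
  obtain ⟨C₀, hC₀, hPH⟩ := cnt_phantom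
  exact wide_of hC₀ hPH

end Pool.Agent.MB86
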