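import Mathlib
import Pool.Agent.MB86.Wide

set_option autoImplicit false

/-!
Windows around all points `2 ^ i 3 ^ j x`, `|i|, |j| ≤ A`, under the `3x+1` map.
-/

namespace Pool.Agent.MB86

open Pool.Agent.Helper14 (T)
open Pool.Agent.Helper86.CollatzInt
open Pool.Agent.Helper86.CollatzChain

theorem T_two_pow (b : ℕ) (n : ℤ) : T^[b] (2 ^ b * n) = n := by
  induction b with
  | zero => simp
  | succ b ih =>
    rw [Function.iterate_succ_apply, show (2 : ℤ) ^ (b + 1) * n = 2 * (2 ^ b * n) by ring, T_even, ih]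

theorem merge_two_pow {K b : ℕ} {n m : ℤ} (h : T^[K] (2 ^ b * n) = T^[K] m) :
    T^[K] n = T^[b + K] m := by
  rw [Function.iterate_add_apply, ← h, ← Function.iterate_add_apply, add_comm,
    Function.iterate_add_apply, T_two_pow]

theorem fib {A b0 : ℕ} (h1 : 3 ^ A < 2 ^ (b0 + 1)) {x y : ℕ} (hp : x % 2 = y % 2)
    (h : 2 ^ b0 * x / 3 ^ A = 2 ^ b0 * y / 3 ^ A) : x = y := by
  by_contra hne
  wlog hlt : x < y generalizing x y
  · exact this hp.symm h.symm (Ne.symm hne) (by omega)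
  have h2 : x + 2 ≤ y := by omega
  have h3 : 2 ^ b0 * (x + 2) ≤ 2 ^ b0 * y := Nat.mul_le_mul_left _ h2
  have h4 : 3 ^ A * (2 ^ b0 * x / 3 ^ A) ≤ 2 ^ b0 * x := Nat.mul_div_le _ _
  have h5 : 2 ^ b0 * y < 3 ^ A * (2 ^ b0 * y / 3 ^ A + 1) :=
    Nat.lt_mul_div_succ _ (by positivity)
  rw [← h, mul_add, mul_one] at h5
  rw [pow_succ] at h1
  rw [mul_add] at h3
  omega

/-- the key estimate -/
theorem near {A b0 p q p' q' h x : ℕ} {σ n : ℤ} (hσ : |σ| = 1) (hb1 : A ≤ b0)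
    (hb2 : b0 ≤ 2 * A) (hp : p ≤ A) (hq : q ≤ A) (hp' : p' ≤ A) (hq' : q' ≤ A) (hh : 1 ≤ h)
    (hn : |2 ^ p * 3 ^ q * n - 2 ^ p' * 3 ^ q' * (σ * (x : ℤ))| ≤ 2 ^ p * 3 ^ q * h) :
    |2 ^ (b0 + p - p') * n - 3 ^ (A + q' - q) * (σ * ((2 ^ b0 * x / 3 ^ A : ℕ) : ℤ))| ≤
      ((2 * 9 ^ A * h : ℕ) : ℤ) := by
  obtain ⟨b, hb⟩ : ∃ b, b + p' = b0 + p := ⟨b0 + p - p', by omega⟩
  obtain ⟨a, ha⟩ : ∃ a, a + q = A + q' := ⟨A + q' - q, by omega⟩
  have eb : b0 + p - p' = b := by omega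
  have ea : A + q' - q = a := by omega
  rw [eb, ea]
  obtain ⟨y, hy⟩ : ∃ y, y = 2 ^ b0 * x / 3 ^ A := ⟨_, rfl⟩
  obtain ⟨ρ, hρ⟩ : ∃ ρ, ρ = 2 ^ b0 * x % 3 ^ A := ⟨_, rfl⟩
  have h1 : 3 ^ A * y + ρ = 2 ^ b0 * x := by
    rw [hy, hρ]
    exact Nat.div_add_mod _ _
  have h2 : ρ < 3 ^ A := by
    rw [hρ]
    exact Nat.mod_lt _ (by positivity)
  rw [← hy]
  have h1' : (3 : ℤ) ^ A * y + ρ = 2 ^ b0 * x := by exact_mod_cast h1
  have h2' : (ρ : ℤ) < 3 ^ A := by exact_mod_cast h2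
  have h2'' : (0 : ℤ) ≤ ρ := Int.natCast_nonneg ρ
  have e1 : (2 : ℤ) ^ b * 2 ^ p' = 2 ^ b0 * 2 ^ p := by
    rw [← pow_add, ← pow_add, hb]
  have e2 : (3 : ℤ) ^ a * 3 ^ q = 3 ^ A * 3 ^ q' := by
    rw [← pow_add, ← pow_add, ha]
  have key : (2 : ℤ) ^ p' * 3 ^ q * (2 ^ b * n - 3 ^ a * (σ * (y : ℤ))) =
      2 ^ b0 * (2 ^ p * 3 ^ q * n - 2 ^ p' * 3 ^ q' * (σ * (x : ℤ))) +
        2 ^ p' * 3 ^ q' * (σ * (ρ : ℤ)) := by
    linear_combination (3 ^ q * n) * e1 - (2 ^ p' * σ * y) * e2 - (2 ^ p' * 3 ^ q' * σ) * h1'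
  have h3 : |(2 : ℤ) ^ p' * 3 ^ q * (2 ^ b * n - 3 ^ a * (σ * (y : ℤ)))| ≤
      2 ^ p' * 3 ^ q * (2 ^ b * h + 3 ^ a) := by
    rw [key]
    refine (abs_add_le _ _).trans ?_
    rw [abs_mul, abs_mul ((2 : ℤ) ^ p' * 3 ^ q'), abs_mul σ, hσ, one_mul, abs_of_nonneg h2'',
      abs_of_nonneg (show (0 : ℤ) ≤ 2 ^ b0 by positivity),
      abs_of_nonneg (show (0 : ℤ) ≤ 2 ^ p' * 3 ^ q' by positivity)]
    have h4 : (2 : ℤ) ^ b0 * |2 ^ p * 3 ^ q * n - 2 ^ p' * 3 ^ q' * (σ * (x : ℤ))| ≤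
        2 ^ b0 * (2 ^ p * 3 ^ q * h) := mul_le_mul_of_nonneg_left hn (by positivity)
    have h5 : (2 : ℤ) ^ p' * 3 ^ q' * ρ ≤ 2 ^ p' * 3 ^ q' * 3 ^ A :=
      mul_le_mul_of_nonneg_left h2'.le (by positivity)
    have e3 : (2 : ℤ) ^ b0 * (2 ^ p * 3 ^ q * h) + 2 ^ p' * 3 ^ q' * 3 ^ A =
        2 ^ p' * 3 ^ q * (2 ^ b * h + 3 ^ a) := by
      linear_combination (-(3 ^ q * (h : ℤ))) * e1 - (2 ^ p') * e2
    linarith
  rw [abs_mul, abs_of_nonneg (show (0 : ℤ) ≤ 2 ^ p' * 3 ^ q by positivity)] at h3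
  have h4 := le_of_mul_le_mul_left h3 (by positivity)
  refine h4.trans ?_
  have h5 : (2 : ℤ) ^ b ≤ 9 ^ A := by
    calc (2 : ℤ) ^ b ≤ 2 ^ (3 * A) := pow_le_pow_right₀ (by norm_num) (by omega)
      _ = 8 ^ A := by
          rw [pow_mul]
          norm_num
      _ ≤ 9 ^ A := pow_le_pow_left₀ (by norm_num) (by norm_num) A
  have h6 : (3 : ℤ) ^ a ≤ 9 ^ A := by
    calc (3 : ℤ) ^ a ≤ 3 ^ (2 * A) := pow_le_pow_right₀ (by norm_num) (by omega)
      _ = 9 ^ A := by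
          rw [pow_mul]
          norm_num
  have h7 : (1 : ℤ) ≤ h := by exact_mod_cast hh
  have h8 : (0 : ℤ) < 9 ^ A := by positivity
  push_cast
  nlinarith

theorem lattice_of {C₀ : ℝ} (hC₀ : 0 < C₀) (hPH : PH C₀) : ∃ C : ℝ, 0 < C ∧
    ∀ (σ : ℤ) (A X h : ℕ), |σ| = 1 → 2 ≤ X → 1 ≤ h →
    (Set.ncard {x : ℕ | X ≤ x ∧ x < 2 * X ∧ ∃ p q p' q' : ℕ, p ≤ A ∧ q ≤ A ∧ p' ≤ A ∧ q' ≤ A ∧
      ∃ n : ℤ, |2 ^ p * 3 ^ q * n - 2 ^ p' * 3 ^ q' * (σ * (x : ℤ))| ≤ 2 ^ p * 3 ^ q * h ∧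
      ∀ k l : ℕ, T^[k] n ≠ T^[l] (σ * (x : ℤ))} : ℝ) ≤
      C * X * ((1 + A + Real.log h) / Real.sqrt (Real.log X)) := by
  classical
  obtain ⟨C, hC, hm⟩ := main_cntA hC₀ hPH
  refine ⟨90 * C + 10, by positivity, fun σ A X h hσ hX hh => ?_⟩
  have hX1 : (1 : ℝ) < X := by exact_mod_cast (show 1 < X by omega)
  have hX0 : (0 : ℝ) < X := by linarith
  have hlog : 0 < Real.log X := Real.log_pos hX1
  have hsq : 0 < Real.sqrt (Real.log X) := Real.sqrt_pos.2 hlog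
  have hh1 : (1 : ℝ) ≤ h := by exact_mod_cast hh
  have hlogh : 0 ≤ Real.log h := Real.log_nonneg hh1
  have hA0 : (0 : ℝ) ≤ A := Nat.cast_nonneg A
  obtain ⟨K, hK⟩ : ∃ K, K = Nat.log 2 (2 * X) / 2 := ⟨_, rfl⟩
  have hKe := log_est hX
  rw [← hK] at hKe
  obtain ⟨h₁, hh₁⟩ : ∃ h₁, h₁ = 2 * 9 ^ A * h := ⟨_, rfl⟩
  have hh₁1 : 1 ≤ h₁ := by
    rw [hh₁]
    have : 0 < 2 * 9 ^ A * h := by positivity
    omega
  have hlog1 : Real.log h₁ ≤ 1 + 3 * A + Real.log h := by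
    rw [hh₁]
    push_cast
    rw [Real.log_mul (by positivity) (by positivity), Real.log_mul (by norm_num) (by positivity),
      Real.log_pow]
    have h5 := Real.log_two_lt_d9
    have h6 : Real.log 9 ≤ 3 := by
      have e : (9 : ℝ) = 3 ^ 2 := by norm_num
      rw [e, Real.log_pow]
      have h7 : Real.log 3 ≤ 3 / 2 := by
        have h8 : Real.log 3 ≤ Real.log 4 := Real.log_le_log (by norm_num) (by norm_num)
        have h9 : Real.log 4 = 2 * Real.log 2 := by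
          rw [show (4 : ℝ) = 2 ^ 2 by norm_num, Real.log_pow]
          norm_num
        linarith
      push_cast
      linarith
    have h7 : (A : ℝ) * Real.log 9 ≤ A * 3 := mul_le_mul_of_nonneg_left h6 hA0
    linarith
  have hpos : 0 ≤ (1 + A + Real.log h) / Real.sqrt (Real.log X) := by positivity
  obtain ⟨B, hB⟩ : ∃ B : Set ℕ, B = {x : ℕ | X ≤ x ∧ x < 2 * X ∧ ∃ p q p' q' : ℕ, p ≤ A ∧ q ≤ A ∧
      p' ≤ A ∧ q' ≤ A ∧ ∃ n : ℤ, |2 ^ p * 3 ^ q * n - 2 ^ p' * 3 ^ q' * (σ * (x : ℤ))| ≤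
      2 ^ p * 3 ^ q * h ∧ ∀ k l : ℕ, T^[k] n ≠ T^[l] (σ * (x : ℤ))} := ⟨_, rfl⟩
  rw [← hB]
  have hBfin : B.Finite := by
    rw [hB]
    exact (Set.finite_Iio (2 * X)).subset fun _ hn => hn.2.1
  rcases le_or_gt h₁ X with hc | hc
  · obtain ⟨b0, hb0⟩ : ∃ b0, b0 = Nat.log 2 (3 ^ A) := ⟨_, rfl⟩
    have hbA : 2 ^ b0 ≤ 3 ^ A := by
      rw [hb0]
      exact Nat.pow_log_le_self 2 (by positivity)
    have hbB : 3 ^ A < 2 ^ (b0 + 1) := by
      rw [hb0]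
      exact Nat.lt_pow_succ_log_self (by norm_num) _
    have hb1 : A ≤ b0 := by
      have h1 : Nat.log 2 (2 ^ A) ≤ Nat.log 2 (3 ^ A) :=
        Nat.log_mono_right (Nat.pow_le_pow_left (by norm_num) A)
      rw [Nat.log_pow (by norm_num)] at h1
      omega
    have hb2 : b0 ≤ 2 * A := by
      have h1 : Nat.log 2 (3 ^ A) ≤ Nat.log 2 (2 ^ (2 * A)) := by
        apply Nat.log_mono_right
        rw [pow_mul]
        exact Nat.pow_le_pow_left (by norm_num) A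
      rw [Nat.log_pow (by norm_num)] at h1
      omega
    have h1 := hm (2 * A) (3 * X) (3 ^ (2 * A) * h₁ + h₁) K (by omega) (by omega) hKe.1 (by omega)
    obtain ⟨G, hG⟩ : ∃ G : Set ℤ, G = {t : ℤ | |t| ≤ ((3 * X : ℕ) : ℤ) ∧
      Bad K (SA (2 * A) (3 ^ (2 * A) * h₁ + h₁)) t} := ⟨_, rfl⟩
    rw [← hG] at h1
    have hGfin : G.Finite := by
      rw [hG]
      apply (Set.finite_Icc (-((3 * X : ℕ) : ℤ)) ((3 * X : ℕ) : ℤ)).subset
      rintro t ⟨ht, _⟩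
      exact abs_le.1 ht
    have hmem : ∀ x ∈ B, σ * ((2 ^ b0 * x / 3 ^ A : ℕ) : ℤ) - h₁ ∈ G := by
      intro x hx
      rw [hB] at hx
      obtain ⟨h3, h4, p, q, p', q', hp, hq, hp', hq', n, h6, h7⟩ := hx
      rw [hG]
      have h8 : 2 ^ b0 * x / 3 ^ A ≤ x := by
        apply Nat.div_le_of_le_mul
        exact Nat.mul_le_mul_right x hbA
      refine ⟨abs_le.2 ?_, ?_⟩
      · generalize 2 ^ b0 * x / 3 ^ A = y at h8
        rcases eq_or_eq_neg_of_abs_eq hσ with rfl | rfl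
        · constructor <;> omega
        · constructor <;> omega
      · by_contra hb
        have h9 := near hσ hb1 hb2 hp hq hp' hq' hh h6
        have h10 : |(2 : ℤ) ^ 0 * 3 ^ 0 * (σ * (x : ℤ)) - 2 ^ 0 * 3 ^ 0 * (σ * (x : ℤ))| ≤
            2 ^ 0 * 3 ^ 0 * (h : ℤ) := by
          rw [sub_self, abs_zero]
          positivity
        have h11 := near hσ hb1 hb2 (Nat.zero_le A) (Nat.zero_le A) (Nat.zero_le A)
          (Nat.zero_le A) hh h10
        rw [← hh₁] at h9 h11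
        have h12 := merge_two_pow (not_bad_two hb (show A + q' - q ≤ 2 * A by omega) h9)
        have h13 := merge_two_pow (not_bad_two hb (show A + 0 - 0 ≤ 2 * A by omega) h11)
        apply h7 (b0 + 0 - 0 + K) (b0 + p - p' + K)
        rw [Function.iterate_add_apply, h12, Function.iterate_add_apply T (b0 + p - p') K (σ * (x : ℤ)),
          h13, ← Function.iterate_add_apply, ← Function.iterate_add_apply]
        have e : b0 + 0 - 0 + (b0 + p - p' + K) = b0 + p - p' + (b0 + 0 - 0 + K) := by omega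
        rw [e]
    have h2 : B.ncard ≤ 2 * G.ncard := by
      have e : B = {x ∈ B | x % 2 = 0} ∪ {x ∈ B | x % 2 = 1} := by
        ext x
        simp only [Set.mem_union, Set.mem_ofPred_eq]
        constructor
        · intro hx
          rcases Nat.mod_two_eq_zero_or_one x with h3 | h3
          · exact Or.inl ⟨hx, h3⟩
          · exact Or.inr ⟨hx, h3⟩
        · rintro (h3 | h3)
          · exact h3.1
          · exact h3.1
      have h4 : ∀ r : ℕ, {x ∈ B | x % 2 = r}.ncard ≤ G.ncard := by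
        intro r
        apply Set.ncard_le_ncard_of_injOn
          (fun x : ℕ => σ * ((2 ^ b0 * x / 3 ^ A : ℕ) : ℤ) - h₁) (ht := hGfin)
        · rintro x ⟨hx, _⟩
          exact hmem x hx
        · rintro x ⟨_, hx⟩ y ⟨_, hy⟩ hxy
          simp only at hxy
          have h5 : 2 ^ b0 * x / 3 ^ A = 2 ^ b0 * y / 3 ^ A := by
            generalize 2 ^ b0 * x / 3 ^ A = x' at hxy ⊢
            generalize 2 ^ b0 * y / 3 ^ A = y' at hxy ⊢
            rcases eq_or_eq_neg_of_abs_eq hσ with rfl | rfl <;> omega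
          exact fib hbB (hx.trans hy.symm) h5
      rw [e]
      refine (Set.ncard_union_le _ _).trans ?_
      have := h4 0
      have := h4 1
      omega
    have h3 : (B.ncard : ℝ) ≤ 2 * (C * ((3 * X : ℕ) : ℝ) * (1 + ((2 * A : ℕ) : ℝ) +
        Real.log ((3 ^ (2 * A) * h₁ + h₁ : ℕ) : ℝ)) / Real.sqrt (Real.log ((3 * X : ℕ) : ℝ))) := by
      have h4 : (B.ncard : ℝ) ≤ 2 * G.ncard := by exact_mod_cast h2
      linarith
    refine h3.trans ?_
    have h4 : Real.sqrt (Real.log X) ≤ Real.sqrt (Real.log ((3 * X : ℕ) : ℝ)) := by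
      apply Real.sqrt_le_sqrt
      apply Real.log_le_log hX0
      push_cast
      linarith
    have h5 : 1 + ((2 * A : ℕ) : ℝ) + Real.log ((3 ^ (2 * A) * h₁ + h₁ : ℕ) : ℝ) ≤
        15 * (1 + A + Real.log h) := by
      refine (log_R (2 * A) hh₁1).trans ?_
      push_cast
      linarith
    have h6 : 0 ≤ 1 + ((2 * A : ℕ) : ℝ) + Real.log ((3 ^ (2 * A) * h₁ + h₁ : ℕ) : ℝ) := by
      have : 0 ≤ Real.log ((3 ^ (2 * A) * h₁ + h₁ : ℕ) : ℝ) := Real.log_natCast_nonneg _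
      positivity
    calc 2 * (C * ((3 * X : ℕ) : ℝ) * (1 + ((2 * A : ℕ) : ℝ) +
        Real.log ((3 ^ (2 * A) * h₁ + h₁ : ℕ) : ℝ)) / Real.sqrt (Real.log ((3 * X : ℕ) : ℝ)))
        ≤ 2 * (C * ((3 * X : ℕ) : ℝ) * (15 * (1 + A + Real.log h)) / Real.sqrt (Real.log X)) := by
          gcongr
      _ = 90 * C * X * ((1 + A + Real.log h) / Real.sqrt (Real.log X)) := by
          push_cast
          ring
      _ ≤ (90 * C + 10) * X * ((1 + A + Real.log h) / Real.sqrt (Real.log X)) := by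
          gcongr
          linarith
  · have h1 : B.ncard ≤ X := by
      have h2 : B.ncard ≤ (Finset.Ico X (2 * X)).card := by
        rw [← Set.ncard_coe_finset]
        apply Set.ncard_le_ncard _ (Finset.finite_toSet _)
        intro x hx
        rw [hB] at hx
        rw [Finset.mem_coe, Finset.mem_Ico]
        exact ⟨hx.1, hx.2.1⟩
      rw [Nat.card_Ico] at h2
      omega
    have h2 : 1 ≤ 10 * ((1 + A + Real.log h) / Real.sqrt (Real.log X)) := by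
      rw [mul_div_assoc', one_le_div hsq]
      have h3 : Real.log X ≤ Real.log h₁ := by
        apply Real.log_le_log hX0
        exact_mod_cast hc.le
      apply Real.sqrt_le_iff.2 ⟨by positivity, ?_⟩
      have h4 : Real.log X ≤ 10 * (1 + A + Real.log h) := by linarith
      have h5 : 1 ≤ 10 * (1 + A + Real.log h) := by linarith
      nlinarith
    have h3 : (B.ncard : ℝ) ≤ X := by exact_mod_cast h1
    calc (B.ncard : ℝ) ≤ X := h3
      _ = X * 1 := by ring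
      _ ≤ X * (10 * ((1 + A + Real.log h) / Real.sqrt (Real.log X))) := by gcongr
      _ = 10 * X * ((1 + A + Real.log h) / Real.sqrt (Real.log X)) := by ring
      _ ≤ (90 * C + 10) * X * ((1 + A + Real.log h) / Real.sqrt (Real.log X)) := by
          gcongr
          linarith

/-- **Lattice.** For all but `C X (1 + A + log h) / √(log X)` of the `x` in `[X, 2X)`, all integers within `h`
of one of the points `2 ^ i 3 ^ j σ x`, `|i|, |j| ≤ A`, lie in the grand orbit of `σ x`. -/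
theorem lattice : ∃ C : ℝ, 0 < C ∧ ∀ (σ : ℤ) (A X h : ℕ), |σ| = 1 → 2 ≤ X → 1 ≤ h →
    (Set.ncard {x : ℕ | X ≤ x ∧ x < 2 * X ∧ ∃ p q p' q' : ℕ, p ≤ A ∧ q ≤ A ∧ p' ≤ A ∧ q' ≤ A ∧
      ∃ n : ℤ, |2 ^ p * 3 ^ q * n - 2 ^ p' * 3 ^ q' * (σ * (x : ℤ))| ≤ 2 ^ p * 3 ^ q * h ∧
      ∀ k l : ℕ, T^[k] n ≠ T^[l] (σ * (x : ℤ))} : ℝ) ≤
      C * X * ((1 + A + Real.log h) / Real.sqrt (Real.log X)) := by
  obtain ⟨C₀, hC₀, hPH⟩ := cnt_phantom
  exact lattice_of hC₀ hPH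

end Pool.Agent.MB86
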