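import Pool.Agent.MB86.Orbits

/-!
# MB86: the number of orbits which meet a window, on average over ANY interval
-/

set_option autoImplicit false

namespace Pool.Agent.MB86

open Pool.Agent.Helper14 (T)
open Pool.Agent.Helper86.CollatzInt
open Pool.Agent.Helper86.CollatzChain
open Pool.Agent.Helper86.CollatzRate

private theorem ai_sum (k a : ℕ) (s : ℕ × ℤ) (c : ℤ) :
    ∑ i ∈ Finset.range (2 ^ k), w k s (3 ^ a * i + c) = 2 ^ k * u k s := by
  have : NeZero (2 ^ k) := ⟨by positivity⟩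
  rw [← sum_w k s, ← sum_affine (w_periodic k s) (3 ^ a) c (unit3 a k)]

private theorem ai_blocks (k q a : ℕ) (s : ℕ × ℤ) (c : ℤ) :
    ∑ i ∈ Finset.range (2 ^ k * q), w k s (3 ^ a * i + c) = q * (2 ^ k * u k s) := by
  induction q with
  | zero => simp
  | succ q ih =>
    rw [Nat.mul_succ, Finset.sum_range_add, ih]
    have h1 : ∑ x ∈ Finset.range (2 ^ k), w k s (3 ^ a * ((2 ^ k * q + x : ℕ) : ℤ) + c) =
        ∑ i ∈ Finset.range (2 ^ k), w k s (3 ^ a * i + (3 ^ a * ((2 ^ k * q : ℕ) : ℤ) + c)) := by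
      apply Finset.sum_congr rfl
      intro i _
      congr 1
      push_cast
      ring
    rw [h1, ai_sum]
    push_cast
    ring

/-- the number of `i` at which an event happens -/
private theorem ai_card (k q a : ℕ) (s : ℕ × ℤ) (c : ℤ) :
    (((Finset.range (q * 2 ^ k)).filter
      (fun i : ℕ => w k s (3 ^ a * (i : ℤ) + c) ≠ 0)).card : ℝ) = (q * 2 ^ k) * u k s := by
  classical
  have h2 : (((Finset.range (q * 2 ^ k)).filter
      (fun i : ℕ => w k s (3 ^ a * (i : ℤ) + c) ≠ 0)).card : ℝ) =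
      ∑ i ∈ Finset.range (2 ^ k * q), w k s (3 ^ a * i + c) := by
    rw [Finset.card_filter, show q * 2 ^ k = 2 ^ k * q by ring]
    push_cast
    apply Finset.sum_congr rfl
    intro i _
    rcases w_zero_or_one k s (3 ^ a * (i : ℤ) + c) with h | h
    · simp [h]
    · simp [h]
  rw [h2, ai_blocks]
  ring

/-- the number of values on a path -/
private theorem ai_path (f : ℕ → ℤ) (A : ℕ) :
    ((Finset.range (A + 1)).image f).card ≤
      1 + ((Finset.range A).filter fun a => f a ≠ f (a + 1)).card := by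
  induction A with
  | zero => simp
  | succ A ih =>
    rw [Finset.range_add_one (n := A + 1), Finset.image_insert]
    by_cases h : f A = f (A + 1)
    · have h1 : f (A + 1) ∈ (Finset.range (A + 1)).image f := by
        rw [← h]
        exact Finset.mem_image_of_mem f (Finset.mem_range.2 (Nat.lt_succ_self A))
      rw [Finset.insert_eq_of_mem h1]
      refine ih.trans (Nat.add_le_add_left (Finset.card_le_card ?_) 1)
      exact Finset.filter_subset_filter _ (Finset.range_mono (Nat.le_succ A))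
    · refine (Finset.card_insert_le _ _).trans ?_
      have h2 : ((Finset.range (A + 1)).filter fun a => f a ≠ f (a + 1)).card =
          ((Finset.range A).filter fun a => f a ≠ f (a + 1)).card + 1 := by
        rw [Finset.range_add_one, Finset.filter_insert, if_pos h, Finset.card_insert_of_notMem]
        intro hmem
        exact absurd (Finset.mem_range.1 (Finset.mem_filter.1 hmem).1) (lt_irrefl A)
      rw [h2]
      omega

/-- the number of values on a tree -/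
private theorem ai_tree (f : ℕ → ℤ) (A : ℕ) (S : Finset (ℕ × ℤ)) (g : ℕ × ℤ → ℤ)
    (hS : ∀ s ∈ S, s.1 ≤ A) :
    (S.image g).card ≤ 1 + ((Finset.range A).filter fun a => f a ≠ f (a + 1)).card +
      (S.filter fun s => g s ≠ f s.1).card := by
  classical
  have h1 : S.image g ⊆ ((Finset.range (A + 1)).image f) ∪
      ((S.filter fun s => g s ≠ f s.1).image g) := by
    intro v hv
    obtain ⟨s, hs, rfl⟩ := Finset.mem_image.1 hv
    by_cases h : g s = f s.1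
    · apply Finset.mem_union_left
      rw [h]
      exact Finset.mem_image_of_mem f (Finset.mem_range.2 (Nat.lt_succ_of_le (hS s hs)))
    · apply Finset.mem_union_right
      exact Finset.mem_image_of_mem g (Finset.mem_filter.2 ⟨hs, h⟩)
  refine (Finset.card_le_card h1).trans ((Finset.card_union_le _ _).trans ?_)
  exact add_le_add (ai_path f A) Finset.card_image_le

/-- The first moment of the number of positions, in any interval. -/
theorem cls_any : ∃ C : ℝ, 0 < C ∧ ∀ (K q A : ℕ) (M y : ℝ) (S : Finset (ℕ × ℤ)) (c : ℤ), 1 ≤ K →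
    Ok A M y S → (∑ i ∈ Finset.range (q * 2 ^ K), ((cls K S ((i : ℤ) + c) : ℝ) - 1)) ≤
      C * (q * 2 ^ K) * ((A : ℝ) + 1 + S.card + Phi y S) / Real.sqrt K := by
  classical
  obtain ⟨C, hC, hrate⟩ := rate
  refine ⟨2 * C, by positivity, ?_⟩
  intro k q A M₀ y S c hk hOk
  obtain ⟨-, -, -, -, hS⟩ := hOk
  set r : ℕ → ℤ := fun a => ⌈(3 : ℝ) ^ a * y⌉ with hr
  have hr1 : ∀ a, (3 : ℝ) ^ a * y ≤ r a := fun a => Int.le_ceil _
  have hr2 : ∀ a, (r a : ℝ) < 3 ^ a * y + 1 := fun a => Int.ceil_lt_add_one _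
  have hkpos : (0 : ℝ) < k := by exact_mod_cast hk
  have hsk : 0 < Real.sqrt k := Real.sqrt_pos.2 hkpos
  set R : Finset ℕ := Finset.range (q * 2 ^ k) with hR
  -- the events
  set E1 : ℕ → Finset ℕ := fun a => R.filter
    (fun i : ℕ => w k (1, r (a + 1) - 3 * r a) (3 ^ a * (i : ℤ) + (3 ^ a * c + r a)) ≠ 0) with hE1
  set E2 : ℕ × ℤ → Finset ℕ := fun s => R.filter
    (fun i : ℕ => w k (0, s.2 - r s.1) (3 ^ s.1 * (i : ℤ) + (3 ^ s.1 * c + r s.1)) ≠ 0) with hE2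
  set f : ℕ → ℕ → ℤ := fun i a => T^[k] (3 ^ a * ((i : ℤ) + c) + r a) with hf
  set g : ℕ → ℕ × ℤ → ℤ := fun i s => T^[k] (val s ((i : ℤ) + c)) with hg
  have hM : (0 : ℝ) ≤ (q * 2 ^ k) := by positivity
  have key1 : ∀ a, R.filter (fun i : ℕ => f i a ≠ f i (a + 1)) ⊆ E1 a := by
    intro a i hi
    rw [Finset.mem_filter] at hi
    refine Finset.mem_filter.2 ⟨hi.1, fun h0 => hi.2 ?_⟩
    have h5 := coalesce k 1 (r (a + 1) - 3 * r a) _ (3 ^ (a + 1) * ((i : ℤ) + c) + r (a + 1))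
      (by ring) h0
    simp only [hf]
    rw [← h5]
    congr 1
    ring
  have key2 : ∀ s ∈ S, R.filter (fun i : ℕ => g i s ≠ f i s.1) ⊆ E2 s := by
    intro s _ i hi
    rw [Finset.mem_filter] at hi
    refine Finset.mem_filter.2 ⟨hi.1, fun h0 => hi.2 ?_⟩
    have h5 := coalesce k 0 (s.2 - r s.1) _ (val s ((i : ℤ) + c))
      (by unfold val; ring) h0
    simp only [hf, hg]
    rw [← h5]
    congr 1
    ring
  -- the sizes
  have c1 : ∀ a, ((E1 a).card : ℝ) ≤ (q * 2 ^ k) * (2 * C / Real.sqrt k) := by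
    intro a
    refine (ai_card k q a _ _).le.trans (mul_le_mul_of_nonneg_left ?_ hM)
    refine (hrate 1 (r (a + 1) - 3 * r a) k hk).trans ?_
    have hb : |((r (a + 1) - 3 * r a : ℤ) : ℝ)| ≤ 3 := by
      have e1 := hr1 a
      have e2 := hr2 a
      have e3 := hr1 (a + 1)
      have e4 := hr2 (a + 1)
      rw [pow_succ] at e3 e4
      push_cast
      rw [abs_le]
      constructor <;> nlinarith
    have hl : Real.log (1 + |((r (a + 1) - 3 * r a : ℤ) : ℝ)|) ≤ 2 := by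
      have h1 : Real.log (1 + |((r (a + 1) - 3 * r a : ℤ) : ℝ)|) ≤ Real.log 4 := by
        apply Real.log_le_log (by positivity)
        linarith
      have h2 : Real.log 4 = 2 * Real.log 2 := by
        rw [show (4 : ℝ) = 2 ^ 2 by norm_num, Real.log_pow]
        norm_num
      have h3 := Real.log_two_lt_d9
      linarith
    have h6 : Real.sqrt ((1 + ((1 : ℕ) : ℝ) ^ 2 +
        Real.log (1 + |((r (a + 1) - 3 * r a : ℤ) : ℝ)|)) / k) ≤ 2 / Real.sqrt k := by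
      rw [Real.sqrt_div' _ hkpos.le]
      apply div_le_div_of_nonneg_right _ hsk.le
      rw [show (2 : ℝ) = Real.sqrt 4 by
        rw [show (4 : ℝ) = 2 ^ 2 by norm_num, Real.sqrt_sq (by norm_num)]]
      apply Real.sqrt_le_sqrt
      rw [Nat.cast_one]
      linarith
    calc C * Real.sqrt ((1 + ((1 : ℕ) : ℝ) ^ 2 +
          Real.log (1 + |((r (a + 1) - 3 * r a : ℤ) : ℝ)|)) / k)
        ≤ C * (2 / Real.sqrt k) := mul_le_mul_of_nonneg_left h6 hC.le
      _ = 2 * C / Real.sqrt k := by ring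
  have c2 : ∀ s ∈ S, ((E2 s).card : ℝ) ≤
      (q * 2 ^ k) * (C * (1 + Real.sqrt (ee y s)) / Real.sqrt k) := by
    intro s hs
    refine (ai_card k q s.1 _ _).le.trans (mul_le_mul_of_nonneg_left ?_ hM)
    refine (hrate 0 (s.2 - r s.1) k hk).trans ?_
    have h0 := (hS s hs).2.1
    have h1 : (0 : ℤ) ≤ s.2 - r s.1 := by
      have h2 : r s.1 ≤ s.2 := by
        apply Int.ceil_le.2
        unfold ee at h0
        linarith
      omega
    have h3 : |((s.2 - r s.1 : ℤ) : ℝ)| ≤ ee y s := by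
      rw [abs_of_nonneg (by exact_mod_cast h1)]
      unfold ee
      push_cast
      linarith [hr1 s.1]
    have h6 : Real.sqrt ((1 + ((0 : ℕ) : ℝ) ^ 2 +
        Real.log (1 + |((s.2 - r s.1 : ℤ) : ℝ)|)) / k) ≤
        (1 + Real.sqrt (ee y s)) / Real.sqrt k := by
      rw [Real.sqrt_div' _ hkpos.le]
      apply div_le_div_of_nonneg_right _ hsk.le
      have h7 : Real.log (1 + |((s.2 - r s.1 : ℤ) : ℝ)|) ≤ ee y s := by
        have h8 := Real.log_le_sub_one_of_pos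
          (show (0 : ℝ) < 1 + |((s.2 - r s.1 : ℤ) : ℝ)| by positivity)
        linarith
      apply Real.sqrt_le_iff.2
      have h9 := Real.sq_sqrt h0
      have h10 := Real.sqrt_nonneg (ee y s)
      constructor
      · linarith
      · rw [Nat.cast_zero]
        nlinarith
    calc C * Real.sqrt ((1 + ((0 : ℕ) : ℝ) ^ 2 +
          Real.log (1 + |((s.2 - r s.1 : ℤ) : ℝ)|)) / k)
        ≤ C * ((1 + Real.sqrt (ee y s)) / Real.sqrt k) := mul_le_mul_of_nonneg_left h6 hC.le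
      _ = C * (1 + Real.sqrt (ee y s)) / Real.sqrt k := by ring
  -- the sum
  have hsum : ∀ i ∈ R, ((((S.image fun s => T^[k] (val s ((i : ℤ) + c))).card : ℝ)) -
      1) ≤ (∑ a ∈ Finset.range A, if f i a ≠ f i (a + 1) then (1 : ℝ) else 0) +
        ∑ s ∈ S, if g i s ≠ f i s.1 then (1 : ℝ) else 0 := by
    intro i _
    have h1 := ai_tree (f i) A S (g i) fun s hs => (hS s hs).1
    rw [Finset.card_filter, Finset.card_filter] at h1
    have h2 : (((S.image (g i)).card : ℕ) : ℝ) ≤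
        ((1 + (∑ a ∈ Finset.range A, if f i a ≠ f i (a + 1) then 1 else 0) +
          ∑ s ∈ S, if g i s ≠ f i s.1 then 1 else 0 : ℕ) : ℝ) := by exact_mod_cast h1
    push_cast at h2
    have h3 : (S.image fun s => T^[k] (val s ((i : ℤ) + c))) = S.image (g i) := rfl
    rw [h3]
    linarith
  refine (Finset.sum_le_sum hsum).trans ?_
  rw [Finset.sum_add_distrib, Finset.sum_comm, Finset.sum_comm (s := R) (t := S)]
  have t1 : ∀ a, (∑ i ∈ R, if f i a ≠ f i (a + 1) then (1 : ℝ) else 0) ≤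
      (q * 2 ^ k) * (2 * C / Real.sqrt k) := by
    intro a
    refine le_trans ?_ (c1 a)
    have h1 : (((R.filter fun i : ℕ => f i a ≠ f i (a + 1)).card : ℕ) : ℝ) ≤ (E1 a).card := by
      exact_mod_cast Finset.card_le_card (key1 a)
    rw [Finset.card_filter] at h1
    push_cast at h1
    exact h1
  have t2 : ∀ s ∈ S, (∑ i ∈ R, if g i s ≠ f i s.1 then (1 : ℝ) else 0) ≤
      (q * 2 ^ k) * (C * (1 + Real.sqrt (ee y s)) / Real.sqrt k) := by
    intro s hs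
    refine le_trans ?_ (c2 s hs)
    have h1 : (((R.filter fun i : ℕ => g i s ≠ f i s.1).card : ℕ) : ℝ) ≤ (E2 s).card := by
      exact_mod_cast Finset.card_le_card (key2 s hs)
    rw [Finset.card_filter] at h1
    push_cast at h1
    exact h1
  have s1 := Finset.sum_le_sum (s := Finset.range A) fun a _ => t1 a
  have s2 := Finset.sum_le_sum t2
  rw [Finset.sum_const, Finset.card_range, nsmul_eq_mul] at s1
  have s3 : ∑ s ∈ S, ((q : ℝ) * 2 ^ k) * (C * (1 + Real.sqrt (ee y s)) / Real.sqrt k) =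
      (q * 2 ^ k) * (C * (S.card + Phi y S) / Real.sqrt k) := by
    rw [← Finset.mul_sum, ← Finset.sum_div, ← Finset.mul_sum, Finset.sum_add_distrib,
      Finset.sum_const, nsmul_eq_mul, mul_one]
    rfl
  rw [s3] at s2
  have h8 : (0 : ℝ) ≤ Phi y S := Phi_nonneg y S
  have h9 : (0 : ℝ) ≤ (S.card : ℝ) := by positivity
  have s4 : 0 ≤ ((q : ℝ) * 2 ^ k) * (C * (S.card + Phi y S) / Real.sqrt k) := by positivity
  have s5 : 0 ≤ 2 * C * ((q : ℝ) * 2 ^ k) / Real.sqrt k := by positivity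
  calc _ ≤ (A : ℝ) * ((q * 2 ^ k) * (2 * C / Real.sqrt k)) +
        (q * 2 ^ k) * (C * (S.card + Phi y S) / Real.sqrt k) := add_le_add s1 s2
    _ ≤ (A : ℝ) * ((q * 2 ^ k) * (2 * C / Real.sqrt k)) +
        2 * ((q * 2 ^ k) * (C * (S.card + Phi y S) / Real.sqrt k)) +
        2 * C * ((q : ℝ) * 2 ^ k) / Real.sqrt k := by linarith
    _ = 2 * C * (q * 2 ^ k) * ((A : ℝ) + 1 + S.card + Phi y S) / Real.sqrt k := by ring

/-- The sum of `cls - 1` over `[c, c + m)`. -/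
private noncomputable def ccI (K : ℕ) (c : ℤ) (m : ℕ) (S : Finset (ℕ × ℤ)) : ℝ :=
  ∑ i ∈ Finset.range m, ((cls K S ((i : ℤ) + c) : ℝ) - 1)

private theorem ccI_step (K : ℕ) (c : ℤ) (m : ℕ) (S : Finset (ℕ × ℤ)) :
    ccI (K + 1) (2 * c) (2 * m) S = ccI K c m (S.image (st 0)) + ccI K c m (S.image (st 1)) := by
  unfold ccI
  rw [sum_even_odd, Finset.sum_add_distrib]
  congr 1
  · apply Finset.sum_congr rfl
    intro i _
    have e : (((2 * i : ℕ) : ℤ) + 2 * c) = 2 * ((i : ℤ) + c) + 0 := by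
      push_cast
      ring
    rw [e, cls_step]
  · apply Finset.sum_congr rfl
    intro i _
    have e : (((2 * i + 1 : ℕ) : ℤ) + 2 * c) = 2 * ((i : ℤ) + c) + 1 := by
      push_cast
      ring
    rw [e, cls_step]

private theorem ccI_Av (K : ℕ) (c : ℤ) (m : ℕ) (k : ℕ) : ∀ (y : ℝ) (S : Finset (ℕ × ℤ)),
    ccI (K + k) (2 ^ k * c) (2 ^ k * m) S = 2 ^ k * Av k (fun _ S => ccI K c m S) y S := by
  induction k with
  | zero => intro y S; simp [Av]
  | succ k ih =>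
    intro y S
    have e : 2 ^ (k + 1) * m = 2 * (2 ^ k * m) := by ring
    have e' : 2 ^ (k + 1) * c = 2 * (2 ^ k * c) := by ring
    rw [← add_assoc, e, e', ccI_step, ih (((0 : ℤ) + y) / 2) (S.image (st 0)),
      ih (((1 : ℤ) + y) / 2) (S.image (st 1))]
    simp only [Av]
    ring

private theorem ccI_twoA {C : ℝ} (hC : 0 < C)
    (hPH : ∀ (K q A : ℕ) (M y : ℝ) (S : Finset (ℕ × ℤ)) (c : ℤ), 1 ≤ K →
      Ok A M y S → (∑ i ∈ Finset.range (q * 2 ^ K), ((cls K S ((i : ℤ) + c) : ℝ) - 1)) ≤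
        C * (q * 2 ^ K) * ((A : ℝ) + 1 + S.card + Phi y S) / Real.sqrt K)
    (A K k q : ℕ) (c : ℤ) (hK : 1 ≤ K) {M : ℝ} {S : Finset (ℕ × ℤ)} (h : Ok A M 0 S) :
    ccI (K + k) (2 ^ k * c) (2 ^ k * (q * 2 ^ K)) S ≤
      2 ^ k * (C * (q * 2 ^ K) / Real.sqrt K * (9721 * (A + k + 1) + 2 * (0.984 ^ k * Phi 0 S))) := by
  rw [ccI_Av K c (q * 2 ^ K) k 0 S]
  apply mul_le_mul_of_nonneg_left _ (by positivity)
  have h1 : Av k (fun _ S => ccI K c (q * 2 ^ K) S) 0 S ≤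
      Av k (fun y S => C * (q * 2 ^ K) / Real.sqrt K *
        (((A + k : ℕ) : ℝ) + 1 + S.card + Phi y S)) 0 S := by
    apply Av_mono k A M 0 S h
    intro y' S' h'
    refine (hPH K q _ _ _ _ c hK h').trans (le_of_eq ?_)
    ring
  refine h1.trans ?_
  rw [Av_lin]
  apply mul_le_mul_of_nonneg_left _ (by positivity)
  have h2 := Av_card_le k A M 0 S h
  have h3 := Av_Phi k A M 0 S h
  have h4 : (0 : ℝ) < 0.984 ^ k := by positivity
  have h5 : (0 : ℝ) ≤ k := Nat.cast_nonneg k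
  have h5' : (0 : ℝ) ≤ A := Nat.cast_nonneg A
  have h6 := Phi_nonneg 0 S
  have h7 : 0 ≤ (0.984 : ℝ) ^ k * Phi 0 S := by positivity
  have h8 : 0 ≤ (0.984 : ℝ) ^ k * (A + k + 1) := by positivity
  push_cast at h2 h3 ⊢
  nlinarith

/-- The first moment in an aligned interval. -/
private theorem ccI_main {C : ℝ} (hC : 0 < C)
    (hPH : ∀ (K q A : ℕ) (M y : ℝ) (S : Finset (ℕ × ℤ)) (c : ℤ), 1 ≤ K →
      Ok A M y S → (∑ i ∈ Finset.range (q * 2 ^ K), ((cls K S ((i : ℤ) + c) : ℝ) - 1)) ≤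
        C * (q * 2 ^ K) * ((A : ℝ) + 1 + S.card + Phi y S) / Real.sqrt K)
    (A h Kt q : ℕ) (c : ℤ) (hh : 1 ≤ h) (hc : 2 * (200 * (Nat.log 2 (h + 1) + 1)) ≤ Kt) :
    ccI Kt (2 ^ (200 * (Nat.log 2 (h + 1) + 1)) * c) (q * 2 ^ Kt) (SA A h) ≤
      C * 12000000 * (q * 2 ^ Kt) * ((1 + A + Real.log h) / Real.sqrt Kt) := by
  have hh1 : (1 : ℝ) ≤ h := by exact_mod_cast hh
  have hlogh := Real.log_nonneg hh1
  have hA0 : (0 : ℝ) ≤ A := Nat.cast_nonneg A
  obtain ⟨L, hL⟩ : ∃ L, L = Nat.log 2 (h + 1) + 1 := ⟨_, rfl⟩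
  rw [← hL] at hc ⊢
  have hL3 : (L : ℝ) ≤ 3 * (1 + Real.log h) := by
    rw [hL]
    exact L_le h hh
  have hL1' : 1 ≤ L := by omega
  have hL1 : (1 : ℝ) ≤ L := by exact_mod_cast hL1'
  have hLp : h + 1 ≤ 2 ^ L := by
    rw [hL]
    exact (Nat.lt_pow_succ_log_self (by norm_num) _).le
  obtain ⟨K, hK⟩ : ∃ K, Kt = K + 200 * L := ⟨Kt - 200 * L, by omega⟩
  have hK1 : 1 ≤ K := by omega
  have hK0 : (0 : ℝ) < K := by exact_mod_cast hK1
  have hKt0 : (0 : ℝ) < Kt := by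
    have : 0 < Kt := by omega
    exact_mod_cast this
  have hsq : 0 < Real.sqrt Kt := Real.sqrt_pos.2 hKt0
  have h1 := ccI_twoA hC hPH A K (200 * L) q c hK1 (ok_SA A h)
  have e1 : (2 : ℕ) ^ (200 * L) * (q * 2 ^ K) = q * 2 ^ Kt := by
    rw [hK, pow_add]
    ring
  rw [e1, ← hK] at h1
  have e2 : (2 : ℝ) ^ (200 * L) * (q * 2 ^ K) = q * 2 ^ Kt := by
    rw [hK, pow_add]
    ring
  have h3 : (0.984 : ℝ) ^ (200 * L) * Phi 0 (SA A h) ≤ A + 1 := by
    calc (0.984 : ℝ) ^ (200 * L) * Phi 0 (SA A h)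
        ≤ (0.984 : ℝ) ^ (200 * L) * (((A : ℝ) + 1) * ((h : ℝ) + 1) ^ 2) :=
          mul_le_mul_of_nonneg_left (Phi_SA A h) (by positivity)
      _ = ((A : ℝ) + 1) * ((0.984 : ℝ) ^ (200 * L) * ((h : ℝ) + 1) ^ 2) := by ring
      _ ≤ ((A : ℝ) + 1) * 1 := mul_le_mul_of_nonneg_left (pow_L hLp) (by linarith)
      _ = A + 1 := by ring
  have h4 : 9721 * ((A : ℝ) + ((200 * L : ℕ) : ℝ) + 1) +
      2 * ((0.984 : ℝ) ^ (200 * L) * Phi 0 (SA A h)) ≤ 6000000 * (1 + A + Real.log h) := by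
    push_cast
    nlinarith
  have h5 : 1 / Real.sqrt K ≤ 2 / Real.sqrt Kt := by
    rw [div_le_div_iff₀ (Real.sqrt_pos.2 hK0) hsq, one_mul]
    have : Real.sqrt Kt ≤ Real.sqrt (4 * K) := by
      apply Real.sqrt_le_sqrt
      have h6 : Kt ≤ 4 * K := by omega
      exact_mod_cast h6
    rw [Real.sqrt_mul (by norm_num)] at this
    have h6 : Real.sqrt 4 = 2 := by
      rw [show (4 : ℝ) = 2 ^ 2 by norm_num, Real.sqrt_sq (by norm_num)]
    rwa [h6] at this
  calc ccI Kt (2 ^ (200 * L) * c) (q * 2 ^ Kt) (SA A h)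
      ≤ 2 ^ (200 * L) * (C * (q * 2 ^ K) / Real.sqrt K *
        (9721 * ((A : ℝ) + ((200 * L : ℕ) : ℝ) + 1) +
        2 * ((0.984 : ℝ) ^ (200 * L) * Phi 0 (SA A h)))) := h1
    _ = C * (q * 2 ^ Kt) * (9721 * ((A : ℝ) + ((200 * L : ℕ) : ℝ) + 1) +
        2 * ((0.984 : ℝ) ^ (200 * L) * Phi 0 (SA A h))) * (1 / Real.sqrt K) := by
        rw [← e2]
        ring
    _ ≤ C * (q * 2 ^ Kt) * (6000000 * (1 + A + Real.log h)) * (2 / Real.sqrt Kt) := by
        have := Phi_nonneg 0 (SA A h)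
        gcongr
    _ = C * 12000000 * (q * 2 ^ Kt) * ((1 + A + Real.log h) / Real.sqrt Kt) := by ring

/-- The first moment in any interval of length `q 2 ^ K`. -/
private theorem ccI_all {C : ℝ} (hC : 0 < C)
    (hPH : ∀ (K q A : ℕ) (M y : ℝ) (S : Finset (ℕ × ℤ)) (c : ℤ), 1 ≤ K →
      Ok A M y S → (∑ i ∈ Finset.range (q * 2 ^ K), ((cls K S ((i : ℤ) + c) : ℝ) - 1)) ≤
        C * (q * 2 ^ K) * ((A : ℝ) + 1 + S.card + Phi y S) / Real.sqrt K)
    (A h Kt q : ℕ) (c : ℤ) (hq : 1 ≤ q) (hh : 1 ≤ h)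
    (hc : 2 * (200 * (Nat.log 2 (h + 1) + 1)) ≤ Kt) :
    ccI Kt c (q * 2 ^ Kt) (SA A h) ≤
      C * 24000000 * (q * 2 ^ Kt) * ((1 + A + Real.log h) / Real.sqrt Kt) := by
  obtain ⟨E, hE⟩ : ∃ E, E = 200 * (Nat.log 2 (h + 1) + 1) := ⟨_, rfl⟩
  have h0 : (0 : ℤ) < 2 ^ E := by positivity
  have hm := ccI_main hC hPH A h Kt (q + 1) (c / 2 ^ E) hh hc
  rw [← hE] at hm
  have h1 := Int.emod_nonneg c h0.ne'
  have h2 := Int.emod_lt_of_pos c h0
  have h3 := Int.mul_ediv_add_emod c (2 ^ E)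
  obtain ⟨r, hr⟩ : ∃ r : ℕ, (r : ℤ) = c % 2 ^ E := ⟨(c % 2 ^ E).toNat, Int.toNat_of_nonneg h1⟩
  have hrE : r ≤ 2 ^ Kt := by
    have h4 : (r : ℤ) < ((2 ^ E : ℕ) : ℤ) := by
      rw [hr]
      push_cast
      exact h2
    have h5 : r < 2 ^ E := by exact_mod_cast h4
    have h6 : 2 ^ E ≤ 2 ^ Kt := Nat.pow_le_pow_right (by norm_num) (by omega)
    omega
  have hne := SA_nonempty A h
  have hsub : ccI Kt c (q * 2 ^ Kt) (SA A h) ≤
      ccI Kt (2 ^ E * (c / 2 ^ E)) ((q + 1) * 2 ^ Kt) (SA A h) := by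
    have h4 : (q + 1) * 2 ^ Kt = r + (q * 2 ^ Kt + (2 ^ Kt - r)) := by
      have : (q + 1) * 2 ^ Kt = q * 2 ^ Kt + 2 ^ Kt := by ring
      omega
    unfold ccI
    rw [h4, Finset.sum_range_add, Finset.sum_range_add]
    have p1 : 0 ≤ ∑ i ∈ Finset.range r, ((cls Kt (SA A h) ((i : ℤ) + 2 ^ E * (c / 2 ^ E)) : ℝ) - 1) :=
      Finset.sum_nonneg fun i _ => by
        have := cls_pos (K := Kt) hne ((i : ℤ) + 2 ^ E * (c / 2 ^ E))
        linarith
    have p2 : 0 ≤ ∑ i ∈ Finset.range (2 ^ Kt - r),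
        ((cls Kt (SA A h) (((r + (q * 2 ^ Kt + i) : ℕ) : ℤ) + 2 ^ E * (c / 2 ^ E)) : ℝ) - 1) :=
      Finset.sum_nonneg fun i _ => by
        have := cls_pos (K := Kt) hne (((r + (q * 2 ^ Kt + i) : ℕ) : ℤ) + 2 ^ E * (c / 2 ^ E))
        linarith
    have p3 : ∑ i ∈ Finset.range (q * 2 ^ Kt),
        ((cls Kt (SA A h) (((r + i : ℕ) : ℤ) + 2 ^ E * (c / 2 ^ E)) : ℝ) - 1) =
        ∑ i ∈ Finset.range (q * 2 ^ Kt), ((cls Kt (SA A h) ((i : ℤ) + c) : ℝ) - 1) := by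
      apply Finset.sum_congr rfl
      intro i _
      have e : ((r + i : ℕ) : ℤ) + 2 ^ E * (c / 2 ^ E) = (i : ℤ) + c := by
        push_cast
        rw [hr]
        linarith
      rw [e]
    linarith
  refine hsub.trans (hm.trans ?_)
  have hq1 : (1 : ℝ) ≤ q := by exact_mod_cast hq
  have hh1 : (1 : ℝ) ≤ h := by exact_mod_cast hh
  have hlogh := Real.log_nonneg hh1
  have hA0 : (0 : ℝ) ≤ A := Nat.cast_nonneg A
  have hpos : 0 ≤ (1 + A + Real.log h) / Real.sqrt Kt := by positivity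
  have h2K : (0 : ℝ) < 2 ^ Kt := by positivity
  have h7 : (((q + 1 : ℕ) : ℝ) * 2 ^ Kt) ≤ 2 * (q * 2 ^ Kt) := by
    push_cast
    nlinarith
  calc C * 12000000 * (((q + 1 : ℕ) : ℝ) * 2 ^ Kt) * ((1 + A + Real.log h) / Real.sqrt Kt)
      ≤ C * 12000000 * (2 * (q * 2 ^ Kt)) * ((1 + A + Real.log h) / Real.sqrt Kt) := by gcongr
    _ = C * 24000000 * (q * 2 ^ Kt) * ((1 + A + Real.log h) / Real.sqrt Kt) := by ring

/-- The windows of radius `h` around `x, 3 x, …, 3 ^ J x`. -/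
private def WZ (J h : ℕ) (x : ℤ) : Set ℤ := {n : ℤ | ∃ a : ℕ, a ≤ J ∧ |n - 3 ^ a * x| ≤ (h : ℤ)}

private theorem wz_sub {J h K : ℕ} {x : ℤ} : T^[K] '' WZ J h x ⊆
    (((SA J (3 ^ J * h + h)).image fun s => T^[K] (val s (x - h)) : Finset ℤ) : Set ℤ) := by
  rintro _ ⟨n, ⟨a, ha, hn⟩, rfl⟩
  have h1 := abs_le.1 hn
  have h2 : (3 : ℤ) ^ a ≤ 3 ^ J := pow_le_pow_right₀ (by norm_num) ha
  have h3 : (1 : ℤ) ≤ 3 ^ a := one_le_pow₀ (by norm_num)
  have h4 : (0 : ℤ) ≤ h := Int.natCast_nonneg h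
  have h5 : (h : ℤ) ≤ 3 ^ a * h := by nlinarith
  have h6 : (3 : ℤ) ^ a * h ≤ 3 ^ J * h := mul_le_mul_of_nonneg_right h2 h4
  obtain ⟨b, hbd⟩ : ∃ b : ℕ, (b : ℤ) = 3 ^ a * h + (n - 3 ^ a * x) :=
    ⟨(3 ^ a * h + (n - 3 ^ a * x)).toNat, Int.toNat_of_nonneg (by linarith)⟩
  have h7 : b ≤ 3 ^ J * h + h := by
    have : (b : ℤ) ≤ ((3 ^ J * h + h : ℕ) : ℤ) := by
      push_cast
      linarith
    exact_mod_cast this
  rw [Finset.mem_coe, Finset.mem_image]
  refine ⟨(a, (b : ℤ)), mem_SA.2 ⟨a, b, ha, h7, rfl⟩, ?_⟩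
  congr 1
  unfold val
  simp only
  rw [hbd]
  ring

private theorem wz_card {J h K : ℕ} {x : ℤ} : ((T^[K] '' WZ J h x).ncard : ℝ) ≤
    cls K (SA J (3 ^ J * h + h)) (x - h) := by
  have h1 : (T^[K] '' WZ J h x).ncard ≤ cls K (SA J (3 ^ J * h + h)) (x - h) := by
    unfold cls
    rw [← Set.ncard_coe_finset]
    exact Set.ncard_le_ncard wz_sub (Finset.finite_toSet _)
  exact_mod_cast h1

private theorem wz_mem (J h : ℕ) (x : ℤ) : x ∈ WZ J h x :=
  ⟨0, Nat.zero_le _, by simp⟩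

private theorem wz_fin (J h K : ℕ) (x : ℤ) : (T^[K] '' WZ J h x).Finite :=
  (Finset.finite_toSet _).subset wz_sub

private theorem wz_one (J h K : ℕ) (x : ℤ) : (1 : ℝ) ≤ ((T^[K] '' WZ J h x).ncard : ℝ) := by
  have h1 : 0 < (T^[K] '' WZ J h x).ncard :=
    (Set.ncard_pos (wz_fin J h K x)).2 ⟨_, Set.mem_image_of_mem _ (wz_mem J h x)⟩
  exact_mod_cast h1

/-- Intervals of length `q 2 ^ K`. -/
private theorem anyK : ∃ c C : ℝ, 0 < c ∧ c ≤ 1 ∧ 0 < C ∧ ∀ (J h K q : ℕ) (x₀ : ℤ), 1 ≤ h → 1 ≤ K →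
    1 ≤ q → (J : ℝ) + Real.log h ≤ c * K →
    ∑ i ∈ Finset.range (q * 2 ^ K), (((T^[K] '' WZ J h ((i : ℤ) + x₀)).ncard : ℝ) - 1) ≤
      C * (q * 2 ^ K) * ((1 + J + Real.log h) / Real.sqrt K) := by
  obtain ⟨C₀, hC₀, hPH⟩ := cls_any
  refine ⟨1 / 10000, C₀ * 72000000 + 2000, by norm_num, by norm_num, by positivity,
    fun J h K q x₀ hh hK hq hJh => ?_⟩
  have hh1 : (1 : ℝ) ≤ h := by exact_mod_cast hh
  have hlogh : 0 ≤ Real.log h := Real.log_nonneg hh1
  have hJ0 : (0 : ℝ) ≤ J := Nat.cast_nonneg J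
  have hK0 : (0 : ℝ) < K := by exact_mod_cast hK
  have hsq : 0 < Real.sqrt K := Real.sqrt_pos.2 hK0
  have hpos : 0 ≤ (1 + J + Real.log h) / Real.sqrt K := by positivity
  rcases le_or_gt 10000 K with hc | hc
  · obtain ⟨R, hR⟩ : ∃ R, R = 3 ^ J * h + h := ⟨_, rfl⟩
    have hR1 : 1 ≤ R := by omega
    have hlR := log_R J hh
    rw [← hR] at hlR
    have hL := L_le R hR1
    have hcK : (10000 : ℝ) ≤ K := by exact_mod_cast hc
    have hc2 : 2 * (200 * (Nat.log 2 (R + 1) + 1)) ≤ K := by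
      have h1 : 400 * ((Nat.log 2 (R + 1) + 1 : ℕ) : ℝ) ≤ K := by nlinarith
      have h2 : 400 * (Nat.log 2 (R + 1) + 1) ≤ K := by exact_mod_cast h1
      omega
    have h1 := ccI_all hC₀ hPH J R K q (x₀ - h) hq hR1 hc2
    have h2 : ∑ i ∈ Finset.range (q * 2 ^ K), (((T^[K] '' WZ J h ((i : ℤ) + x₀)).ncard : ℝ) - 1) ≤
        ccI K (x₀ - h) (q * 2 ^ K) (SA J R) := by
      unfold ccI
      apply Finset.sum_le_sum
      intro i _
      have h3 := wz_card (J := J) (h := h) (K := K) (x := (i : ℤ) + x₀)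
      rw [← hR] at h3
      have e : (i : ℤ) + x₀ - h = (i : ℤ) + (x₀ - h) := by ring
      rw [e] at h3
      linarith
    refine h2.trans (h1.trans ?_)
    calc C₀ * 24000000 * (q * 2 ^ K) * ((1 + J + Real.log R) / Real.sqrt K)
        ≤ C₀ * 24000000 * (q * 2 ^ K) * (3 * (1 + J + Real.log h) / Real.sqrt K) := by gcongr
      _ = C₀ * 72000000 * (q * 2 ^ K) * ((1 + J + Real.log h) / Real.sqrt K) := by ring
      _ ≤ (C₀ * 72000000 + 2000) * (q * 2 ^ K) * ((1 + J + Real.log h) / Real.sqrt K) := by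
          gcongr
          linarith
  · have hcK : (K : ℝ) < 10000 := by exact_mod_cast hc
    have hJ1 : (J : ℝ) < 1 := by nlinarith
    have hJ2 : J = 0 := by
      have : J < 1 := by exact_mod_cast hJ1
      omega
    have hl1 : Real.log h < 1 := by nlinarith
    have hh3 : h ≤ 2 := by
      by_contra h3
      have h4 : (3 : ℝ) ≤ h := by exact_mod_cast (show 3 ≤ h by omega)
      have h5 := Real.log_le_log (by norm_num) h4
      have h6 : 1 ≤ Real.log 3 := by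
        rw [Real.le_log_iff_exp_le (by norm_num)]
        have := Real.exp_one_lt_d9
        linarith
      linarith
    have h1 : ∀ i ∈ Finset.range (q * 2 ^ K),
        ((T^[K] '' WZ J h ((i : ℤ) + x₀)).ncard : ℝ) - 1 ≤ 4 := by
      intro i _
      obtain ⟨x, hx⟩ : ∃ x : ℤ, x = (i : ℤ) + x₀ := ⟨_, rfl⟩
      rw [← hx]
      have h2 : WZ J h x ⊆ ((Finset.Icc (x - 2) (x + 2) : Finset ℤ) : Set ℤ) := by
        rintro n ⟨a, ha, hn⟩
        have ha0 : a = 0 := by omega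
        rw [ha0, pow_zero, one_mul] at hn
        have h3 := abs_le.1 hn
        have h4 : (h : ℤ) ≤ 2 := by exact_mod_cast hh3
        rw [Finset.mem_coe, Finset.mem_Icc]
        constructor <;> linarith
      have h3 : (T^[K] '' WZ J h x).ncard ≤ 5 := by
        refine (Set.ncard_image_le ((Finset.finite_toSet _).subset h2)).trans ?_
        refine (Set.ncard_le_ncard h2 (Finset.finite_toSet _)).trans ?_
        rw [Set.ncard_coe_finset, Int.card_Icc]
        omega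
      have h4 : ((T^[K] '' WZ J h x).ncard : ℝ) ≤ 5 := by exact_mod_cast h3
      linarith
    have h2 : ∑ i ∈ Finset.range (q * 2 ^ K), (((T^[K] '' WZ J h ((i : ℤ) + x₀)).ncard : ℝ) - 1) ≤
        4 * (q * 2 ^ K) := by
      refine (Finset.sum_le_card_nsmul _ _ _ h1).trans (le_of_eq ?_)
      rw [Finset.card_range, nsmul_eq_mul]
      push_cast
      ring
    refine h2.trans ?_
    have h3 : 1 ≤ 100 * ((1 + J + Real.log h) / Real.sqrt K) := by
      rw [mul_div_assoc', one_le_div hsq]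
      apply Real.sqrt_le_iff.2 ⟨by positivity, ?_⟩
      nlinarith
    calc 4 * ((q : ℝ) * 2 ^ K) = 4 * (q * 2 ^ K) * 1 := by ring
      _ ≤ 4 * (q * 2 ^ K) * (100 * ((1 + J + Real.log h) / Real.sqrt K)) := by gcongr
      _ = 400 * (q * 2 ^ K) * ((1 + J + Real.log h) / Real.sqrt K) := by ring
      _ ≤ (C₀ * 72000000 + 2000) * (q * 2 ^ K) * ((1 + J + Real.log h) / Real.sqrt K) := by
          gcongr
          nlinarith

/-- Intervals of any length. -/
private theorem anyY : ∃ c C : ℝ, 0 < c ∧ c ≤ 1 ∧ 0 < C ∧ ∀ (J h Y : ℕ) (x₀ : ℤ), 1 ≤ h → 2 ≤ Y →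
    (J : ℝ) + Real.log h ≤ c * Real.log Y →
    ∑ x ∈ Finset.Ico x₀ (x₀ + Y), (((T^[Nat.log 2 Y] '' WZ J h x).ncard : ℝ) - 1) ≤
      C * Y * ((1 + J + Real.log h) / Real.sqrt (Real.log Y)) := by
  obtain ⟨c, C, hc, hc1, hC, hA⟩ := anyK
  refine ⟨c / 2, C * 4, by positivity, by linarith, by positivity, fun J h Y x₀ hh hY hJh => ?_⟩
  obtain ⟨K, hK⟩ : ∃ K, K = Nat.log 2 Y := ⟨_, rfl⟩
  rw [← hK]
  have hK1 : 1 ≤ K := by
    rw [hK]
    exact Nat.log_pos (by norm_num) hY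
  have hY1 : 2 ^ K ≤ Y := by
    rw [hK]
    exact Nat.pow_log_le_self 2 (by omega)
  have hY2 : Y < 2 ^ (K + 1) := by
    rw [hK]
    exact Nat.lt_pow_succ_log_self (by norm_num) _
  have hK0 : (0 : ℝ) < K := by exact_mod_cast hK1
  have hYr : (1 : ℝ) < Y := by exact_mod_cast (show 1 < Y by omega)
  have hlog : 0 < Real.log Y := Real.log_pos hYr
  have hlogK : Real.log Y ≤ 2 * K := by
    have h1 : (Y : ℝ) ≤ 2 ^ (K + 1) := by exact_mod_cast hY2.le
    have h2 := Real.log_le_log (by linarith) h1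
    rw [Real.log_pow] at h2
    have h3 := Real.log_two_lt_d9
    have h4 : (1 : ℝ) ≤ K := by exact_mod_cast hK1
    push_cast at h2
    nlinarith
  have hh1 : (1 : ℝ) ≤ h := by exact_mod_cast hh
  have hlogh : 0 ≤ Real.log h := Real.log_nonneg hh1
  have hJ0 : (0 : ℝ) ≤ J := Nat.cast_nonneg J
  have h1 := hA J h K 2 x₀ hh hK1 (by norm_num) (by
    calc (J : ℝ) + Real.log h ≤ c / 2 * Real.log Y := hJh
      _ ≤ c / 2 * (2 * K) := mul_le_mul_of_nonneg_left hlogK (by positivity)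
      _ = c * K := by ring)
  have h2 : ∑ x ∈ Finset.Ico x₀ (x₀ + Y), (((T^[K] '' WZ J h x).ncard : ℝ) - 1) ≤
      ∑ i ∈ Finset.range (2 * 2 ^ K), (((T^[K] '' WZ J h ((i : ℤ) + x₀)).ncard : ℝ) - 1) := by
    have h3 : Finset.Ico x₀ (x₀ + Y) = (Finset.range Y).image fun i : ℕ => (i : ℤ) + x₀ := by
      ext x
      rw [Finset.mem_Ico, Finset.mem_image]
      constructor
      · intro hx
        refine ⟨(x - x₀).toNat, Finset.mem_range.2 (by omega), by omega⟩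
      · rintro ⟨i, hi, rfl⟩
        have := Finset.mem_range.1 hi
        omega
    rw [h3, Finset.sum_image (fun i _ j _ hij => by
      have hij' : (i : ℤ) + x₀ = (j : ℤ) + x₀ := hij
      omega)]
    apply Finset.sum_le_sum_of_subset_of_nonneg
    · intro i hi
      rw [Finset.mem_range] at hi ⊢
      rw [pow_succ] at hY2
      omega
    · intro i _ _
      have := wz_one J h K ((i : ℤ) + x₀)
      linarith
  refine h2.trans (h1.trans ?_)
  have h5 : 1 / Real.sqrt K ≤ 2 / Real.sqrt (Real.log Y) := by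
    rw [div_le_div_iff₀ (Real.sqrt_pos.2 hK0) (Real.sqrt_pos.2 hlog), one_mul]
    have : Real.sqrt (Real.log Y) ≤ Real.sqrt (4 * K) := by
      apply Real.sqrt_le_sqrt
      linarith
    rw [Real.sqrt_mul (by norm_num)] at this
    have h6 : Real.sqrt 4 = 2 := by
      rw [show (4 : ℝ) = 2 ^ 2 by norm_num, Real.sqrt_sq (by norm_num)]
    rwa [h6] at this
  have hY3 : (2 : ℝ) ^ K ≤ Y := by exact_mod_cast hY1
  calc C * (((2 : ℕ) : ℝ) * 2 ^ K) * ((1 + J + Real.log h) / Real.sqrt K)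
      = C * (2 * 2 ^ K) * (1 + J + Real.log h) * (1 / Real.sqrt K) := by
        push_cast
        ring
    _ ≤ C * (2 * Y) * (1 + J + Real.log h) * (2 / Real.sqrt (Real.log Y)) := by gcongr
    _ = C * 4 * Y * ((1 + J + Real.log h) / Real.sqrt (Real.log Y)) := by ring

/-- **Orbits in every interval.** There are `c, C > 0` such that for `J + log h ≤ c log Y` the map
`T^[⌊log₂ Y⌋]` takes, on average over `x` in any interval of `Y` integers, at most
`1 + C (1 + J + log h) / √(log Y)` values on the union of the windows of radius `h` around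
`x, 3 x, …, 3 ^ J x`. -/
theorem orbitsI : ∃ c C : ℝ, 0 < c ∧ 0 < C ∧ ∀ (J h Y : ℕ) (x₀ : ℤ), 1 ≤ h → 2 ≤ Y →
    (J : ℝ) + Real.log h ≤ c * Real.log Y →
    ∑ x ∈ Finset.Ico x₀ (x₀ + Y),
      ((T^[Nat.log 2 Y] '' {n : ℤ | ∃ a : ℕ, a ≤ J ∧ |n - 3 ^ a * x| ≤ (h : ℤ)}).ncard : ℝ) ≤
      Y + C * Y * ((1 + J + Real.log h) / Real.sqrt (Real.log Y)) := by
  obtain ⟨c, C, hc, _, hC, hA⟩ := anyY
  refine ⟨c, C, hc, hC, fun J h Y x₀ hh hY hJh => ?_⟩
  have h1 := hA J h Y x₀ hh hY hJh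
  rw [Finset.sum_sub_distrib, Finset.sum_const, Int.card_Ico, nsmul_eq_mul, mul_one] at h1
  have h2 : (x₀ + (Y : ℤ) - x₀).toNat = Y := by omega
  rw [h2] at h1
  change ∑ x ∈ Finset.Ico x₀ (x₀ + Y), ((T^[Nat.log 2 Y] '' WZ J h x).ncard : ℝ) ≤ _
  linarith

/-- **Windows in every interval.** -/
theorem wideI : ∃ C : ℝ, 0 < C ∧ ∀ (J h Y : ℕ) (x₀ : ℤ), 1 ≤ h → 2 ≤ Y →
    ((Set.ncard {x : ℤ | x₀ ≤ x ∧ x < x₀ + Y ∧ ∃ n : ℤ,
      (∃ a : ℕ, a ≤ J ∧ |n - 3 ^ a * x| ≤ (h : ℤ)) ∧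
        T^[Nat.log 2 Y] n ≠ T^[Nat.log 2 Y] x} : ℕ) : ℝ) ≤
      C * Y * ((1 + J + Real.log h) / Real.sqrt (Real.log Y)) := by
  classical
  obtain ⟨c, C, hc, hc1, hC, hA⟩ := anyY
  refine ⟨C + 2 / c, by positivity, fun J h Y x₀ hh hY => ?_⟩
  have hYr : (1 : ℝ) < Y := by exact_mod_cast (show 1 < Y by omega)
  have hlog : 0 < Real.log Y := Real.log_pos hYr
  have hsq : 0 < Real.sqrt (Real.log Y) := Real.sqrt_pos.2 hlog
  have hh1 : (1 : ℝ) ≤ h := by exact_mod_cast hh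
  have hlogh : 0 ≤ Real.log h := Real.log_nonneg hh1
  have hJ0 : (0 : ℝ) ≤ J := Nat.cast_nonneg J
  have hpos : 0 ≤ (1 + J + Real.log h) / Real.sqrt (Real.log Y) := by positivity
  obtain ⟨K, hK⟩ : ∃ K, K = Nat.log 2 Y := ⟨_, rfl⟩
  rw [← hK]
  have e : {x : ℤ | x₀ ≤ x ∧ x < x₀ + Y ∧ ∃ n : ℤ,
      (∃ a : ℕ, a ≤ J ∧ |n - 3 ^ a * x| ≤ (h : ℤ)) ∧ T^[K] n ≠ T^[K] x} =
      (((Finset.Ico x₀ (x₀ + Y)).filter fun x => ∃ n : ℤ,
        (∃ a : ℕ, a ≤ J ∧ |n - 3 ^ a * x| ≤ (h : ℤ)) ∧ T^[K] n ≠ T^[K] x : Finset ℤ) : Set ℤ) := by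
    ext x
    rw [Set.mem_ofPred_eq, Finset.mem_coe, Finset.mem_filter, Finset.mem_Ico, and_assoc]
  rw [e, Set.ncard_coe_finset]
  rcases le_or_gt ((J : ℝ) + Real.log h) (c * Real.log Y) with hcase | hcase
  · have h1 := hA J h Y x₀ hh hY hcase
    rw [← hK] at h1
    have h2 : ((((Finset.Ico x₀ (x₀ + Y)).filter fun x => ∃ n : ℤ,
        (∃ a : ℕ, a ≤ J ∧ |n - 3 ^ a * x| ≤ (h : ℤ)) ∧ T^[K] n ≠ T^[K] x).card : ℕ) : ℝ) ≤
        ∑ x ∈ Finset.Ico x₀ (x₀ + Y), (((T^[K] '' WZ J h x).ncard : ℝ) - 1) := by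
      rw [Finset.card_filter]
      push_cast
      apply Finset.sum_le_sum
      intro x _
      split_ifs with hx
      · obtain ⟨n, hn, hne⟩ := hx
        have h3 : 1 < (T^[K] '' WZ J h x).ncard := by
          rw [Set.one_lt_ncard_iff (wz_fin J h K x)]
          exact ⟨_, _, Set.mem_image_of_mem _ hn, Set.mem_image_of_mem _ (wz_mem J h x), hne⟩
        have h4 : (2 : ℝ) ≤ ((T^[K] '' WZ J h x).ncard : ℝ) := by exact_mod_cast h3
        linarith
      · have := wz_one J h K x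
        linarith
    refine h2.trans (h1.trans ?_)
    have h3 : C ≤ C + 2 / c := by
      have : 0 < 2 / c := by positivity
      linarith
    gcongr
  · have h1 : ((((Finset.Ico x₀ (x₀ + Y)).filter fun x => ∃ n : ℤ,
        (∃ a : ℕ, a ≤ J ∧ |n - 3 ^ a * x| ≤ (h : ℤ)) ∧ T^[K] n ≠ T^[K] x).card : ℕ) : ℝ) ≤ Y := by
      have h2 := Finset.card_filter_le (Finset.Ico x₀ (x₀ + Y)) fun x => ∃ n : ℤ,
        (∃ a : ℕ, a ≤ J ∧ |n - 3 ^ a * x| ≤ (h : ℤ)) ∧ T^[K] n ≠ T^[K] x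
      rw [Int.card_Ico] at h2
      have h3 : (x₀ + (Y : ℤ) - x₀).toNat = Y := by omega
      rw [h3] at h2
      exact_mod_cast h2
    refine h1.trans ?_
    have h4 : 1 ≤ 2 / c * ((1 + J + Real.log h) / Real.sqrt (Real.log Y)) := by
      have h5 : c * Real.sqrt (Real.log Y) ≤ 2 * (1 + J + Real.log h) := by
        rcases le_or_gt 1 (Real.log Y) with h6 | h6
        · have h7 : Real.sqrt (Real.log Y) ≤ Real.log Y := by
            apply Real.sqrt_le_iff.2 ⟨hlog.le, ?_⟩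
            nlinarith
          have h8 : c * Real.sqrt (Real.log Y) ≤ c * Real.log Y :=
            mul_le_mul_of_nonneg_left h7 hc.le
          linarith
        · have h7 : Real.sqrt (Real.log Y) ≤ 1 := by
            apply Real.sqrt_le_iff.2 ⟨by norm_num, ?_⟩
            linarith
          nlinarith
      rw [div_mul_div_comm, one_le_div (by positivity)]
      exact h5
    have h5 : (0 : ℝ) ≤ Y := by positivity
    calc (Y : ℝ) = 1 * Y := by ring
      _ ≤ (2 / c * ((1 + J + Real.log h) / Real.sqrt (Real.log Y))) * Y :=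
          mul_le_mul_of_nonneg_right h4 h5
      _ = (2 / c) * Y * ((1 + J + Real.log h) / Real.sqrt (Real.log Y)) := by ring
      _ ≤ (C + 2 / c) * Y * ((1 + J + Real.log h) / Real.sqrt (Real.log Y)) := by
          gcongr
          linarith

end Pool.Agent.MB86
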