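import Pool.Agent.MB86.Orbits

/-!
# MB86: the number of orbits which meet a window, on average over any finite set of integers with at
most `M` elements in each residue class modulo `2 ^ K`
-/

set_option autoImplicit false

namespace Pool.Agent.MB86

open Pool.Agent.Helper14 (T)
open Pool.Agent.Helper86.CollatzInt
open Pool.Agent.Helper86.CollatzChain
open Pool.Agent.Helper86.CollatzRate

private theorem ai_sum (k a : ℕ) (s : ℕ × ℤ) (c : ℤ) :
    ∑ i ∈ Finset.range (2 ^ k), w k s (3 ^ a * i + c) = 2 ^ k * u k s := by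
  have : NeZero (2 ^ k) := ⟨by positivity⟩
  rw [← sum_w k s, ← sum_affine (w_periodic k s) (3 ^ a) c (unit3 a k)]

/-- the number of values on a path -/
private theorem ai_path (f : ℕ → ℤ) (A : ℕ) :
    ((Finset.range (A + 1)).image f).card ≤
      1 + ((Finset.range A).filter fun a => f a ≠ f (a + 1)).card := by
  induction A with
  | zero => simp
  | succ A ih =>
    rw [Finset.range_add_one (n := A + 1), Finset.image_insert]
    by_cases h : f A = f (A + 1)
    · have h1 : f (A + 1) ∈ (Finset.range (A + 1)).image f := by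
        rw [← h]
        exact Finset.mem_image_of_mem f (Finset.mem_range.2 (Nat.lt_succ_self A))
      rw [Finset.insert_eq_of_mem h1]
      refine ih.trans (Nat.add_le_add_left (Finset.card_le_card ?_) 1)
      exact Finset.filter_subset_filter _ (Finset.range_mono (Nat.le_succ A))
    · refine (Finset.card_insert_le _ _).trans ?_
      have h2 : ((Finset.range (A + 1)).filter fun a => f a ≠ f (a + 1)).card =
          ((Finset.range A).filter fun a => f a ≠ f (a + 1)).card + 1 := by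
        rw [Finset.range_add_one, Finset.filter_insert, if_pos h, Finset.card_insert_of_notMem]
        intro hmem
        exact absurd (Finset.mem_range.1 (Finset.mem_filter.1 hmem).1) (lt_irrefl A)
      rw [h2]
      omega

/-- the number of values on a tree -/
private theorem ai_tree (f : ℕ → ℤ) (A : ℕ) (S : Finset (ℕ × ℤ)) (g : ℕ × ℤ → ℤ)
    (hS : ∀ s ∈ S, s.1 ≤ A) :
    (S.image g).card ≤ 1 + ((Finset.range A).filter fun a => f a ≠ f (a + 1)).card +
      (S.filter fun s => g s ≠ f s.1).card := by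
  classical
  have h1 : S.image g ⊆ ((Finset.range (A + 1)).image f) ∪
      ((S.filter fun s => g s ≠ f s.1).image g) := by
    intro v hv
    obtain ⟨s, hs, rfl⟩ := Finset.mem_image.1 hv
    by_cases h : g s = f s.1
    · apply Finset.mem_union_left
      rw [h]
      exact Finset.mem_image_of_mem f (Finset.mem_range.2 (Nat.lt_succ_of_le (hS s hs)))
    · apply Finset.mem_union_right
      exact Finset.mem_image_of_mem g (Finset.mem_filter.2 ⟨hs, h⟩)
  refine (Finset.card_le_card h1).trans ((Finset.card_union_le _ _).trans ?_)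
  exact add_le_add (ai_path f A) Finset.card_image_le

/-- the phantom on the line of level `a` -/
private noncomputable def rr (y : ℝ) (a : ℕ) : ℤ := ⌈(3 : ℝ) ^ a * y⌉

private theorem w_nonneg (K : ℕ) (s : ℕ × ℤ) (x : ℤ) : 0 ≤ w K s x := by
  rcases w_zero_or_one K s x with h | h <;> rw [h]
  norm_num

private theorem w_mul (K : ℕ) (s : ℕ × ℤ) (x : ℤ) (m : ℕ) :
    w K s (x + m * 2 ^ K) = w K s x := by
  induction m with
  | zero => simp
  | succ m ih =>
    have h := w_periodic K s (x + m * 2 ^ K)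
    rw [← ih, ← h]
    congr 1
    push_cast
    ring

/-- the number of the events -/
private noncomputable def EV (K Af : ℕ) (y : ℝ) (S : Finset (ℕ × ℤ)) (t : ℤ) : ℝ :=
  (∑ a ∈ Finset.range Af, w K (1, rr y (a + 1) - 3 * rr y a) (3 ^ a * t + rr y a)) +
    ∑ s ∈ S, w K (0, s.2 - rr y s.1) (3 ^ s.1 * t + rr y s.1)

private theorem EV_nonneg (K Af : ℕ) (y : ℝ) (S : Finset (ℕ × ℤ)) (t : ℤ) : 0 ≤ EV K Af y S t :=
  add_nonneg (Finset.sum_nonneg fun _ _ => w_nonneg _ _ _)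
    (Finset.sum_nonneg fun _ _ => w_nonneg _ _ _)

private theorem EV_per (K Af : ℕ) (y : ℝ) (S : Finset (ℕ × ℤ)) (t : ℤ) :
    EV K Af y S (t + 2 ^ K) = EV K Af y S t := by
  have key : ∀ (a : ℕ) (s : ℕ × ℤ) (r : ℤ), w K s (3 ^ a * (t + 2 ^ K) + r) = w K s (3 ^ a * t + r) := by
    intro a s r
    rw [← w_mul K s (3 ^ a * t + r) (3 ^ a)]
    congr 1
    push_cast
    ring
  unfold EV
  simp only [key]

private theorem EV_cls {K Af : ℕ} (y : ℝ) {S : Finset (ℕ × ℤ)} (hS : ∀ s ∈ S, s.1 ≤ Af) (t : ℤ) :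
    (cls K S t : ℝ) - 1 ≤ EV K Af y S t := by
  classical
  have h1 := ai_tree (fun a => T^[K] (3 ^ a * t + rr y a)) Af S (fun s => T^[K] (val s t)) hS
  rw [Finset.card_filter, Finset.card_filter] at h1
  have h2 : ((cls K S t : ℕ) : ℝ) ≤
      ((1 + (∑ a ∈ Finset.range Af, if T^[K] (3 ^ a * t + rr y a) ≠
        T^[K] (3 ^ (a + 1) * t + rr y (a + 1)) then 1 else 0) +
        ∑ s ∈ S, if T^[K] (val s t) ≠ T^[K] (3 ^ s.1 * t + rr y s.1) then 1 else 0 : ℕ) : ℝ) := by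
    exact_mod_cast h1
  push_cast at h2
  have h3 : (∑ a ∈ Finset.range Af, if T^[K] (3 ^ a * t + rr y a) ≠
        T^[K] (3 ^ (a + 1) * t + rr y (a + 1)) then (1 : ℝ) else 0) ≤
      ∑ a ∈ Finset.range Af, w K (1, rr y (a + 1) - 3 * rr y a) (3 ^ a * t + rr y a) := by
    apply Finset.sum_le_sum
    intro a _
    split_ifs with hc
    · rcases w_zero_or_one K (1, rr y (a + 1) - 3 * rr y a) (3 ^ a * t + rr y a) with h | h
      · exact absurd (coalesce K 1 (rr y (a + 1) - 3 * rr y a) _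
          (3 ^ (a + 1) * t + rr y (a + 1)) (by ring) h) hc
      · rw [h]
    · exact w_nonneg _ _ _
  have h4 : (∑ s ∈ S, if T^[K] (val s t) ≠ T^[K] (3 ^ s.1 * t + rr y s.1) then (1 : ℝ) else 0) ≤
      ∑ s ∈ S, w K (0, s.2 - rr y s.1) (3 ^ s.1 * t + rr y s.1) := by
    apply Finset.sum_le_sum
    intro s _
    split_ifs with hc
    · rcases w_zero_or_one K (0, s.2 - rr y s.1) (3 ^ s.1 * t + rr y s.1) with h | h
      · exact absurd (coalesce K 0 (s.2 - rr y s.1) _ (val s t) (by unfold val; ring) h).symm hc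
      · rw [h]
    · exact w_nonneg _ _ _
  unfold EV
  linarith

private theorem EV_sum : ∃ C : ℝ, 0 < C ∧ ∀ (K A Af : ℕ) (M y : ℝ) (S : Finset (ℕ × ℤ)), 1 ≤ K →
    Ok A M y S → ∑ t ∈ Finset.range (2 ^ K), EV K Af y S t ≤
      C * 2 ^ K / Real.sqrt K * ((Af : ℝ) + 1 + S.card + Phi y S) := by
  classical
  obtain ⟨C, hC, hrate⟩ := rate
  refine ⟨2 * C, by positivity, ?_⟩
  intro k A Af M₀ y S hk hOk
  obtain ⟨-, -, -, -, hS⟩ := hOk
  have hr1 : ∀ a, (3 : ℝ) ^ a * y ≤ rr y a := fun a => Int.le_ceil _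
  have hr2 : ∀ a, (rr y a : ℝ) < 3 ^ a * y + 1 := fun a => Int.ceil_lt_add_one _
  have hkpos : (0 : ℝ) < k := by exact_mod_cast hk
  have hsk : 0 < Real.sqrt k := Real.sqrt_pos.2 hkpos
  have h2k : (0 : ℝ) < 2 ^ k := by positivity
  unfold EV
  rw [Finset.sum_add_distrib, Finset.sum_comm, Finset.sum_comm (s := Finset.range (2 ^ k)) (t := S)]
  have t1 : ∀ a, ∑ t ∈ Finset.range (2 ^ k),
      w k (1, rr y (a + 1) - 3 * rr y a) (3 ^ a * t + rr y a) ≤
      2 ^ k * (2 * C / Real.sqrt k) := by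
    intro a
    rw [ai_sum]
    apply mul_le_mul_of_nonneg_left _ h2k.le
    refine (hrate 1 (rr y (a + 1) - 3 * rr y a) k hk).trans ?_
    have hb : |((rr y (a + 1) - 3 * rr y a : ℤ) : ℝ)| ≤ 3 := by
      have e1 := hr1 a
      have e2 := hr2 a
      have e3 := hr1 (a + 1)
      have e4 := hr2 (a + 1)
      rw [pow_succ] at e3 e4
      push_cast
      rw [abs_le]
      constructor <;> nlinarith
    have hl : Real.log (1 + |((rr y (a + 1) - 3 * rr y a : ℤ) : ℝ)|) ≤ 2 := by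
      have h1 : Real.log (1 + |((rr y (a + 1) - 3 * rr y a : ℤ) : ℝ)|) ≤ Real.log 4 := by
        apply Real.log_le_log (by positivity)
        linarith
      have h2 : Real.log 4 = 2 * Real.log 2 := by
        rw [show (4 : ℝ) = 2 ^ 2 by norm_num, Real.log_pow]
        norm_num
      have h3 := Real.log_two_lt_d9
      linarith
    have h6 : Real.sqrt ((1 + ((1 : ℕ) : ℝ) ^ 2 +
        Real.log (1 + |((rr y (a + 1) - 3 * rr y a : ℤ) : ℝ)|)) / k) ≤ 2 / Real.sqrt k := by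
      rw [Real.sqrt_div' _ hkpos.le]
      apply div_le_div_of_nonneg_right _ hsk.le
      rw [show (2 : ℝ) = Real.sqrt 4 by
        rw [show (4 : ℝ) = 2 ^ 2 by norm_num, Real.sqrt_sq (by norm_num)]]
      apply Real.sqrt_le_sqrt
      rw [Nat.cast_one]
      linarith
    calc C * Real.sqrt ((1 + ((1 : ℕ) : ℝ) ^ 2 +
          Real.log (1 + |((rr y (a + 1) - 3 * rr y a : ℤ) : ℝ)|)) / k)
        ≤ C * (2 / Real.sqrt k) := mul_le_mul_of_nonneg_left h6 hC.le
      _ = 2 * C / Real.sqrt k := by ring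
  have t2 : ∀ s ∈ S, ∑ t ∈ Finset.range (2 ^ k),
      w k (0, s.2 - rr y s.1) (3 ^ s.1 * t + rr y s.1) ≤
      2 ^ k * (C * (1 + Real.sqrt (ee y s)) / Real.sqrt k) := by
    intro s hs
    rw [ai_sum]
    apply mul_le_mul_of_nonneg_left _ h2k.le
    refine (hrate 0 (s.2 - rr y s.1) k hk).trans ?_
    have h0 := (hS s hs).2.1
    have h1 : (0 : ℤ) ≤ s.2 - rr y s.1 := by
      have h2 : rr y s.1 ≤ s.2 := by
        apply Int.ceil_le.2
        unfold ee at h0
        linarith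
      omega
    have h3 : |((s.2 - rr y s.1 : ℤ) : ℝ)| ≤ ee y s := by
      rw [abs_of_nonneg (by exact_mod_cast h1)]
      unfold ee
      push_cast
      linarith [hr1 s.1]
    have h6 : Real.sqrt ((1 + ((0 : ℕ) : ℝ) ^ 2 +
        Real.log (1 + |((s.2 - rr y s.1 : ℤ) : ℝ)|)) / k) ≤
        (1 + Real.sqrt (ee y s)) / Real.sqrt k := by
      rw [Real.sqrt_div' _ hkpos.le]
      apply div_le_div_of_nonneg_right _ hsk.le
      have h7 : Real.log (1 + |((s.2 - rr y s.1 : ℤ) : ℝ)|) ≤ ee y s := by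
        have h8 := Real.log_le_sub_one_of_pos
          (show (0 : ℝ) < 1 + |((s.2 - rr y s.1 : ℤ) : ℝ)| by positivity)
        linarith
      apply Real.sqrt_le_iff.2
      have h9 := Real.sq_sqrt h0
      have h10 := Real.sqrt_nonneg (ee y s)
      constructor
      · linarith
      · rw [Nat.cast_zero]
        nlinarith
    calc C * Real.sqrt ((1 + ((0 : ℕ) : ℝ) ^ 2 +
          Real.log (1 + |((s.2 - rr y s.1 : ℤ) : ℝ)|)) / k)
        ≤ C * ((1 + Real.sqrt (ee y s)) / Real.sqrt k) := mul_le_mul_of_nonneg_left h6 hC.le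
      _ = C * (1 + Real.sqrt (ee y s)) / Real.sqrt k := by ring
  have s1 := Finset.sum_le_sum (s := Finset.range Af) fun a _ => t1 a
  have s2 := Finset.sum_le_sum t2
  rw [Finset.sum_const, Finset.card_range, nsmul_eq_mul] at s1
  have s3 : ∑ s ∈ S, (2 : ℝ) ^ k * (C * (1 + Real.sqrt (ee y s)) / Real.sqrt k) =
      2 ^ k * (C * (S.card + Phi y S) / Real.sqrt k) := by
    rw [← Finset.mul_sum, ← Finset.sum_div, ← Finset.mul_sum, Finset.sum_add_distrib,
      Finset.sum_const, nsmul_eq_mul, mul_one]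
    rfl
  rw [s3] at s2
  have h8 : (0 : ℝ) ≤ Phi y S := Phi_nonneg y S
  have h9 : (0 : ℝ) ≤ (S.card : ℝ) := by positivity
  have s4 : 0 ≤ (2 : ℝ) ^ k * (C * (S.card + Phi y S) / Real.sqrt k) := by positivity
  have s5 : 0 ≤ 2 * C * (2 : ℝ) ^ k / Real.sqrt k := by positivity
  calc _ ≤ (Af : ℝ) * (2 ^ k * (2 * C / Real.sqrt k)) +
        2 ^ k * (C * (S.card + Phi y S) / Real.sqrt k) := add_le_add s1 s2
    _ ≤ (Af : ℝ) * (2 ^ k * (2 * C / Real.sqrt k)) +
        2 * (2 ^ k * (C * (S.card + Phi y S) / Real.sqrt k)) +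
        2 * C * (2 : ℝ) ^ k / Real.sqrt k := by linarith
    _ = 2 * C * 2 ^ k / Real.sqrt k * ((Af : ℝ) + 1 + S.card + Phi y S) := by ring

/-- the number of the events after `k` binary digits -/
private noncomputable def GG (K Af : ℕ) : ℕ → ℝ → Finset (ℕ × ℤ) → ℤ → ℝ
  | 0, y, S, x => EV K Af y S x
  | k + 1, y, S, x => GG K Af k (((x % 2 : ℤ) + y) / 2) (S.image (st (x % 2))) (x / 2)

private theorem GG_nonneg (K Af k : ℕ) : ∀ (y : ℝ) (S : Finset (ℕ × ℤ)) (x : ℤ),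
    0 ≤ GG K Af k y S x := by
  induction k with
  | zero => intro y S x; exact EV_nonneg _ _ _ _ _
  | succ k ih => intro y S x; exact ih _ _ _

private theorem GG_cls (K Af k : ℕ) : ∀ (A : ℕ) (M y : ℝ) (S : Finset (ℕ × ℤ)), Ok A M y S →
    A + k ≤ Af → ∀ x : ℤ, (cls (K + k) S x : ℝ) - 1 ≤ GG K Af k y S x := by
  induction k with
  | zero =>
    intro A M y S h hA x
    exact EV_cls y (fun s hs => ((h.2.2.2.2 s hs).1).trans hA) x
  | succ k ih =>
    intro A M y S h hA x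
    have h1 := ih (A + 1) (4 * M) _ _ (ok_step h (x % 2) (Int.emod_two_eq_zero_or_one x))
      (by omega) (x / 2)
    have h2 : cls (K + (k + 1)) S x = cls (K + k) (S.image (st (x % 2))) (x / 2) := by
      rw [← cls_step, Int.mul_ediv_add_emod]
      rfl
    rw [h2]
    exact h1

private theorem GG_per (K Af k : ℕ) : ∀ (y : ℝ) (S : Finset (ℕ × ℤ)) (x : ℤ),
    GG K Af k y S (x + 2 ^ (K + k)) = GG K Af k y S x := by
  induction k with
  | zero => intro y S x; exact EV_per _ _ _ _ _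
  | succ k ih =>
    intro y S x
    have e : (2 : ℤ) ^ (K + (k + 1)) = 2 * 2 ^ (K + k) := by ring
    have e1 : (x + 2 ^ (K + (k + 1))) % 2 = x % 2 := by rw [e]; omega
    have e2 : (x + 2 ^ (K + (k + 1))) / 2 = x / 2 + 2 ^ (K + k) := by rw [e]; omega
    simp only [GG]
    rw [e1, e2, ih]

private theorem GG_sum (K Af k : ℕ) : ∀ (y : ℝ) (S : Finset (ℕ × ℤ)),
    ∑ x ∈ Finset.range (2 ^ (K + k)), GG K Af k y S x =
      2 ^ k * Av k (fun y S => ∑ t ∈ Finset.range (2 ^ K), EV K Af y S t) y S := by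
  induction k with
  | zero => intro y S; simp [Av, GG]
  | succ k ih =>
    intro y S
    have e : 2 ^ (K + (k + 1)) = 2 * 2 ^ (K + k) := by ring
    rw [e, sum_even_odd, Finset.sum_add_distrib]
    have g0 : ∀ i : ℕ, GG K Af (k + 1) y S ((2 * i : ℕ) : ℤ) =
        GG K Af k (((0 : ℤ) + y) / 2) (S.image (st 0)) (i : ℤ) := by
      intro i
      have e1 : ((2 * i : ℕ) : ℤ) % 2 = 0 := by omega
      have e2 : ((2 * i : ℕ) : ℤ) / 2 = i := by omega
      simp only [GG]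
      rw [e1, e2]
    have g1 : ∀ i : ℕ, GG K Af (k + 1) y S ((2 * i + 1 : ℕ) : ℤ) =
        GG K Af k (((1 : ℤ) + y) / 2) (S.image (st 1)) (i : ℤ) := by
      intro i
      have e1 : ((2 * i + 1 : ℕ) : ℤ) % 2 = 1 := by omega
      have e2 : ((2 * i + 1 : ℕ) : ℤ) / 2 = i := by omega
      simp only [GG]
      rw [e1, e2]
    rw [Finset.sum_congr rfl fun i _ => g0 i, Finset.sum_congr rfl fun i _ => g1 i, ih, ih]
    simp only [Av]
    ring

/-- The first moment modulo `2 ^ Kt`. -/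
private theorem GG_main {C : ℝ} (hC : 0 < C)
    (hEV : ∀ (K A Af : ℕ) (M y : ℝ) (S : Finset (ℕ × ℤ)), 1 ≤ K →
      Ok A M y S → ∑ t ∈ Finset.range (2 ^ K), EV K Af y S t ≤
        C * 2 ^ K / Real.sqrt K * ((Af : ℝ) + 1 + S.card + Phi y S))
    (A h K L : ℕ) (hh : 1 ≤ h) (hL : L = Nat.log 2 (h + 1) + 1) (hK : 200 * L ≤ K) :
    ∑ x ∈ Finset.range (2 ^ (K + 200 * L)), GG K (A + 200 * L) (200 * L) 0 (SA A h) x ≤
      C * 12000000 * 2 ^ (K + 200 * L) *
        ((1 + A + Real.log h) / Real.sqrt ((K + 200 * L : ℕ) : ℝ)) := by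
  have hh1 : (1 : ℝ) ≤ h := by exact_mod_cast hh
  have hlogh := Real.log_nonneg hh1
  have hA0 : (0 : ℝ) ≤ A := Nat.cast_nonneg A
  have hL3 : (L : ℝ) ≤ 3 * (1 + Real.log h) := by
    rw [hL]
    exact L_le h hh
  have hL1' : 1 ≤ L := by omega
  have hL1 : (1 : ℝ) ≤ L := by exact_mod_cast hL1'
  have hLp : h + 1 ≤ 2 ^ L := by
    rw [hL]
    exact (Nat.lt_pow_succ_log_self (by norm_num) _).le
  have hK1 : 1 ≤ K := by omega
  have hK0 : (0 : ℝ) < K := by exact_mod_cast hK1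
  obtain ⟨k, hk⟩ : ∃ k, k = 200 * L := ⟨_, rfl⟩
  rw [← hk]
  have hKt0 : (0 : ℝ) < ((K + k : ℕ) : ℝ) := by
    have : 0 < K + k := by omega
    exact_mod_cast this
  have hsq : 0 < Real.sqrt ((K + k : ℕ) : ℝ) := Real.sqrt_pos.2 hKt0
  rw [GG_sum]
  have h1 : Av k (fun y S => ∑ t ∈ Finset.range (2 ^ K), EV K (A + k) y S t) 0 (SA A h) ≤
      Av k (fun y S => C * 2 ^ K / Real.sqrt K *
        (((A + k : ℕ) : ℝ) + 1 + S.card + Phi y S)) 0 (SA A h) := by
    apply Av_mono k A _ 0 _ (ok_SA A h)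
    intro y' S' h'
    exact hEV K _ (A + k) _ y' S' hK1 h'
  rw [Av_lin] at h1
  have h2 := Av_card_le k A _ 0 _ (ok_SA A h)
  have h3' := Av_Phi k A _ 0 _ (ok_SA A h)
  have h4 : (0 : ℝ) < 0.984 ^ k := by positivity
  have h5 : (0 : ℝ) ≤ k := Nat.cast_nonneg k
  have h6 := Phi_nonneg 0 (SA A h)
  have h7 : 0 ≤ (0.984 : ℝ) ^ k * Phi 0 (SA A h) := by positivity
  have h8 : 0 ≤ (0.984 : ℝ) ^ k * (A + k + 1) := by positivity
  have h9 : ((A + k : ℕ) : ℝ) + 1 + Av k (fun _ S => (S.card : ℝ)) 0 (SA A h) +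
      Av k Phi 0 (SA A h) ≤ 9721 * (A + k + 1) + 2 * (0.984 ^ k * Phi 0 (SA A h)) := by
    push_cast at h2 h3' ⊢
    nlinarith
  have h3 : (0.984 : ℝ) ^ k * Phi 0 (SA A h) ≤ A + 1 := by
    calc (0.984 : ℝ) ^ k * Phi 0 (SA A h)
        ≤ (0.984 : ℝ) ^ k * (((A : ℝ) + 1) * ((h : ℝ) + 1) ^ 2) :=
          mul_le_mul_of_nonneg_left (Phi_SA A h) (by positivity)
      _ = ((A : ℝ) + 1) * ((0.984 : ℝ) ^ (200 * L) * ((h : ℝ) + 1) ^ 2) := by rw [hk]; ring
      _ ≤ ((A : ℝ) + 1) * 1 := mul_le_mul_of_nonneg_left (pow_L hLp) (by linarith)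
      _ = A + 1 := by ring
  have h10 : 9721 * ((A : ℝ) + k + 1) + 2 * ((0.984 : ℝ) ^ k * Phi 0 (SA A h)) ≤
      6000000 * (1 + A + Real.log h) := by
    rw [hk] at h3 ⊢
    push_cast at h3 ⊢
    nlinarith
  have h11 : 1 / Real.sqrt K ≤ 2 / Real.sqrt ((K + k : ℕ) : ℝ) := by
    rw [div_le_div_iff₀ (Real.sqrt_pos.2 hK0) hsq, one_mul]
    have : Real.sqrt ((K + k : ℕ) : ℝ) ≤ Real.sqrt (4 * K) := by
      apply Real.sqrt_le_sqrt
      have h6 : K + k ≤ 4 * K := by omega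
      exact_mod_cast h6
    rw [Real.sqrt_mul (by norm_num)] at this
    have h6 : Real.sqrt 4 = 2 := by
      rw [show (4 : ℝ) = 2 ^ 2 by norm_num, Real.sqrt_sq (by norm_num)]
    rwa [h6] at this
  have h12 : 0 ≤ C * 2 ^ K / Real.sqrt K := by positivity
  calc (2 : ℝ) ^ k * Av k (fun y S => ∑ t ∈ Finset.range (2 ^ K), EV K (A + k) y S t) 0 (SA A h)
      ≤ 2 ^ k * (C * 2 ^ K / Real.sqrt K * (6000000 * (1 + A + Real.log h))) := by
        apply mul_le_mul_of_nonneg_left _ (by positivity)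
        exact h1.trans (mul_le_mul_of_nonneg_left (h9.trans h10) h12)
    _ = C * 2 ^ (K + k) * (6000000 * (1 + A + Real.log h)) * (1 / Real.sqrt K) := by
        rw [pow_add]
        ring
    _ ≤ C * 2 ^ (K + k) * (6000000 * (1 + A + Real.log h)) *
        (2 / Real.sqrt ((K + k : ℕ) : ℝ)) := by gcongr
    _ = C * 12000000 * 2 ^ (K + k) *
        ((1 + A + Real.log h) / Real.sqrt ((K + k : ℕ) : ℝ)) := by ring

/-- sums of periodic functions over sets with at most `M` elements in each class -/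
private theorem cl_sum {K M : ℕ} {P : Finset ℤ} {f : ℤ → ℝ} (hf0 : ∀ x, 0 ≤ f x)
    (hf : ∀ x, f (x + (2 ^ K : ℕ)) = f x)
    (hP : ∀ r : ℤ, (P.filter fun x => (2 : ℤ) ^ K ∣ x - r).card ≤ M) :
    ∑ x ∈ P, f x ≤ M * ∑ i ∈ Finset.range (2 ^ K), f i := by
  classical
  have : NeZero (2 ^ K) := ⟨by positivity⟩
  have hpos : (0 : ℤ) < 2 ^ K := by positivity
  have hmod : ∀ x : ℤ, (((x % 2 ^ K).toNat : ℕ) : ℤ) = x % 2 ^ K := fun x =>
    Int.toNat_of_nonneg (Int.emod_nonneg x hpos.ne')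
  have hmaps : ∀ x ∈ P, (x % 2 ^ K).toNat ∈ Finset.range (2 ^ K) := by
    intro x _
    rw [Finset.mem_range]
    have h1 := Int.emod_lt_of_pos x hpos
    rw [← hmod x] at h1
    exact_mod_cast h1
  rw [← Finset.sum_fiberwise_of_maps_to hmaps, Finset.mul_sum]
  apply Finset.sum_le_sum
  intro i _
  have h2 : ∀ x ∈ P.filter (fun x => (x % 2 ^ K).toNat = i), f x = f i := by
    intro x hx
    rw [Finset.mem_filter] at hx
    have h3 := hmod x
    rw [hx.2] at h3
    have h4 := periodic_eq hf x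
    have h5 := periodic_eq hf (i : ℤ)
    have h6 : ((x : ZMod (2 ^ K))) = (((i : ℤ) : ℤ) : ZMod (2 ^ K)) := by
      rw [h3, ZMod.intCast_eq_intCast_iff_dvd_sub]
      push_cast
      have h7 := Int.mul_ediv_add_emod x (2 ^ K)
      exact ⟨-(x / 2 ^ K), by linear_combination h7⟩
    rw [h4, h6, ← h5]
  rw [Finset.sum_congr rfl h2, Finset.sum_const, nsmul_eq_mul]
  apply mul_le_mul_of_nonneg_right _ (hf0 i)
  have h3 : (P.filter fun x => (x % 2 ^ K).toNat = i) ⊆ P.filter fun x => (2 : ℤ) ^ K ∣ x - i := by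
    intro x hx
    rw [Finset.mem_filter] at hx ⊢
    refine ⟨hx.1, ?_⟩
    have h4 := hmod x
    rw [hx.2] at h4
    rw [h4]
    have h7 := Int.mul_ediv_add_emod x (2 ^ K)
    exact ⟨x / 2 ^ K, by linear_combination (-1) * h7⟩
  exact_mod_cast (Finset.card_le_card h3).trans (hP i)

/-- The windows of radius `h` around `x, 3 x, …, 3 ^ J x`. -/
private def WZ (J h : ℕ) (x : ℤ) : Set ℤ := {n : ℤ | ∃ a : ℕ, a ≤ J ∧ |n - 3 ^ a * x| ≤ (h : ℤ)}

private theorem wz_sub {J h K : ℕ} {x : ℤ} : T^[K] '' WZ J h x ⊆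
    (((SA J (3 ^ J * h + h)).image fun s => T^[K] (val s (x - h)) : Finset ℤ) : Set ℤ) := by
  rintro _ ⟨n, ⟨a, ha, hn⟩, rfl⟩
  have h1 := abs_le.1 hn
  have h2 : (3 : ℤ) ^ a ≤ 3 ^ J := pow_le_pow_right₀ (by norm_num) ha
  have h3 : (1 : ℤ) ≤ 3 ^ a := one_le_pow₀ (by norm_num)
  have h4 : (0 : ℤ) ≤ h := Int.natCast_nonneg h
  have h5 : (h : ℤ) ≤ 3 ^ a * h := by nlinarith
  have h6 : (3 : ℤ) ^ a * h ≤ 3 ^ J * h := mul_le_mul_of_nonneg_right h2 h4
  obtain ⟨b, hbd⟩ : ∃ b : ℕ, (b : ℤ) = 3 ^ a * h + (n - 3 ^ a * x) :=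
    ⟨(3 ^ a * h + (n - 3 ^ a * x)).toNat, Int.toNat_of_nonneg (by linarith)⟩
  have h7 : b ≤ 3 ^ J * h + h := by
    have : (b : ℤ) ≤ ((3 ^ J * h + h : ℕ) : ℤ) := by
      push_cast
      linarith
    exact_mod_cast this
  rw [Finset.mem_coe, Finset.mem_image]
  refine ⟨(a, (b : ℤ)), mem_SA.2 ⟨a, b, ha, h7, rfl⟩, ?_⟩
  congr 1
  unfold val
  simp only
  rw [hbd]
  ring

private theorem wz_card {J h K : ℕ} {x : ℤ} : ((T^[K] '' WZ J h x).ncard : ℝ) ≤
    cls K (SA J (3 ^ J * h + h)) (x - h) := by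
  have h1 : (T^[K] '' WZ J h x).ncard ≤ cls K (SA J (3 ^ J * h + h)) (x - h) := by
    unfold cls
    rw [← Set.ncard_coe_finset]
    exact Set.ncard_le_ncard wz_sub (Finset.finite_toSet _)
  exact_mod_cast h1

private theorem wz_mem (J h : ℕ) (x : ℤ) : x ∈ WZ J h x :=
  ⟨0, Nat.zero_le _, by simp⟩

private theorem wz_fin (J h K : ℕ) (x : ℤ) : (T^[K] '' WZ J h x).Finite :=
  (Finset.finite_toSet _).subset wz_sub

private theorem wz_one (J h K : ℕ) (x : ℤ) : (1 : ℝ) ≤ ((T^[K] '' WZ J h x).ncard : ℝ) := by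
  have h1 : 0 < (T^[K] '' WZ J h x).ncard :=
    (Set.ncard_pos (wz_fin J h K x)).2 ⟨_, Set.mem_image_of_mem _ (wz_mem J h x)⟩
  exact_mod_cast h1

/-- Sets with at most `M` elements in each class. -/
private theorem anyP : ∃ c C : ℝ, 0 < c ∧ c ≤ 1 ∧ 0 < C ∧ ∀ (J h K M : ℕ) (P : Finset ℤ), 1 ≤ h →
    1 ≤ K → (∀ r : ℤ, (P.filter fun x => (2 : ℤ) ^ K ∣ x - r).card ≤ M) →
    (J : ℝ) + Real.log h ≤ c * K →
    ∑ x ∈ P, (((T^[K] '' WZ J h x).ncard : ℝ) - 1) ≤
      C * (M * 2 ^ K) * ((1 + J + Real.log h) / Real.sqrt K) := by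
  classical
  obtain ⟨C₀, hC₀, hEV⟩ := EV_sum
  refine ⟨1 / 10000, C₀ * 36000000 + 2000, by norm_num, by norm_num, by positivity,
    fun J h Kt M P hh hK hP hJh => ?_⟩
  have hh1 : (1 : ℝ) ≤ h := by exact_mod_cast hh
  have hlogh : 0 ≤ Real.log h := Real.log_nonneg hh1
  have hJ0 : (0 : ℝ) ≤ J := Nat.cast_nonneg J
  have hK0 : (0 : ℝ) < Kt := by exact_mod_cast hK
  have hsq : 0 < Real.sqrt Kt := Real.sqrt_pos.2 hK0
  have hpos : 0 ≤ (1 + J + Real.log h) / Real.sqrt Kt := by positivity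
  have hM0 : (0 : ℝ) ≤ M := Nat.cast_nonneg M
  have hn : NeZero (2 ^ Kt) := ⟨by positivity⟩
  rcases le_or_gt 10000 Kt with hc | hc
  · obtain ⟨R, hR⟩ : ∃ R, R = 3 ^ J * h + h := ⟨_, rfl⟩
    have hR1 : 1 ≤ R := by omega
    have hlR := log_R J hh
    rw [← hR] at hlR
    obtain ⟨L, hL⟩ : ∃ L, L = Nat.log 2 (R + 1) + 1 := ⟨_, rfl⟩
    have hLe := L_le R hR1
    rw [← hL] at hLe
    have hcK : (10000 : ℝ) ≤ Kt := by exact_mod_cast hc
    have hc2 : 2 * (200 * L) ≤ Kt := by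
      have h1 : 400 * (L : ℝ) ≤ Kt := by nlinarith
      have h2 : 400 * L ≤ Kt := by exact_mod_cast h1
      omega
    obtain ⟨K, hKK⟩ : ∃ K, Kt = K + 200 * L := ⟨Kt - 200 * L, by omega⟩
    have h1 := GG_main hC₀ hEV J R K L hR1 hL (by omega)
    rw [← hKK] at h1
    obtain ⟨g, hg⟩ : ∃ g : ℤ → ℝ, g = fun x => GG K (J + 200 * L) (200 * L) 0 (SA J R) (x - h) :=
      ⟨_, rfl⟩
    have hper : ∀ x, GG K (J + 200 * L) (200 * L) 0 (SA J R) (x + (2 ^ Kt : ℕ)) =
        GG K (J + 200 * L) (200 * L) 0 (SA J R) x := by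
      intro x
      have := GG_per K (J + 200 * L) (200 * L) 0 (SA J R) x
      rw [← hKK] at this
      rw [← this]
      push_cast
      rfl
    have hg1 : ∀ x, g (x + (2 ^ Kt : ℕ)) = g x := by
      intro x
      rw [hg]
      simp only
      rw [← hper (x - h)]
      congr 1
      ring
    have hg0 : ∀ x, 0 ≤ g x := by
      intro x
      rw [hg]
      exact GG_nonneg _ _ _ _ _ _
    have hg2 : ∑ i ∈ Finset.range (2 ^ Kt), g i =
        ∑ i ∈ Finset.range (2 ^ Kt), GG K (J + 200 * L) (200 * L) 0 (SA J R) i := by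
      rw [← sum_affine hper 1 (-(h : ℤ)) (by simp)]
      apply Finset.sum_congr rfl
      intro i _
      rw [hg]
      simp only
      congr 1
      ring
    have h2 : ∑ x ∈ P, (((T^[Kt] '' WZ J h x).ncard : ℝ) - 1) ≤ ∑ x ∈ P, g x := by
      apply Finset.sum_le_sum
      intro x _
      have h3 := wz_card (J := J) (h := h) (K := Kt) (x := x)
      rw [← hR] at h3
      have h4 := GG_cls K (J + 200 * L) (200 * L) J _ 0 (SA J R) (ok_SA J R) le_rfl (x - h)
      rw [← hKK] at h4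
      rw [hg]
      simp only
      linarith
    have h3 := cl_sum hg0 hg1 hP
    rw [hg2] at h3
    refine h2.trans (h3.trans ?_)
    calc (M : ℝ) * ∑ i ∈ Finset.range (2 ^ Kt), GG K (J + 200 * L) (200 * L) 0 (SA J R) i
        ≤ M * (C₀ * 12000000 * 2 ^ Kt * ((1 + J + Real.log R) / Real.sqrt Kt)) :=
          mul_le_mul_of_nonneg_left h1 hM0
      _ ≤ M * (C₀ * 12000000 * 2 ^ Kt * (3 * (1 + J + Real.log h) / Real.sqrt Kt)) := by gcongr
      _ = C₀ * 36000000 * (M * 2 ^ Kt) * ((1 + J + Real.log h) / Real.sqrt Kt) := by ring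
      _ ≤ (C₀ * 36000000 + 2000) * (M * 2 ^ Kt) * ((1 + J + Real.log h) / Real.sqrt Kt) := by
          gcongr
          linarith
  · have hcK : (Kt : ℝ) < 10000 := by exact_mod_cast hc
    have hJ1 : (J : ℝ) < 1 := by nlinarith
    have hJ2 : J = 0 := by
      have : J < 1 := by exact_mod_cast hJ1
      omega
    have hl1 : Real.log h < 1 := by nlinarith
    have hh3 : h ≤ 2 := by
      by_contra h3
      have h4 : (3 : ℝ) ≤ h := by exact_mod_cast (show 3 ≤ h by omega)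
      have h5 := Real.log_le_log (by norm_num) h4
      have h6 : 1 ≤ Real.log 3 := by
        rw [Real.le_log_iff_exp_le (by norm_num)]
        have := Real.exp_one_lt_d9
        linarith
      linarith
    have h1 : ∀ x ∈ P, ((T^[Kt] '' WZ J h x).ncard : ℝ) - 1 ≤ 4 := by
      intro x _
      have h2 : WZ J h x ⊆ ((Finset.Icc (x - 2) (x + 2) : Finset ℤ) : Set ℤ) := by
        rintro n ⟨a, ha, hn⟩
        have ha0 : a = 0 := by omega
        rw [ha0, pow_zero, one_mul] at hn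
        have h3 := abs_le.1 hn
        have h4 : (h : ℤ) ≤ 2 := by exact_mod_cast hh3
        rw [Finset.mem_coe, Finset.mem_Icc]
        constructor <;> linarith
      have h3 : (T^[Kt] '' WZ J h x).ncard ≤ 5 := by
        refine (Set.ncard_image_le ((Finset.finite_toSet _).subset h2)).trans ?_
        refine (Set.ncard_le_ncard h2 (Finset.finite_toSet _)).trans ?_
        rw [Set.ncard_coe_finset, Int.card_Icc]
        omega
      have h4 : ((T^[Kt] '' WZ J h x).ncard : ℝ) ≤ 5 := by exact_mod_cast h3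
      linarith
    have hcard : (P.card : ℝ) ≤ M * 2 ^ Kt := by
      have h3 := cl_sum (f := fun _ => (1 : ℝ)) (fun _ => zero_le_one) (fun _ => rfl) hP
      rw [Finset.sum_const, Finset.sum_const, Finset.card_range, nsmul_eq_mul, nsmul_eq_mul,
        mul_one, mul_one] at h3
      push_cast at h3
      exact h3
    have h2 : ∑ x ∈ P, (((T^[Kt] '' WZ J h x).ncard : ℝ) - 1) ≤ 4 * (M * 2 ^ Kt) := by
      refine (Finset.sum_le_card_nsmul _ _ _ h1).trans ?_
      rw [nsmul_eq_mul]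
      linarith
    refine h2.trans ?_
    have h3 : 1 ≤ 100 * ((1 + J + Real.log h) / Real.sqrt Kt) := by
      rw [mul_div_assoc', one_le_div hsq]
      apply Real.sqrt_le_iff.2 ⟨by positivity, ?_⟩
      nlinarith
    calc 4 * ((M : ℝ) * 2 ^ Kt) = 4 * (M * 2 ^ Kt) * 1 := by ring
      _ ≤ 4 * (M * 2 ^ Kt) * (100 * ((1 + J + Real.log h) / Real.sqrt Kt)) := by gcongr
      _ = 400 * (M * 2 ^ Kt) * ((1 + J + Real.log h) / Real.sqrt Kt) := by ring
      _ ≤ (C₀ * 36000000 + 2000) * (M * 2 ^ Kt) * ((1 + J + Real.log h) / Real.sqrt Kt) := by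
          gcongr
          nlinarith

/-- **Orbits over any set.** There are `c, C > 0`: if a finite set `P` of integers has at most `M`
elements in each residue class modulo `2 ^ K`, then for `J + log h ≤ c K` the map `T^[K]` takes on average
over `x ∈ P` few values on the union of the windows of radius `h` around `x, 3 x, …, 3 ^ J x`: the sum of
(number of values - 1) is at most `C M 2 ^ K (1 + J + log h) / √K`. -/
theorem orbitsP : ∃ c C : ℝ, 0 < c ∧ 0 < C ∧ ∀ (J h K M : ℕ) (P : Finset ℤ), 1 ≤ h →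
    1 ≤ K → (∀ r : ℤ, (P.filter fun x => (2 : ℤ) ^ K ∣ x - r).card ≤ M) →
    (J : ℝ) + Real.log h ≤ c * K →
    ∑ x ∈ P, ((T^[K] '' {n : ℤ | ∃ a : ℕ, a ≤ J ∧ |n - 3 ^ a * x| ≤ (h : ℤ)}).ncard : ℝ) ≤
      P.card + C * (M * 2 ^ K) * ((1 + J + Real.log h) / Real.sqrt K) := by
  obtain ⟨c, C, hc, _, hC, hA⟩ := anyP
  refine ⟨c, C, hc, hC, fun J h K M P hh hK hP hJh => ?_⟩
  have h1 := hA J h K M P hh hK hP hJh
  rw [Finset.sum_sub_distrib, Finset.sum_const, nsmul_eq_mul, mul_one] at h1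
  change ∑ x ∈ P, ((T^[K] '' WZ J h x).ncard : ℝ) ≤ _
  linarith

/-- **Windows over any set.** -/
theorem wideP : ∃ C : ℝ, 0 < C ∧ ∀ (J h K M : ℕ) (P : Finset ℤ), 1 ≤ h → 1 ≤ K →
    (∀ r : ℤ, (P.filter fun x => (2 : ℤ) ^ K ∣ x - r).card ≤ M) →
    ((Set.ncard {x : ℤ | x ∈ P ∧ ∃ n : ℤ, (∃ a : ℕ, a ≤ J ∧ |n - 3 ^ a * x| ≤ (h : ℤ)) ∧
        T^[K] n ≠ T^[K] x} : ℕ) : ℝ) ≤
      C * (M * 2 ^ K) * ((1 + J + Real.log h) / Real.sqrt K) := by
  classical
  obtain ⟨c, C, hc, hc1, hC, hA⟩ := anyP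
  refine ⟨C + 1 / c, by positivity, fun J h K M P hh hK hP => ?_⟩
  have hK1 : (1 : ℝ) ≤ K := by exact_mod_cast hK
  have hK0 : (0 : ℝ) < K := by linarith
  have hsq : 0 < Real.sqrt K := Real.sqrt_pos.2 hK0
  have hh1 : (1 : ℝ) ≤ h := by exact_mod_cast hh
  have hlogh : 0 ≤ Real.log h := Real.log_nonneg hh1
  have hJ0 : (0 : ℝ) ≤ J := Nat.cast_nonneg J
  have hM0 : (0 : ℝ) ≤ M := Nat.cast_nonneg M
  have hpos : 0 ≤ (1 + J + Real.log h) / Real.sqrt K := by positivity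
  have e : {x : ℤ | x ∈ P ∧ ∃ n : ℤ, (∃ a : ℕ, a ≤ J ∧ |n - 3 ^ a * x| ≤ (h : ℤ)) ∧
      T^[K] n ≠ T^[K] x} = ((P.filter fun x => ∃ n : ℤ,
        (∃ a : ℕ, a ≤ J ∧ |n - 3 ^ a * x| ≤ (h : ℤ)) ∧ T^[K] n ≠ T^[K] x : Finset ℤ) : Set ℤ) := by
    ext x
    rw [Set.mem_ofPred_eq, Finset.mem_coe, Finset.mem_filter]
  rw [e, Set.ncard_coe_finset]
  rcases le_or_gt ((J : ℝ) + Real.log h) (c * K) with hcase | hcase
  · have h1 := hA J h K M P hh hK hP hcase
    have h2 : (((P.filter fun x => ∃ n : ℤ,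
        (∃ a : ℕ, a ≤ J ∧ |n - 3 ^ a * x| ≤ (h : ℤ)) ∧ T^[K] n ≠ T^[K] x).card : ℕ) : ℝ) ≤
        ∑ x ∈ P, (((T^[K] '' WZ J h x).ncard : ℝ) - 1) := by
      rw [Finset.card_filter]
      push_cast
      apply Finset.sum_le_sum
      intro x _
      split_ifs with hx
      · obtain ⟨n, hn, hne⟩ := hx
        have h3 : 1 < (T^[K] '' WZ J h x).ncard := by
          rw [Set.one_lt_ncard_iff (wz_fin J h K x)]
          exact ⟨_, _, Set.mem_image_of_mem _ hn, Set.mem_image_of_mem _ (wz_mem J h x), hne⟩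
        have h4 : (2 : ℝ) ≤ ((T^[K] '' WZ J h x).ncard : ℝ) := by exact_mod_cast h3
        linarith
      · have := wz_one J h K x
        linarith
    refine h2.trans (h1.trans ?_)
    have h3 : C ≤ C + 1 / c := by
      have : 0 < 1 / c := by positivity
      linarith
    gcongr
  · have hcard : (P.card : ℝ) ≤ M * 2 ^ K := by
      have hn : NeZero (2 ^ K) := ⟨by positivity⟩
      have h3 := cl_sum (f := fun _ => (1 : ℝ)) (fun _ => zero_le_one) (fun _ => rfl) hP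
      rw [Finset.sum_const, Finset.sum_const, Finset.card_range, nsmul_eq_mul, nsmul_eq_mul,
        mul_one, mul_one] at h3
      push_cast at h3
      exact h3
    have h1 : (((P.filter fun x => ∃ n : ℤ,
        (∃ a : ℕ, a ≤ J ∧ |n - 3 ^ a * x| ≤ (h : ℤ)) ∧ T^[K] n ≠ T^[K] x).card : ℕ) : ℝ) ≤
        P.card := by
      exact_mod_cast Finset.card_filter_le _ _
    refine h1.trans (hcard.trans ?_)
    have h4 : 1 ≤ 1 / c * ((1 + J + Real.log h) / Real.sqrt K) := by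
      have h7 : Real.sqrt K ≤ K := by
        apply Real.sqrt_le_iff.2 ⟨hK0.le, ?_⟩
        nlinarith
      have h8 : c * Real.sqrt K ≤ c * K := mul_le_mul_of_nonneg_left h7 hc.le
      rw [div_mul_div_comm, one_le_div (by positivity)]
      linarith
    have h5 : (0 : ℝ) ≤ M * 2 ^ K := by positivity
    calc (M : ℝ) * 2 ^ K = 1 * (M * 2 ^ K) := by ring
      _ ≤ (1 / c * ((1 + J + Real.log h) / Real.sqrt K)) * (M * 2 ^ K) :=
          mul_le_mul_of_nonneg_right h4 h5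
      _ = (1 / c) * (M * 2 ^ K) * ((1 + J + Real.log h) / Real.sqrt K) := by ring
      _ ≤ (C + 1 / c) * (M * 2 ^ K) * ((1 + J + Real.log h) / Real.sqrt K) := by
          gcongr
          linarith

end Pool.Agent.MB86
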