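import Pool.Agent.MB86.Count
import Pool.Agent.Helper86.CollatzInt

/-!
# MB86: the number of positions of many walkers, in the first moment
-/

set_option autoImplicit false

namespace Pool.Agent.MB86

open Pool.Agent.Helper14 (T)
open Pool.Agent.Helper86.CollatzInt
open Pool.Agent.Helper86.CollatzChain
open Pool.Agent.Helper86.CollatzRate

private theorem pc_sum (k a : ℕ) (s : ℕ × ℤ) (c : ℤ) :
    ∑ i ∈ Finset.range (2 ^ k), w k s (3 ^ a * i + c) = 2 ^ k * u k s := by
  have : NeZero (2 ^ k) := ⟨by positivity⟩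
  rw [← sum_w k s, ← sum_affine (w_periodic k s) (3 ^ a) c (unit3 a k)]

private theorem pc_blocks (k q a : ℕ) (s : ℕ × ℤ) (c : ℤ) :
    ∑ i ∈ Finset.range (2 ^ k * q), w k s (3 ^ a * i + c) = q * (2 ^ k * u k s) := by
  induction q with
  | zero => simp
  | succ q ih =>
    rw [Nat.mul_succ, Finset.sum_range_add, ih]
    have h1 : ∑ x ∈ Finset.range (2 ^ k), w k s (3 ^ a * ((2 ^ k * q + x : ℕ) : ℤ) + c) =
        ∑ i ∈ Finset.range (2 ^ k), w k s (3 ^ a * i + (3 ^ a * ((2 ^ k * q : ℕ) : ℤ) + c)) := by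
      apply Finset.sum_congr rfl
      intro i _
      congr 1
      push_cast
      ring
    rw [h1, pc_sum]
    push_cast
    ring

/-- the number of `i` at which an event happens -/
private theorem pc_card (k q a : ℕ) (s : ℕ × ℤ) (c : ℤ) :
    (((Finset.range (2 * (q * 2 ^ k))).filter
      (fun i : ℕ => w k s (3 ^ a * (i : ℤ) + c) ≠ 0)).card : ℝ) = 2 * (q * 2 ^ k) * u k s := by
  classical
  have h2 : (((Finset.range (2 * (q * 2 ^ k))).filter
      (fun i : ℕ => w k s (3 ^ a * (i : ℤ) + c) ≠ 0)).card : ℝ) =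
      ∑ i ∈ Finset.range (2 ^ k * (2 * q)), w k s (3 ^ a * i + c) := by
    rw [Finset.card_filter, show 2 * (q * 2 ^ k) = 2 ^ k * (2 * q) by ring]
    push_cast
    apply Finset.sum_congr rfl
    intro i _
    rcases w_zero_or_one k s (3 ^ a * (i : ℤ) + c) with h | h
    · simp [h]
    · simp [h]
  rw [h2, pc_blocks]
  push_cast
  ring

/-- the number of values on a path -/
private theorem pc_path (f : ℕ → ℤ) (A : ℕ) :
    ((Finset.range (A + 1)).image f).card ≤
      1 + ((Finset.range A).filter fun a => f a ≠ f (a + 1)).card := by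
  induction A with
  | zero => simp
  | succ A ih =>
    rw [Finset.range_add_one (n := A + 1), Finset.image_insert]
    by_cases h : f A = f (A + 1)
    · have h1 : f (A + 1) ∈ (Finset.range (A + 1)).image f := by
        rw [← h]
        exact Finset.mem_image_of_mem f (Finset.mem_range.2 (Nat.lt_succ_self A))
      rw [Finset.insert_eq_of_mem h1]
      refine ih.trans (Nat.add_le_add_left (Finset.card_le_card ?_) 1)
      exact Finset.filter_subset_filter _ (Finset.range_mono (Nat.le_succ A))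
    · refine (Finset.card_insert_le _ _).trans ?_
      have h2 : ((Finset.range (A + 1)).filter fun a => f a ≠ f (a + 1)).card =
          ((Finset.range A).filter fun a => f a ≠ f (a + 1)).card + 1 := by
        rw [Finset.range_add_one, Finset.filter_insert, if_pos h, Finset.card_insert_of_notMem]
        intro hmem
        exact absurd (Finset.mem_range.1 (Finset.mem_filter.1 hmem).1) (lt_irrefl A)
      rw [h2]
      omega

/-- the number of values on a tree -/
private theorem pc_tree (f : ℕ → ℤ) (A : ℕ) (S : Finset (ℕ × ℤ)) (g : ℕ × ℤ → ℤ)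
    (hS : ∀ s ∈ S, s.1 ≤ A) :
    (S.image g).card ≤ 1 + ((Finset.range A).filter fun a => f a ≠ f (a + 1)).card +
      (S.filter fun s => g s ≠ f s.1).card := by
  classical
  have h1 : S.image g ⊆ ((Finset.range (A + 1)).image f) ∪
      ((S.filter fun s => g s ≠ f s.1).image g) := by
    intro v hv
    obtain ⟨s, hs, rfl⟩ := Finset.mem_image.1 hv
    by_cases h : g s = f s.1
    · apply Finset.mem_union_left
      rw [h]
      exact Finset.mem_image_of_mem f (Finset.mem_range.2 (Nat.lt_succ_of_le (hS s hs)))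
    · apply Finset.mem_union_right
      exact Finset.mem_image_of_mem g (Finset.mem_filter.2 ⟨hs, h⟩)
  refine (Finset.card_le_card h1).trans ((Finset.card_union_le _ _).trans ?_)
  exact add_le_add (pc_path f A) Finset.card_image_le

/-- The first moment of the number of positions. -/
theorem cls_phantom : ∃ C : ℝ, 0 < C ∧ ∀ (K q A : ℕ) (M y : ℝ) (S : Finset (ℕ × ℤ)), 1 ≤ K →
    Ok A M y S → S.Nonempty →
    (∑ i ∈ Finset.range (2 * (q * 2 ^ K)),
      (((S.image fun s => T^[K] (val s ((i : ℤ) - (q * 2 ^ K : ℕ)))).card : ℝ) - 1)) ≤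
      C * (q * 2 ^ K) * ((A : ℝ) + 1 + S.card + Phi y S) / Real.sqrt K := by
  classical
  obtain ⟨C, hC, hrate⟩ := rate
  refine ⟨4 * C, by positivity, ?_⟩
  intro k q A M₀ y S hk hOk _
  obtain ⟨-, -, -, -, hS⟩ := hOk
  set r : ℕ → ℤ := fun a => ⌈(3 : ℝ) ^ a * y⌉ with hr
  have hr1 : ∀ a, (3 : ℝ) ^ a * y ≤ r a := fun a => Int.le_ceil _
  have hr2 : ∀ a, (r a : ℝ) < 3 ^ a * y + 1 := fun a => Int.ceil_lt_add_one _
  have hkpos : (0 : ℝ) < k := by exact_mod_cast hk
  have hsk : 0 < Real.sqrt k := Real.sqrt_pos.2 hkpos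
  set c : ℤ := -((q * 2 ^ k : ℕ) : ℤ) with hc
  set R : Finset ℕ := Finset.range (2 * (q * 2 ^ k)) with hR
  -- the events
  set E1 : ℕ → Finset ℕ := fun a => R.filter
    (fun i : ℕ => w k (1, r (a + 1) - 3 * r a) (3 ^ a * (i : ℤ) + (3 ^ a * c + r a)) ≠ 0) with hE1
  set E2 : ℕ × ℤ → Finset ℕ := fun s => R.filter
    (fun i : ℕ => w k (0, s.2 - r s.1) (3 ^ s.1 * (i : ℤ) + (3 ^ s.1 * c + r s.1)) ≠ 0) with hE2
  set f : ℕ → ℕ → ℤ := fun i a => T^[k] (3 ^ a * ((i : ℤ) + c) + r a) with hf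
  set g : ℕ → ℕ × ℤ → ℤ := fun i s => T^[k] (val s ((i : ℤ) - (q * 2 ^ k : ℕ))) with hg
  have hM : (0 : ℝ) ≤ 2 * (q * 2 ^ k) := by positivity
  have key1 : ∀ a, R.filter (fun i : ℕ => f i a ≠ f i (a + 1)) ⊆ E1 a := by
    intro a i hi
    rw [Finset.mem_filter] at hi
    refine Finset.mem_filter.2 ⟨hi.1, fun h0 => hi.2 ?_⟩
    have h5 := coalesce k 1 (r (a + 1) - 3 * r a) _ (3 ^ (a + 1) * ((i : ℤ) + c) + r (a + 1))
      (by ring) h0
    simp only [hf]
    rw [← h5]
    congr 1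
    ring
  have key2 : ∀ s ∈ S, R.filter (fun i : ℕ => g i s ≠ f i s.1) ⊆ E2 s := by
    intro s _ i hi
    rw [Finset.mem_filter] at hi
    refine Finset.mem_filter.2 ⟨hi.1, fun h0 => hi.2 ?_⟩
    have h5 := coalesce k 0 (s.2 - r s.1) _ (val s ((i : ℤ) - (q * 2 ^ k : ℕ)))
      (by unfold val; rw [hc]; ring) h0
    simp only [hf, hg]
    rw [← h5]
    congr 1
    ring
  -- the sizes
  have c1 : ∀ a, ((E1 a).card : ℝ) ≤ 2 * (q * 2 ^ k) * (2 * C / Real.sqrt k) := by
    intro a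
    refine (pc_card k q a _ _).le.trans (mul_le_mul_of_nonneg_left ?_ hM)
    refine (hrate 1 (r (a + 1) - 3 * r a) k hk).trans ?_
    have hb : |((r (a + 1) - 3 * r a : ℤ) : ℝ)| ≤ 3 := by
      have e1 := hr1 a
      have e2 := hr2 a
      have e3 := hr1 (a + 1)
      have e4 := hr2 (a + 1)
      rw [pow_succ] at e3 e4
      push_cast
      rw [abs_le]
      constructor <;> nlinarith
    have hl : Real.log (1 + |((r (a + 1) - 3 * r a : ℤ) : ℝ)|) ≤ 2 := by
      have h1 : Real.log (1 + |((r (a + 1) - 3 * r a : ℤ) : ℝ)|) ≤ Real.log 4 := by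
        apply Real.log_le_log (by positivity)
        linarith
      have h2 : Real.log 4 = 2 * Real.log 2 := by
        rw [show (4 : ℝ) = 2 ^ 2 by norm_num, Real.log_pow]
        norm_num
      have h3 := Real.log_two_lt_d9
      linarith
    have h6 : Real.sqrt ((1 + ((1 : ℕ) : ℝ) ^ 2 +
        Real.log (1 + |((r (a + 1) - 3 * r a : ℤ) : ℝ)|)) / k) ≤ 2 / Real.sqrt k := by
      rw [Real.sqrt_div' _ hkpos.le]
      apply div_le_div_of_nonneg_right _ hsk.le
      rw [show (2 : ℝ) = Real.sqrt 4 by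
        rw [show (4 : ℝ) = 2 ^ 2 by norm_num, Real.sqrt_sq (by norm_num)]]
      apply Real.sqrt_le_sqrt
      rw [Nat.cast_one]
      linarith
    calc C * Real.sqrt ((1 + ((1 : ℕ) : ℝ) ^ 2 +
          Real.log (1 + |((r (a + 1) - 3 * r a : ℤ) : ℝ)|)) / k)
        ≤ C * (2 / Real.sqrt k) := mul_le_mul_of_nonneg_left h6 hC.le
      _ = 2 * C / Real.sqrt k := by ring
  have c2 : ∀ s ∈ S, ((E2 s).card : ℝ) ≤
      2 * (q * 2 ^ k) * (C * (1 + Real.sqrt (ee y s)) / Real.sqrt k) := by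
    intro s hs
    refine (pc_card k q s.1 _ _).le.trans (mul_le_mul_of_nonneg_left ?_ hM)
    refine (hrate 0 (s.2 - r s.1) k hk).trans ?_
    have h0 := (hS s hs).2.1
    have h1 : (0 : ℤ) ≤ s.2 - r s.1 := by
      have h2 : r s.1 ≤ s.2 := by
        apply Int.ceil_le.2
        unfold ee at h0
        linarith
      omega
    have h3 : |((s.2 - r s.1 : ℤ) : ℝ)| ≤ ee y s := by
      rw [abs_of_nonneg (by exact_mod_cast h1)]
      unfold ee
      push_cast
      linarith [hr1 s.1]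
    have h6 : Real.sqrt ((1 + ((0 : ℕ) : ℝ) ^ 2 +
        Real.log (1 + |((s.2 - r s.1 : ℤ) : ℝ)|)) / k) ≤
        (1 + Real.sqrt (ee y s)) / Real.sqrt k := by
      rw [Real.sqrt_div' _ hkpos.le]
      apply div_le_div_of_nonneg_right _ hsk.le
      have h7 : Real.log (1 + |((s.2 - r s.1 : ℤ) : ℝ)|) ≤ ee y s := by
        have h8 := Real.log_le_sub_one_of_pos
          (show (0 : ℝ) < 1 + |((s.2 - r s.1 : ℤ) : ℝ)| by positivity)
        linarith
      apply Real.sqrt_le_iff.2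
      have h9 := Real.sq_sqrt h0
      have h10 := Real.sqrt_nonneg (ee y s)
      constructor
      · linarith
      · rw [Nat.cast_zero]
        nlinarith
    calc C * Real.sqrt ((1 + ((0 : ℕ) : ℝ) ^ 2 +
          Real.log (1 + |((s.2 - r s.1 : ℤ) : ℝ)|)) / k)
        ≤ C * ((1 + Real.sqrt (ee y s)) / Real.sqrt k) := mul_le_mul_of_nonneg_left h6 hC.le
      _ = C * (1 + Real.sqrt (ee y s)) / Real.sqrt k := by ring
  -- the sum
  have hsum : ∀ i ∈ R, ((((S.image fun s => T^[k] (val s ((i : ℤ) - (q * 2 ^ k : ℕ)))).card : ℝ)) -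
      1) ≤ (∑ a ∈ Finset.range A, if f i a ≠ f i (a + 1) then (1 : ℝ) else 0) +
        ∑ s ∈ S, if g i s ≠ f i s.1 then (1 : ℝ) else 0 := by
    intro i _
    have h1 := pc_tree (f i) A S (g i) fun s hs => (hS s hs).1
    rw [Finset.card_filter, Finset.card_filter] at h1
    have h2 : (((S.image (g i)).card : ℕ) : ℝ) ≤
        ((1 + (∑ a ∈ Finset.range A, if f i a ≠ f i (a + 1) then 1 else 0) +
          ∑ s ∈ S, if g i s ≠ f i s.1 then 1 else 0 : ℕ) : ℝ) := by exact_mod_cast h1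
    push_cast at h2
    have h3 : (S.image fun s => T^[k] (val s ((i : ℤ) - (q * 2 ^ k : ℕ)))) = S.image (g i) := rfl
    rw [h3]
    linarith
  refine (Finset.sum_le_sum hsum).trans ?_
  rw [Finset.sum_add_distrib, Finset.sum_comm, Finset.sum_comm (s := R) (t := S)]
  have t1 : ∀ a, (∑ i ∈ R, if f i a ≠ f i (a + 1) then (1 : ℝ) else 0) ≤
      2 * (q * 2 ^ k) * (2 * C / Real.sqrt k) := by
    intro a
    refine le_trans ?_ (c1 a)
    have h1 : (((R.filter fun i : ℕ => f i a ≠ f i (a + 1)).card : ℕ) : ℝ) ≤ (E1 a).card := by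
      exact_mod_cast Finset.card_le_card (key1 a)
    rw [Finset.card_filter] at h1
    push_cast at h1
    exact h1
  have t2 : ∀ s ∈ S, (∑ i ∈ R, if g i s ≠ f i s.1 then (1 : ℝ) else 0) ≤
      2 * (q * 2 ^ k) * (C * (1 + Real.sqrt (ee y s)) / Real.sqrt k) := by
    intro s hs
    refine le_trans ?_ (c2 s hs)
    have h1 : (((R.filter fun i : ℕ => g i s ≠ f i s.1).card : ℕ) : ℝ) ≤ (E2 s).card := by
      exact_mod_cast Finset.card_le_card (key2 s hs)
    rw [Finset.card_filter] at h1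
    push_cast at h1
    exact h1
  have s1 := Finset.sum_le_sum (s := Finset.range A) fun a _ => t1 a
  have s2 := Finset.sum_le_sum t2
  rw [Finset.sum_const, Finset.card_range, nsmul_eq_mul] at s1
  have s3 : ∑ s ∈ S, 2 * ((q : ℝ) * 2 ^ k) * (C * (1 + Real.sqrt (ee y s)) / Real.sqrt k) =
      2 * (q * 2 ^ k) * (C * (S.card + Phi y S) / Real.sqrt k) := by
    rw [← Finset.mul_sum, ← Finset.sum_div, ← Finset.mul_sum, Finset.sum_add_distrib,
      Finset.sum_const, nsmul_eq_mul, mul_one]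
    rfl
  rw [s3] at s2
  have h8 : (0 : ℝ) ≤ Phi y S := Phi_nonneg y S
  have h9 : (0 : ℝ) ≤ (S.card : ℝ) := by positivity
  have s4 : 0 ≤ 2 * ((q : ℝ) * 2 ^ k) * (C * (S.card + Phi y S) / Real.sqrt k) := by positivity
  have s5 : 0 ≤ 4 * C * ((q : ℝ) * 2 ^ k) / Real.sqrt k := by positivity
  calc _ ≤ (A : ℝ) * (2 * (q * 2 ^ k) * (2 * C / Real.sqrt k)) +
        2 * (q * 2 ^ k) * (C * (S.card + Phi y S) / Real.sqrt k) := add_le_add s1 s2
    _ ≤ (A : ℝ) * (2 * (q * 2 ^ k) * (2 * C / Real.sqrt k)) +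
        2 * (2 * (q * 2 ^ k) * (C * (S.card + Phi y S) / Real.sqrt k)) +
        4 * C * ((q : ℝ) * 2 ^ k) / Real.sqrt k := by linarith
    _ = 4 * C * (q * 2 ^ k) * ((A : ℝ) + 1 + S.card + Phi y S) / Real.sqrt k := by ring

end Pool.Agent.MB86
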