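import Mathlib
import Pool.Agent.MB86.Wide
import Pool.Agent.MB86.PhCls

set_option autoImplicit false

/-!
The average number of orbits which meet a window.
-/

namespace Pool.Agent.MB86

open Pool.Agent.Helper14 (T)
open Pool.Agent.Helper86.CollatzInt
open Pool.Agent.Helper86.CollatzChain

/-- The number of different positions after `K` steps. -/
noncomputable def cls (K : ℕ) (S : Finset (ℕ × ℤ)) (t : ℤ) : ℕ := (S.image fun s => T^[K] (val s t)).card

theorem cls_step (K : ℕ) (S : Finset (ℕ × ℤ)) (p t : ℤ) :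
    cls (K + 1) S (2 * t + p) = cls K (S.image (st p)) t := by
  unfold cls
  rw [Finset.image_image]
  congr 1
  apply Finset.image_congr
  intro s _
  simp only [Function.comp_apply, Function.iterate_succ_apply, T_val]

/-- The sum of `cls - 1` over `[-m, m)`. -/
noncomputable def ccnt (K m : ℕ) (S : Finset (ℕ × ℤ)) : ℝ :=
  ∑ i ∈ Finset.range (2 * m), ((cls K S ((i : ℤ) - m) : ℝ) - 1)

theorem ccnt_step (K m : ℕ) (S : Finset (ℕ × ℤ)) :
    ccnt (K + 1) (2 * m) S = ccnt K m (S.image (st 0)) + ccnt K m (S.image (st 1)) := by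
  unfold ccnt
  rw [sum_even_odd, Finset.sum_add_distrib]
  congr 1
  · apply Finset.sum_congr rfl
    intro i _
    have e : (((2 * i : ℕ) : ℤ) - ((2 * m : ℕ) : ℤ)) = 2 * ((i : ℤ) - m) + 0 := by
      push_cast
      ring
    rw [e, cls_step]
  · apply Finset.sum_congr rfl
    intro i _
    have e : (((2 * i + 1 : ℕ) : ℤ) - ((2 * m : ℕ) : ℤ)) = 2 * ((i : ℤ) - m) + 1 := by
      push_cast
      ring
    rw [e, cls_step]

theorem ccnt_Av (K m : ℕ) (k : ℕ) : ∀ (y : ℝ) (S : Finset (ℕ × ℤ)),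
    ccnt (K + k) (2 ^ k * m) S = 2 ^ k * Av k (fun _ S => ccnt K m S) y S := by
  induction k with
  | zero => intro y S; simp [Av]
  | succ k ih =>
    intro y S
    have e : 2 ^ (k + 1) * m = 2 * (2 ^ k * m) := by ring
    rw [← add_assoc, e, ccnt_step, ih (((0 : ℤ) + y) / 2) (S.image (st 0)),
      ih (((1 : ℤ) + y) / 2) (S.image (st 1))]
    simp only [Av]
    ring

/-- The bound of the second stage. -/
def PHc (C : ℝ) : Prop := ∀ (K q A : ℕ) (M y : ℝ) (S : Finset (ℕ × ℤ)), 1 ≤ K → Ok A M y S →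
  S.Nonempty → (∑ i ∈ Finset.range (2 * (q * 2 ^ K)),
    (((S.image fun s => T^[K] (val s ((i : ℤ) - (q * 2 ^ K : ℕ)))).card : ℝ) - 1)) ≤
  C * (q * 2 ^ K) * ((A : ℝ) + 1 + S.card + Phi y S) / Real.sqrt K

theorem phc_all {C : ℝ} (hC : 0 < C) (hPH : PHc C) (K q A : ℕ) (M y : ℝ) (S : Finset (ℕ × ℤ))
    (hK : 1 ≤ K) (h : Ok A M y S) :
    ccnt K (q * 2 ^ K) S ≤ C * (q * 2 ^ K) * ((A : ℝ) + 1 + S.card + Phi y S) / Real.sqrt K := by
  rcases S.eq_empty_or_nonempty with rfl | hne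
  · have h1 : ccnt K (q * 2 ^ K) ∅ ≤ 0 := by
      unfold ccnt cls
      apply Finset.sum_nonpos
      intro i _
      simp
    refine h1.trans ?_
    have := Phi_nonneg y ∅
    positivity
  · exact hPH K q A M y S hK h hne

theorem ccnt_twoA {C : ℝ} (hC : 0 < C) (hPH : PHc C) (A K k q : ℕ) (hK : 1 ≤ K) {M : ℝ}
    {S : Finset (ℕ × ℤ)} (h : Ok A M 0 S) :
    ccnt (K + k) (2 ^ k * (q * 2 ^ K)) S ≤
      2 ^ k * (C * (q * 2 ^ K) / Real.sqrt K * (9721 * (A + k + 1) + 2 * (0.984 ^ k * Phi 0 S))) := by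
  rw [ccnt_Av K (q * 2 ^ K) k 0 S]
  apply mul_le_mul_of_nonneg_left _ (by positivity)
  have h1 : Av k (fun _ S => ccnt K (q * 2 ^ K) S) 0 S ≤
      Av k (fun y S => C * (q * 2 ^ K) / Real.sqrt K *
        (((A + k : ℕ) : ℝ) + 1 + S.card + Phi y S)) 0 S := by
    apply Av_mono k A M 0 S h
    intro y' S' h'
    refine (phc_all hC hPH K q _ _ _ _ hK h').trans (le_of_eq ?_)
    ring
  refine h1.trans ?_
  rw [Av_lin]
  apply mul_le_mul_of_nonneg_left _ (by positivity)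
  have h2 := Av_card_le k A M 0 S h
  have h3 := Av_Phi k A M 0 S h
  have h4 : (0 : ℝ) < 0.984 ^ k := by positivity
  have h5 : (0 : ℝ) ≤ k := Nat.cast_nonneg k
  have h5' : (0 : ℝ) ≤ A := Nat.cast_nonneg A
  have h6 := Phi_nonneg 0 S
  have h7 : 0 ≤ (0.984 : ℝ) ^ k * Phi 0 S := by positivity
  have h8 : 0 ≤ (0.984 : ℝ) ^ k * (A + k + 1) := by positivity
  push_cast at h2 h3 ⊢
  nlinarith

/-- The first moment, in the range `[-m, m)` with `N < m ≤ 2 N`. -/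
theorem ccnt_main {C : ℝ} (hC : 0 < C) (hPH : PHc C) (A N h Kt R : ℕ) (hN : 2 ≤ N) (hh : 1 ≤ h)
    (hR : Nat.log 2 N + 1 = Kt + R) (hKt2 : Nat.log 2 N + 1 ≤ 12 * Kt)
    (hc : 2 * (200 * (Nat.log 2 (h + 1) + 1)) ≤ Kt) :
    ccnt Kt (2 ^ (Kt + R)) (SA A h) ≤
      C * 60000000 * N * (1 + A + Real.log h) / Real.sqrt (Real.log N) := by
  have hh1 : (1 : ℝ) ≤ h := by exact_mod_cast hh
  have hN1 : (1 : ℝ) < N := by exact_mod_cast (show 1 < N by omega)
  have hlogh := Real.log_nonneg hh1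
  have hlogN : 0 < Real.log N := Real.log_pos hN1
  have hsq : 0 < Real.sqrt (Real.log N) := Real.sqrt_pos.2 hlogN
  have hA0 : (0 : ℝ) ≤ A := Nat.cast_nonneg A
  obtain ⟨L, hL⟩ : ∃ L, L = Nat.log 2 (h + 1) + 1 := ⟨_, rfl⟩
  rw [← hL] at hc
  have hL3 : (L : ℝ) ≤ 3 * (1 + Real.log h) := by
    rw [hL]
    exact L_le h hh
  have hL1 : (1 : ℝ) ≤ L := by
    rw [hL]
    push_cast
    have : (0 : ℝ) ≤ (Nat.log 2 (h + 1) : ℝ) := Nat.cast_nonneg _
    linarith
  have hLp : h + 1 ≤ 2 ^ L := by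
    rw [hL]
    exact (Nat.lt_pow_succ_log_self (by norm_num) _).le
  have hNK : N < 2 ^ (Kt + R) := by
    rw [← hR]
    exact Nat.lt_pow_succ_log_self (by norm_num) _
  have hKN : (2 : ℝ) ^ (Kt + R) ≤ 2 * N := by
    have h1 : 2 ^ (Kt + R) ≤ 2 * N := by
      rw [← hR, pow_succ, mul_comm]
      exact Nat.mul_le_mul_left 2 (Nat.pow_log_le_self 2 (by omega))
    exact_mod_cast h1
  have hKlog : Real.log N ≤ 12 * Kt := by
    have h1 : (N : ℝ) ≤ 2 ^ (Kt + R) := by exact_mod_cast hNK.le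
    have h2 := Real.log_le_log (by linarith) h1
    rw [Real.log_pow] at h2
    have h3 := Real.log_two_lt_d9
    have h4 : (0 : ℝ) ≤ ((Kt + R : ℕ) : ℝ) := Nat.cast_nonneg _
    have h5 : ((Kt + R : ℕ) : ℝ) ≤ 12 * Kt := by
      have : Kt + R ≤ 12 * Kt := by omega
      exact_mod_cast this
    nlinarith
  obtain ⟨K, hK⟩ : ∃ K, Kt = K + 200 * L := ⟨Kt - 200 * L, by omega⟩
  have hL1' : 1 ≤ L := by omega
  have hK1 : 1 ≤ K := by omega
  have hK2 : (Real.log N) ≤ 24 * K := by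
    have h1 : (Kt : ℝ) ≤ 2 * K := by
      have : Kt ≤ 2 * K := by omega
      exact_mod_cast this
    linarith
  have hK0 : (0 : ℝ) < K := by exact_mod_cast hK1
  have h1 := ccnt_twoA hC hPH A K (200 * L) (2 ^ R) hK1 (ok_SA A h)
  have e1 : (2 : ℕ) ^ (200 * L) * (2 ^ R * 2 ^ K) = 2 ^ (Kt + R) := by
    rw [← pow_add, ← pow_add, hK]
    congr 1
    ring
  rw [e1, ← hK] at h1
  have e2 : (2 : ℝ) ^ (200 * L) * (2 ^ R * 2 ^ K) = 2 ^ (Kt + R) := by
    rw [← pow_add, ← pow_add, hK]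
    congr 1
    ring
  have h3 : (0.984 : ℝ) ^ (200 * L) * Phi 0 (SA A h) ≤ A + 1 := by
    calc (0.984 : ℝ) ^ (200 * L) * Phi 0 (SA A h)
        ≤ (0.984 : ℝ) ^ (200 * L) * (((A : ℝ) + 1) * ((h : ℝ) + 1) ^ 2) :=
          mul_le_mul_of_nonneg_left (Phi_SA A h) (by positivity)
      _ = ((A : ℝ) + 1) * ((0.984 : ℝ) ^ (200 * L) * ((h : ℝ) + 1) ^ 2) := by ring
      _ ≤ ((A : ℝ) + 1) * 1 := mul_le_mul_of_nonneg_left (pow_L hLp) (by linarith)
      _ = A + 1 := by ring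
  have h4 : 9721 * ((A : ℝ) + ((200 * L : ℕ) : ℝ) + 1) +
      2 * ((0.984 : ℝ) ^ (200 * L) * Phi 0 (SA A h)) ≤ 6000000 * (1 + A + Real.log h) := by
    push_cast
    nlinarith
  have h5 : 1 / Real.sqrt K ≤ 5 / Real.sqrt (Real.log N) := by
    rw [div_le_div_iff₀ (Real.sqrt_pos.2 hK0) hsq, one_mul]
    have : Real.sqrt (Real.log N) ≤ Real.sqrt (25 * K) := by
      apply Real.sqrt_le_sqrt
      linarith
    rw [Real.sqrt_mul (by norm_num)] at this
    have h6 : Real.sqrt 25 = 5 := by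
      rw [show (25 : ℝ) = 5 ^ 2 by norm_num, Real.sqrt_sq (by norm_num)]
    rwa [h6] at this
  calc ccnt Kt (2 ^ (Kt + R)) (SA A h)
      ≤ 2 ^ (200 * L) * (C * (((2 ^ R : ℕ) : ℝ) * 2 ^ K) / Real.sqrt K *
        (9721 * ((A : ℝ) + ((200 * L : ℕ) : ℝ) + 1) +
        2 * ((0.984 : ℝ) ^ (200 * L) * Phi 0 (SA A h)))) := h1
    _ = C * 2 ^ (Kt + R) * (9721 * ((A : ℝ) + ((200 * L : ℕ) : ℝ) + 1) +
        2 * ((0.984 : ℝ) ^ (200 * L) * Phi 0 (SA A h))) * (1 / Real.sqrt K) := by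
        rw [← e2]
        push_cast
        ring
    _ ≤ C * (2 * N) * (6000000 * (1 + A + Real.log h)) * (5 / Real.sqrt (Real.log N)) := by
        gcongr
        have := Phi_nonneg 0 (SA A h)
        positivity
    _ = C * 60000000 * N * (1 + A + Real.log h) / Real.sqrt (Real.log N) := by ring

/-- The windows of radius `h` around `σ x, 3 σ x, …, 3 ^ A σ x`. -/
def Win (σ : ℤ) (A h x : ℕ) : Set ℤ := {n : ℤ | ∃ a : ℕ, a ≤ A ∧ |n - 3 ^ a * (σ * (x : ℤ))| ≤ h}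

theorem win_sub {σ : ℤ} {A h x K : ℕ} : T^[K] '' Win σ A h x ⊆
    (((SA A (3 ^ A * h + h)).image fun s => T^[K] (val s (σ * (x : ℤ) - h)) : Finset ℤ) : Set ℤ) := by
  rintro _ ⟨n, ⟨a, ha, hn⟩, rfl⟩
  have h1 := abs_le.1 hn
  obtain ⟨t, ht⟩ : ∃ t : ℤ, t = σ * (x : ℤ) := ⟨_, rfl⟩
  rw [← ht] at h1 ⊢
  have h2 : (3 : ℤ) ^ a ≤ 3 ^ A := pow_le_pow_right₀ (by norm_num) ha
  have h3 : (1 : ℤ) ≤ 3 ^ a := one_le_pow₀ (by norm_num)
  have h4 : (0 : ℤ) ≤ h := Int.natCast_nonneg h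
  have h5 : (h : ℤ) ≤ 3 ^ a * h := by nlinarith
  have h6 : (3 : ℤ) ^ a * h ≤ 3 ^ A * h := mul_le_mul_of_nonneg_right h2 h4
  obtain ⟨b, hbd⟩ : ∃ b : ℕ, (b : ℤ) = 3 ^ a * h + (n - 3 ^ a * t) :=
    ⟨(3 ^ a * h + (n - 3 ^ a * t)).toNat, Int.toNat_of_nonneg (by linarith)⟩
  have h7 : b ≤ 3 ^ A * h + h := by
    have : (b : ℤ) ≤ ((3 ^ A * h + h : ℕ) : ℤ) := by
      push_cast
      linarith
    exact_mod_cast this
  rw [Finset.mem_coe, Finset.mem_image]
  refine ⟨(a, (b : ℤ)), mem_SA.2 ⟨a, b, ha, h7, rfl⟩, ?_⟩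
  congr 1
  unfold val
  simp only
  rw [hbd]
  ring

theorem win_card {σ : ℤ} {A h x K : ℕ} : ((T^[K] '' Win σ A h x).ncard : ℝ) ≤
    cls K (SA A (3 ^ A * h + h)) (σ * (x : ℤ) - h) := by
  have h1 : (T^[K] '' Win σ A h x).ncard ≤ cls K (SA A (3 ^ A * h + h)) (σ * (x : ℤ) - h) := by
    unfold cls
    rw [← Set.ncard_coe_finset]
    exact Set.ncard_le_ncard win_sub (Finset.finite_toSet _)
  exact_mod_cast h1

theorem SA_nonempty (A h : ℕ) : (SA A h).Nonempty := ⟨(0, ((0 : ℕ) : ℤ)), mem_SA.2 ⟨0, 0, by omega, by omega, rfl⟩⟩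

theorem cls_pos {K : ℕ} {S : Finset (ℕ × ℤ)} (hS : S.Nonempty) (t : ℤ) : (1 : ℝ) ≤ cls K S t := by
  have : 1 ≤ cls K S t := Finset.card_pos.2 (hS.image _)
  exact_mod_cast this

theorem sum_win {σ : ℤ} (hσ : |σ| = 1) {A X h K m : ℕ} (hh : h ≤ X) (hm : 3 * X < m) :
    ∑ x ∈ Finset.Ico X (2 * X), (((T^[K] '' Win σ A h x).ncard : ℝ) - 1) ≤
      ccnt K m (SA A (3 ^ A * h + h)) := by
  obtain ⟨S, hS⟩ : ∃ S, S = SA A (3 ^ A * h + h) := ⟨_, rfl⟩
  have hne : S.Nonempty := by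
    rw [hS]
    exact SA_nonempty _ _
  rw [← hS]
  have h1 : ∑ x ∈ Finset.Ico X (2 * X), (((T^[K] '' Win σ A h x).ncard : ℝ) - 1) ≤
      ∑ x ∈ Finset.Ico X (2 * X), ((cls K S (σ * (x : ℤ) - h) : ℝ) - 1) := by
    apply Finset.sum_le_sum
    intro x _
    have := win_card (σ := σ) (A := A) (h := h) (x := x) (K := K)
    rw [← hS] at this
    linarith
  refine h1.trans ?_
  have hφ : ∀ x ∈ Finset.Ico X (2 * X), (((σ * (x : ℤ) - h + m).toNat : ℕ) : ℤ) = σ * (x : ℤ) - h + m := by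
    intro x hx
    rw [Finset.mem_Ico] at hx
    apply Int.toNat_of_nonneg
    rcases eq_or_eq_neg_of_abs_eq hσ with rfl | rfl <;> omega
  have h2 : ∑ x ∈ Finset.Ico X (2 * X), ((cls K S (σ * (x : ℤ) - h) : ℝ) - 1) =
      ∑ i ∈ (Finset.Ico X (2 * X)).image (fun x : ℕ => (σ * (x : ℤ) - h + m).toNat),
        ((cls K S ((i : ℤ) - m) : ℝ) - 1) := by
    rw [Finset.sum_image]
    · apply Finset.sum_congr rfl
      intro x hx
      rw [hφ x hx, add_sub_cancel_right]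
    · intro x hx y hy hxy
      have e1 := hφ x hx
      have e2 := hφ y hy
      simp only at hxy
      rw [hxy, e2] at e1
      rcases eq_or_eq_neg_of_abs_eq hσ with rfl | rfl <;> omega
  rw [h2]
  unfold ccnt
  apply Finset.sum_le_sum_of_subset_of_nonneg
  · intro i hi
    rw [Finset.mem_image] at hi
    obtain ⟨x, hx, rfl⟩ := hi
    have e1 := hφ x hx
    rw [Finset.mem_Ico] at hx
    rw [Finset.mem_range]
    rcases eq_or_eq_neg_of_abs_eq hσ with rfl | rfl <;> omega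
  · intro i _ _
    have := cls_pos (K := K) hne ((i : ℤ) - m)
    linarith

theorem Kt_ge {X : ℕ} (hX : 2 ≤ X) : Real.log X ≤ 5 * ((Nat.log 2 (2 * X) / 2 : ℕ) : ℝ) := by
  have h1 := (log_est hX).2
  obtain ⟨K, hK⟩ : ∃ K, K = Nat.log 2 (2 * X) / 2 := ⟨_, rfl⟩
  rw [← hK] at h1 ⊢
  have h2 : X < 2 ^ (6 * K) := by
    have h3 : 3 * X < 2 ^ (Nat.log 2 (3 * X) + 1) := Nat.lt_pow_succ_log_self (by norm_num) _
    have h4 : 2 ^ (Nat.log 2 (3 * X) + 1) ≤ 2 ^ (6 * K) := Nat.pow_le_pow_right (by norm_num) h1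
    omega
  have h3 : (X : ℝ) ≤ 2 ^ (6 * K) := by exact_mod_cast h2.le
  have h4 := Real.log_le_log (by exact_mod_cast (show 0 < X by omega)) h3
  rw [Real.log_pow] at h4
  have h5 := Real.log_two_lt_d9
  have h6 : (0 : ℝ) ≤ K := Nat.cast_nonneg K
  push_cast at h4
  nlinarith

theorem orbits_of {C₀ : ℝ} (hC₀ : 0 < C₀) (hPH : PHc C₀) : ∃ c C : ℝ, 0 < c ∧ 0 < C ∧
    ∀ (σ : ℤ) (A X h : ℕ), |σ| = 1 → 2 ≤ X → 1 ≤ h → (A : ℝ) + Real.log h ≤ c * Real.log X →
    ∑ x ∈ Finset.Ico X (2 * X), ((T^[Nat.log 2 (2 * X) / 2] '' Win σ A h x).ncard : ℝ) ≤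
      X + C * X * ((1 + A + Real.log h) / Real.sqrt (Real.log X)) := by
  refine ⟨1 / 100000, C₀ * 540000000 + 2000, by norm_num, by positivity,
    fun σ A X h hσ hX hh hAh => ?_⟩
  have hX1 : (1 : ℝ) < X := by exact_mod_cast (show 1 < X by omega)
  have hX0 : (0 : ℝ) < X := by linarith
  have hlog : 0 < Real.log X := Real.log_pos hX1
  have hsq : 0 < Real.sqrt (Real.log X) := Real.sqrt_pos.2 hlog
  have hh1 : (1 : ℝ) ≤ h := by exact_mod_cast hh
  have hlogh : 0 ≤ Real.log h := Real.log_nonneg hh1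
  have hA0 : (0 : ℝ) ≤ A := Nat.cast_nonneg A
  obtain ⟨K, hK⟩ : ∃ K, K = Nat.log 2 (2 * X) / 2 := ⟨_, rfl⟩
  have hKe := log_est hX
  have hKg := Kt_ge hX
  rw [← hK] at hKe hKg ⊢
  have hpos : 0 ≤ (1 + A + Real.log h) / Real.sqrt (Real.log X) := by positivity
  have hsplit : ∑ x ∈ Finset.Ico X (2 * X), ((T^[K] '' Win σ A h x).ncard : ℝ) =
      X + ∑ x ∈ Finset.Ico X (2 * X), (((T^[K] '' Win σ A h x).ncard : ℝ) - 1) := by
    rw [Finset.sum_sub_distrib, Finset.sum_const, Nat.card_Ico, nsmul_eq_mul, mul_one]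
    have : 2 * X - X = X := by omega
    rw [this]
    ring
  rw [hsplit]
  apply add_le_add le_rfl
  rcases le_or_gt 100000 (Real.log X) with hc | hc
  · have hhX : h ≤ X := by
      have h1 : Real.log h ≤ Real.log X := by linarith
      have h2 := (Real.log_le_log_iff (by linarith) hX0).1 h1
      exact_mod_cast h2
    obtain ⟨R, hR⟩ : ∃ R, R = 3 ^ A * h + h := ⟨_, rfl⟩
    have hR1 : 1 ≤ R := by omega
    have hlR := log_R A hh
    rw [← hR] at hlR
    have hL := L_le R hR1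
    obtain ⟨R', hR'⟩ : ∃ R', Nat.log 2 (3 * X) + 1 = K + R' := ⟨_, (Nat.add_sub_cancel' hKe.1).symm⟩
    have hc2 : 2 * (200 * (Nat.log 2 (R + 1) + 1)) ≤ K := by
      have h1 : 400 * ((Nat.log 2 (R + 1) + 1 : ℕ) : ℝ) ≤ K := by nlinarith
      have h2 : 400 * (Nat.log 2 (R + 1) + 1) ≤ K := by exact_mod_cast h1
      omega
    have h1 := ccnt_main hC₀ hPH A (3 * X) R K R' (by omega) hR1 hR' (by omega) hc2
    have hm : 3 * X < 2 ^ (K + R') := by
      rw [← hR']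
      exact Nat.lt_pow_succ_log_self (by norm_num) _
    have h2 := sum_win hσ (A := A) (K := K) hhX hm
    rw [← hR] at h2
    refine h2.trans (h1.trans ?_)
    have h4 : Real.sqrt (Real.log X) ≤ Real.sqrt (Real.log ((3 * X : ℕ) : ℝ)) := by
      apply Real.sqrt_le_sqrt
      apply Real.log_le_log hX0
      push_cast
      linarith
    calc C₀ * 60000000 * ((3 * X : ℕ) : ℝ) * (1 + A + Real.log R) /
          Real.sqrt (Real.log ((3 * X : ℕ) : ℝ))
        ≤ C₀ * 60000000 * ((3 * X : ℕ) : ℝ) * (3 * (1 + A + Real.log h)) /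
          Real.sqrt (Real.log X) := by
          gcongr
      _ = C₀ * 540000000 * X * ((1 + A + Real.log h) / Real.sqrt (Real.log X)) := by
          push_cast
          ring
      _ ≤ (C₀ * 540000000 + 2000) * X * ((1 + A + Real.log h) / Real.sqrt (Real.log X)) := by
          gcongr
          linarith
  · have hA1 : (A : ℝ) < 1 := by nlinarith
    have hA2 : A = 0 := by
      have : A < 1 := by exact_mod_cast hA1
      omega
    have hl1 : Real.log h < 1 := by nlinarith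
    have hh3 : h ≤ 2 := by
      by_contra h3
      have h4 : (3 : ℝ) ≤ h := by exact_mod_cast (show 3 ≤ h by omega)
      have h5 := Real.log_le_log (by norm_num) h4
      have h6 : 1 ≤ Real.log 3 := by
        rw [Real.le_log_iff_exp_le (by norm_num)]
        have := Real.exp_one_lt_d9
        linarith
      linarith
    have h1 : ∀ x ∈ Finset.Ico X (2 * X), ((T^[K] '' Win σ A h x).ncard : ℝ) - 1 ≤ 4 := by
      intro x _
      have h2 : Win σ A h x ⊆ ((Finset.Icc (σ * (x : ℤ) - 2) (σ * (x : ℤ) + 2) : Finset ℤ) : Set ℤ) := by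
        rintro n ⟨a, ha, hn⟩
        have ha0 : a = 0 := by omega
        rw [ha0, pow_zero, one_mul] at hn
        have h3 := abs_le.1 hn
        have h4 : (h : ℤ) ≤ 2 := by exact_mod_cast hh3
        rw [Finset.mem_coe, Finset.mem_Icc]
        constructor <;> linarith
      have h3 : (T^[K] '' Win σ A h x).ncard ≤ 5 := by
        refine (Set.ncard_image_le ((Finset.finite_toSet _).subset h2)).trans ?_
        refine (Set.ncard_le_ncard h2 (Finset.finite_toSet _)).trans ?_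
        rw [Set.ncard_coe_finset, Int.card_Icc]
        omega
      have h4 : ((T^[K] '' Win σ A h x).ncard : ℝ) ≤ 5 := by exact_mod_cast h3
      linarith
    have h2 : ∑ x ∈ Finset.Ico X (2 * X), (((T^[K] '' Win σ A h x).ncard : ℝ) - 1) ≤ 4 * X := by
      refine (Finset.sum_le_card_nsmul _ _ _ h1).trans (le_of_eq ?_)
      rw [Nat.card_Ico, nsmul_eq_mul]
      have : 2 * X - X = X := by omega
      rw [this]
      ring
    refine h2.trans ?_
    have h3 : 1 ≤ 400 * ((1 + A + Real.log h) / Real.sqrt (Real.log X)) := by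
      rw [mul_div_assoc', one_le_div hsq]
      apply Real.sqrt_le_iff.2 ⟨by positivity, ?_⟩
      nlinarith
    calc 4 * (X : ℝ) = 4 * X * 1 := by ring
      _ ≤ 4 * X * (400 * ((1 + A + Real.log h) / Real.sqrt (Real.log X))) := by gcongr
      _ = 1600 * X * ((1 + A + Real.log h) / Real.sqrt (Real.log X)) := by ring
      _ ≤ (C₀ * 540000000 + 2000) * X * ((1 + A + Real.log h) / Real.sqrt (Real.log X)) := by
          gcongr
          nlinarith

/-- **Orbits.** There are `c, C > 0` such that for `A + log h ≤ c log X` the map `T^[k]`,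
`k = ⌊log₂ (2 X) / 2⌋`, takes on average over `x` in `[X, 2X)` at most `1 + C (1 + A + log h) / √(log X)` values
on the union of the windows of radius `h` around `σ x, 3 σ x, …, 3 ^ A σ x`. -/
theorem orbits : ∃ c C : ℝ, 0 < c ∧ 0 < C ∧
    ∀ (σ : ℤ) (A X h : ℕ), |σ| = 1 → 2 ≤ X → 1 ≤ h → (A : ℝ) + Real.log h ≤ c * Real.log X →
    ∑ x ∈ Finset.Ico X (2 * X), ((T^[Nat.log 2 (2 * X) / 2] '' Win σ A h x).ncard : ℝ) ≤
      X + C * X * ((1 + A + Real.log h) / Real.sqrt (Real.log X)) := by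
  obtain ⟨C₀, hC₀, hPH⟩ := cls_phantom
  exact orbits_of hC₀ hPH

end Pool.Agent.MB86
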