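import Mathlib
import Pool.Agent.MB86.Orbits
import Pool.Agent.MB86.Lattice

set_option autoImplicit false

/-!
The average number of grand orbits which meet the windows around the points `2 ^ i 3 ^ j x`.
-/

namespace Pool.Agent.MB86

open Pool.Agent.Helper14 (T)
open Pool.Agent.Helper86.CollatzInt
open Pool.Agent.Helper86.CollatzChain

/-- The grand orbit of `n`. -/
def GO (n : ℤ) : Set ℤ := {m : ℤ | ∃ k l : ℕ, T^[k] n = T^[l] m}

theorem GO_sub {n m : ℤ} (h : ∃ k l : ℕ, T^[k] n = T^[l] m) : GO n ⊆ GO m := by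
  obtain ⟨k, l, h⟩ := h
  rintro z ⟨k', l', hz⟩
  refine ⟨k' + l, k + l', ?_⟩
  rw [Function.iterate_add_apply, ← h, Function.iterate_add_apply T k l' z, ← hz,
    ← Function.iterate_add_apply, ← Function.iterate_add_apply, add_comm]

theorem GO_eq {n m : ℤ} (h : ∃ k l : ℕ, T^[k] n = T^[l] m) : GO n = GO m := by
  apply Set.Subset.antisymm (GO_sub h)
  obtain ⟨k, l, h⟩ := h
  exact GO_sub ⟨l, k, h.symm⟩

/-- The integers within `h` of one of the points `2 ^ i 3 ^ j y`, `|i|, |j| ≤ J`. -/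
def Lat (J h : ℕ) (y : ℤ) : Set ℤ :=
  {n : ℤ | ∃ p q p' q' : ℕ, p ≤ J ∧ q ≤ J ∧ p' ≤ J ∧ q' ≤ J ∧
    |2 ^ p * 3 ^ q * n - 2 ^ p' * 3 ^ q' * y| ≤ 2 ^ p * 3 ^ q * (h : ℤ)}

theorem go_le {J b0 h x K : ℕ} {σ : ℤ} (hσ : |σ| = 1) (hb1 : J ≤ b0) (hb2 : b0 ≤ 2 * J) (hh : 1 ≤ h) :
    ((GO '' Lat J h (σ * (x : ℤ))).ncard : ℝ) ≤
      cls K (SA (2 * J) (3 ^ (2 * J) * (2 * 9 ^ J * h) + 2 * 9 ^ J * h))
        (σ * ((2 ^ b0 * x / 3 ^ J : ℕ) : ℤ) - ((2 * 9 ^ J * h : ℕ) : ℤ)) := by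
  refine le_trans ?_ win_card
  have hfin : (T^[K] '' Win σ (2 * J) (2 * 9 ^ J * h) (2 ^ b0 * x / 3 ^ J)).Finite :=
    (Finset.finite_toSet _).subset win_sub
  have h1 : (GO '' Lat J h (σ * (x : ℤ))).ncard ≤
      (T^[K] '' Win σ (2 * J) (2 * 9 ^ J * h) (2 ^ b0 * x / 3 ^ J)).ncard := by
    refine le_trans ?_ (Set.ncard_image_le (f := GO) hfin)
    apply Set.ncard_le_ncard _ (hfin.image _)
    rintro _ ⟨n, ⟨p, q, p', q', hp, hq, hp', hq', hn⟩, rfl⟩
    have h2 := near hσ hb1 hb2 hp hq hp' hq' hh hn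
    refine ⟨T^[K] (2 ^ (b0 + p - p') * n), ⟨_, ⟨J + q' - q, by omega, h2⟩, rfl⟩, ?_⟩
    apply GO_eq
    refine ⟨b0 + p - p', K, ?_⟩
    rw [← Function.iterate_add_apply, add_comm, Function.iterate_add_apply, T_two_pow]
  exact_mod_cast h1

theorem sum_inj {s : Finset ℕ} {ψ : ℕ → ℤ} {K m : ℕ} {S : Finset (ℕ × ℤ)} (hne : S.Nonempty)
    (hinj : Set.InjOn ψ s) (hr : ∀ x ∈ s, |ψ x| < m) :
    ∑ x ∈ s, ((cls K S (ψ x) : ℝ) - 1) ≤ ccnt K m S := by
  have hφ : ∀ x ∈ s, (((ψ x + m).toNat : ℕ) : ℤ) = ψ x + m := by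
    intro x hx
    apply Int.toNat_of_nonneg
    have := abs_lt.1 (hr x hx)
    linarith
  have h2 : ∑ x ∈ s, ((cls K S (ψ x) : ℝ) - 1) =
      ∑ i ∈ s.image (fun x : ℕ => (ψ x + m).toNat), ((cls K S ((i : ℤ) - m) : ℝ) - 1) := by
    rw [Finset.sum_image]
    · apply Finset.sum_congr rfl
      intro x hx
      rw [hφ x hx, add_sub_cancel_right]
    · intro x hx y hy hxy
      have e1 := hφ x hx
      have e2 := hφ y hy
      simp only at hxy
      rw [hxy, e2] at e1
      exact hinj hx hy (by linarith)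
  rw [h2]
  unfold ccnt
  apply Finset.sum_le_sum_of_subset_of_nonneg
  · intro i hi
    rw [Finset.mem_image] at hi
    obtain ⟨x, hx, rfl⟩ := hi
    have e1 := hφ x hx
    have e2 := abs_lt.1 (hr x hx)
    rw [Finset.mem_range]
    omega
  · intro i _ _
    have := cls_pos (K := K) hne ((i : ℤ) - m)
    linarith

theorem orbitsL_of {C₀ : ℝ} (hC₀ : 0 < C₀) (hPH : PHc C₀) : ∃ c C : ℝ, 0 < c ∧ 0 < C ∧
    ∀ (σ : ℤ) (J X h : ℕ), |σ| = 1 → 2 ≤ X → 1 ≤ h → (J : ℝ) + Real.log h ≤ c * Real.log X →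
    ∑ x ∈ Finset.Ico X (2 * X), ((GO '' Lat J h (σ * (x : ℤ))).ncard : ℝ) ≤
      X + C * X * ((1 + J + Real.log h) / Real.sqrt (Real.log X)) := by
  refine ⟨1 / 1000000, C₀ * 5400000000 + 10000, by norm_num, by positivity,
    fun σ J X h hσ hX hh hAh => ?_⟩
  have hX1 : (1 : ℝ) < X := by exact_mod_cast (show 1 < X by omega)
  have hX0 : (0 : ℝ) < X := by linarith
  have hlog : 0 < Real.log X := Real.log_pos hX1
  have hsq : 0 < Real.sqrt (Real.log X) := Real.sqrt_pos.2 hlog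
  have hh1 : (1 : ℝ) ≤ h := by exact_mod_cast hh
  have hlogh : 0 ≤ Real.log h := Real.log_nonneg hh1
  have hA0 : (0 : ℝ) ≤ J := Nat.cast_nonneg J
  obtain ⟨K, hK⟩ : ∃ K, K = Nat.log 2 (2 * X) / 2 := ⟨_, rfl⟩
  have hKe := log_est hX
  have hKg := Kt_ge hX
  rw [← hK] at hKe hKg
  have hpos : 0 ≤ (1 + J + Real.log h) / Real.sqrt (Real.log X) := by positivity
  have hsplit : ∑ x ∈ Finset.Ico X (2 * X), ((GO '' Lat J h (σ * (x : ℤ))).ncard : ℝ) =
      X + ∑ x ∈ Finset.Ico X (2 * X), (((GO '' Lat J h (σ * (x : ℤ))).ncard : ℝ) - 1) := by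
    rw [Finset.sum_sub_distrib, Finset.sum_const, Nat.card_Ico, nsmul_eq_mul, mul_one]
    have : 2 * X - X = X := by omega
    rw [this]
    ring
  rw [hsplit]
  apply add_le_add le_rfl
  rcases le_or_gt 1000000 (Real.log X) with hc | hc
  · obtain ⟨b0, hb0⟩ : ∃ b0, b0 = Nat.log 2 (3 ^ J) := ⟨_, rfl⟩
    have hbA : 2 ^ b0 ≤ 3 ^ J := by
      rw [hb0]
      exact Nat.pow_log_le_self 2 (by positivity)
    have hbB : 3 ^ J < 2 ^ (b0 + 1) := by
      rw [hb0]
      exact Nat.lt_pow_succ_log_self (by norm_num) _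
    have hb1 : J ≤ b0 := by
      have h1 : Nat.log 2 (2 ^ J) ≤ Nat.log 2 (3 ^ J) :=
        Nat.log_mono_right (Nat.pow_le_pow_left (by norm_num) J)
      rw [Nat.log_pow (by norm_num)] at h1
      omega
    have hb2 : b0 ≤ 2 * J := by
      have h1 : Nat.log 2 (3 ^ J) ≤ Nat.log 2 (2 ^ (2 * J)) := by
        apply Nat.log_mono_right
        rw [pow_mul]
        exact Nat.pow_le_pow_left (by norm_num) J
      rw [Nat.log_pow (by norm_num)] at h1
      omega
    obtain ⟨h₁, hh₁⟩ : ∃ h₁, h₁ = 2 * 9 ^ J * h := ⟨_, rfl⟩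
    have hh₁1 : 1 ≤ h₁ := by
      rw [hh₁]
      have : 0 < 2 * 9 ^ J * h := by positivity
      omega
    have hlog1 : Real.log h₁ ≤ 1 + 3 * J + Real.log h := by
      rw [hh₁]
      push_cast
      rw [Real.log_mul (by positivity) (by positivity), Real.log_mul (by norm_num) (by positivity),
        Real.log_pow]
      have h5 := Real.log_two_lt_d9
      have h6 : Real.log 9 ≤ 3 := by
        have e : (9 : ℝ) = 3 ^ 2 := by norm_num
        rw [e, Real.log_pow]
        have h7 : Real.log 3 ≤ 3 / 2 := by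
          have h8 : Real.log 3 ≤ Real.log 4 := Real.log_le_log (by norm_num) (by norm_num)
          have h9 : Real.log 4 = 2 * Real.log 2 := by
            rw [show (4 : ℝ) = 2 ^ 2 by norm_num, Real.log_pow]
            norm_num
          linarith
        push_cast
        linarith
      have h7 : (J : ℝ) * Real.log 9 ≤ J * 3 := mul_le_mul_of_nonneg_left h6 hA0
      linarith
    have hh₁0 : (0 : ℝ) < h₁ := by exact_mod_cast hh₁1
    have hhX : h₁ ≤ X := by
      have h1 : Real.log h₁ ≤ Real.log X := by linarith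
      have h2 := (Real.log_le_log_iff hh₁0 hX0).1 h1
      exact_mod_cast h2
    obtain ⟨R, hR⟩ : ∃ R, R = 3 ^ (2 * J) * h₁ + h₁ := ⟨_, rfl⟩
    have hR1 : 1 ≤ R := by omega
    have hlR := log_R (2 * J) hh₁1
    rw [← hR] at hlR
    push_cast at hlR
    have hlR' : 1 + 2 * (J : ℝ) + Real.log R ≤ 15 * (1 + J + Real.log h) := by linarith
    have hL := L_le R hR1
    obtain ⟨R', hR'⟩ : ∃ R', Nat.log 2 (3 * X) + 1 = K + R' := ⟨_, (Nat.add_sub_cancel' hKe.1).symm⟩
    have hc2 : 2 * (200 * (Nat.log 2 (R + 1) + 1)) ≤ K := by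
      have h1 : 400 * ((Nat.log 2 (R + 1) + 1 : ℕ) : ℝ) ≤ K := by nlinarith
      have h2 : 400 * (Nat.log 2 (R + 1) + 1) ≤ K := by exact_mod_cast h1
      omega
    have h1 := ccnt_main hC₀ hPH (2 * J) (3 * X) R K R' (by omega) hR1 hR' (by omega) hc2
    obtain ⟨m, hm0⟩ : ∃ m, m = 2 ^ (K + R') := ⟨_, rfl⟩
    have hm : 3 * X < m := by
      rw [hm0, ← hR']
      exact Nat.lt_pow_succ_log_self (by norm_num) _
    rw [← hm0] at h1
    obtain ⟨ψ, hψ⟩ : ∃ ψ : ℕ → ℤ, ψ = fun x => σ * ((2 ^ b0 * x / 3 ^ J : ℕ) : ℤ) - (h₁ : ℤ) := ⟨_, rfl⟩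
    have h2 : ∀ x ∈ Finset.Ico X (2 * X), ((GO '' Lat J h (σ * (x : ℤ))).ncard : ℝ) - 1 ≤
        (cls K (SA (2 * J) R) (ψ x) : ℝ) - 1 := by
      intro x _
      have := go_le (K := K) (x := x) hσ hb1 hb2 hh
      rw [← hh₁, ← hR] at this
      rw [hψ]
      linarith
    have hrange : ∀ x ∈ Finset.Ico X (2 * X), |ψ x| < m := by
      intro x hx
      rw [Finset.mem_Ico] at hx
      have h8 : 2 ^ b0 * x / 3 ^ J ≤ x := by
        apply Nat.div_le_of_le_mul
        exact Nat.mul_le_mul_right x hbA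
      rw [hψ]
      simp only
      generalize 2 ^ b0 * x / 3 ^ J = y at h8
      rw [abs_lt]
      rcases eq_or_eq_neg_of_abs_eq hσ with rfl | rfl <;> constructor <;> omega
    have h3 : ∀ r : ℕ, ∑ x ∈ (Finset.Ico X (2 * X)).filter (fun x => x % 2 = r),
        ((cls K (SA (2 * J) R) (ψ x) : ℝ) - 1) ≤ ccnt K m (SA (2 * J) R) := by
      intro r
      apply sum_inj (SA_nonempty _ _)
      · intro x hx y hy hxy
        rw [Finset.mem_coe, Finset.mem_filter] at hx hy
        rw [hψ] at hxy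
        simp only at hxy
        have h5 : 2 ^ b0 * x / 3 ^ J = 2 ^ b0 * y / 3 ^ J := by
          generalize 2 ^ b0 * x / 3 ^ J = x' at hxy ⊢
          generalize 2 ^ b0 * y / 3 ^ J = y' at hxy ⊢
          rcases eq_or_eq_neg_of_abs_eq hσ with rfl | rfl <;> omega
        exact fib hbB (hx.2.trans hy.2.symm) h5
      · intro x hx
        exact hrange x (Finset.mem_filter.1 hx).1
    have h4 : ∑ x ∈ Finset.Ico X (2 * X), (((GO '' Lat J h (σ * (x : ℤ))).ncard : ℝ) - 1) ≤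
        2 * ccnt K m (SA (2 * J) R) := by
      refine (Finset.sum_le_sum h2).trans ?_
      have e : ∑ x ∈ Finset.Ico X (2 * X), ((cls K (SA (2 * J) R) (ψ x) : ℝ) - 1) =
          ∑ x ∈ (Finset.Ico X (2 * X)).filter (fun x => x % 2 = 0),
            ((cls K (SA (2 * J) R) (ψ x) : ℝ) - 1) +
          ∑ x ∈ (Finset.Ico X (2 * X)).filter (fun x => x % 2 = 1),
            ((cls K (SA (2 * J) R) (ψ x) : ℝ) - 1) := by
        rw [← Finset.sum_filter_add_sum_filter_not (Finset.Ico X (2 * X)) (fun x => x % 2 = 0)]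
        congr 1
        apply Finset.sum_congr _ fun _ _ => rfl
        ext x
        rw [Finset.mem_filter, Finset.mem_filter]
        constructor
        · rintro ⟨h8, h9⟩
          exact ⟨h8, by omega⟩
        · rintro ⟨h8, h9⟩
          exact ⟨h8, by omega⟩
      rw [e]
      have := h3 0
      have := h3 1
      linarith
    refine h4.trans ?_
    have h5 : Real.sqrt (Real.log X) ≤ Real.sqrt (Real.log ((3 * X : ℕ) : ℝ)) := by
      apply Real.sqrt_le_sqrt
      apply Real.log_le_log hX0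
      push_cast
      linarith
    have h6 : 0 ≤ 1 + ((2 * J : ℕ) : ℝ) + Real.log R := by
      have : 0 ≤ Real.log (R : ℝ) := Real.log_natCast_nonneg _
      positivity
    have h7 : 1 + ((2 * J : ℕ) : ℝ) + Real.log R ≤ 15 * (1 + J + Real.log h) := by
      push_cast
      exact hlR'
    calc 2 * ccnt K m (SA (2 * J) R) ≤ 2 * (C₀ * 60000000 * ((3 * X : ℕ) : ℝ) *
          (1 + ((2 * J : ℕ) : ℝ) + Real.log R) / Real.sqrt (Real.log ((3 * X : ℕ) : ℝ))) := by linarith
      _ ≤ 2 * (C₀ * 60000000 * ((3 * X : ℕ) : ℝ) * (15 * (1 + J + Real.log h)) /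
          Real.sqrt (Real.log X)) := by
          gcongr
      _ = C₀ * 5400000000 * X * ((1 + J + Real.log h) / Real.sqrt (Real.log X)) := by
          push_cast
          ring
      _ ≤ (C₀ * 5400000000 + 10000) * X * ((1 + J + Real.log h) / Real.sqrt (Real.log X)) := by
          gcongr
          linarith
  · have hA1 : (J : ℝ) < 1 := by nlinarith
    have hA2 : J = 0 := by
      have : J < 1 := by exact_mod_cast hA1
      omega
    have hl1 : Real.log h < 1 := by nlinarith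
    have hh3 : h ≤ 2 := by
      by_contra h3
      have h4 : (3 : ℝ) ≤ h := by exact_mod_cast (show 3 ≤ h by omega)
      have h5 := Real.log_le_log (by norm_num) h4
      have h6 : 1 ≤ Real.log 3 := by
        rw [Real.le_log_iff_exp_le (by norm_num)]
        have := Real.exp_one_lt_d9
        linarith
      linarith
    have h1 : ∀ x ∈ Finset.Ico X (2 * X), ((GO '' Lat J h (σ * (x : ℤ))).ncard : ℝ) - 1 ≤ 4 := by
      intro x _
      have h2 : Lat J h (σ * (x : ℤ)) ⊆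
          ((Finset.Icc (σ * (x : ℤ) - 2) (σ * (x : ℤ) + 2) : Finset ℤ) : Set ℤ) := by
        rintro n ⟨p, q, p', q', hp, hq, hp', hq', hn⟩
        have e1 : p = 0 := by omega
        have e2 : q = 0 := by omega
        have e3 : p' = 0 := by omega
        have e4 : q' = 0 := by omega
        rw [e1, e2, e3, e4, pow_zero, pow_zero, one_mul, one_mul, one_mul] at hn
        have h3 := abs_le.1 hn
        have h4 : (h : ℤ) ≤ 2 := by exact_mod_cast hh3
        rw [Finset.mem_coe, Finset.mem_Icc]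
        constructor <;> linarith
      have h3 : (GO '' Lat J h (σ * (x : ℤ))).ncard ≤ 5 := by
        refine (Set.ncard_image_le ((Finset.finite_toSet _).subset h2)).trans ?_
        refine (Set.ncard_le_ncard h2 (Finset.finite_toSet _)).trans ?_
        rw [Set.ncard_coe_finset, Int.card_Icc]
        omega
      have h4 : ((GO '' Lat J h (σ * (x : ℤ))).ncard : ℝ) ≤ 5 := by exact_mod_cast h3
      linarith
    have h2 : ∑ x ∈ Finset.Ico X (2 * X), (((GO '' Lat J h (σ * (x : ℤ))).ncard : ℝ) - 1) ≤ 4 * X := by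
      refine (Finset.sum_le_card_nsmul _ _ _ h1).trans (le_of_eq ?_)
      rw [Nat.card_Ico, nsmul_eq_mul]
      have : 2 * X - X = X := by omega
      rw [this]
      ring
    refine h2.trans ?_
    have h3 : 1 ≤ 1000 * ((1 + J + Real.log h) / Real.sqrt (Real.log X)) := by
      rw [mul_div_assoc', one_le_div hsq]
      apply Real.sqrt_le_iff.2 ⟨by positivity, ?_⟩
      nlinarith
    calc 4 * (X : ℝ) = 4 * X * 1 := by ring
      _ ≤ 4 * X * (1000 * ((1 + J + Real.log h) / Real.sqrt (Real.log X))) := by gcongr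
      _ = 4000 * X * ((1 + J + Real.log h) / Real.sqrt (Real.log X)) := by ring
      _ ≤ (C₀ * 5400000000 + 10000) * X * ((1 + J + Real.log h) / Real.sqrt (Real.log X)) := by
          gcongr
          nlinarith

/-- **Grand orbits.** There are `c, C > 0` such that for `J + log h ≤ c log X` the integers within `h` of the
points `2 ^ i 3 ^ j σ x`, `|i|, |j| ≤ J`, meet on average over `x` in `[X, 2X)` at most
`1 + C (1 + J + log h) / √(log X)` grand orbits. -/
theorem orbitsL : ∃ c C : ℝ, 0 < c ∧ 0 < C ∧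
    ∀ (σ : ℤ) (J X h : ℕ), |σ| = 1 → 2 ≤ X → 1 ≤ h → (J : ℝ) + Real.log h ≤ c * Real.log X →
    ∑ x ∈ Finset.Ico X (2 * X), ((GO '' Lat J h (σ * (x : ℤ))).ncard : ℝ) ≤
      X + C * X * ((1 + J + Real.log h) / Real.sqrt (Real.log X)) := by
  obtain ⟨C₀, hC₀, hPH⟩ := cls_phantom
  exact orbitsL_of hC₀ hPH

end Pool.Agent.MB86
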