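import Mathlib
import Pool.Agent.MB86.OrbitsL

set_option autoImplicit false

/-!
Every interval: the average number of grand orbits which meet the windows around the points `2 ^ i 3 ^ j x`.
-/

namespace Pool.Agent.MB86

open Pool.Agent.Helper14 (T)
open Pool.Agent.Helper86.CollatzInt
open Pool.Agent.Helper86.CollatzChain

/-- the key estimate, for integers -/
theorem nearI {A b0 p q p' q' h : ℕ} {x n : ℤ} (hb1 : A ≤ b0)
    (hb2 : b0 ≤ 2 * A) (hp : p ≤ A) (hq : q ≤ A) (hp' : p' ≤ A) (hq' : q' ≤ A) (hh : 1 ≤ h)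
    (hn : |2 ^ p * 3 ^ q * n - 2 ^ p' * 3 ^ q' * x| ≤ 2 ^ p * 3 ^ q * h) :
    |2 ^ (b0 + p - p') * n - 3 ^ (A + q' - q) * (2 ^ b0 * x / 3 ^ A)| ≤
      ((2 * 9 ^ A * h : ℕ) : ℤ) := by
  obtain ⟨b, hb⟩ : ∃ b, b + p' = b0 + p := ⟨b0 + p - p', by omega⟩
  obtain ⟨a, ha⟩ : ∃ a, a + q = A + q' := ⟨A + q' - q, by omega⟩
  have eb : b0 + p - p' = b := by omega
  have ea : A + q' - q = a := by omega
  rw [eb, ea]
  obtain ⟨y, hy⟩ : ∃ y, y = 2 ^ b0 * x / 3 ^ A := ⟨_, rfl⟩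
  obtain ⟨ρ, hρ⟩ : ∃ ρ, ρ = 2 ^ b0 * x % 3 ^ A := ⟨_, rfl⟩
  have h1 : 3 ^ A * y + ρ = 2 ^ b0 * x := by
    rw [hy, hρ]
    exact Int.mul_ediv_add_emod _ _
  have h2 : ρ < 3 ^ A := by
    rw [hρ]
    exact Int.emod_lt_of_pos _ (by positivity)
  have h2'' : 0 ≤ ρ := by
    rw [hρ]
    exact Int.emod_nonneg _ (by positivity)
  rw [← hy]
  have e1 : (2 : ℤ) ^ b * 2 ^ p' = 2 ^ b0 * 2 ^ p := by
    rw [← pow_add, ← pow_add, hb]
  have e2 : (3 : ℤ) ^ a * 3 ^ q = 3 ^ A * 3 ^ q' := by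
    rw [← pow_add, ← pow_add, ha]
  have key : (2 : ℤ) ^ p' * 3 ^ q * (2 ^ b * n - 3 ^ a * y) =
      2 ^ b0 * (2 ^ p * 3 ^ q * n - 2 ^ p' * 3 ^ q' * x) + 2 ^ p' * 3 ^ q' * ρ := by
    linear_combination (3 ^ q * n) * e1 - (2 ^ p' * y) * e2 - (2 ^ p' * 3 ^ q') * h1
  have h3 : |(2 : ℤ) ^ p' * 3 ^ q * (2 ^ b * n - 3 ^ a * y)| ≤
      2 ^ p' * 3 ^ q * (2 ^ b * h + 3 ^ a) := by
    rw [key]
    refine (abs_add_le _ _).trans ?_
    rw [abs_mul, abs_mul ((2 : ℤ) ^ p' * 3 ^ q'), abs_of_nonneg h2'',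
      abs_of_nonneg (show (0 : ℤ) ≤ 2 ^ b0 by positivity),
      abs_of_nonneg (show (0 : ℤ) ≤ 2 ^ p' * 3 ^ q' by positivity)]
    have h4 : (2 : ℤ) ^ b0 * |2 ^ p * 3 ^ q * n - 2 ^ p' * 3 ^ q' * x| ≤
        2 ^ b0 * (2 ^ p * 3 ^ q * h) := mul_le_mul_of_nonneg_left hn (by positivity)
    have h5 : (2 : ℤ) ^ p' * 3 ^ q' * ρ ≤ 2 ^ p' * 3 ^ q' * 3 ^ A :=
      mul_le_mul_of_nonneg_left h2.le (by positivity)
    have e3 : (2 : ℤ) ^ b0 * (2 ^ p * 3 ^ q * h) + 2 ^ p' * 3 ^ q' * 3 ^ A =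
        2 ^ p' * 3 ^ q * (2 ^ b * h + 3 ^ a) := by
      linear_combination (-(3 ^ q * (h : ℤ))) * e1 - (2 ^ p') * e2
    linarith
  rw [abs_mul, abs_of_nonneg (show (0 : ℤ) ≤ 2 ^ p' * 3 ^ q by positivity)] at h3
  have h4 := le_of_mul_le_mul_left h3 (by positivity)
  refine h4.trans ?_
  have h5 : (2 : ℤ) ^ b ≤ 9 ^ A := by
    calc (2 : ℤ) ^ b ≤ 2 ^ (3 * A) := pow_le_pow_right₀ (by norm_num) (by omega)
      _ = 8 ^ A := by
          rw [pow_mul]
          norm_num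
      _ ≤ 9 ^ A := pow_le_pow_left₀ (by norm_num) (by norm_num) A
  have h6 : (3 : ℤ) ^ a ≤ 9 ^ A := by
    calc (3 : ℤ) ^ a ≤ 3 ^ (2 * A) := pow_le_pow_right₀ (by norm_num) (by omega)
      _ = 9 ^ A := by
          rw [pow_mul]
          norm_num
  have h7 : (1 : ℤ) ≤ h := by exact_mod_cast hh
  have h8 : (0 : ℤ) < 9 ^ A := by positivity
  push_cast
  nlinarith

theorem fibI {A b0 : ℕ} (h1 : 3 ^ A < 2 ^ (b0 + 1)) {x y : ℤ} (hp : x % 2 = y % 2)
    (h : 2 ^ b0 * x / 3 ^ A = 2 ^ b0 * y / 3 ^ A) : x = y := by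
  by_contra hne
  wlog hlt : x < y generalizing x y
  · exact this hp.symm h.symm (Ne.symm hne) (by omega)
  have h2 : x + 2 ≤ y := by omega
  have h3 : (2 : ℤ) ^ b0 * (x + 2) ≤ 2 ^ b0 * y := mul_le_mul_of_nonneg_left h2 (by positivity)
  have h4 := Int.mul_ediv_add_emod (2 ^ b0 * x) (3 ^ A)
  have h5 := Int.mul_ediv_add_emod (2 ^ b0 * y) (3 ^ A)
  have h6 : 0 ≤ (2 : ℤ) ^ b0 * x % 3 ^ A := Int.emod_nonneg _ (by positivity)
  have h7 : (2 : ℤ) ^ b0 * y % 3 ^ A < 3 ^ A := Int.emod_lt_of_pos _ (by positivity)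
  have h1' : (3 : ℤ) ^ A < 2 ^ (b0 + 1) := by exact_mod_cast h1
  rw [pow_succ] at h1'
  rw [← h] at h5
  rw [mul_add] at h3
  linarith

/-- The windows of radius `h` around `x, 3 x, …, 3 ^ J x`. -/
def WinZ (J h : ℕ) (x : ℤ) : Set ℤ := {n : ℤ | ∃ a : ℕ, a ≤ J ∧ |n - 3 ^ a * x| ≤ (h : ℤ)}

theorem WinZ_finite (J h : ℕ) (x : ℤ) : (WinZ J h x).Finite := by
  have : WinZ J h x ⊆ ⋃ a ∈ Set.Iic J, Set.Icc (3 ^ a * x - h) (3 ^ a * x + h) := by
    rintro n ⟨a, ha, hn⟩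
    have h1 := abs_le.1 hn
    exact Set.mem_biUnion (Set.mem_Iic.2 ha) ⟨by linarith, by linarith⟩
  exact ((Set.finite_Iic J).biUnion fun a _ => Set.finite_Icc _ _).subset this

theorem goI_le {J b0 h K : ℕ} {x : ℤ} (hb1 : J ≤ b0) (hb2 : b0 ≤ 2 * J) (hh : 1 ≤ h) :
    ((GO '' Lat J h x).ncard : ℝ) ≤
      ((T^[K] '' WinZ (2 * J) (2 * 9 ^ J * h) (2 ^ b0 * x / 3 ^ J)).ncard : ℝ) := by
  have hfin : (T^[K] '' WinZ (2 * J) (2 * 9 ^ J * h) (2 ^ b0 * x / 3 ^ J)).Finite :=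
    (WinZ_finite _ _ _).image _
  have h1 : (GO '' Lat J h x).ncard ≤
      (T^[K] '' WinZ (2 * J) (2 * 9 ^ J * h) (2 ^ b0 * x / 3 ^ J)).ncard := by
    refine le_trans ?_ (Set.ncard_image_le (f := GO) hfin)
    apply Set.ncard_le_ncard _ (hfin.image _)
    rintro _ ⟨n, ⟨p, q, p', q', hp, hq, hp', hq', hn⟩, rfl⟩
    have h2 := nearI hb1 hb2 hp hq hp' hq' hh hn
    refine ⟨T^[K] (2 ^ (b0 + p - p') * n), ⟨_, ⟨J + q' - q, by omega, h2⟩, rfl⟩, ?_⟩
    apply GO_eq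
    refine ⟨b0 + p - p', K, ?_⟩
    rw [← Function.iterate_add_apply, add_comm, Function.iterate_add_apply, T_two_pow]
  exact_mod_cast h1

/-- The first moment in every interval. -/
def OrbI : Prop := ∃ c C : ℝ, 0 < c ∧ 0 < C ∧ ∀ (J h Y : ℕ) (x0 : ℤ), 1 ≤ h → 2 ≤ Y →
  (J : ℝ) + Real.log h ≤ c * Real.log Y →
  ∑ x ∈ Finset.Ico x0 (x0 + Y), ((T^[Nat.log 2 Y] '' {n : ℤ | ∃ a : ℕ, a ≤ J ∧
    |n - 3 ^ a * x| ≤ (h : ℤ)}).ncard : ℝ) ≤
    Y + C * Y * ((1 + J + Real.log h) / Real.sqrt (Real.log Y))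

theorem orbitsLI_of (hO : OrbI) : ∃ c C : ℝ, 0 < c ∧ 0 < C ∧ ∀ (J h Y : ℕ) (x0 : ℤ),
    1 ≤ h → 2 ≤ Y → (J : ℝ) + Real.log h ≤ c * Real.log Y →
    ∑ x ∈ Finset.Ico x0 (x0 + Y), ((GO '' Lat J h x).ncard : ℝ) ≤
      Y + C * Y * ((1 + J + Real.log h) / Real.sqrt (Real.log Y)) := by
  classical
  obtain ⟨c, C, hc, hC, hm⟩ := hO
  refine ⟨c / 10, 30 * C + 2 * Real.sqrt (2 / c), by positivity, by positivity,
    fun J h Y x0 hh hY hJh => ?_⟩
  have hY1 : (1 : ℝ) < Y := by exact_mod_cast (show 1 < Y by omega)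
  have hY0 : (0 : ℝ) < Y := by linarith
  have hlog : 0 < Real.log Y := Real.log_pos hY1
  have hsq : 0 < Real.sqrt (Real.log Y) := Real.sqrt_pos.2 hlog
  have hh1 : (1 : ℝ) ≤ h := by exact_mod_cast hh
  have hlogh : 0 ≤ Real.log h := Real.log_nonneg hh1
  have hJ0 : (0 : ℝ) ≤ J := Nat.cast_nonneg J
  have hpos : 0 ≤ (1 + J + Real.log h) / Real.sqrt (Real.log Y) := by positivity
  have hcard : ((Finset.Ico x0 (x0 + Y)).card : ℝ) = Y := by
    rw [Int.card_Ico]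
    have : (x0 + Y - x0).toNat = Y := by omega
    rw [this]
  have hsplit : ∀ f : ℤ → ℝ, ∀ z : ℤ, ∑ x ∈ Finset.Ico z (z + Y), f x =
      Y + ∑ x ∈ Finset.Ico z (z + Y), (f x - 1) := by
    intro f z
    rw [Finset.sum_sub_distrib, Finset.sum_const, Int.card_Ico, nsmul_eq_mul, mul_one]
    have : (z + Y - z).toNat = Y := by omega
    rw [this]
    ring
  rw [hsplit]
  apply add_le_add le_rfl
  rcases le_or_gt (2 / c) (Real.log Y) with hc1 | hc1
  · obtain ⟨b0, hb0⟩ : ∃ b0, b0 = Nat.log 2 (3 ^ J) := ⟨_, rfl⟩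
    have hbA : 2 ^ b0 ≤ 3 ^ J := by
      rw [hb0]
      exact Nat.pow_log_le_self 2 (by positivity)
    have hbB : 3 ^ J < 2 ^ (b0 + 1) := by
      rw [hb0]
      exact Nat.lt_pow_succ_log_self (by norm_num) _
    have hb1 : J ≤ b0 := by
      have h1 : Nat.log 2 (2 ^ J) ≤ Nat.log 2 (3 ^ J) :=
        Nat.log_mono_right (Nat.pow_le_pow_left (by norm_num) J)
      rw [Nat.log_pow (by norm_num)] at h1
      omega
    have hb2 : b0 ≤ 2 * J := by
      have h1 : Nat.log 2 (3 ^ J) ≤ Nat.log 2 (2 ^ (2 * J)) := by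
        apply Nat.log_mono_right
        rw [pow_mul]
        exact Nat.pow_le_pow_left (by norm_num) J
      rw [Nat.log_pow (by norm_num)] at h1
      omega
    obtain ⟨h₁, hh₁⟩ : ∃ h₁, h₁ = 2 * 9 ^ J * h := ⟨_, rfl⟩
    have hh₁1 : 1 ≤ h₁ := by
      rw [hh₁]
      have : 0 < 2 * 9 ^ J * h := by positivity
      omega
    have hlog1 : Real.log h₁ ≤ 1 + 3 * J + Real.log h := by
      rw [hh₁]
      push_cast
      rw [Real.log_mul (by positivity) (by positivity), Real.log_mul (by norm_num) (by positivity),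
        Real.log_pow]
      have h5 := Real.log_two_lt_d9
      have h6 : Real.log 9 ≤ 3 := by
        have e : (9 : ℝ) = 3 ^ 2 := by norm_num
        rw [e, Real.log_pow]
        have h7 : Real.log 3 ≤ 3 / 2 := by
          have h8 : Real.log 3 ≤ Real.log 4 := Real.log_le_log (by norm_num) (by norm_num)
          have h9 : Real.log 4 = 2 * Real.log 2 := by
            rw [show (4 : ℝ) = 2 ^ 2 by norm_num, Real.log_pow]
            norm_num
          linarith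
        push_cast
        linarith
      have h7 : (J : ℝ) * Real.log 9 ≤ J * 3 := mul_le_mul_of_nonneg_left h6 hJ0
      linarith
    have hcl : 2 ≤ c * Real.log Y := by
      rw [div_le_iff₀ hc] at hc1
      linarith
    have hJ' : ((2 * J : ℕ) : ℝ) + Real.log h₁ ≤ c * Real.log Y := by
      push_cast
      nlinarith
    obtain ⟨K, hK⟩ : ∃ K, K = Nat.log 2 Y := ⟨_, rfl⟩
    obtain ⟨z0, hz0⟩ : ∃ z0 : ℤ, z0 = 2 ^ b0 * x0 / 3 ^ J := ⟨_, rfl⟩
    have h1 := hm (2 * J) h₁ Y z0 hh₁1 hY hJ'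
    rw [hsplit] at h1
    obtain ⟨F, hF⟩ : ∃ F : ℤ → ℝ, F = fun x => ((T^[K] '' WinZ (2 * J) h₁ x).ncard : ℝ) - 1 := ⟨_, rfl⟩
    have h1' : ∑ x ∈ Finset.Ico z0 (z0 + Y), F x ≤
        C * Y * ((1 + ((2 * J : ℕ) : ℝ) + Real.log h₁) / Real.sqrt (Real.log Y)) := by
      rw [hF, hK]
      unfold WinZ
      linarith
    have hF0 : ∀ x, 0 ≤ F x := by
      intro x
      rw [hF]
      have h2 : 1 ≤ (T^[K] '' WinZ (2 * J) h₁ x).ncard := by
        rw [Nat.one_le_iff_ne_zero, ← Nat.pos_iff_ne_zero, Set.ncard_pos ((WinZ_finite _ _ _).image _)]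
        refine ⟨T^[K] x, x, ⟨0, Nat.zero_le _, ?_⟩, rfl⟩
        rw [pow_zero, one_mul, sub_self, abs_zero]
        exact Int.natCast_nonneg _
      have h3 : (1 : ℝ) ≤ ((T^[K] '' WinZ (2 * J) h₁ x).ncard : ℝ) := by exact_mod_cast h2
      simp only
      linarith
    obtain ⟨ψ, hψ⟩ : ∃ ψ : ℤ → ℤ, ψ = fun x => 2 ^ b0 * x / 3 ^ J := ⟨_, rfl⟩
    have h2 : ∀ x ∈ Finset.Ico x0 (x0 + Y), ((GO '' Lat J h x).ncard : ℝ) - 1 ≤ F (ψ x) := by
      intro x _
      have := goI_le (K := K) (x := x) hb1 hb2 hh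
      rw [← hh₁] at this
      rw [hF, hψ]
      simp only
      linarith
    have hrange : ∀ x ∈ Finset.Ico x0 (x0 + Y), ψ x ∈ Finset.Ico z0 (z0 + Y) := by
      intro x hx
      rw [Finset.mem_Ico] at hx ⊢
      rw [hψ, hz0]
      simp only
      have h3 : (0 : ℤ) < 3 ^ J := by positivity
      have hbA' : (2 : ℤ) ^ b0 ≤ 3 ^ J := by exact_mod_cast hbA
      have hb0' : (0 : ℤ) < 2 ^ b0 := by positivity
      constructor
      · apply Int.ediv_le_ediv h3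
        exact mul_le_mul_of_nonneg_left hx.1 hb0'.le
      · rw [Int.ediv_lt_iff_lt_mul h3]
        have h4 := Int.mul_ediv_add_emod (2 ^ b0 * x0) (3 ^ J)
        have h5 : (2 : ℤ) ^ b0 * x0 % 3 ^ J < 3 ^ J := Int.emod_lt_of_pos _ h3
        have h6 : (2 : ℤ) ^ b0 * (x - x0) ≤ 3 ^ J * (Y - 1) := by
          apply mul_le_mul hbA' (by linarith [hx.2]) (by linarith [hx.1]) h3.le
        rw [mul_sub] at h6
        nlinarith
    have h3 : ∀ r : ℤ, ∑ x ∈ (Finset.Ico x0 (x0 + Y)).filter (fun x => x % 2 = r), F (ψ x) ≤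
        ∑ x ∈ Finset.Ico z0 (z0 + Y), F x := by
      intro r
      have h4 : ∑ x ∈ (Finset.Ico x0 (x0 + Y)).filter (fun x => x % 2 = r), F (ψ x) =
          ∑ z ∈ ((Finset.Ico x0 (x0 + Y)).filter (fun x => x % 2 = r)).image ψ, F z := by
        rw [Finset.sum_image]
        intro x hx y hy hxy
        rw [Finset.mem_coe, Finset.mem_filter] at hx hy
        rw [hψ] at hxy
        exact fibI hbB (hx.2.trans hy.2.symm) hxy
      rw [h4]
      apply Finset.sum_le_sum_of_subset_of_nonneg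
      · intro z hz
        rw [Finset.mem_image] at hz
        obtain ⟨x, hx, rfl⟩ := hz
        exact hrange x (Finset.mem_filter.1 hx).1
      · intro z _ _
        exact hF0 z
    have h4 : ∑ x ∈ Finset.Ico x0 (x0 + Y), (((GO '' Lat J h x).ncard : ℝ) - 1) ≤
        2 * ∑ x ∈ Finset.Ico z0 (z0 + Y), F x := by
      refine (Finset.sum_le_sum h2).trans ?_
      have e : ∑ x ∈ Finset.Ico x0 (x0 + Y), F (ψ x) =
          ∑ x ∈ (Finset.Ico x0 (x0 + Y)).filter (fun x => x % 2 = 0), F (ψ x) +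
          ∑ x ∈ (Finset.Ico x0 (x0 + Y)).filter (fun x => x % 2 = 1), F (ψ x) := by
        rw [← Finset.sum_filter_add_sum_filter_not (Finset.Ico x0 (x0 + Y)) (fun x => x % 2 = 0)]
        congr 1
        apply Finset.sum_congr _ fun _ _ => rfl
        ext x
        rw [Finset.mem_filter, Finset.mem_filter]
        constructor
        · rintro ⟨h8, h9⟩
          exact ⟨h8, by omega⟩
        · rintro ⟨h8, h9⟩
          exact ⟨h8, by omega⟩
      rw [e]
      have := h3 0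
      have := h3 1
      linarith
    refine h4.trans ?_
    have h7 : 1 + ((2 * J : ℕ) : ℝ) + Real.log h₁ ≤ 15 * (1 + J + Real.log h) := by
      push_cast
      linarith
    calc 2 * ∑ x ∈ Finset.Ico z0 (z0 + Y), F x ≤ 2 * (C * Y *
          ((1 + ((2 * J : ℕ) : ℝ) + Real.log h₁) / Real.sqrt (Real.log Y))) := by linarith
      _ ≤ 2 * (C * Y * ((15 * (1 + J + Real.log h)) / Real.sqrt (Real.log Y))) := by
          gcongr
      _ = 30 * C * Y * ((1 + J + Real.log h) / Real.sqrt (Real.log Y)) := by ring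
      _ ≤ (30 * C + 2 * Real.sqrt (2 / c)) * Y *
          ((1 + J + Real.log h) / Real.sqrt (Real.log Y)) := by
          gcongr
          have := Real.sqrt_nonneg (2 / c)
          linarith
  · have hlc : c / 10 * Real.log Y < 1 / 5 := by
      have h1 : c * Real.log Y < c * (2 / c) := mul_lt_mul_of_pos_left hc1 hc
      have h2 : c * (2 / c) = 2 := by field_simp
      linarith
    have hA1 : (J : ℝ) < 1 := by linarith
    have hA2 : J = 0 := by
      have : J < 1 := by exact_mod_cast hA1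
      omega
    have hl1 : Real.log h < 1 / 5 := by linarith
    have hh3 : h ≤ 1 := by
      by_contra h3
      have h4 : (2 : ℝ) ≤ h := by exact_mod_cast (show 2 ≤ h by omega)
      have h5 := Real.log_le_log (by norm_num) h4
      have h6 := Real.log_two_gt_d9
      linarith
    have h1 : ∀ x ∈ Finset.Ico x0 (x0 + Y), ((GO '' Lat J h x).ncard : ℝ) - 1 ≤ 2 := by
      intro x _
      have h2 : Lat J h x ⊆ ((Finset.Icc (x - 1) (x + 1) : Finset ℤ) : Set ℤ) := by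
        rintro n ⟨p, q, p', q', hp, hq, hp', hq', hn⟩
        have e1 : p = 0 := by omega
        have e2 : q = 0 := by omega
        have e3 : p' = 0 := by omega
        have e4 : q' = 0 := by omega
        rw [e1, e2, e3, e4, pow_zero, pow_zero, one_mul, one_mul, one_mul, one_mul] at hn
        have h3 := abs_le.1 hn
        have h4 : (h : ℤ) ≤ 1 := by exact_mod_cast hh3
        rw [Finset.mem_coe, Finset.mem_Icc]
        constructor <;> linarith
      have h3 : (GO '' Lat J h x).ncard ≤ 3 := by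
        refine (Set.ncard_image_le ((Finset.finite_toSet _).subset h2)).trans ?_
        refine (Set.ncard_le_ncard h2 (Finset.finite_toSet _)).trans ?_
        rw [Set.ncard_coe_finset, Int.card_Icc]
        omega
      have h4 : ((GO '' Lat J h x).ncard : ℝ) ≤ 3 := by exact_mod_cast h3
      linarith
    have h2 : ∑ x ∈ Finset.Ico x0 (x0 + Y), (((GO '' Lat J h x).ncard : ℝ) - 1) ≤ 2 * Y := by
      refine (Finset.sum_le_card_nsmul _ _ _ h1).trans (le_of_eq ?_)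
      rw [nsmul_eq_mul, hcard]
      ring
    refine h2.trans ?_
    have h3 : 1 ≤ Real.sqrt (2 / c) * ((1 + J + Real.log h) / Real.sqrt (Real.log Y)) := by
      rw [mul_div_assoc', one_le_div hsq]
      have h4 : Real.sqrt (Real.log Y) ≤ Real.sqrt (2 / c) := Real.sqrt_le_sqrt hc1.le
      have h5 : 0 ≤ Real.sqrt (2 / c) := Real.sqrt_nonneg _
      nlinarith
    calc 2 * (Y : ℝ) = 2 * Y * 1 := by ring
      _ ≤ 2 * Y * (Real.sqrt (2 / c) * ((1 + J + Real.log h) / Real.sqrt (Real.log Y))) := by gcongr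
      _ = 2 * Real.sqrt (2 / c) * Y * ((1 + J + Real.log h) / Real.sqrt (Real.log Y)) := by ring
      _ ≤ (30 * C + 2 * Real.sqrt (2 / c)) * Y *
          ((1 + J + Real.log h) / Real.sqrt (Real.log Y)) := by
          gcongr
          linarith

end Pool.Agent.MB86
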