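import Mathlib
import Pool.Agent.MB86.LatI
import Pool.Agent.TSH.BT2

set_option autoImplicit false

/-!
The windows around the primes.
-/

namespace Pool.Agent.MB86

open Pool.Agent.Helper14 (T)

/-- The first moment along a finite set of integers which is not too dense in the classes modulo `2 ^ K`. -/
def OrbP : Prop := ∃ c C : ℝ, 0 < c ∧ 0 < C ∧ ∀ (J h K M : ℕ) (P : Finset ℤ), 1 ≤ h → 1 ≤ K →
  (∀ r : ℤ, (P.filter (fun x => (2 : ℤ) ^ K ∣ x - r)).card ≤ M) → (J : ℝ) + Real.log h ≤ c * K →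
  ∑ x ∈ P, ((T^[K] '' {n : ℤ | ∃ a : ℕ, a ≤ J ∧ |n - 3 ^ a * x| ≤ (h : ℤ)}).ncard : ℝ) ≤
    P.card + C * (M * 2 ^ K) * ((1 + J + Real.log h) / Real.sqrt K)

theorem primeW_of (hO : OrbP) : ∃ C : ℝ, 0 < C ∧ ∀ (σ : ℤ) (J X h : ℕ), |σ| = 1 → 2 ≤ X → 1 ≤ h →
    (Set.ncard {p : ℕ | p.Prime ∧ X ≤ p ∧ p < 2 * X ∧ ∃ n : ℤ,
      (∃ a : ℕ, a ≤ J ∧ |n - 3 ^ a * (σ * (p : ℤ))| ≤ (h : ℤ)) ∧
      T^[Nat.log 2 X / 4] n ≠ T^[Nat.log 2 X / 4] (σ * (p : ℤ))} : ℝ) ≤
      C * (X / Real.log X) * ((1 + J + Real.log h) / Real.sqrt (Real.log X)) := by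
  classical
  obtain ⟨c, C, hc, hC, hm⟩ := hO
  obtain ⟨C₁, hC₁, Z₀, hZ₀, hbt⟩ := Pool.Agent.TSH.bt_class
  obtain ⟨X₁, hX₁⟩ : ∃ X₁, X₁ = Z₀ + 16 := ⟨_, rfl⟩
  refine ⟨16 * C * C₁ + 32 * C₁ / c + (X₁ : ℝ) ^ 2, by positivity, fun σ J X h hσ hX hh => ?_⟩
  have hXr : (1 : ℝ) < X := by exact_mod_cast (show 1 < X by omega)
  have hX0 : (0 : ℝ) < X := by linarith
  have hlog : 0 < Real.log X := Real.log_pos hXr
  have hsq : 0 < Real.sqrt (Real.log X) := Real.sqrt_pos.2 hlog
  have hh1 : (1 : ℝ) ≤ h := by exact_mod_cast hh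
  have hlogh : 0 ≤ Real.log h := Real.log_nonneg hh1
  have hJ0 : (0 : ℝ) ≤ J := Nat.cast_nonneg J
  have hpos : 0 ≤ (1 + J + Real.log h) / Real.sqrt (Real.log X) := by positivity
  have hpos1 : 1 / Real.sqrt (Real.log X) ≤ (1 + J + Real.log h) / Real.sqrt (Real.log X) := by
    apply div_le_div_of_nonneg_right _ hsq.le
    linarith
  obtain ⟨K, hK⟩ : ∃ K, K = Nat.log 2 X / 4 := ⟨_, rfl⟩
  rw [← hK]
  obtain ⟨Pn, hPn⟩ : ∃ Pn : Finset ℕ, Pn = (Finset.Ico X (2 * X)).filter Nat.Prime := ⟨_, rfl⟩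
  obtain ⟨B, hB⟩ : ∃ B : Set ℕ, B = {p : ℕ | p.Prime ∧ X ≤ p ∧ p < 2 * X ∧ ∃ n : ℤ,
      (∃ a : ℕ, a ≤ J ∧ |n - 3 ^ a * (σ * (p : ℤ))| ≤ (h : ℤ)) ∧
      T^[K] n ≠ T^[K] (σ * (p : ℤ))} := ⟨_, rfl⟩
  rw [← hB]
  have hBP : B ⊆ (Pn : Set ℕ) := by
    intro p hp
    rw [hB] at hp
    rw [hPn, Finset.mem_coe, Finset.mem_filter, Finset.mem_Ico]
    exact ⟨⟨hp.2.1, hp.2.2.1⟩, hp.1⟩
  have hBcard : B.ncard ≤ Pn.card := by
    rw [← Set.ncard_coe_finset]
    exact Set.ncard_le_ncard hBP (Finset.finite_toSet _)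
  rcases lt_or_ge X X₁ with hs | hs
  · -- small X
    have h1 : Pn.card ≤ X := by
      rw [hPn]
      refine (Finset.card_filter_le _ _).trans ?_
      rw [Nat.card_Ico]
      omega
    have h2 : (B.ncard : ℝ) ≤ X := by exact_mod_cast hBcard.trans h1
    have h3 : Real.log X ≤ X₁ := by
      have h4 := Real.log_le_sub_one_of_pos hX0
      have h5 : (X : ℝ) ≤ X₁ := by exact_mod_cast hs.le
      linarith
    have h4 : Real.sqrt (Real.log X) ≤ X₁ := by
      apply Real.sqrt_le_iff.2 ⟨by positivity, ?_⟩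
      have h5 : (1 : ℝ) ≤ X₁ := by
        rw [hX₁]
        push_cast
        have : (0 : ℝ) ≤ Z₀ := Nat.cast_nonneg _
        linarith
      nlinarith
    have h5 : 1 ≤ (X₁ : ℝ) ^ 2 * (1 / Real.log X * (1 / Real.sqrt (Real.log X))) := by
      have h6 : Real.log X * Real.sqrt (Real.log X) ≤ X₁ * X₁ :=
        mul_le_mul h3 h4 hsq.le (by positivity)
      have e : (X₁ : ℝ) ^ 2 * (1 / Real.log X * (1 / Real.sqrt (Real.log X))) =
          (X₁ : ℝ) ^ 2 / (Real.log X * Real.sqrt (Real.log X)) := by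
        field_simp
      rw [e, one_le_div (by positivity)]
      nlinarith
    calc (B.ncard : ℝ) ≤ X * 1 := by linarith
      _ ≤ X * ((X₁ : ℝ) ^ 2 * (1 / Real.log X * (1 / Real.sqrt (Real.log X)))) := by gcongr
      _ = (X₁ : ℝ) ^ 2 * (X / Real.log X) * (1 / Real.sqrt (Real.log X)) := by ring
      _ ≤ (16 * C * C₁ + 32 * C₁ / c + (X₁ : ℝ) ^ 2) * (X / Real.log X) *
          ((1 + J + Real.log h) / Real.sqrt (Real.log X)) := by
          gcongr
          have : 0 ≤ 16 * C * C₁ + 32 * C₁ / c := by positivity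
          linarith
  · -- large X
    have hX16 : 16 ≤ X := by omega
    have hl4 : 4 ≤ Nat.log 2 X := by
      have h1 : Nat.log 2 (2 ^ 4) ≤ Nat.log 2 X := Nat.log_mono_right (by omega)
      rwa [Nat.log_pow (by norm_num)] at h1
    have hK1 : 1 ≤ K := by omega
    have hK8 : Real.log X ≤ 8 * K := by
      have h1 : X < 2 ^ (8 * K) := by
        have h2 : X < 2 ^ (Nat.log 2 X + 1) := Nat.lt_pow_succ_log_self (by norm_num) _
        have h3 : 2 ^ (Nat.log 2 X + 1) ≤ 2 ^ (8 * K) := Nat.pow_le_pow_right (by norm_num) (by omega)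
        omega
      have h2 : (X : ℝ) ≤ 2 ^ (8 * K) := by exact_mod_cast h1.le
      have h3 := Real.log_le_log hX0 h2
      rw [Real.log_pow] at h3
      have h4 := Real.log_two_lt_d9
      have h5 : (0 : ℝ) ≤ ((8 * K : ℕ) : ℝ) := Nat.cast_nonneg _
      push_cast at h3 h5 ⊢
      nlinarith
    have hlog2 : Real.log X ≤ Real.log ((2 * X : ℕ) : ℝ) := by
      apply Real.log_le_log hX0
      push_cast
      linarith
    have hlog1 : 1 ≤ Real.log X := by
      rw [Real.le_log_iff_exp_le hX0]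
      have h1 := Real.exp_one_lt_d9
      have h2 : (16 : ℝ) ≤ X := by exact_mod_cast hX16
      linarith
    have hsub : ∀ (d m : ℕ), 0 < d → d ^ 4 ≤ 2 * X → d ≤ 2 * Nat.totient d →
        (((Finset.Icc 1 (2 * X)).filter (fun p => p.Prime ∧ p ≡ m [MOD d])).card : ℝ) ≤
          4 * C₁ * (X / Real.log X) / d := by
      intro d m hd hd4 hphi
      have h1 := hbt (2 * X) d m (by omega) hd hd4
      have hd0 : (0 : ℝ) < d := by exact_mod_cast hd
      have hphi0 : (0 : ℝ) < Nat.totient d := by exact_mod_cast Nat.totient_pos.2 hd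
      have h2 : (d : ℝ) / Nat.totient d ≤ 2 := by
        rw [div_le_iff₀ hphi0]
        exact_mod_cast hphi
      refine h1.trans ?_
      have h3 : C₁ * ((d : ℝ) / Nat.totient d) * ((2 * X : ℕ) : ℝ) /
          (d * Real.log ((2 * X : ℕ) : ℝ)) ≤ C₁ * 2 * ((2 * X : ℕ) : ℝ) / (d * Real.log X) := by
        gcongr
      refine h3.trans (le_of_eq ?_)
      push_cast
      field_simp
      ring
    rcases le_or_gt ((J : ℝ) + Real.log h) (c * K) with hcase | hcase
    · -- the main range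
      obtain ⟨P, hP⟩ : ∃ P : Finset ℤ, P = Pn.image (fun p : ℕ => σ * (p : ℤ)) := ⟨_, rfl⟩
      have hσσ : σ * σ = 1 := by rw [← abs_mul_abs_self, hσ, one_mul]
      have hinj : Function.Injective (fun p : ℕ => σ * (p : ℤ)) := by
        intro p q hpq
        simp only at hpq
        rcases eq_or_eq_neg_of_abs_eq hσ with rfl | rfl <;> omega
      obtain ⟨M, hM⟩ : ∃ M, M = ⌊4 * C₁ * (X / Real.log X) / ((2 ^ K : ℕ) : ℝ)⌋₊ := ⟨_, rfl⟩
      have hd4 : (2 ^ K) ^ 4 ≤ 2 * X := by
        rw [← pow_mul]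
        have h1 : 2 ^ (K * 4) ≤ 2 ^ Nat.log 2 X := Nat.pow_le_pow_right (by norm_num) (by omega)
        have h2 : 2 ^ Nat.log 2 X ≤ X := Nat.pow_log_le_self 2 (by omega)
        omega
      have hphi : 2 ^ K ≤ 2 * Nat.totient (2 ^ K) := by
        rw [Nat.totient_prime_pow Nat.prime_two (by omega)]
        have : 2 ^ K = 2 ^ (K - 1) * 2 := by
          rw [← pow_succ]
          congr 1
          omega
        omega
      have hcl : ∀ r : ℤ, (P.filter (fun x => (2 : ℤ) ^ K ∣ x - r)).card ≤ M := by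
        intro r
        obtain ⟨m, hm1⟩ : ∃ m : ℕ, (m : ℤ) = σ * r % 2 ^ K :=
          ⟨(σ * r % 2 ^ K).toNat, Int.toNat_of_nonneg (Int.emod_nonneg _ (by positivity))⟩
        have h1 : (P.filter (fun x => (2 : ℤ) ^ K ∣ x - r)) ⊆
            ((Finset.Icc 1 (2 * X)).filter (fun p => p.Prime ∧ p ≡ m [MOD 2 ^ K])).image
              (fun p : ℕ => σ * (p : ℤ)) := by
          intro x hx
          rw [Finset.mem_filter, hP, Finset.mem_image] at hx
          obtain ⟨⟨p, hp, rfl⟩, hd⟩ := hx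
          rw [hPn, Finset.mem_filter, Finset.mem_Ico] at hp
          refine Finset.mem_image.2 ⟨p, ?_, rfl⟩
          rw [Finset.mem_filter, Finset.mem_Icc]
          refine ⟨⟨hp.2.one_lt.le, by omega⟩, hp.2, ?_⟩
          rw [← Int.natCast_modEq_iff, hm1]
          push_cast
          have h2 : (p : ℤ) ≡ σ * r [ZMOD 2 ^ K] := by
            rw [Int.modEq_iff_dvd]
            have h3 : σ * r - p = -(σ * (σ * p - r)) := by
              linear_combination (p : ℤ) * hσσ
            rw [h3]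
            exact (dvd_neg.2 (Dvd.dvd.mul_left hd σ))
          exact h2.trans (Int.mod_modEq _ _).symm
        have h2 := (Finset.card_le_card h1).trans Finset.card_image_le
        rw [hM]
        apply Nat.le_floor
        refine le_trans ?_ (hsub (2 ^ K) m (by positivity) hd4 hphi)
        exact_mod_cast h2
      have h1 := hm J h K M P hh hK1 hcl hcase
      have hPcard : P.card = Pn.card := by
        rw [hP]
        exact Finset.card_image_of_injective _ hinj
      obtain ⟨F, hF⟩ : ∃ F : ℤ → ℝ, F = fun x => ((T^[K] '' WinZ J h x).ncard : ℝ) - 1 := ⟨_, rfl⟩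
      have h2 : ∑ x ∈ P, F x ≤ C * (M * 2 ^ K) * ((1 + J + Real.log h) / Real.sqrt K) := by
        rw [hF, Finset.sum_sub_distrib, Finset.sum_const, nsmul_eq_mul, mul_one]
        unfold WinZ
        linarith
      have h3 : ∑ x ∈ P, F x = ∑ p ∈ Pn, F (σ * (p : ℤ)) := by
        rw [hP, Finset.sum_image (fun a _ b _ hab => hinj hab)]
      have hself : ∀ x, x ∈ WinZ J h x := by
        intro x
        refine ⟨0, Nat.zero_le _, ?_⟩
        rw [pow_zero, one_mul, sub_self, abs_zero]
        exact Int.natCast_nonneg _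
      have hF0 : ∀ x, 0 ≤ F x := by
        intro x
        rw [hF]
        have h2 : 1 ≤ (T^[K] '' WinZ J h x).ncard := by
          rw [Nat.one_le_iff_ne_zero, ← Nat.pos_iff_ne_zero, Set.ncard_pos ((WinZ_finite _ _ _).image _)]
          exact ⟨T^[K] x, x, hself x, rfl⟩
        have h3 : (1 : ℝ) ≤ ((T^[K] '' WinZ J h x).ncard : ℝ) := by exact_mod_cast h2
        simp only
        linarith
      have h4 : (B.ncard : ℝ) ≤ ∑ p ∈ Pn, F (σ * (p : ℤ)) := by
        have h5 : B = ((Pn.filter (fun p => p ∈ B) : Finset ℕ) : Set ℕ) := by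
          ext p
          rw [Finset.mem_coe, Finset.mem_filter]
          exact ⟨fun h => ⟨hBP h, h⟩, fun h => h.2⟩
        have h6 : (B.ncard : ℝ) = ((Pn.filter (fun p => p ∈ B)).card : ℝ) := by
          rw [h5, Set.ncard_coe_finset]
          simp only [Finset.coe_filter, Set.mem_ofPred_eq]
          congr 2
          ext p
          simp only [Finset.mem_filter]
          constructor
          · rintro ⟨h7, h8⟩
            exact ⟨h7, h7, h8⟩
          · rintro ⟨h7, h8, h9⟩
            exact ⟨h7, h9⟩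
        rw [h6, ← nsmul_one, ← Finset.sum_const]
        refine le_trans (Finset.sum_le_sum (g := fun p : ℕ => F (σ * (p : ℤ))) ?_)
          (Finset.sum_le_sum_of_subset_of_nonneg (Finset.filter_subset _ _) fun p _ _ => hF0 _)
        intro p hp
        have hpB := (Finset.mem_filter.1 hp).2
        rw [hB] at hpB
        obtain ⟨-, -, -, n, hn1, hn2⟩ := hpB
        have h7 : 2 ≤ (T^[K] '' WinZ J h (σ * (p : ℤ))).ncard := by
          have h8 : ({T^[K] n, T^[K] (σ * (p : ℤ))} : Set ℤ) ⊆ T^[K] '' WinZ J h (σ * (p : ℤ)) := by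
            rintro z (rfl | rfl)
            · exact ⟨n, hn1, rfl⟩
            · exact ⟨_, hself _, rfl⟩
          rw [← Set.ncard_pair hn2]
          exact Set.ncard_le_ncard h8 ((WinZ_finite _ _ _).image _)
        have h8 : (2 : ℝ) ≤ ((T^[K] '' WinZ J h (σ * (p : ℤ))).ncard : ℝ) := by exact_mod_cast h7
        rw [hF]
        simp only
        linarith
      have hM2 : (M : ℝ) * 2 ^ K ≤ 4 * C₁ * (X / Real.log X) := by
        have h5 : (M : ℝ) ≤ 4 * C₁ * (X / Real.log X) / ((2 ^ K : ℕ) : ℝ) := by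
          rw [hM]
          exact Nat.floor_le (by positivity)
        push_cast at h5
        rwa [le_div_iff₀ (by positivity)] at h5
      have h5 : 1 / Real.sqrt K ≤ 3 / Real.sqrt (Real.log X) := by
        have hK0 : (0 : ℝ) < K := by exact_mod_cast hK1
        rw [div_le_div_iff₀ (Real.sqrt_pos.2 hK0) hsq, one_mul]
        have : Real.sqrt (Real.log X) ≤ Real.sqrt (9 * K) := by
          apply Real.sqrt_le_sqrt
          linarith
        rw [Real.sqrt_mul (by norm_num)] at this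
        have h6 : Real.sqrt 9 = 3 := by
          rw [show (9 : ℝ) = 3 ^ 2 by norm_num, Real.sqrt_sq (by norm_num)]
        rwa [h6] at this
      calc (B.ncard : ℝ) ≤ C * (M * 2 ^ K) * ((1 + J + Real.log h) / Real.sqrt K) := by
            rw [h3] at h2
            linarith
        _ = C * (M * 2 ^ K) * ((1 + J + Real.log h) * (1 / Real.sqrt K)) := by ring
        _ ≤ C * (4 * C₁ * (X / Real.log X)) * ((1 + J + Real.log h) *
            (3 / Real.sqrt (Real.log X))) := by
            gcongr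
        _ = 12 * C * C₁ * (X / Real.log X) * ((1 + J + Real.log h) / Real.sqrt (Real.log X)) := by ring
        _ ≤ (16 * C * C₁ + 32 * C₁ / c + (X₁ : ℝ) ^ 2) * (X / Real.log X) *
            ((1 + J + Real.log h) / Real.sqrt (Real.log X)) := by
            gcongr
            have : 0 ≤ 4 * C * C₁ + 32 * C₁ / c + (X₁ : ℝ) ^ 2 := by positivity
            linarith
    · -- the trivial range
      have h1 : (Pn.card : ℝ) ≤ 4 * C₁ * (X / Real.log X) := by
        have h2 := hsub 1 0 one_pos (by omega) (by rw [Nat.totient_one]; omega)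
        have h3 : Pn.card ≤ ((Finset.Icc 1 (2 * X)).filter
            (fun p => p.Prime ∧ p ≡ 0 [MOD 1])).card := by
          apply Finset.card_le_card
          intro p hp
          rw [hPn, Finset.mem_filter, Finset.mem_Ico] at hp
          rw [Finset.mem_filter, Finset.mem_Icc]
          exact ⟨⟨hp.2.one_lt.le, by omega⟩, hp.2, Nat.modEq_one⟩
        have h4 : (Pn.card : ℝ) ≤ (((Finset.Icc 1 (2 * X)).filter
            (fun p => p.Prime ∧ p ≡ 0 [MOD 1])).card : ℝ) := by exact_mod_cast h3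
        rw [Nat.cast_one, div_one] at h2
        linarith
      have h2 : 1 ≤ 8 / c * ((1 + J + Real.log h) / Real.sqrt (Real.log X)) := by
        rw [mul_div_assoc', one_le_div hsq]
        have h3 : Real.log X / 8 * c ≤ 1 + J + Real.log h := by nlinarith
        have h4 : Real.log X ≤ 8 / c * (1 + J + Real.log h) := by
          have h5 : 8 / c * (Real.log X / 8 * c) ≤ 8 / c * (1 + J + Real.log h) :=
            mul_le_mul_of_nonneg_left h3 (by positivity)
          have h6 : 8 / c * (Real.log X / 8 * c) = Real.log X := by field_simp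
          linarith
        have h5 : Real.sqrt (Real.log X) ≤ Real.log X := by
          apply Real.sqrt_le_iff.2 ⟨by linarith, ?_⟩
          nlinarith
        linarith
      have h3 : (B.ncard : ℝ) ≤ 4 * C₁ * (X / Real.log X) := by
        have : (B.ncard : ℝ) ≤ Pn.card := by exact_mod_cast hBcard
        linarith
      calc (B.ncard : ℝ) ≤ 4 * C₁ * (X / Real.log X) * 1 := by linarith
        _ ≤ 4 * C₁ * (X / Real.log X) *
            (8 / c * ((1 + J + Real.log h) / Real.sqrt (Real.log X))) := by gcongr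
        _ = 32 * C₁ / c * (X / Real.log X) * ((1 + J + Real.log h) / Real.sqrt (Real.log X)) := by ring
        _ ≤ (16 * C * C₁ + 32 * C₁ / c + (X₁ : ℝ) ^ 2) * (X / Real.log X) *
            ((1 + J + Real.log h) / Real.sqrt (Real.log X)) := by
            gcongr
            have : 0 ≤ 16 * C * C₁ + (X₁ : ℝ) ^ 2 := by positivity
            linarith

end Pool.Agent.MB86
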