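import Mathlib
import Pool.Agent.MB86.Pr
import Pool.Agent.MB86.AnyP

set_option autoImplicit false

/-!
Windows around the primes.
-/

namespace Pool.Agent.MB86

open Pool.Agent.Helper14 (T)

/-- **Primes.** For all but `C (X / log X) (1 + J + log h) / √(log X)` of the primes `p` in `[X, 2X)`, all
integers within `h` of one of `σ p, 3 σ p, …, 3 ^ J σ p` have the same iterate of order `⌊(log₂ X) / 4⌋`. -/
theorem primeW : ∃ C : ℝ, 0 < C ∧ ∀ (σ : ℤ) (J X h : ℕ), |σ| = 1 → 2 ≤ X → 1 ≤ h →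
    (Set.ncard {p : ℕ | p.Prime ∧ X ≤ p ∧ p < 2 * X ∧ ∃ n : ℤ,
      (∃ a : ℕ, a ≤ J ∧ |n - 3 ^ a * (σ * (p : ℤ))| ≤ (h : ℤ)) ∧
      T^[Nat.log 2 X / 4] n ≠ T^[Nat.log 2 X / 4] (σ * (p : ℤ))} : ℝ) ≤
      C * (X / Real.log X) * ((1 + J + Real.log h) / Real.sqrt (Real.log X)) :=
  primeW_of orbitsP

end Pool.Agent.MB86
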