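import Mathlib
import Pool.Agent.MB86.PrW

set_option autoImplicit false

/-!
The criterion with the windows around the primes.
-/

namespace Pool.Agent.MB86

open Filter Topology
open Pool.Agent.Helper14 (T)

/-- An invariant set with a member of sign `σ` contains a positive proportion of the primes of `[X, 2X)`, up to
the sign. -/
def ShareD : Prop := ∀ σ : ℤ, |σ| = 1 → ∀ A : Set ℤ, (∀ n, T n ∈ A ↔ n ∈ A) → ∀ a ∈ A, 0 < σ * a →
  ∃ d : ℝ, 0 < d ∧ ∀ᶠ X : ℕ in atTop, d * (X / Real.log X) ≤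
    (Set.ncard {p : ℕ | p.Prime ∧ X ≤ p ∧ p < 2 * X ∧ σ * (p : ℤ) ∈ A} : ℝ)

/-- For some `J`, `H` with `J + log H = o(sqrt (log X))` and for `X` in a sequence tending to infinity, for all but
`o(X / log X)` of the primes `p` in `[X, 2X)` there is an `n` in `N` within `H` of one of
`σ p, 3 σ p, …, 3 ^ J σ p`. -/
def DenseP (σ : ℤ) (N : Set ℤ) : Prop :=
  ∃ J H : ℕ → ℕ, (∀ X, 1 ≤ H X) ∧
    Tendsto (fun X : ℕ => (J X + Real.log (H X)) / Real.sqrt (Real.log X)) atTop (𝓝 0) ∧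
    ∀ ε : ℝ, 0 < ε → ∃ᶠ X : ℕ in atTop,
      (Set.ncard {p : ℕ | p.Prime ∧ X ≤ p ∧ p < 2 * X ∧
        ¬ ∃ n ∈ N, ∃ a : ℕ, a ≤ J X ∧ |n - 3 ^ a * (σ * (p : ℤ))| ≤ (H X : ℤ)} : ℝ) ≤
        ε * (X / Real.log X)

private theorem fin_Xp (X : ℕ) (P : ℕ → Prop) : {p : ℕ | p.Prime ∧ X ≤ p ∧ p < 2 * X ∧ P p}.Finite :=
  (Set.finite_Iio (2 * X)).subset fun _ hn => hn.2.2.1

private theorem it_invp {A : Set ℤ} (hA : ∀ n, T n ∈ A ↔ n ∈ A) (k : ℕ) :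
    ∀ n, T^[k] n ∈ A ↔ n ∈ A := by
  induction k with
  | zero => intro n; rfl
  | succ k ih => intro n; rw [Function.iterate_succ_apply, ih, hA]

private theorem denp_ineq {A : Set ℤ} (hA : ∀ n, T n ∈ A ↔ n ∈ A) {σ : ℤ} (X J H k : ℕ) :
    Set.ncard {p : ℕ | p.Prime ∧ X ≤ p ∧ p < 2 * X ∧ σ * (p : ℤ) ∈ A} ≤
      Set.ncard {p : ℕ | p.Prime ∧ X ≤ p ∧ p < 2 * X ∧
        ¬ ∃ n ∈ Aᶜ, ∃ a : ℕ, a ≤ J ∧ |n - 3 ^ a * (σ * (p : ℤ))| ≤ (H : ℤ)} +
      Set.ncard {p : ℕ | p.Prime ∧ X ≤ p ∧ p < 2 * X ∧ ∃ n : ℤ,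
        (∃ a : ℕ, a ≤ J ∧ |n - 3 ^ a * (σ * (p : ℤ))| ≤ (H : ℤ)) ∧
        T^[k] n ≠ T^[k] (σ * (p : ℤ))} := by
  refine (Set.ncard_le_ncard ?_ ((fin_Xp X _).union (fin_Xp X _))).trans (Set.ncard_union_le _ _)
  rintro p ⟨hp, hx1, hx2, hx3⟩
  by_cases h : ∃ n : ℤ, (∃ a : ℕ, a ≤ J ∧ |n - 3 ^ a * (σ * (p : ℤ))| ≤ (H : ℤ)) ∧
      T^[k] n ≠ T^[k] (σ * (p : ℤ))
  · exact Or.inr ⟨hp, hx1, hx2, h⟩
  · refine Or.inl ⟨hp, hx1, hx2, ?_⟩
    rintro ⟨n, h1, h2⟩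
    push Not at h
    have h3 := h n h2
    apply h1
    rw [← it_invp hA k n, h3, it_invp hA k]
    exact hx3

/-- **Criterion.** -/
theorem densP_iff_of (hS : ShareD) {σ : ℤ} (hσ : |σ| = 1) {A : Set ℤ} (hA : ∀ n, T n ∈ A ↔ n ∈ A) :
    (∀ n ∈ A, ¬ 0 < σ * n) ↔ DenseP σ Aᶜ := by
  constructor
  · intro h
    refine ⟨fun _ => 0, fun _ => 1, fun _ => le_rfl, ?_, fun ε hε => ?_⟩
    · have h1 : (fun X : ℕ => (((0 : ℕ) : ℝ) + Real.log ((1 : ℕ) : ℝ)) / Real.sqrt (Real.log X)) =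
          fun _ => 0 := by
        funext X
        simp
      rw [h1]
      exact tendsto_const_nhds
    · apply Eventually.frequently
      filter_upwards [eventually_ge_atTop 2] with X hX
      have h1 : {p : ℕ | p.Prime ∧ X ≤ p ∧ p < 2 * X ∧
          ¬ ∃ n ∈ Aᶜ, ∃ a : ℕ, a ≤ 0 ∧ |n - 3 ^ a * (σ * (p : ℤ))| ≤ ((1 : ℕ) : ℤ)} = ∅ := by
        apply Set.eq_empty_of_forall_notMem
        rintro p ⟨hp, _, _, h3⟩
        apply h3
        refine ⟨σ * (p : ℤ), fun h6 => h _ h6 ?_, 0, le_rfl, ?_⟩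
        · have h7 : σ * σ = 1 := by
            rw [← abs_mul_abs_self, hσ, one_mul]
          rw [← mul_assoc, h7, one_mul]
          exact_mod_cast hp.pos
        · rw [pow_zero, one_mul, sub_self, abs_zero]
          norm_num
      rw [h1, Set.ncard_empty, Nat.cast_zero]
      have h2 : 0 < Real.log X := Real.log_pos (by exact_mod_cast (show 1 < X by omega))
      positivity
  · rintro ⟨J, H, hH, hlim, hf⟩ a ha hpos
    obtain ⟨d, hd, hev⟩ := hS σ hσ A hA a ha hpos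
    obtain ⟨C, hC, hW⟩ := primeW
    have hl1 : Tendsto (fun X : ℕ => Real.sqrt (Real.log X)) atTop atTop :=
      Real.tendsto_sqrt_atTop.comp (Real.tendsto_log_atTop.comp tendsto_natCast_atTop_atTop)
    have hl2 : Tendsto (fun X : ℕ => (1 : ℝ) / Real.sqrt (Real.log X)) atTop (𝓝 0) :=
      hl1.const_div_atTop 1
    have hl3 : Tendsto (fun X : ℕ => (1 + (J X : ℝ) + Real.log (H X)) / Real.sqrt (Real.log X))
        atTop (𝓝 0) := by
      have h1 := hl2.add hlim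
      rw [add_zero] at h1
      refine h1.congr fun X => ?_
      ring
    have hl4 : ∀ᶠ X : ℕ in atTop,
        (1 + (J X : ℝ) + Real.log (H X)) / Real.sqrt (Real.log X) < d / (4 * C) :=
      hl3.eventually_lt_const (by positivity)
    obtain ⟨X, hX1, ⟨hX2, hX3⟩, hX4⟩ :=
      ((hf (d / 4) (by positivity)).and_eventually
        ((hev.and hl4).and (eventually_ge_atTop 2))).exists
    have hXr : (1 : ℝ) < X := by exact_mod_cast (show 1 < X by omega)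
    have hlog : 0 < Real.log X := Real.log_pos hXr
    have hXp : 0 < (X : ℝ) / Real.log X := by positivity
    have h1 := hW σ (J X) X (H X) hσ hX4 (hH X)
    have h2 := denp_ineq hA (σ := σ) X (J X) (H X) (Nat.log 2 X / 4)
    have h3 : (Set.ncard {p : ℕ | p.Prime ∧ X ≤ p ∧ p < 2 * X ∧ σ * (p : ℤ) ∈ A} : ℝ) ≤
        (Set.ncard {p : ℕ | p.Prime ∧ X ≤ p ∧ p < 2 * X ∧
          ¬ ∃ n ∈ Aᶜ, ∃ a : ℕ, a ≤ J X ∧ |n - 3 ^ a * (σ * (p : ℤ))| ≤ (H X : ℤ)} : ℝ) +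
        (Set.ncard {p : ℕ | p.Prime ∧ X ≤ p ∧ p < 2 * X ∧ ∃ n : ℤ,
          (∃ a : ℕ, a ≤ J X ∧ |n - 3 ^ a * (σ * (p : ℤ))| ≤ (H X : ℤ)) ∧
          T^[Nat.log 2 X / 4] n ≠ T^[Nat.log 2 X / 4] (σ * (p : ℤ))} : ℝ) := by
      exact_mod_cast h2
    have h4 : C * (X / Real.log X) * ((1 + (J X : ℝ) + Real.log (H X)) / Real.sqrt (Real.log X)) ≤
        d / 4 * (X / Real.log X) := by
      calc C * (X / Real.log X) * ((1 + (J X : ℝ) + Real.log (H X)) / Real.sqrt (Real.log X))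
          ≤ C * (X / Real.log X) * (d / (4 * C)) := mul_le_mul_of_nonneg_left hX3.le (by positivity)
        _ = d / 4 * (X / Real.log X) := by
            field_simp
    have h5 : 0 < d * (X / Real.log X) := by positivity
    linarith

end Pool.Agent.MB86
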