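import Mathlib
import Pool.Agent.MB86.LatI
import Pool.Agent.LCF.Lat

set_option autoImplicit false

/-!
Every interval of `Y` integers: the number of `x` near which not all integers merge with `x`
(near: within `h` of one of the points `2 ^ i 3 ^ j x`).
-/

namespace Pool.Agent.MB86

open Pool.Agent.Helper14 (T)

theorem Lat_finite (J h : ℕ) (x : ℤ) : (Lat J h x).Finite := by
  have hb : Lat J h x ⊆ Set.Icc (-(6 ^ J * |x| + 6 ^ J * h)) (6 ^ J * |x| + 6 ^ J * h) := by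
    rintro n ⟨p, q, p', q', hp, hq, hp', hq', hn⟩
    have e6 : (6 : ℤ) ^ J = 2 ^ J * 3 ^ J := by rw [← mul_pow]; norm_num
    have h1 : ∀ a b : ℕ, a ≤ J → b ≤ J → (2 : ℤ) ^ a * 3 ^ b ≤ 6 ^ J := by
      intro a b ha hb
      rw [e6]
      exact mul_le_mul (pow_le_pow_right₀ (by norm_num) ha) (pow_le_pow_right₀ (by norm_num) hb)
        (by positivity) (by positivity)
    have h2 : (1 : ℤ) ≤ 2 ^ p * 3 ^ q := by
      have : (0 : ℤ) < 2 ^ p * 3 ^ q := by positivity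
      omega
    have h3 : |(2 : ℤ) ^ p * 3 ^ q * n| ≤ 2 ^ p' * 3 ^ q' * |x| + 2 ^ p * 3 ^ q * h := by
      have e : (2 : ℤ) ^ p * 3 ^ q * n = (2 ^ p * 3 ^ q * n - 2 ^ p' * 3 ^ q' * x) +
        2 ^ p' * 3 ^ q' * x := by ring
      rw [e]
      refine (abs_add_le _ _).trans ?_
      rw [abs_mul ((2 : ℤ) ^ p' * 3 ^ q'), abs_of_nonneg (show (0 : ℤ) ≤ 2 ^ p' * 3 ^ q' by positivity)]
      linarith
    rw [abs_mul, abs_of_nonneg (show (0 : ℤ) ≤ 2 ^ p * 3 ^ q by positivity)] at h3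
    have h4 : |n| ≤ 2 ^ p * 3 ^ q * |n| := by nlinarith [abs_nonneg n]
    have h5 : (2 : ℤ) ^ p' * 3 ^ q' * |x| ≤ 6 ^ J * |x| :=
      mul_le_mul_of_nonneg_right (h1 p' q' hp' hq') (abs_nonneg x)
    have h6 : (2 : ℤ) ^ p * 3 ^ q * h ≤ 6 ^ J * h :=
      mul_le_mul_of_nonneg_right (h1 p q hp hq) (Int.natCast_nonneg h)
    have h7 : |n| ≤ 6 ^ J * |x| + 6 ^ J * h := by linarith
    exact abs_le.1 h7
  exact (Set.finite_Icc _ _).subset hb

theorem self_mem_Lat (J h : ℕ) (x : ℤ) : x ∈ Lat J h x := by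
  refine ⟨0, 0, 0, 0, Nat.zero_le _, Nat.zero_le _, Nat.zero_le _, Nat.zero_le _, ?_⟩
  rw [pow_zero, pow_zero, one_mul, one_mul, sub_self, abs_zero, one_mul]
  exact Int.natCast_nonneg h

theorem one_le_goL (J h : ℕ) (x : ℤ) : 1 ≤ (GO '' Lat J h x).ncard := by
  rw [Nat.one_le_iff_ne_zero, ← Nat.pos_iff_ne_zero, Set.ncard_pos ((Lat_finite J h x).image _)]
  exact ⟨GO x, x, self_mem_Lat J h x, rfl⟩

theorem two_le_goL {J h : ℕ} {x : ℤ}
    (hx : ∃ n : ℤ, Pool.Agent.LCF.Near J h x n ∧ ∀ k l : ℕ, T^[k] n ≠ T^[l] x) :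
    2 ≤ (GO '' Lat J h x).ncard := by
  obtain ⟨n, hn, hne⟩ := hx
  have h1 : GO n ≠ GO x := by
    intro h
    have h2 : n ∈ GO n := ⟨0, 0, rfl⟩
    rw [h] at h2
    obtain ⟨k, l, h3⟩ := h2
    exact hne l k h3.symm
  have h2 : ({GO n, GO x} : Set (Set ℤ)) ⊆ GO '' Lat J h x := by
    rintro s (rfl | rfl)
    · exact ⟨n, hn, rfl⟩
    · exact ⟨x, self_mem_Lat J h x, rfl⟩
  have h3 := Set.ncard_le_ncard h2 ((Lat_finite J h x).image _)
  rwa [Set.ncard_pair h1] at h3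

theorem latticeI_of (hO : OrbI) : ∃ C : ℝ, 0 < C ∧ ∀ (J h Y : ℕ) (x0 : ℤ), 1 ≤ h → 2 ≤ Y →
    (Set.ncard {x : ℤ | x0 ≤ x ∧ x < x0 + Y ∧ ∃ n : ℤ, Pool.Agent.LCF.Near J h x n ∧
      ∀ k l : ℕ, T^[k] n ≠ T^[l] x} : ℝ) ≤
      C * Y * ((1 + J + Real.log h) / Real.sqrt (Real.log Y)) := by
  classical
  obtain ⟨c, C, hc, hC, hm⟩ := orbitsLI_of hO
  refine ⟨C + 1 / Real.sqrt c, by positivity, fun J h Y x0 hh hY => ?_⟩
  have hY1 : (1 : ℝ) < Y := by exact_mod_cast (show 1 < Y by omega)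
  have hY0 : (0 : ℝ) < Y := by linarith
  have hlog : 0 < Real.log Y := Real.log_pos hY1
  have hsq : 0 < Real.sqrt (Real.log Y) := Real.sqrt_pos.2 hlog
  have hh1 : (1 : ℝ) ≤ h := by exact_mod_cast hh
  have hlogh : 0 ≤ Real.log h := Real.log_nonneg hh1
  have hJ0 : (0 : ℝ) ≤ J := Nat.cast_nonneg J
  have hsc : 0 < Real.sqrt c := Real.sqrt_pos.2 hc
  have hpos : 0 ≤ (1 + J + Real.log h) / Real.sqrt (Real.log Y) := by positivity
  have hcard : (Finset.Ico x0 (x0 + Y)).card = Y := by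
    rw [Int.card_Ico]
    omega
  -- the bad `x` as a finite set
  obtain ⟨B, hB⟩ : ∃ B : Finset ℤ, B = (Finset.Ico x0 (x0 + Y)).filter (fun x =>
    ∃ n : ℤ, Pool.Agent.LCF.Near J h x n ∧ ∀ k l : ℕ, T^[k] n ≠ T^[l] x) := ⟨_, rfl⟩
  have hset : {x : ℤ | x0 ≤ x ∧ x < x0 + Y ∧ ∃ n : ℤ, Pool.Agent.LCF.Near J h x n ∧
      ∀ k l : ℕ, T^[k] n ≠ T^[l] x} = (B : Set ℤ) := by
    ext x
    rw [hB, Finset.mem_coe, Finset.mem_filter, Finset.mem_Ico, Set.mem_setOf_eq, and_assoc]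
  rw [hset, Set.ncard_coe_finset]
  rcases le_or_gt ((J : ℝ) + Real.log h) (c * Real.log Y) with h1 | h1
  · have h2 := hm J h Y x0 hh hY h1
    have h3 : (Y : ℝ) + B.card ≤ ∑ x ∈ Finset.Ico x0 (x0 + Y), ((GO '' Lat J h x).ncard : ℝ) := by
      have h4 : (Y : ℝ) + B.card = ∑ x ∈ Finset.Ico x0 (x0 + Y),
          ((1 : ℝ) + if (∃ n : ℤ, Pool.Agent.LCF.Near J h x n ∧ ∀ k l : ℕ, T^[k] n ≠ T^[l] x)
            then 1 else 0) := by
        rw [Finset.sum_add_distrib, Finset.sum_const, hcard, nsmul_eq_mul, mul_one, hB,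
          Finset.sum_ite, Finset.sum_const_zero, add_zero, Finset.sum_const, nsmul_eq_mul, mul_one]
      rw [h4]
      apply Finset.sum_le_sum
      intro x _
      split_ifs with hx
      · have := two_le_goL hx
        have h5 : (2 : ℝ) ≤ ((GO '' Lat J h x).ncard : ℝ) := by exact_mod_cast this
        linarith
      · have := one_le_goL J h x
        have h5 : (1 : ℝ) ≤ ((GO '' Lat J h x).ncard : ℝ) := by exact_mod_cast this
        linarith
    have h6 : (B.card : ℝ) ≤ C * Y * ((1 + J + Real.log h) / Real.sqrt (Real.log Y)) := by linarith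
    refine h6.trans ?_
    have h7 : 0 ≤ 1 / Real.sqrt c := by positivity
    gcongr
    linarith
  · have h2 : (B.card : ℝ) ≤ Y := by
      have : B.card ≤ (Finset.Ico x0 (x0 + Y)).card := by
        rw [hB]
        exact Finset.card_filter_le _ _
      rw [hcard] at this
      exact_mod_cast this
    refine h2.trans ?_
    -- `1 + c L ≥ sqrt c sqrt L`
    have h3 : Real.sqrt c * Real.sqrt (Real.log Y) ≤ 1 + J + Real.log h := by
      have h4 : (Real.sqrt c * Real.sqrt (Real.log Y)) ^ 2 = c * Real.log Y := by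
        rw [mul_pow, Real.sq_sqrt hc.le, Real.sq_sqrt hlog.le]
      nlinarith [sq_nonneg (Real.sqrt c * Real.sqrt (Real.log Y) - 1)]
    have h4 : 1 ≤ 1 / Real.sqrt c * ((1 + J + Real.log h) / Real.sqrt (Real.log Y)) := by
      rw [div_mul_div_comm, one_mul, one_le_div (by positivity)]
      exact h3
    calc (Y : ℝ) = Y * 1 := by ring
      _ ≤ Y * (1 / Real.sqrt c * ((1 + J + Real.log h) / Real.sqrt (Real.log Y))) := by gcongr
      _ = 1 / Real.sqrt c * Y * ((1 + J + Real.log h) / Real.sqrt (Real.log Y)) := by ring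
      _ ≤ (C + 1 / Real.sqrt c) * Y * ((1 + J + Real.log h) / Real.sqrt (Real.log Y)) := by
        gcongr
        linarith

end Pool.Agent.MB86
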