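import Mathlib
import Pool.Agent.MB86.LatticeI
import Pool.Agent.MB86.AnyI

set_option autoImplicit false

/-!
Every interval of `Y` integers: the lattice clause without hypothesis.
-/

namespace Pool.Agent.MB86

open Pool.Agent.Helper14 (T)

theorem latticeI : ∃ C : ℝ, 0 < C ∧ ∀ (J h Y : ℕ) (x0 : ℤ), 1 ≤ h → 2 ≤ Y →
    (Set.ncard {x : ℤ | x0 ≤ x ∧ x < x0 + Y ∧ ∃ n : ℤ, Pool.Agent.LCF.Near J h x n ∧
      ∀ k l : ℕ, T^[k] n ≠ T^[l] x} : ℝ) ≤
      C * Y * ((1 + J + Real.log h) / Real.sqrt (Real.log Y)) :=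
  latticeI_of orbitsI

end Pool.Agent.MB86
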