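import Mathlib
import Pool.Agent.MB86.LatI
import Pool.Agent.MB86.AnyI

set_option autoImplicit false

/-!
Every interval: the average number of grand orbits which meet the windows around the points `2 ^ i 3 ^ j x`.
-/

namespace Pool.Agent.MB86

open Pool.Agent.Helper14 (T)

/-- **Grand orbits, in every interval.** There are `c, C > 0` such that for `J + log h ≤ c log Y` and every
interval `[x₀, x₀ + Y)` the integers within `h` of the points `2 ^ i 3 ^ j x`, `|i|, |j| ≤ J`, meet on average
over `x` in the interval at most `1 + C (1 + J + log h) / √(log Y)` grand orbits. -/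
theorem orbitsLI : ∃ c C : ℝ, 0 < c ∧ 0 < C ∧ ∀ (J h Y : ℕ) (x0 : ℤ),
    1 ≤ h → 2 ≤ Y → (J : ℝ) + Real.log h ≤ c * Real.log Y →
    ∑ x ∈ Finset.Ico x0 (x0 + Y), ((GO '' Lat J h x).ncard : ℝ) ≤
      Y + C * Y * ((1 + J + Real.log h) / Real.sqrt (Real.log Y)) :=
  orbitsLI_of orbitsI

end Pool.Agent.MB86
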