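import Pool.Agent.ZOL.St2
import Pool.Agent.Collatz3.ND

/-!
# MB86: a nonempty invariant set contains a positive share of the primes of each dyadic interval
-/

set_option autoImplicit false

namespace Pool.Agent.MB86

open Filter Topology
open Pool.Agent.Helper14 (T)
open Pool.Agent.ZOL (St_Block cn outE outP)

/-- the primes of a block in `A` -/
private theorem sd_block {σ : ℤ} {A : Set ℤ} {x : ℕ} {L : ℝ} :
    (cn {n : ℕ | n.Prime} x L : ℝ) ≤ cn (outP σ A) x L +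
      (Set.ncard {p : ℕ | x < p ∧ (p : ℝ) ≤ x + L ∧ p.Prime ∧ σ * (p : ℤ) ∈ A} : ℝ) := by
  have hfin : {p : ℕ | x < p ∧ (p : ℝ) ≤ x + L}.Finite := by
    refine (Set.finite_Iic ⌊(x : ℝ) + L⌋₊).subset ?_
    intro p hp
    exact Nat.le_floor hp.2
  have h1 : {n : ℕ | x < n ∧ (n : ℝ) ≤ x + L ∧ n ∈ {n : ℕ | n.Prime}} ⊆
      {n : ℕ | x < n ∧ (n : ℝ) ≤ x + L ∧ n ∈ outP σ A} ∪
        {p : ℕ | x < p ∧ (p : ℝ) ≤ x + L ∧ p.Prime ∧ σ * (p : ℤ) ∈ A} := by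
    rintro n ⟨a1, a2, a3⟩
    by_cases h : σ * (n : ℤ) ∈ A
    · exact Or.inr ⟨a1, a2, a3, h⟩
    · exact Or.inl ⟨a1, a2, a3, h⟩
  have h2 : cn {n : ℕ | n.Prime} x L ≤ cn (outP σ A) x L +
      Set.ncard {p : ℕ | x < p ∧ (p : ℝ) ≤ x + L ∧ p.Prime ∧ σ * (p : ℤ) ∈ A} := by
    unfold cn
    refine (Set.ncard_le_ncard h1 ?_).trans (Set.ncard_union_le _ _)
    exact (hfin.subset fun p hp => ⟨hp.1, hp.2.1⟩).union
      (hfin.subset fun p hp => ⟨hp.1, hp.2.1⟩)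
  exact_mod_cast h2

/-- double counting -/
private theorem sd_count {s : ℕ} {F : Finset ℕ} {Q : Finset ℕ} {m : ℝ}
    (hF : ∀ x ∈ F, m ≤ ((Q.filter fun p => x < p ∧ p < x + s).card : ℝ)) :
    (F.card : ℝ) * m ≤ Q.card * s := by
  classical
  have h1 : (F.card : ℝ) * m ≤ ∑ x ∈ F, ((Q.filter fun p => x < p ∧ p < x + s).card : ℝ) := by
    rw [← nsmul_eq_mul, ← Finset.sum_const]
    exact Finset.sum_le_sum hF
  have h2 : ∑ x ∈ F, (Q.filter fun p => x < p ∧ p < x + s).card ≤ Q.card * s := by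
    simp only [Finset.card_filter]
    rw [Finset.sum_comm]
    refine (Finset.sum_le_card_nsmul _ _ s fun p _ => ?_)
    rw [← Finset.card_filter]
    refine (Finset.card_le_card (t := Finset.Ico (p - s) p) ?_).trans ?_
    · intro x hx
      rw [Finset.mem_filter] at hx
      rw [Finset.mem_Ico]
      omega
    · rw [Nat.card_Ico]
      omega
  have h3 : ∑ x ∈ F, ((Q.filter fun p => x < p ∧ p < x + s).card : ℝ) ≤ Q.card * s := by
    exact_mod_cast h2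
  exact h1.trans h3

/-- **Share of the primes.** -/
theorem shareD_of (hB : St_Block) : ∀ σ : ℤ, |σ| = 1 → ∀ A : Set ℤ, (∀ n, T n ∈ A ↔ n ∈ A) →
    ∀ a ∈ A, 0 < σ * a → ∃ d : ℝ, 0 < d ∧ ∀ᶠ X : ℕ in atTop, d * (X / Real.log X) ≤
      (Set.ncard {p : ℕ | p.Prime ∧ X ≤ p ∧ p < 2 * X ∧ σ * (p : ℤ) ∈ A} : ℝ) := by
  classical
  intro σ hσ A hA a ha haσ
  obtain ⟨c₁, hc₁, hB⟩ := hB
  obtain ⟨c, hc, hB⟩ := hB (1 / 2) (by norm_num) (by norm_num) (c₁ / 2) (by positivity)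
  obtain ⟨c₀, hc₀, hN⟩ := Pool.Agent.Collatz3.ND.main
  obtain ⟨D, g1, -, -, -, g5, -⟩ := hN σ hσ
  have hinv : Pool.Agent.Collatz3.DN.EvInv 0 A := fun n _ => hA n
  have ha0 : 0 < |(a : ℝ)| := by
    rw [abs_pos]
    intro h6
    have h7 : a = 0 := by exact_mod_cast h6
    rw [h7, mul_zero] at haσ
    exact lt_irrefl _ haσ
  have hd : 0 < D A := lt_of_lt_of_le (by positivity) (g5 A hA a ha haσ)
  have hs : σ = 1 ∨ σ = -1 := eq_or_eq_neg_of_abs_eq hσ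
  have hev := hB 0 A σ (D A) hs hinv (g1 0 A hinv) hd
  obtain ⟨κ, hκ⟩ : ∃ κ : ℝ, κ = c * D A * (c₁ / 2) := ⟨_, rfl⟩
  have hκ0 : 0 < κ := by rw [hκ]; positivity
  refine ⟨κ / 12, by positivity, ?_⟩
  -- the comparison of `√X log X` with `X`
  have hlim : ∀ᶠ X : ℕ in atTop, Real.log X ≤ κ / 100 * (X : ℝ) ^ (1 / 2 : ℝ) := by
    have h1 := (isLittleO_log_rpow_atTop (show (0 : ℝ) < 1 / 2 by norm_num)).bound
      (show (0 : ℝ) < κ / 100 by positivity)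
    have h2 := tendsto_natCast_atTop_atTop (R := ℝ) |>.eventually h1
    filter_upwards [h2, eventually_ge_atTop 1] with X hX hX1
    have h3 : (1 : ℝ) ≤ X := by exact_mod_cast hX1
    rw [Real.norm_of_nonneg (Real.log_nonneg h3), Real.norm_of_nonneg (by positivity)] at hX
    exact hX
  filter_upwards [hev, hlim, eventually_ge_atTop 16] with X hX hlX hX16
  have hX16r : (16 : ℝ) ≤ X := by exact_mod_cast hX16
  have hX0 : (0 : ℝ) < X := by linarith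
  have hlog : 0 < Real.log X := Real.log_pos (by linarith)
  obtain ⟨q, hq⟩ : ∃ q : ℝ, q = (X : ℝ) ^ (1 / 2 : ℝ) := ⟨_, rfl⟩
  rw [← hq] at hlX
  have hqs : q = Real.sqrt X := by rw [hq, Real.sqrt_eq_rpow]
  have hqq : q * q = X := by rw [hqs]; exact Real.mul_self_sqrt hX0.le
  have hq0 : 0 < q := by rw [hqs]; exact Real.sqrt_pos.2 hX0
  have hq4 : 4 ≤ q := by
    rw [hqs]
    apply Real.le_sqrt_of_sq_le
    linarith
  -- the length of the blocks
  obtain ⟨s, hsdef⟩ : ∃ s : ℕ, s = ⌊2 * q⌋₊ + 1 := ⟨_, rfl⟩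
  have hs1 : 2 * q < s := by
    rw [hsdef]
    push_cast
    exact Nat.lt_floor_add_one _
  have hs2 : (s : ℝ) ≤ 3 * q := by
    rw [hsdef]
    push_cast
    have := Nat.floor_le (show (0 : ℝ) ≤ 2 * q by positivity)
    linarith
  -- the sets
  obtain ⟨Q, hQ⟩ : ∃ Q : Finset ℕ, Q = (Finset.Ico X (2 * X)).filter
    (fun p : ℕ => p.Prime ∧ σ * (p : ℤ) ∈ A) := ⟨_, rfl⟩
  obtain ⟨Q', hQ'⟩ : ∃ Q' : Finset ℕ, Q' = (Finset.Ico X (2 * X + s)).filter
    (fun p : ℕ => p.Prime ∧ σ * (p : ℤ) ∈ A) := ⟨_, rfl⟩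
  obtain ⟨F, hF⟩ : ∃ F : Finset ℕ, F = (Finset.Ico X (2 * X)).filter
    (fun x : ℕ => (cn (outE σ A) x ((x : ℝ) ^ (1 / 2 : ℝ)) : ℝ) ≤ c₁ / 2 * (x : ℝ) ^ (1 / 2 : ℝ) ∧
      (cn (outP σ A) x ((x : ℝ) ^ (1 / 2 : ℝ)) : ℝ) ≤ c₁ / 2 * (x : ℝ) ^ (1 / 2 : ℝ) / Real.log x ∧
      ((1 : ℝ) / 4 < 1 / 2 → c₁ * (x : ℝ) ^ (1 / 2 : ℝ) / Real.log x ≤
        (cn {n | n.Prime} x ((x : ℝ) ^ (1 / 2 : ℝ)) : ℝ))) := ⟨_, rfl⟩
  have hFc : c * D A * X ≤ (F.card : ℝ) := by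
    refine hX.trans (le_of_eq ?_)
    have e : {x : ℕ | X ≤ x ∧ x < 2 * X ∧
        (cn (outE σ A) x ((x : ℝ) ^ (1 / 2 : ℝ)) : ℝ) ≤ c₁ / 2 * (x : ℝ) ^ (1 / 2 : ℝ) ∧
        (cn (outP σ A) x ((x : ℝ) ^ (1 / 2 : ℝ)) : ℝ) ≤
          c₁ / 2 * (x : ℝ) ^ (1 / 2 : ℝ) / Real.log x ∧
        ((1 : ℝ) / 4 < 1 / 2 → c₁ * (x : ℝ) ^ (1 / 2 : ℝ) / Real.log x ≤
          (cn {n | n.Prime} x ((x : ℝ) ^ (1 / 2 : ℝ)) : ℝ))} = (F : Set ℕ) := by
      rw [hF]
      ext x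
      rw [Finset.mem_coe, Finset.mem_filter, Finset.mem_Ico, Set.mem_ofPred_eq, and_assoc]
    rw [e, Set.ncard_coe_finset]
  have hm : ∀ x ∈ F, c₁ / 2 * q / (2 * Real.log X) ≤
      ((Q'.filter fun p => x < p ∧ p < x + s).card : ℝ) := by
    intro x hx
    rw [hF, Finset.mem_filter, Finset.mem_Ico] at hx
    obtain ⟨⟨hx1, hx2⟩, -, hx3, hx4⟩ := hx
    have hx4 := hx4 (by norm_num)
    have hx1r : (X : ℝ) ≤ x := by exact_mod_cast hx1
    have hx2r : (x : ℝ) ≤ 2 * X := by exact_mod_cast hx2.le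
    obtain ⟨y, hy⟩ : ∃ y : ℝ, y = (x : ℝ) ^ (1 / 2 : ℝ) := ⟨_, rfl⟩
    rw [← hy] at hx3 hx4
    have hys : y = Real.sqrt x := by rw [hy, Real.sqrt_eq_rpow]
    have hy1 : q ≤ y := by
      rw [hqs, hys]
      exact Real.sqrt_le_sqrt hx1r
    have hy2 : y ≤ 2 * q := by
      rw [hys]
      apply Real.sqrt_le_iff.2 ⟨by positivity, ?_⟩
      nlinarith
    have hlx : Real.log x ≤ 2 * Real.log X := by
      have h1 : Real.log x ≤ Real.log (X * X) := by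
        apply Real.log_le_log (by linarith)
        nlinarith
      rw [Real.log_mul hX0.ne' hX0.ne'] at h1
      linarith
    have hlx0 : 0 < Real.log x := Real.log_pos (by linarith)
    have h1 := sd_block (σ := σ) (A := A) (x := x) (L := y)
    have h2 : (Set.ncard {p : ℕ | x < p ∧ (p : ℝ) ≤ x + y ∧ p.Prime ∧ σ * (p : ℤ) ∈ A} : ℝ) ≤
        ((Q'.filter fun p => x < p ∧ p < x + s).card : ℝ) := by
      have h3 : {p : ℕ | x < p ∧ (p : ℝ) ≤ x + y ∧ p.Prime ∧ σ * (p : ℤ) ∈ A} ⊆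
          ((Q'.filter fun p => x < p ∧ p < x + s : Finset ℕ) : Set ℕ) := by
        rintro p ⟨b1, b2, b3, b4⟩
        have h4 : (p : ℝ) < x + s := by linarith
        have h5 : p < x + s := by exact_mod_cast h4
        rw [Finset.mem_coe, Finset.mem_filter, hQ', Finset.mem_filter, Finset.mem_Ico]
        exact ⟨⟨⟨by omega, by omega⟩, b3, b4⟩, b1, h5⟩
      have h4 := Set.ncard_le_ncard h3 (Finset.finite_toSet _)
      rw [Set.ncard_coe_finset] at h4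
      exact_mod_cast h4
    have h3 : c₁ * y / Real.log x - c₁ / 2 * y / Real.log x = c₁ / 2 * y / Real.log x := by ring
    have h4 : c₁ / 2 * q / (2 * Real.log X) ≤ c₁ / 2 * y / Real.log x := by
      apply div_le_div₀ (mul_nonneg (by positivity) (by linarith)) _ hlx0 hlx
      exact mul_le_mul_of_nonneg_left hy1 (by positivity)
    linarith
  have hcount := sd_count hm
  have hQQ : (Q'.card : ℝ) ≤ Q.card + s := by
    have h1 : Q' ⊆ Q ∪ Finset.Ico (2 * X) (2 * X + s) := by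
      intro p hp
      rw [hQ', Finset.mem_filter, Finset.mem_Ico] at hp
      rw [Finset.mem_union, hQ, Finset.mem_filter, Finset.mem_Ico, Finset.mem_Ico]
      rcases lt_or_ge p (2 * X) with h | h
      · exact Or.inl ⟨⟨hp.1.1, h⟩, hp.2⟩
      · exact Or.inr ⟨h, hp.1.2⟩
    have h2 := (Finset.card_le_card h1).trans (Finset.card_union_le _ _)
    rw [Nat.card_Ico] at h2
    have h3 : 2 * X + s - 2 * X = s := by omega
    rw [h3] at h2
    exact_mod_cast h2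
  have hres : (Set.ncard {p : ℕ | p.Prime ∧ X ≤ p ∧ p < 2 * X ∧ σ * (p : ℤ) ∈ A} : ℝ) = Q.card := by
    have e : {p : ℕ | p.Prime ∧ X ≤ p ∧ p < 2 * X ∧ σ * (p : ℤ) ∈ A} = (Q : Set ℕ) := by
      rw [hQ]
      ext p
      rw [Finset.mem_coe, Finset.mem_filter, Finset.mem_Ico, Set.mem_ofPred_eq]
      constructor
      · rintro ⟨b1, b2, b3, b4⟩
        exact ⟨⟨b2, b3⟩, b1, b4⟩
      · rintro ⟨⟨b2, b3⟩, b1, b4⟩
        exact ⟨b1, b2, b3, b4⟩
    rw [e, Set.ncard_coe_finset]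
  rw [hres]
  -- arithmetic
  have hs0 : (0 : ℝ) < s := by linarith
  have h1 : κ * X * q / (2 * Real.log X) ≤ (Q.card + s) * s := by
    calc κ * X * q / (2 * Real.log X) = (c * D A * X) * (c₁ / 2 * q / (2 * Real.log X)) := by
          rw [hκ]
          ring
      _ ≤ F.card * (c₁ / 2 * q / (2 * Real.log X)) :=
          mul_le_mul_of_nonneg_right hFc (by positivity)
      _ ≤ Q'.card * s := hcount
      _ ≤ (Q.card + s) * s := mul_le_mul_of_nonneg_right hQQ hs0.le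
  have h2 : (Q.card + (s : ℝ)) * s ≤ (Q.card + 3 * q) * (3 * q) :=
    mul_le_mul (by linarith) hs2 hs0.le (by positivity)
  have h3 : κ * X / (6 * Real.log X) ≤ Q.card + 3 * q := by
    have h4 : κ * X * q / (2 * Real.log X) ≤ (Q.card + 3 * q) * (3 * q) := h1.trans h2
    have h5 : κ * X * q / (2 * Real.log X) = κ * X / (6 * Real.log X) * (3 * q) := by
      field_simp
      ring
    rw [h5] at h4
    exact le_of_mul_le_mul_right h4 (by positivity)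
  have h4 : 3 * q ≤ κ * X / (12 * Real.log X) := by
    rw [le_div_iff₀ (by positivity)]
    calc 3 * q * (12 * Real.log X) ≤ 3 * q * (12 * (κ / 100 * q)) := by gcongr
      _ = κ * (36 / 100) * (q * q) := by ring
      _ = κ * (36 / 100) * X := by rw [hqq]
      _ ≤ κ * X := by nlinarith [mul_pos hκ0 hX0]
  have h5 : κ * X / (6 * Real.log X) = 2 * (κ * X / (12 * Real.log X)) := by
    field_simp
    ring
  have h6 : κ / 12 * (X / Real.log X) = κ * X / (12 * Real.log X) := by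
    field_simp
  rw [h6]
  linarith

end Pool.Agent.MB86
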