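import Mathlib
import Pool.Agent.MB86.AnyP
import Pool.Agent.MB86.Lattice
import Pool.Agent.MB86.DenP
import Pool.Agent.MB86.ShareD
import Pool.Agent.ZOL.All
import Pool.Agent.LCF.Lat
import Pool.Agent.TSH.BT2

set_option autoImplicit false

/-!
The windows around the points `2 ^ i 3 ^ j p`, `p` prime.
-/

namespace Pool.Agent.MB86

open Filter Topology
open Pool.Agent.Helper14 (T)
open Pool.Agent.LCF (Near)

theorem phi_Q (J m : ℕ) : 3 ^ J * 2 ^ m ≤ 3 * Nat.totient (3 ^ J * 2 ^ m) := by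
  have hco : Nat.Coprime (3 ^ J) (2 ^ m) := Nat.Coprime.pow _ _ (by norm_num)
  rw [Nat.totient_mul hco]
  have h1 : 2 * 3 ^ J ≤ 3 * Nat.totient (3 ^ J) := by
    rcases J with _ | J
    · simp
    · rw [Nat.totient_prime_pow Nat.prime_three (Nat.succ_pos J), Nat.succ_sub_one, pow_succ]
      omega
  have h2 : 2 ^ m ≤ 2 * Nat.totient (2 ^ m) := by
    rcases m with _ | m
    · simp
    · rw [Nat.totient_prime_pow Nat.prime_two (Nat.succ_pos m), Nat.succ_sub_one, pow_succ]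
      omega
  have h3 := Nat.mul_le_mul h1 h2
  nlinarith

theorem class_two {J b0 K r' p s : ℕ} (hb : 3 ^ J < 2 ^ (b0 + 1)) (hbK : b0 ≤ K)
    (hy : 2 ^ b0 * p / 3 ^ J = r' + 2 ^ K * s) :
    p ≡ (3 ^ J * r' + 2 ^ b0 - 1) / 2 ^ b0 [MOD 3 ^ J * 2 ^ (K - b0)] ∨
    p ≡ (3 ^ J * r' + 2 ^ b0 - 1) / 2 ^ b0 + 1 [MOD 3 ^ J * 2 ^ (K - b0)] := by
  obtain ⟨B, hB⟩ : ∃ B, B = 2 ^ b0 := ⟨_, rfl⟩
  obtain ⟨G, hG⟩ : ∃ G, G = 3 ^ J := ⟨_, rfl⟩
  have hB0 : 0 < B := by rw [hB]; positivity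
  have hG0 : 0 < G := by rw [hG]; positivity
  have hQ : B * (G * 2 ^ (K - b0)) = G * 2 ^ K := by
    have : 2 ^ K = 2 ^ b0 * 2 ^ (K - b0) := by rw [← pow_add, Nat.add_sub_cancel' hbK]
    rw [hB, this]
    ring
  rw [pow_succ, ← hB, ← hG] at hb
  rw [← hB, ← hG] at hy ⊢
  obtain ⟨Q, hQd⟩ : ∃ Q, Q = G * 2 ^ (K - b0) := ⟨_, rfl⟩
  rw [← hQd] at hQ ⊢
  have h1 : G * (r' + 2 ^ K * s) ≤ B * p := by
    rw [← hy]
    exact Nat.mul_div_le _ _
  have h2 : B * p < G * (r' + 2 ^ K * s + 1) := by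
    rw [← hy]
    exact Nat.lt_mul_div_succ _ hG0
  have h3 : G * (2 ^ K * s) = B * (Q * s) := by
    rw [← mul_assoc, ← hQ, mul_assoc]
  have h4 : B * (Q * s) ≤ B * p := by
    rw [← h3]
    exact (Nat.mul_le_mul_left G (Nat.le_add_left _ _)).trans h1
  have h5 : Q * s ≤ p := Nat.le_of_mul_le_mul_left h4 hB0
  obtain ⟨v, hv⟩ : ∃ v, p = v + Q * s := ⟨p - Q * s, by omega⟩
  have hmod : p ≡ v [MOD Q] := by
    rw [hv]
    exact (Nat.modEq_iff_dvd' (Nat.le_add_right _ _)).2 ⟨s, by omega⟩ |>.symm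
  have h6 : G * r' ≤ B * v := by
    rw [hv, mul_add, mul_add, h3] at h1
    omega
  have h7 : B * v < G * r' + G := by
    rw [hv, mul_add, mul_add, mul_add, h3, mul_one] at h2
    omega
  obtain ⟨v0, hv0⟩ : ∃ v0, v0 = (G * r' + B - 1) / B := ⟨_, rfl⟩
  rw [← hv0]
  have h8 : v0 ≤ v := by
    rw [hv0]
    apply Nat.le_of_lt_succ
    rw [Nat.div_lt_iff_lt_mul hB0, Nat.succ_mul, mul_comm v B]
    omega
  have h9 : G * r' ≤ B * v0 := by
    have h10 : G * r' + B - 1 < B * (v0 + 1) := by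
      rw [hv0]
      exact Nat.lt_mul_div_succ _ hB0
    rw [mul_add, mul_one] at h10
    omega
  have h11 : v < v0 + 2 := by
    by_contra hge
    push Not at hge
    have h12 : B * (v0 + 2) ≤ B * v := Nat.mul_le_mul_left B hge
    rw [mul_add] at h12
    omega
  rcases (show v = v0 ∨ v = v0 + 1 by omega) with h | h
  · left
    rw [← h]
    exact hmod
  · right
    rw [← h]
    exact hmod

/-- **Primes.** For all but `C (X / log X) (1 + J + log h) / √(log X)` of the primes `p` in `[X, 2X)`, all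
integers within `h` of one of the points `2 ^ i 3 ^ j σ p`, `|i|, |j| ≤ J`, are in the grand orbit of `σ p`. -/
theorem primeL : ∃ C : ℝ, 0 < C ∧ ∀ (σ : ℤ) (J X h : ℕ), |σ| = 1 → 2 ≤ X → 1 ≤ h →
    (Set.ncard {p : ℕ | p.Prime ∧ X ≤ p ∧ p < 2 * X ∧ ∃ n : ℤ, Near J h (σ * (p : ℤ)) n ∧
      ∀ k l : ℕ, T^[k] n ≠ T^[l] (σ * (p : ℤ))} : ℝ) ≤
      C * (X / Real.log X) * ((1 + J + Real.log h) / Real.sqrt (Real.log X)) := by
  classical
  obtain ⟨C, hC, hm⟩ := wideP
  obtain ⟨C₁, hC₁, Z₀, hZ₀, hbt⟩ := Pool.Agent.TSH.bt_class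
  obtain ⟨X₁, hX₁⟩ : ∃ X₁, X₁ = Z₀ + 256 := ⟨_, rfl⟩
  refine ⟨240 * C * C₁ + 200 * C₁ + (X₁ : ℝ) ^ 2, by positivity, fun σ J X h hσ hX hh => ?_⟩
  have hXr : (1 : ℝ) < X := by exact_mod_cast (show 1 < X by omega)
  have hX0 : (0 : ℝ) < X := by linarith
  have hlog : 0 < Real.log X := Real.log_pos hXr
  have hsq : 0 < Real.sqrt (Real.log X) := Real.sqrt_pos.2 hlog
  have hh1 : (1 : ℝ) ≤ h := by exact_mod_cast hh
  have hlogh : 0 ≤ Real.log h := Real.log_nonneg hh1
  have hJ0 : (0 : ℝ) ≤ J := Nat.cast_nonneg J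
  have hpos : 0 ≤ (1 + J + Real.log h) / Real.sqrt (Real.log X) := by positivity
  have hpos1 : 1 / Real.sqrt (Real.log X) ≤ (1 + J + Real.log h) / Real.sqrt (Real.log X) := by
    apply div_le_div_of_nonneg_right _ hsq.le
    linarith
  obtain ⟨K, hK⟩ : ∃ K, K = Nat.log 2 X / 4 - 1 := ⟨_, rfl⟩
  obtain ⟨Pn, hPn⟩ : ∃ Pn : Finset ℕ, Pn = (Finset.Ico X (2 * X)).filter Nat.Prime := ⟨_, rfl⟩
  obtain ⟨B, hB⟩ : ∃ B : Set ℕ, B = {p : ℕ | p.Prime ∧ X ≤ p ∧ p < 2 * X ∧ ∃ n : ℤ,
      Near J h (σ * (p : ℤ)) n ∧ ∀ k l : ℕ, T^[k] n ≠ T^[l] (σ * (p : ℤ))} := ⟨_, rfl⟩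
  rw [← hB]
  have hBP : B ⊆ (Pn : Set ℕ) := by
    intro p hp
    rw [hB] at hp
    rw [hPn, Finset.mem_coe, Finset.mem_filter, Finset.mem_Ico]
    exact ⟨⟨hp.2.1, hp.2.2.1⟩, hp.1⟩
  have hBcard : B.ncard ≤ Pn.card := by
    rw [← Set.ncard_coe_finset]
    exact Set.ncard_le_ncard hBP (Finset.finite_toSet _)
  rcases lt_or_ge X X₁ with hs | hs
  · -- small X
    have h1 : Pn.card ≤ X := by
      rw [hPn]
      refine (Finset.card_filter_le _ _).trans ?_
      rw [Nat.card_Ico]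
      omega
    have h2 : (B.ncard : ℝ) ≤ X := by exact_mod_cast hBcard.trans h1
    have h3 : Real.log X ≤ X₁ := by
      have h4 := Real.log_le_sub_one_of_pos hX0
      have h5 : (X : ℝ) ≤ X₁ := by exact_mod_cast hs.le
      linarith
    have h4 : Real.sqrt (Real.log X) ≤ X₁ := by
      apply Real.sqrt_le_iff.2 ⟨by positivity, ?_⟩
      have h5 : (1 : ℝ) ≤ X₁ := by
        rw [hX₁]
        push_cast
        have : (0 : ℝ) ≤ Z₀ := Nat.cast_nonneg _
        linarith
      nlinarith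
    have h5 : 1 ≤ (X₁ : ℝ) ^ 2 * (1 / Real.log X * (1 / Real.sqrt (Real.log X))) := by
      have h6 : Real.log X * Real.sqrt (Real.log X) ≤ X₁ * X₁ :=
        mul_le_mul h3 h4 hsq.le (by positivity)
      have e : (X₁ : ℝ) ^ 2 * (1 / Real.log X * (1 / Real.sqrt (Real.log X))) =
          (X₁ : ℝ) ^ 2 / (Real.log X * Real.sqrt (Real.log X)) := by
        field_simp
      rw [e, one_le_div (by positivity)]
      nlinarith
    calc (B.ncard : ℝ) ≤ X * 1 := by linarith
      _ ≤ X * ((X₁ : ℝ) ^ 2 * (1 / Real.log X * (1 / Real.sqrt (Real.log X)))) := by gcongr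
      _ = (X₁ : ℝ) ^ 2 * (X / Real.log X) * (1 / Real.sqrt (Real.log X)) := by ring
      _ ≤ (240 * C * C₁ + 200 * C₁ + (X₁ : ℝ) ^ 2) * (X / Real.log X) *
          ((1 + J + Real.log h) / Real.sqrt (Real.log X)) := by
          gcongr
          have : 0 ≤ 240 * C * C₁ + 200 * C₁ := by positivity
          linarith
  · -- large X
    have hX16 : 256 ≤ X := by omega
    have hl4 : 8 ≤ Nat.log 2 X := by
      have h1 : Nat.log 2 (2 ^ 8) ≤ Nat.log 2 X := Nat.log_mono_right (by omega)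
      rwa [Nat.log_pow (by norm_num)] at h1
    have hK1 : 1 ≤ K := by omega
    have hK12 : Real.log X ≤ 12 * K := by
      have h1 : X < 2 ^ (12 * K) := by
        have h2 : X < 2 ^ (Nat.log 2 X + 1) := Nat.lt_pow_succ_log_self (by norm_num) _
        have h3 : 2 ^ (Nat.log 2 X + 1) ≤ 2 ^ (12 * K) := Nat.pow_le_pow_right (by norm_num) (by omega)
        omega
      have h2 : (X : ℝ) ≤ 2 ^ (12 * K) := by exact_mod_cast h1.le
      have h3 := Real.log_le_log hX0 h2
      rw [Real.log_pow] at h3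
      have h4 := Real.log_two_lt_d9
      have h5 : (0 : ℝ) ≤ ((12 * K : ℕ) : ℝ) := Nat.cast_nonneg _
      push_cast at h3 h5 ⊢
      nlinarith
    have hlog2 : Real.log X ≤ Real.log ((2 * X : ℕ) : ℝ) := by
      apply Real.log_le_log hX0
      push_cast
      linarith
    have hlog1 : 1 ≤ Real.log X := by
      rw [Real.le_log_iff_exp_le hX0]
      have h1 := Real.exp_one_lt_d9
      have h2 : (256 : ℝ) ≤ X := by exact_mod_cast hX16
      linarith
    have hsub : ∀ (d m : ℕ), 0 < d → d ^ 4 ≤ 2 * X → d ≤ 3 * Nat.totient d →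
        (((Finset.Icc 1 (2 * X)).filter (fun p => p.Prime ∧ p ≡ m [MOD d])).card : ℝ) ≤
          6 * C₁ * (X / Real.log X) / d := by
      intro d m hd hd4 hphi
      have h1 := hbt (2 * X) d m (by omega) hd hd4
      have hd0 : (0 : ℝ) < d := by exact_mod_cast hd
      have hphi0 : (0 : ℝ) < Nat.totient d := by exact_mod_cast Nat.totient_pos.2 hd
      have h2 : (d : ℝ) / Nat.totient d ≤ 3 := by
        rw [div_le_iff₀ hphi0]
        exact_mod_cast hphi
      refine h1.trans ?_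
      have h3 : C₁ * ((d : ℝ) / Nat.totient d) * ((2 * X : ℕ) : ℝ) /
          (d * Real.log ((2 * X : ℕ) : ℝ)) ≤ C₁ * 3 * ((2 * X : ℕ) : ℝ) / (d * Real.log X) := by
        gcongr
      refine h3.trans (le_of_eq ?_)
      push_cast
      field_simp
      ring
    rcases le_or_gt (2 * J) K with hcase | hcase
    · -- the main range
      obtain ⟨b0, hb0⟩ : ∃ b0, b0 = Nat.log 2 (3 ^ J) := ⟨_, rfl⟩
      have hbA : 2 ^ b0 ≤ 3 ^ J := by
        rw [hb0]
        exact Nat.pow_log_le_self 2 (by positivity)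
      have hbB : 3 ^ J < 2 ^ (b0 + 1) := by
        rw [hb0]
        exact Nat.lt_pow_succ_log_self (by norm_num) _
      have hb1 : J ≤ b0 := by
        have h1 : Nat.log 2 (2 ^ J) ≤ Nat.log 2 (3 ^ J) :=
          Nat.log_mono_right (Nat.pow_le_pow_left (by norm_num) J)
        rw [Nat.log_pow (by norm_num)] at h1
        omega
      have hb2 : b0 ≤ 2 * J := by
        have h1 : Nat.log 2 (3 ^ J) ≤ Nat.log 2 (2 ^ (2 * J)) := by
          apply Nat.log_mono_right
          rw [pow_mul]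
          exact Nat.pow_le_pow_left (by norm_num) J
        rw [Nat.log_pow (by norm_num)] at h1
        omega
      obtain ⟨h₁, hh₁⟩ : ∃ h₁, h₁ = 2 * 9 ^ J * h := ⟨_, rfl⟩
      have hh₁1 : 1 ≤ h₁ := by
        rw [hh₁]
        have : 0 < 2 * 9 ^ J * h := by positivity
        omega
      have hlog9 : Real.log h₁ ≤ 1 + 3 * J + Real.log h := by
        rw [hh₁]
        push_cast
        rw [Real.log_mul (by positivity) (by positivity), Real.log_mul (by norm_num) (by positivity),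
          Real.log_pow]
        have h5 := Real.log_two_lt_d9
        have h6 : Real.log 9 ≤ 3 := by
          have e : (9 : ℝ) = 3 ^ 2 := by norm_num
          rw [e, Real.log_pow]
          have h7 : Real.log 3 ≤ 3 / 2 := by
            have h8 : Real.log 3 ≤ Real.log 4 := Real.log_le_log (by norm_num) (by norm_num)
            have h9 : Real.log 4 = 2 * Real.log 2 := by
              rw [show (4 : ℝ) = 2 ^ 2 by norm_num, Real.log_pow]
              norm_num
            linarith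
          push_cast
          linarith
        have h7 : (J : ℝ) * Real.log 9 ≤ J * 3 := mul_le_mul_of_nonneg_left h6 hJ0
        linarith
      obtain ⟨Q, hQ⟩ : ∃ Q, Q = 3 ^ J * 2 ^ (K - b0) := ⟨_, rfl⟩
      have hQ0 : 0 < Q := by
        rw [hQ]
        positivity
      have hQr : (0 : ℝ) < Q := by exact_mod_cast hQ0
      have hQK : (2 : ℝ) ^ K ≤ Q := by
        have h1 : 2 ^ K ≤ Q := by
          have h2 : 2 ^ K = 2 ^ b0 * 2 ^ (K - b0) := by
            rw [← pow_add, Nat.add_sub_cancel' (by omega)]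
          rw [h2, hQ]
          exact Nat.mul_le_mul_right _ hbA
        exact_mod_cast h1
      have hQ4 : Q ^ 4 ≤ 2 * X := by
        have h1 : Q ≤ 2 ^ (K + 1) := by
          rw [hQ]
          calc 3 ^ J * 2 ^ (K - b0) ≤ 2 ^ (b0 + 1) * 2 ^ (K - b0) := Nat.mul_le_mul_right _ hbB.le
            _ = 2 ^ (K + 1) := by
                rw [← pow_add]
                congr 1
                omega
        calc Q ^ 4 ≤ (2 ^ (K + 1)) ^ 4 := Nat.pow_le_pow_left h1 4
          _ = 2 ^ ((K + 1) * 4) := by rw [← pow_mul]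
          _ ≤ 2 ^ Nat.log 2 X := Nat.pow_le_pow_right (by norm_num) (by omega)
          _ ≤ X := Nat.pow_log_le_self 2 (by omega)
          _ ≤ 2 * X := by omega
      have hQphi : Q ≤ 3 * Nat.totient Q := by
        rw [hQ]
        exact phi_Q J _
      obtain ⟨φ, hφ⟩ : ∃ φ : ℕ → ℤ, φ = fun p => σ * ((2 ^ b0 * p / 3 ^ J : ℕ) : ℤ) := ⟨_, rfl⟩
      obtain ⟨P, hP⟩ : ∃ P : Finset ℤ, P = Pn.image φ := ⟨_, rfl⟩
      have hσσ : σ * σ = 1 := by rw [← abs_mul_abs_self, hσ, one_mul]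
      have hinj : Set.InjOn φ (Pn : Set ℕ) := by
        intro p hp q hq hpq
        rw [hPn, Finset.mem_coe, Finset.mem_filter, Finset.mem_Ico] at hp hq
        rw [hφ] at hpq
        simp only at hpq
        have h1 : 2 ^ b0 * p / 3 ^ J = 2 ^ b0 * q / 3 ^ J := by
          generalize 2 ^ b0 * p / 3 ^ J = p' at hpq ⊢
          generalize 2 ^ b0 * q / 3 ^ J = q' at hpq ⊢
          rcases eq_or_eq_neg_of_abs_eq hσ with rfl | rfl <;> omega
        have hp2 : p % 2 = 1 := by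
          rcases hp.2.eq_two_or_odd with h2 | h2
          · omega
          · exact h2
        have hq2 : q % 2 = 1 := by
          rcases hq.2.eq_two_or_odd with h2 | h2
          · omega
          · exact h2
        exact fib hbB (hp2.trans hq2.symm) h1
      obtain ⟨M, hM⟩ : ∃ M, M = ⌊12 * C₁ * (X / Real.log X) / (Q : ℝ)⌋₊ := ⟨_, rfl⟩
      have hcl : ∀ r : ℤ, (P.filter (fun x => (2 : ℤ) ^ K ∣ x - r)).card ≤ M := by
        intro r
        obtain ⟨m, hm1⟩ : ∃ m : ℕ, (m : ℤ) = σ * r % 2 ^ K :=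
          ⟨(σ * r % 2 ^ K).toNat, Int.toNat_of_nonneg (Int.emod_nonneg _ (by positivity))⟩
        obtain ⟨v0, hv0⟩ : ∃ v0, v0 = (3 ^ J * m + 2 ^ b0 - 1) / 2 ^ b0 := ⟨_, rfl⟩
        have h1 : (P.filter (fun x => (2 : ℤ) ^ K ∣ x - r)) ⊆
            (((Finset.Icc 1 (2 * X)).filter (fun p => p.Prime ∧ p ≡ v0 [MOD Q])) ∪
            ((Finset.Icc 1 (2 * X)).filter (fun p => p.Prime ∧ p ≡ v0 + 1 [MOD Q]))).image φ := by
          intro x hx
          rw [Finset.mem_filter, hP, Finset.mem_image] at hx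
          obtain ⟨⟨p, hp, rfl⟩, hd⟩ := hx
          rw [hPn, Finset.mem_filter, Finset.mem_Ico] at hp
          refine Finset.mem_image.2 ⟨p, ?_, rfl⟩
          rw [Finset.mem_union, Finset.mem_filter, Finset.mem_filter, Finset.mem_Icc]
          have hpI : 1 ≤ p ∧ p ≤ 2 * X := ⟨hp.2.one_lt.le, by omega⟩
          rw [hφ] at hd
          simp only at hd
          obtain ⟨y, hy⟩ : ∃ y, y = 2 ^ b0 * p / 3 ^ J := ⟨_, rfl⟩
          rw [← hy] at hd
          have h2 : (2 : ℤ) ^ K ∣ (y : ℤ) - σ * r := by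
            have h3 : (y : ℤ) - σ * r = σ * (σ * y - r) := by
              linear_combination (-(y : ℤ)) * hσσ
            rw [h3]
            exact Dvd.dvd.mul_left hd σ
          have h3 : (y : ℤ) % 2 ^ K = m := by
            rw [hm1]
            exact Int.emod_eq_emod_iff_emod_sub_eq_zero.2 (Int.emod_eq_zero_of_dvd h2)
          have h4 : y % 2 ^ K = m := by exact_mod_cast h3
          have h5 : 2 ^ b0 * p / 3 ^ J = m + 2 ^ K * (y / 2 ^ K) := by
            rw [← hy, ← h4]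
            exact (Nat.mod_add_div y (2 ^ K)).symm
          rcases class_two hbB (show b0 ≤ K by omega) h5 with h6 | h6
          · left
            rw [← hv0, ← hQ] at h6
            exact ⟨hpI, hp.2, h6⟩
          · right
            rw [← hv0, ← hQ] at h6
            exact ⟨hpI, hp.2, h6⟩
        have h2 := (Finset.card_le_card h1).trans (Finset.card_image_le.trans (Finset.card_union_le _ _))
        rw [hM]
        apply Nat.le_floor
        have h3 := hsub Q v0 hQ0 hQ4 hQphi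
        have h4 := hsub Q (v0 + 1) hQ0 hQ4 hQphi
        have h5 : ((P.filter (fun x => (2 : ℤ) ^ K ∣ x - r)).card : ℝ) ≤
            (((Finset.Icc 1 (2 * X)).filter (fun p => p.Prime ∧ p ≡ v0 [MOD Q])).card : ℝ) +
            (((Finset.Icc 1 (2 * X)).filter (fun p => p.Prime ∧ p ≡ v0 + 1 [MOD Q])).card : ℝ) := by
          exact_mod_cast h2
        have h6 : 12 * C₁ * (X / Real.log X) / (Q : ℝ) =
            6 * C₁ * (X / Real.log X) / (Q : ℝ) + 6 * C₁ * (X / Real.log X) / (Q : ℝ) := by ring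
        rw [h6]
        linarith
      have h1 := hm (2 * J) h₁ K M P hh₁1 hK1 hcl
      have h2 : B.ncard ≤ Set.ncard {x : ℤ | x ∈ P ∧ ∃ n : ℤ,
          (∃ a : ℕ, a ≤ 2 * J ∧ |n - 3 ^ a * x| ≤ (h₁ : ℤ)) ∧ T^[K] n ≠ T^[K] x} := by
        apply Set.ncard_le_ncard_of_injOn φ
          (ht := (Finset.finite_toSet P).subset fun x hx => hx.1)
        · intro p hp
          have hpP := hBP hp
          refine ⟨?_, ?_⟩
          · rw [hP]
            exact Finset.mem_image_of_mem φ (Finset.mem_coe.1 hpP)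
          · rw [hB] at hp
            obtain ⟨-, -, -, n, ⟨a1, a2, a3, a4, ha1, ha2, ha3, ha4, hn⟩, h7⟩ := hp
            by_contra hno
            push Not at hno
            rw [hφ] at hno
            simp only at hno
            have h9 := near hσ hb1 hb2 ha1 ha2 ha3 ha4 hh hn
            have h10 : |(2 : ℤ) ^ 0 * 3 ^ 0 * (σ * (p : ℤ)) - 2 ^ 0 * 3 ^ 0 * (σ * (p : ℤ))| ≤
                2 ^ 0 * 3 ^ 0 * (h : ℤ) := by
              rw [sub_self, abs_zero]
              positivity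
            have h11 := near hσ hb1 hb2 (Nat.zero_le J) (Nat.zero_le J) (Nat.zero_le J)
              (Nat.zero_le J) hh h10
            rw [← hh₁] at h9 h11
            have h12 := merge_two_pow (hno _ ⟨J + a4 - a2, by omega, h9⟩)
            have h13 := merge_two_pow (hno _ ⟨J + 0 - 0, by omega, h11⟩)
            apply h7 (b0 + 0 - 0 + K) (b0 + a1 - a3 + K)
            rw [Function.iterate_add_apply, h12,
              Function.iterate_add_apply T (b0 + a1 - a3) K (σ * (p : ℤ)),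
              h13, ← Function.iterate_add_apply, ← Function.iterate_add_apply]
            have e : b0 + 0 - 0 + (b0 + a1 - a3 + K) = b0 + a1 - a3 + (b0 + 0 - 0 + K) := by omega
            rw [e]
        · intro p hp q hq hpq
          exact hinj (hBP hp) (hBP hq) hpq
      have h3 : (B.ncard : ℝ) ≤ C * (M * 2 ^ K) *
          ((1 + ((2 * J : ℕ) : ℝ) + Real.log h₁) / Real.sqrt K) := by
        refine le_trans ?_ h1
        exact_mod_cast h2
      have hM2 : (M : ℝ) * 2 ^ K ≤ 12 * C₁ * (X / Real.log X) := by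
        have h5 : (M : ℝ) ≤ 12 * C₁ * (X / Real.log X) / (Q : ℝ) := by
          rw [hM]
          exact Nat.floor_le (by positivity)
        rw [le_div_iff₀ hQr] at h5
        have h6 : (M : ℝ) * 2 ^ K ≤ M * Q := mul_le_mul_of_nonneg_left hQK (Nat.cast_nonneg M)
        linarith
      have h5 : 1 / Real.sqrt K ≤ 4 / Real.sqrt (Real.log X) := by
        have hK0 : (0 : ℝ) < K := by exact_mod_cast hK1
        rw [div_le_div_iff₀ (Real.sqrt_pos.2 hK0) hsq, one_mul]
        have : Real.sqrt (Real.log X) ≤ Real.sqrt (16 * K) := by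
          apply Real.sqrt_le_sqrt
          linarith
        rw [Real.sqrt_mul (by norm_num)] at this
        have h6 : Real.sqrt 16 = 4 := by
          rw [show (16 : ℝ) = 4 ^ 2 by norm_num, Real.sqrt_sq (by norm_num)]
        rwa [h6] at this
      have h6 : 1 + ((2 * J : ℕ) : ℝ) + Real.log h₁ ≤ 5 * (1 + J + Real.log h) := by
        push_cast
        linarith
      have h7 : 0 ≤ 1 + ((2 * J : ℕ) : ℝ) + Real.log h₁ := by
        have : 0 ≤ Real.log (h₁ : ℝ) := Real.log_natCast_nonneg _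
        positivity
      calc (B.ncard : ℝ) ≤ C * (M * 2 ^ K) *
            ((1 + ((2 * J : ℕ) : ℝ) + Real.log h₁) / Real.sqrt K) := h3
        _ = C * (M * 2 ^ K) * ((1 + ((2 * J : ℕ) : ℝ) + Real.log h₁) * (1 / Real.sqrt K)) := by ring
        _ ≤ C * (12 * C₁ * (X / Real.log X)) * ((5 * (1 + J + Real.log h)) *
            (4 / Real.sqrt (Real.log X))) := by
            gcongr
        _ = 240 * C * C₁ * (X / Real.log X) * ((1 + J + Real.log h) / Real.sqrt (Real.log X)) := by ring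
        _ ≤ (240 * C * C₁ + 200 * C₁ + (X₁ : ℝ) ^ 2) * (X / Real.log X) *
            ((1 + J + Real.log h) / Real.sqrt (Real.log X)) := by
            gcongr
            have : 0 ≤ 200 * C₁ + (X₁ : ℝ) ^ 2 := by positivity
            linarith
    · -- the trivial range
      have h1 : (Pn.card : ℝ) ≤ 6 * C₁ * (X / Real.log X) := by
        have h2 := hsub 1 0 one_pos (by omega) (by rw [Nat.totient_one]; omega)
        have h3 : Pn.card ≤ ((Finset.Icc 1 (2 * X)).filter
            (fun p => p.Prime ∧ p ≡ 0 [MOD 1])).card := by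
          apply Finset.card_le_card
          intro p hp
          rw [hPn, Finset.mem_filter, Finset.mem_Ico] at hp
          rw [Finset.mem_filter, Finset.mem_Icc]
          exact ⟨⟨hp.2.one_lt.le, by omega⟩, hp.2, Nat.modEq_one⟩
        have h4 : (Pn.card : ℝ) ≤ (((Finset.Icc 1 (2 * X)).filter
            (fun p => p.Prime ∧ p ≡ 0 [MOD 1])).card : ℝ) := by exact_mod_cast h3
        rw [Nat.cast_one, div_one] at h2
        linarith
      have h2 : 1 ≤ 24 * ((1 + J + Real.log h) / Real.sqrt (Real.log X)) := by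
        rw [mul_div_assoc', one_le_div hsq]
        have h3 : (K : ℝ) ≤ 2 * J := by
          have : K ≤ 2 * J := hcase.le
          exact_mod_cast this
        have h5 : Real.sqrt (Real.log X) ≤ Real.log X := by
          apply Real.sqrt_le_iff.2 ⟨by linarith, ?_⟩
          nlinarith
        linarith
      have h3 : (B.ncard : ℝ) ≤ 6 * C₁ * (X / Real.log X) := by
        have : (B.ncard : ℝ) ≤ Pn.card := by exact_mod_cast hBcard
        linarith
      calc (B.ncard : ℝ) ≤ 6 * C₁ * (X / Real.log X) * 1 := by linarith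
        _ ≤ 6 * C₁ * (X / Real.log X) *
            (24 * ((1 + J + Real.log h) / Real.sqrt (Real.log X))) := by gcongr
        _ = 144 * C₁ * (X / Real.log X) * ((1 + J + Real.log h) / Real.sqrt (Real.log X)) := by ring
        _ ≤ (240 * C * C₁ + 200 * C₁ + (X₁ : ℝ) ^ 2) * (X / Real.log X) *
            ((1 + J + Real.log h) / Real.sqrt (Real.log X)) := by
            gcongr
            have : 0 ≤ 240 * C * C₁ + 56 * C₁ + (X₁ : ℝ) ^ 2 := by positivity
            linarith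

/-- For some `J`, `H` with `J + log H = o(sqrt (log X))` and for `X` in a sequence tending to infinity, for all but
`o(X / log X)` of the primes `p` in `[X, 2X)` there is an `n` in `N` within `H` of one of the points
`2 ^ i 3 ^ j σ p`, `|i|, |j| ≤ J`. -/
def DensePL (σ : ℤ) (N : Set ℤ) : Prop :=
  ∃ J H : ℕ → ℕ, (∀ X, 1 ≤ H X) ∧
    Tendsto (fun X : ℕ => (J X + Real.log (H X)) / Real.sqrt (Real.log X)) atTop (𝓝 0) ∧
    ∀ ε : ℝ, 0 < ε → ∃ᶠ X : ℕ in atTop,
      (Set.ncard {p : ℕ | p.Prime ∧ X ≤ p ∧ p < 2 * X ∧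
        ¬ ∃ n ∈ N, Near (J X) (H X) (σ * (p : ℤ)) n} : ℝ) ≤ ε * (X / Real.log X)

private theorem fin_Xl (X : ℕ) (P : ℕ → Prop) : {p : ℕ | p.Prime ∧ X ≤ p ∧ p < 2 * X ∧ P p}.Finite :=
  (Set.finite_Iio (2 * X)).subset fun _ hn => hn.2.2.1

private theorem it_invl {A : Set ℤ} (hA : ∀ n, T n ∈ A ↔ n ∈ A) (k : ℕ) :
    ∀ n, T^[k] n ∈ A ↔ n ∈ A := by
  induction k with
  | zero => intro n; rfl
  | succ k ih => intro n; rw [Function.iterate_succ_apply, ih, hA]

private theorem denpl_ineq {A : Set ℤ} (hA : ∀ n, T n ∈ A ↔ n ∈ A) {σ : ℤ} (X J H : ℕ) :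
    Set.ncard {p : ℕ | p.Prime ∧ X ≤ p ∧ p < 2 * X ∧ σ * (p : ℤ) ∈ A} ≤
      Set.ncard {p : ℕ | p.Prime ∧ X ≤ p ∧ p < 2 * X ∧
        ¬ ∃ n ∈ Aᶜ, Near J H (σ * (p : ℤ)) n} +
      Set.ncard {p : ℕ | p.Prime ∧ X ≤ p ∧ p < 2 * X ∧ ∃ n : ℤ,
        Near J H (σ * (p : ℤ)) n ∧ ∀ k l : ℕ, T^[k] n ≠ T^[l] (σ * (p : ℤ))} := by
  refine (Set.ncard_le_ncard ?_ ((fin_Xl X _).union (fin_Xl X _))).trans (Set.ncard_union_le _ _)
  rintro p ⟨hp, hx1, hx2, hx3⟩
  by_cases h : ∃ n : ℤ, Near J H (σ * (p : ℤ)) n ∧ ∀ k l : ℕ, T^[k] n ≠ T^[l] (σ * (p : ℤ))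
  · exact Or.inr ⟨hp, hx1, hx2, h⟩
  · refine Or.inl ⟨hp, hx1, hx2, ?_⟩
    rintro ⟨n, h1, h2⟩
    push Not at h
    obtain ⟨k, l, h3⟩ := h n h2
    apply h1
    rw [← it_invl hA k n, h3, it_invl hA l]
    exact hx3

/-- **Criterion.** -/
theorem densPL_iff_of (hS : ShareD) {σ : ℤ} (hσ : |σ| = 1) {A : Set ℤ} (hA : ∀ n, T n ∈ A ↔ n ∈ A) :
    (∀ n ∈ A, ¬ 0 < σ * n) ↔ DensePL σ Aᶜ := by
  constructor
  · intro h
    refine ⟨fun _ => 0, fun _ => 1, fun _ => le_rfl, ?_, fun ε hε => ?_⟩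
    · have h1 : (fun X : ℕ => (((0 : ℕ) : ℝ) + Real.log ((1 : ℕ) : ℝ)) / Real.sqrt (Real.log X)) =
          fun _ => 0 := by
        funext X
        simp
      rw [h1]
      exact tendsto_const_nhds
    · apply Eventually.frequently
      filter_upwards [eventually_ge_atTop 2] with X hX
      have h1 : {p : ℕ | p.Prime ∧ X ≤ p ∧ p < 2 * X ∧
          ¬ ∃ n ∈ Aᶜ, Near 0 1 (σ * (p : ℤ)) n} = ∅ := by
        apply Set.eq_empty_of_forall_notMem
        rintro p ⟨hp, _, _, h3⟩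
        apply h3
        refine ⟨σ * (p : ℤ), fun h6 => h _ h6 ?_, 0, 0, 0, 0, le_rfl, le_rfl, le_rfl, le_rfl, ?_⟩
        · have h7 : σ * σ = 1 := by
            rw [← abs_mul_abs_self, hσ, one_mul]
          rw [← mul_assoc, h7, one_mul]
          exact_mod_cast hp.pos
        · rw [sub_self, abs_zero]
          norm_num
      rw [h1, Set.ncard_empty, Nat.cast_zero]
      have h2 : 0 < Real.log X := Real.log_pos (by exact_mod_cast (show 1 < X by omega))
      positivity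
  · rintro ⟨J, H, hH, hlim, hf⟩ a ha hpos
    obtain ⟨d, hd, hev⟩ := hS σ hσ A hA a ha hpos
    obtain ⟨C, hC, hW⟩ := primeL
    have hl1 : Tendsto (fun X : ℕ => Real.sqrt (Real.log X)) atTop atTop :=
      Real.tendsto_sqrt_atTop.comp (Real.tendsto_log_atTop.comp tendsto_natCast_atTop_atTop)
    have hl2 : Tendsto (fun X : ℕ => (1 : ℝ) / Real.sqrt (Real.log X)) atTop (𝓝 0) :=
      hl1.const_div_atTop 1
    have hl3 : Tendsto (fun X : ℕ => (1 + (J X : ℝ) + Real.log (H X)) / Real.sqrt (Real.log X))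
        atTop (𝓝 0) := by
      have h1 := hl2.add hlim
      rw [add_zero] at h1
      refine h1.congr fun X => ?_
      ring
    have hl4 : ∀ᶠ X : ℕ in atTop,
        (1 + (J X : ℝ) + Real.log (H X)) / Real.sqrt (Real.log X) < d / (4 * C) :=
      hl3.eventually_lt_const (by positivity)
    obtain ⟨X, hX1, ⟨hX2, hX3⟩, hX4⟩ :=
      ((hf (d / 4) (by positivity)).and_eventually
        ((hev.and hl4).and (eventually_ge_atTop 2))).exists
    have hXr : (1 : ℝ) < X := by exact_mod_cast (show 1 < X by omega)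
    have hlog : 0 < Real.log X := Real.log_pos hXr
    have hXp : 0 < (X : ℝ) / Real.log X := by positivity
    have h1 := hW σ (J X) X (H X) hσ hX4 (hH X)
    have h2 := denpl_ineq hA (σ := σ) X (J X) (H X)
    have h3 : (Set.ncard {p : ℕ | p.Prime ∧ X ≤ p ∧ p < 2 * X ∧ σ * (p : ℤ) ∈ A} : ℝ) ≤
        (Set.ncard {p : ℕ | p.Prime ∧ X ≤ p ∧ p < 2 * X ∧
          ¬ ∃ n ∈ Aᶜ, Near (J X) (H X) (σ * (p : ℤ)) n} : ℝ) +
        (Set.ncard {p : ℕ | p.Prime ∧ X ≤ p ∧ p < 2 * X ∧ ∃ n : ℤ,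
          Near (J X) (H X) (σ * (p : ℤ)) n ∧ ∀ k l : ℕ, T^[k] n ≠ T^[l] (σ * (p : ℤ))} : ℝ) := by
      exact_mod_cast h2
    have h4 : C * (X / Real.log X) * ((1 + (J X : ℝ) + Real.log (H X)) / Real.sqrt (Real.log X)) ≤
        d / 4 * (X / Real.log X) := by
      calc C * (X / Real.log X) * ((1 + (J X : ℝ) + Real.log (H X)) / Real.sqrt (Real.log X))
          ≤ C * (X / Real.log X) * (d / (4 * C)) := mul_le_mul_of_nonneg_left hX3.le (by positivity)
        _ = d / 4 * (X / Real.log X) := by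
            field_simp
    have h5 : 0 < d * (X / Real.log X) := by positivity
    linarith

/-- **Criterion**, without hypothesis. -/
theorem densPL_iff {σ : ℤ} (hσ : |σ| = 1) {A : Set ℤ} (hA : ∀ n, T n ∈ A ↔ n ∈ A) :
    (∀ n ∈ A, ¬ 0 < σ * n) ↔ DensePL σ Aᶜ :=
  densPL_iff_of (shareD_of Pool.Agent.ZOL.all_Block) hσ hA

end Pool.Agent.MB86
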